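import Pool.Agent.H55.GEN.Glu

/-!
# From the exact time to the ball of times

`rb`: finitely many polynomials of the line and of the cell, small on line-side boxes at the exact
time, are small on these boxes at all times of the cell. `rb_cell`: the same in a cell with uniform
time. `lab_ext`: a new label from an agreement at the exact time.
-/

set_option autoImplicit false

namespace Pool.STAT.Glu

open Finset MvPolynomial
open Pool.Agent.H49.Ent Pool.Agent.H32.Dense Pool.STK Pool.KA Pool.K2S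
open Pool.BFL (Pb)
open Pool.STAT.CLO

/-- **Remez in the time on boxes**, finitely many polynomials. -/
theorem rb (n K : ℕ) (ι : Type) [Fintype ι] (η : ℝ) (hn : 1 ≤ n) (hη : 0 < η) :
    ∃ C : ℝ, 1 ≤ C ∧
    ∀ (J w z : ℕ) (Ω L : Type) [Fintype Ω] (q : Ω → ℝ) (T : Ω → ℕ) (lam : Ω → L)
    (A : Ω → Prop) (E : ℝ) (g : ι → ℕ → ℕ) (S : ι → Ω → ℕ → PN) (F : ι → Ω → PN) (m : ι → ℕ)
    (τ : ι → ℝ), IsLaw q → (∀ ω, T ω < 2 ^ J) →
    w + z ≤ J → Det q lam (fun ω => T ω / 2 ^ (J - w)) → η ≤ Pb q A → 1 ≤ E →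
    ((J : ℝ) - w) * Real.log 2 - E ≤ CH q T lam → C * E ≤ z → (∀ a, Det q lam (S a)) →
    (∀ a, Det q lam (F a)) → (∀ a ω, 0 < q ω → Tr K (S a ω)) →
    (∀ a ω, 0 < q ω → (F a ω).totalDegree ≤ K) →
    (∀ a ω, 0 < q ω → (F a ω).vars ⊆ range (m a)) → (∀ a, m a ≤ n) → (∀ a, 0 < τ a) →
    (∀ a ω, 0 < q ω → A ω → ∀ b, Bt 1 (Et ((T ω : ℝ) / 2 ^ J)) (g a) (S a ω) (m a) b →
      |eval b (F a ω)| ≤ τ a) →
    ∃ B : Ω → Prop, (∀ ω, B ω → 0 < q ω ∧ A ω) ∧ Pb q A - η / 2 ≤ Pb q B ∧ ∀ ω, B ω →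
      ∀ t : ℝ, |t - (T ω : ℝ) / 2 ^ J| ≤ 1 / 2 ^ w → ∀ a, ∀ b, Bt 1 (Et t) (g a) (S a ω) (m a) b →
        |eval b (F a ω)| ≤ 2 ^ (3 * z) * τ a := by
  classical
  obtain ⟨D, hD⟩ : ∃ D, D = K * (K + 1) ^ (n + 1) := ⟨_, rfl⟩
  obtain ⟨Cg, hCg, hg⟩ := grid_bound n D
  obtain ⟨C, hC, h⟩ := rmz_det D (ι × (Fin n → Fin (D + 1))) η hη
  refine ⟨C + Cg, by linarith, ?_⟩
  intro J w z Ω L _ q T lam A E g S F m τ hq hT hwz hlam hA hE hCH hCE dS dF tS kF vF hm hτ hex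
  have hCz : C * E ≤ z ∧ Cg ≤ z := by
    have e1 : (C + Cg) * E = C * E + Cg * E := by ring
    have e2 : Cg ≤ Cg * E := by nlinarith
    have e3 : 0 ≤ C * E := by nlinarith
    rw [e1] at hCE
    constructor <;> linarith
  have hz2 : (z : ℝ) ≤ 2 ^ z := by exact_mod_cast Nat.lt_two_pow_self.le
  have hnat : ∀ a ω, 0 < q ω → (bind₁ (nuc (g a) (S a ω)) (F a ω)).vars ⊆ range (m a) ∧
      (bind₁ (nuc (g a) (S a ω)) (F a ω)).totalDegree ≤ D := by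
    intro a ω hω
    rw [hD]
    exact nat_deg (tS a ω hω).tri (tS a ω hω).deg (g a) (hm a) (vF a ω hω) (kF a ω hω)
  obtain ⟨B, hB1, hB2, hB3⟩ := h J w z Ω L q T lam A E
    (fun x ω => Polynomial.C (1 / τ x.1) *
      gq (g x.1) (S x.1 ω) (bind₁ (nuc (g x.1) (S x.1 ω)) (F x.1 ω)) x.2) hq hT hwz hlam
    (by rw [← Pb_eq_Pe]; exact hA) hE hCH hCz.1 (by
      intro x ω ω' h1 h2 e
      have e1 := dS x.1 ω ω' h1 h2 e
      have e2 := dF x.1 ω ω' h1 h2 e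
      beta_reduce
      rw [e1, e2]) (by
      intro x ω hω
      refine (Polynomial.natDegree_C_mul_le _ _).trans ?_
      exact gq_deg _ _ x.2 (hnat x.1 ω hω).2) (by
      intro x ω hω hAω
      rw [C_mul_le (one_div_pos.2 (hτ x.1)), one_div_one_div, one_mul]
      obtain ⟨b, hb1, hb2⟩ := gq_pt hn (g := g x.1) (tS x.1 ω hω).tri ((T ω : ℝ) / 2 ^ J) x.2
      rw [gq_eval hn, ← hb2, ← eval_nat (tS x.1 ω hω).tri]
      exact hex x.1 ω hω hAω b (hb1.mono le_rfl (fun _ h => h) (hm x.1)))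
  refine ⟨B, hB1, ?_, ?_⟩
  · rw [Pb_eq_Pe, Pb_eq_Pe]
    exact hB2
  · intro ω hω t ht a b hb
    have hω0 := (hB1 ω hω).1
    have h1 : ∀ x : Fin n → Fin (D + 1),
        |(gq (g a) (S a ω) (bind₁ (nuc (g a) (S a ω)) (F a ω)) x).eval t| ≤
          2 ^ (2 * z) * τ a := by
      intro x
      have h2 := hB3 ω hω t ht (a, x)
      rw [C_mul_le (one_div_pos.2 (hτ a)), one_div_one_div] at h2
      exact h2
    have h3 := gq_box hg hn (tS a ω hω0).tri (hm a) (hnat a ω hω0).1 (hnat a ω hω0).2 h1 hb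
    rw [← eval_nat (tS a ω hω0).tri] at h3
    refine h3.trans ?_
    have e : (2 : ℝ) ^ (3 * z) = 2 ^ z * 2 ^ (2 * z) := by
      rw [← pow_add]
      congr 1
      ring
    rw [e, ← mul_assoc]
    refine mul_le_mul_of_nonneg_right (mul_le_mul_of_nonneg_right (hCz.2.trans hz2)
      (by positivity)) (hτ a).le

/-- **Remez in the time on boxes**, in a cell. -/
theorem rb_cell (n K : ℕ) (ι : Type) [Fintype ι] (η : ℝ) (hn : 1 ≤ n) (hη : 0 < η) :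
    ∃ (κ₀ : ℝ) (z₀ : ℕ), 0 < κ₀ ∧
    ∀ (n' K' J a₀ w₀ z M i₂ : ℕ) (lam gam : ℕ → ℝ) (κ κ' C₁ : ℝ) (D : NDat2) (q : D.Ω → ℝ)
    (A : D.Ω → Prop) (g : ι → ℕ → ℕ) (S : ι → D.Ω → ℕ → PN) (F : ι → D.Ω → PN) (m : ι → ℕ)
    (τ : ι → ℝ), z₀ ≤ z → κ' ≤ κ₀ → i₂ ≤ M → D.Ok2 n' K' J a₀ w₀ z M lam gam κ C₁ q →
    D.TmU J w₀ z κ' q → η ≤ Pb q A → (∀ a, Det q (D.wn J (a₀ + i₂ * z)) (S a)) →
    (∀ a, Det q (D.wn J (a₀ + i₂ * z)) (F a)) → (∀ a ω, 0 < q ω → Tr K (S a ω)) →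
    (∀ a ω, 0 < q ω → (F a ω).totalDegree ≤ K) →
    (∀ a ω, 0 < q ω → (F a ω).vars ⊆ range (m a)) → (∀ a, m a ≤ n) → (∀ a, 0 < τ a) →
    (∀ a ω, 0 < q ω → A ω → ∀ b, Bt 1 (Et (D.X ω 0)) (g a) (S a ω) (m a) b →
      |eval b (F a ω)| ≤ τ a) →
    ∃ B : D.Ω → Prop, (∀ ω, B ω → 0 < q ω ∧ A ω) ∧ Pb q A - η / 2 ≤ Pb q B ∧ ∀ ω, B ω →
      ∀ t : ℝ, |t - D.X ω 0| ≤ 1 / 2 ^ (a₀ + i₂ * z) → ∀ a, ∀ b,
        Bt 1 (Et t) (g a) (S a ω) (m a) b → |eval b (F a ω)| ≤ 2 ^ (3 * z) * τ a := by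
  obtain ⟨C, hC, h⟩ := rb n K ι η hn hη
  obtain ⟨z₀, hz₀⟩ := exists_nat_ge (2 * C)
  refine ⟨1 / (2 * C), z₀, by positivity, ?_⟩
  intro n' K' J a₀ w₀ z M i₂ lam gam κ κ' C₁ D q A g S F m τ hz hκ hi₂ hO hT hA dS dF tS kF vF hm
    hτ hex
  have hzz : (z₀ : ℝ) ≤ z := by exact_mod_cast hz
  have hz0 : (0 : ℝ) ≤ z := Nat.cast_nonneg z
  have hthin := hO.thin
  have htop := hO.top
  have hM1 : i₂ * z + z ≤ (M + 1) * z := by
    have := Nat.mul_le_mul_right z hi₂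
    rw [Nat.add_mul, Nat.one_mul]
    omega
  have hκz : κ' * z ≤ 1 / (2 * C) * z := mul_le_mul_of_nonneg_right hκ hz0
  have htc := time_cell (r := a₀ + i₂ * z) hO.isLaw (by omega) (by omega) hO.ln_w
    (S := κ' * z) hT
  have e1 : D.wn J (a₀ + i₂ * z) = fun ω => (D.ln ω, D.T ω / 2 ^ (J - (a₀ + i₂ * z))) := rfl
  obtain ⟨B, hB1, hB2, hB3⟩ := h J (a₀ + i₂ * z) z D.Ω (D.Λ × ℕ) q D.T (D.wn J (a₀ + i₂ * z)) A
    (1 / (2 * C) * z + 1) g S F m τ hO.isLaw hO.T_lt (by omega)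
    (fun ω ω' _ _ e => (Prod.ext_iff.1 e).2) hA (by
      have : 0 ≤ 1 / (2 * C) * (z : ℝ) := by positivity
      linarith) (by
      rw [e1]
      linarith) (by
      have e1 : C * (1 / (2 * C) * z + 1) = z / 2 + C := by
        field_simp
      rw [e1]
      linarith) dS dF tS kF vF hm hτ (by
      intro a ω hω hAω b hb
      rw [← hO.X_zero] at hb
      exact hex a ω hω hAω b hb)
  refine ⟨B, hB1, hB2, fun ω hω t ht a b hb => hB3 ω hω t ?_ a b hb⟩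
  rw [← hO.X_zero]
  exact ht

/-- **A new label from an agreement at the exact time.** `Gv` is visible, `Gl` is its line side,
`Hl` is a function of the line and of the window. -/
theorem lab_ext (n K K' B : ℕ) (c₁ : ℝ) (hn : 1 ≤ n) (hc₁ : 0 < c₁) (hK : K ≤ K') :
    ∃ (CG : ℕ) (κ₀ : ℝ) (z₀ : ℕ), 0 < κ₀ ∧
    ∀ (A J a₀ w₀ z M i₂ j₂ gg : ℕ) (lam gam : ℕ → ℝ) (κ κ' C₁ : ℝ) (D : NDat2)
      (q : D.Ω → ℝ) (Gv Gl Hl : D.Ω → PN), z₀ ≤ z → κ' ≤ κ₀ → i₂ ≤ M → j₂ ≤ M →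
      D.Ok2 n K J a₀ w₀ z M lam gam κ C₁ q → D.TmU J w₀ z κ' q →
      Det q D.pt Gv → Det q (D.wn J (a₀ + i₂ * z)) Gl → Det q (D.wn J (w₀ + j₂ * z)) Hl →
      (∀ ω, 0 < q ω → (Gv ω).totalDegree ≤ K' ∧ (Gv ω).vars ⊆ range n) →
      (∀ ω, 0 < q ω → (Gl ω).totalDegree ≤ K' ∧ (Gl ω).vars ⊆ range n) →
      (∀ ω, 0 < q ω → (Hl ω).totalDegree ≤ K' ∧ (Hl ω).vars ⊆ range n) →
      D.g i₂ j₂ n + (A + CG) * z ≤ gg →
      c₁ ≤ Pb q (fun ω => |D.X ω n - eval (D.X ω) (Gv ω)| ≤ 2 ^ (B * z) / 2 ^ gg ∧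
        (∀ b, D.NB i₂ j₂ (a₀ + i₂ * z) n ω b →
          |eval b (Gv ω) - eval b (Gl ω)| ≤ 2 ^ (B * z) / 2 ^ gg) ∧
        ∀ b, Bt 1 (Et (D.X ω 0)) (D.g i₂ j₂) (D.Ψ i₂ j₂ ω) n b →
          |eval b (Gl ω) - eval b (Hl ω)| ≤ 2 ^ (B * z) / 2 ^ gg) →
      D.NewLab2 J a₀ w₀ z i₂ j₂ n A K' (c₁ / 2) q := by
  classical
  obtain ⟨C, hC, hd⟩ := dilB n K
  obtain ⟨C', hC', hd'⟩ := dilB n K'
  obtain ⟨κ₀, z₀, hκ₀, hrb⟩ := rb_cell n K' Unit c₁ hn hc₁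
  obtain ⟨z₁, hz₁⟩ := exists_nat_ge (2 * C + 2 * C' + 8)
  obtain ⟨E, hE⟩ : ∃ E, E = K' * (K' + 1) ^ (n + 1) := ⟨_, rfl⟩
  obtain ⟨x₁, hx₁⟩ : ∃ x₁, x₁ = upr (K * (K + 1) ^ (n + 1)) n 0 := ⟨_, rfl⟩
  obtain ⟨y₁, hy₁⟩ : ∃ y₁, y₁ = E * x₁ + 1 := ⟨_, rfl⟩
  obtain ⟨y₂, hy₂⟩ : ∃ y₂, y₂ = E * 2 + 1 := ⟨_, rfl⟩
  refine ⟨B + y₁ + y₂ + 4, κ₀, max z₀ z₁, hκ₀, ?_⟩
  intro A J a₀ w₀ z M i₂ j₂ gg lam gam κ κ' C₁ D q Gv Gl Hl hz hκ hi₂ hj₂ hO hT dGv dGl dHl kGv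
    kGl kHl hgg hP
  have hzz : (z₁ : ℝ) ≤ z := by exact_mod_cast (le_max_right _ _).trans hz
  have hzp : (z : ℝ) ≤ 2 ^ z := by exact_mod_cast Nat.lt_two_pow_self.le
  have hCz : 2 * C ≤ 2 ^ z := by linarith
  have hC'z : 2 * C' ≤ 2 ^ z := by linarith
  have h8z : (8 : ℝ) ≤ 2 ^ z := by linarith
  have hq := hO.isLaw
  have hthin := hO.thin
  have htop := hO.top
  have hM1 : i₂ * z + z ≤ (M + 1) * z := by
    have := Nat.mul_le_mul_right z hi₂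
    rw [Nat.add_mul, Nat.one_mul]
    omega
  have hM2 : j₂ * z ≤ M * z := Nat.mul_le_mul_right z hj₂
  have hMM : (M + 1) * z = M * z + z := by ring
  have tr : ∀ i j ω, Tr K (D.Ψ i j ω) := fun i j ω => ⟨hO.G_tri _ _ _, hO.G_deg _ _ _⟩
  have tr' : ∀ i j ω, Tr K (D.Φ i j ω) := fun i j ω => ⟨hO.P_tri _ _ _, hO.P_deg _ _ _⟩
  have trK : ∀ {S : ℕ → PN}, Tr K S → Tr K' S := fun h => ⟨h.tri, fun l => (h.deg l).trans hK⟩
  obtain ⟨Bv, hB1, hB2, hB3⟩ := hrb n K J a₀ w₀ z M i₂ lam gam κ κ' C₁ D q _ (fun _ => D.g i₂ j₂)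
    (fun _ => D.Φ i₂ j₂) (fun _ ω => Gl ω - Hl ω) (fun _ => n)
    (fun _ => 2 ^ (y₁ * z) * (2 ^ (B * z) / 2 ^ gg)) ((le_max_left _ _).trans hz) hκ hi₂ hO hT hP
    (by
      intro _ ω ω' h1 h2 e
      have e1 := hO.c_wn i₂ hi₂ j₂ hj₂ ω ω' h1 h2 (wn_det (by omega) (by omega) ω ω' h1 h2 e)
      unfold NDat2.Φ
      rw [e1]) (by
      intro _ ω ω' h1 h2 e
      have e1 := dGl ω ω' h1 h2 e
      have e2 := dHl ω ω' h1 h2 (wn_det (by omega) (by omega) ω ω' h1 h2 e)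
      beta_reduce
      rw [e1, e2]) (fun _ ω _ => trK (tr' _ _ ω))
    (fun _ ω hω => (totalDegree_sub _ _).trans (max_le (kGl ω hω).1 (kHl ω hω).1))
    (fun _ ω hω => (vars_sub_subset _).trans (Finset.union_subset (kGl ω hω).2 (kHl ω hω).2))
    (fun _ => le_rfl) (fun _ => by positivity) (by
      intro _ ω hω hev b hb
      have z0 : |D.X ω 0 - D.X ω 0| = 0 := by rw [sub_self, abs_zero]
      have n1 := nr_agr hO hi₂ hj₂ hω (τ := D.X ω 0) (by rw [z0]; positivity)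
      have m1 : ∀ l', 1 ≤ l' → l' < n → ∀ b, Bt 1 (Et (D.X ω 0)) (D.g i₂ j₂) (D.Ψ i₂ j₂ ω) l' b →
          |eval b (D.Ψ i₂ j₂ ω l') - eval b (D.Φ i₂ j₂ ω l')| ≤ 1 / 2 ^ D.g i₂ j₂ l' := by
        intro l' h1 h2 b hb
        have := n1 l' h1 (by omega) b hb
        rwa [abs_sub_comm, Nat.zero_mul, pow_zero] at this
      have b1 := incl' (x := 0) hC hd hCz (tr _ _ ω).tri (tr' _ _ ω).tri (tr _ _ ω).deg
        (tr' _ _ ω).deg m1 (m := n) le_rfl (by rw [Nat.zero_mul, pow_zero]; exact hb) n le_rfl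
      rw [← hx₁] at b1
      rw [map_sub]
      exact dil_sub hd' hC'z (trK (tr i₂ j₂ ω)).tri (trK (tr i₂ j₂ ω)).deg le_rfl (kGl ω hω).2
        (kHl ω hω).2 (kGl ω hω).1 (kHl ω hω).1 (by positivity) (by rw [hy₁, hE]) hev.2.2 b1)
  obtain ⟨Gn, hG1, hG2⟩ := detF (0 : PN) dGv
  obtain ⟨Hn, hH1, hH2⟩ := detF (0 : PN) dHl
  refine ⟨Gn, Hn, fun x => ?_, fun x => ?_, ?_⟩
  · rcases hG2 x with ⟨ω, h1, h2⟩ | h2
    · rw [h2]
      exact kGv ω h1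
    · rw [h2, totalDegree_zero, vars_0]
      exact ⟨Nat.zero_le _, Finset.empty_subset _⟩
  · rcases hH2 x with ⟨ω, h1, h2⟩ | h2
    · rw [h2]
      exact kHl ω h1
    · rw [h2, totalDegree_zero, vars_0]
      exact ⟨Nat.zero_le _, Finset.empty_subset _⟩
  · refine le_trans (by linarith : c₁ / 2 ≤ Pb q Bv) ?_
    have hmono : ∀ A' : D.Ω → Prop, (∀ ω, Bv ω → A' ω) → Pb q Bv ≤ Pb q A' := by
      intro A' hA'
      unfold Pool.BFL.Pb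
      refine Finset.sum_le_sum fun ω _ => ?_
      by_cases h1 : Bv ω
      · rw [if_pos h1, if_pos (hA' ω h1)]
      · rw [if_neg h1]
        split_ifs
        · exact hq.nonneg ω
        · exact le_rfl
    refine hmono _ fun ω hω => ?_
    obtain ⟨hω0, hev⟩ := hB1 ω hω
    obtain ⟨G, hG⟩ : ∃ G, G = D.g i₂ j₂ n + A * z := ⟨_, rfl⟩
    have hG2 : G + (B + y₁ + y₂ + 4) * z ≤ gg := by
      have : (A + (B + y₁ + y₂ + 4)) * z = A * z + (B + y₁ + y₂ + 4) * z := by ring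
      omega
    -- the arithmetic
    have key : ∀ y : ℕ, y ≤ y₁ + y₂ + 3 → 2 ^ (y * z) * ((2 : ℝ) ^ (B * z) / 2 ^ gg) * 2 ≤
        1 / 2 ^ G := by
      intro y hy
      have e1 : (2 : ℝ) ^ (G + (B + y₁ + y₂ + 4) * z) ≤ 2 ^ gg :=
        pow_le_pow_right₀ (by norm_num) hG2
      have e2 : (2 : ℝ) ^ (G + (B + y₁ + y₂ + 4) * z) = 2 ^ G * (2 ^ (B * z) *
          2 ^ ((y₁ + y₂ + 3) * z) * 2 ^ z) := by
        rw [← pow_add, ← pow_add, ← pow_add]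
        congr 1
        ring
      have e3 : (2 : ℝ) ^ (y * z) ≤ 2 ^ ((y₁ + y₂ + 3) * z) :=
        pow_le_pow_right₀ (by norm_num) (Nat.mul_le_mul_right _ hy)
      rw [← mul_div_assoc, div_mul_eq_mul_div, div_le_div_iff₀ (by positivity) (by positivity),
        one_mul]
      refine le_trans ?_ e1
      rw [e2]
      have e4 : (2 : ℝ) ^ (y * z) * 2 ≤ 2 ^ ((y₁ + y₂ + 3) * z) * 2 ^ z :=
        mul_le_mul e3 (by linarith) (by norm_num) (by positivity)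
      calc (2 : ℝ) ^ (y * z) * 2 ^ (B * z) * 2 * 2 ^ G =
            2 ^ G * (2 ^ (B * z) * (2 ^ (y * z) * 2)) := by ring
        _ ≤ 2 ^ G * (2 ^ (B * z) * (2 ^ ((y₁ + y₂ + 3) * z) * 2 ^ z)) := by
            refine mul_le_mul_of_nonneg_left (mul_le_mul_of_nonneg_left e4 (by positivity))
              (by positivity)
        _ = _ := by ring
    rw [← hG]
    constructor
    · rw [hG1 ω hω0]
      refine hev.1.trans ?_
      have h1 := key 0 (Nat.zero_le _)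
      rw [Nat.zero_mul, pow_zero, one_mul] at h1
      have h2 : (0 : ℝ) ≤ 2 ^ (B * z) / 2 ^ gg := by positivity
      linarith
    · intro b hb
      have hτ : |b 0 - D.X ω 0| ≤ 1 / 2 ^ (a₀ + i₂ * z) := hb.1
      rw [hG1 ω hω0, hH1 ω hω0]
      have n1 := nr_agr hO hi₂ hj₂ hω0 (τ := b 0) hτ
      have b1 : Bt 1 (Et (b 0)) (D.g i₂ j₂) (D.Ψ i₂ j₂ ω) n b := ⟨rfl, hb.2⟩
      have b2 : Bt (2 ^ (2 * z)) (Et (b 0)) (D.g i₂ j₂) (D.Φ i₂ j₂ ω) n b := by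
        have h1 := incl (x := 0) hC hd hCz (tr _ _ ω).tri (tr' _ _ ω).tri (tr _ _ ω).deg
          (tr' _ _ ω).deg (fun l _ _ => Nat.le_add_right _ _)
          (n1.mono le_rfl (fun _ h => h) (Nat.le_succ n)) (m := n) le_rfl
          (by rw [Nat.zero_mul, pow_zero]; exact b1)
        refine h1.mono (pow_le_pow_right₀ (by norm_num) (Nat.mul_le_mul_right _ (by omega)))
          (fun _ h => h) le_rfl
      have h2 := dil_sub (P := Et (b 0)) (x := 2) (y := y₂) hd' hC'z (trK (tr' i₂ j₂ ω)).tri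
        (trK (tr' i₂ j₂ ω)).deg le_rfl (kGl ω hω0).2 (kHl ω hω0).2 (kGl ω hω0).1 (kHl ω hω0).1
        (τ := 2 ^ (3 * z) * (2 ^ (y₁ * z) * (2 ^ (B * z) / 2 ^ gg))) (by positivity)
        (by rw [hy₂, hE]) (by
          intro b' hb'
          have := hB3 ω hω (b 0) hτ () b' hb'
          rw [map_sub] at this
          exact this) b2
      have h3 := hev.2.1 b hb
      have e1 : eval b (Gv ω) - eval b (Hl ω) = (eval b (Gv ω) - eval b (Gl ω)) +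
          (eval b (Gl ω) - eval b (Hl ω)) := by ring
      rw [e1]
      refine (abs_add_le _ _).trans ((add_le_add h3 h2).trans ?_)
      have h4 := key 0 (Nat.zero_le _)
      have h5 := key (y₁ + y₂ + 3) le_rfl
      rw [Nat.zero_mul, pow_zero, one_mul] at h4
      have e2 : (2 : ℝ) ^ (y₂ * z) * (2 ^ (3 * z) * (2 ^ (y₁ * z) * (2 ^ (B * z) / 2 ^ gg))) =
          2 ^ ((y₁ + y₂ + 3) * z) * (2 ^ (B * z) / 2 ^ gg) := by
        rw [← mul_assoc, ← mul_assoc, ← pow_add, ← pow_add]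
        congr 2
        ring
      rw [e2]
      linarith

end Pool.STAT.Glu
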