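import Pool.Agent.H87.SLO.Tup

/-!
# Tuples of samples of one line: conditioning on an event, images

`tup_cond`, `tup_cond_ge`, `dbl_cond`: the law of tuples for a law conditioned on an event.
`tup_map`, `dbl_map`: the image of the tuples under a map of the samples which transports the
conditional laws of the lines.
-/

set_option autoImplicit false

namespace Pool.SLO

open Finset Real
open Pool.Agent.H49.Ent Pool.Agent.H32.Dense Pool.STK Pool.KAF Pool.KVA

variable {Ω Λ Ω' Λ' : Type} [Fintype Ω] [Fintype Ω'] {p : Ω → ℝ} {p' : Ω' → ℝ}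

/-! ### Conditioning on an event -/

open Classical in
theorem condG_eq (p : Ω → ℝ) (G : Set Ω) (ω : Ω) :
    cond p (fun w => w ∈ G) True ω = if ω ∈ G then p ω / Pr p G else 0 := by
  have h1 : law p (fun w => w ∈ G) True = Pr p G := by
    rw [Pr_eq]
    unfold law
    refine Finset.sum_congr rfl fun w _ => ?_
    by_cases h : w ∈ G
    · rw [if_pos h, if_pos (eq_true h)]
    · rw [if_neg h, if_neg fun h2 => h (of_eq_true h2)]
  unfold Pool.Agent.H49.Ent.cond
  by_cases h : ω ∈ G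
  · rw [if_pos h, if_pos (eq_true h), h1]
  · rw [if_neg h, if_neg fun h2 => h (of_eq_true h2)]

theorem condG_law (hp : ∀ ω, 0 ≤ p ω) {G : Set Ω} (hG : 0 < Pr p G) :
    IsLaw (cond p (fun w => w ∈ G) True) := by
  classical
  refine ⟨fun ω => cond_nonneg hp _ _ ω, ?_⟩
  simp only [condG_eq]
  have h1 : ∀ ω ∈ (Finset.univ : Finset Ω), (if ω ∈ G then p ω / Pr p G else 0) =
      (if ω ∈ G then p ω else 0) / Pr p G := fun ω _ => by
    split_ifs <;> simp
  rw [Finset.sum_congr rfl h1, ← Finset.sum_div, ← Pr_eq, div_self hG.ne']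

open Classical in
/-- The mass of a line after conditioning. -/
theorem law_condG (p : Ω → ℝ) (L : Ω → Λ) (G : Set Ω) (z : Λ) :
    law (cond p (fun w => w ∈ G) True) L z =
      (∑ ω, if L ω = z ∧ ω ∈ G then p ω else 0) / Pr p G := by
  unfold law
  rw [Finset.sum_div]
  refine Finset.sum_congr rfl fun ω _ => ?_
  rw [condG_eq]
  by_cases h1 : L ω = z
  · by_cases h2 : ω ∈ G
    · rw [if_pos h1, if_pos h2, if_pos ⟨h1, h2⟩]
    · rw [if_pos h1, if_neg h2, if_neg fun h => h2 h.2, zero_div]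
  · rw [if_neg h1, if_neg fun h => h1 h.1, zero_div]

theorem pr_le_one (hp : IsLaw p) (G : Set Ω) : Pr p G ≤ 1 := by
  classical
  rw [Pr_eq, ← hp.sum_one]
  refine Finset.sum_le_sum fun ω _ => ?_
  split_ifs
  · exact le_rfl
  · exact hp.nonneg ω

theorem pr_le_add {W : Type} [Fintype W] {q : W → ℝ} (hq : ∀ w, 0 ≤ q w) {A B C : Set W}
    (h : ∀ w, 0 < q w → w ∈ A → w ∈ B ∨ w ∈ C) : Pr q A ≤ Pr q B + Pr q C := by
  classical
  rw [Pr_eq, Pr_eq, Pr_eq, ← Finset.sum_add_distrib]
  refine Finset.sum_le_sum fun w _ => ?_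
  rcases (hq w).eq_or_lt with h0 | h0
  · rw [← h0]
    simp
  by_cases hA : w ∈ A
  · rw [if_pos hA]
    rcases h w h0 hA with h1 | h1
    · rw [if_pos h1]
      have : (0 : ℝ) ≤ if w ∈ C then q w else 0 := by
        split_ifs
        · exact hq w
        · exact le_rfl
      linarith
    · rw [if_pos h1]
      have : (0 : ℝ) ≤ if w ∈ B then q w else 0 := by
        split_ifs
        · exact hq w
        · exact le_rfl
      linarith
  · rw [if_neg hA]
    have h2 : (0 : ℝ) ≤ if w ∈ B then q w else 0 := by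
      split_ifs
      · exact hq w
      · exact le_rfl
    have h3 : (0 : ℝ) ≤ if w ∈ C then q w else 0 := by
      split_ifs
      · exact hq w
      · exact le_rfl
    linarith

/-- Probability of the complement. -/
theorem pr_compl_law (hp : IsLaw p) (G : Set Ω) : Pr p Gᶜ = 1 - Pr p G := by
  classical
  rw [Pr_eq, Pr_eq, ← hp.sum_one, ← Finset.sum_sub_distrib]
  refine Finset.sum_congr rfl fun ω _ => ?_
  by_cases h : ω ∈ G
  · rw [if_neg (fun h2 : ω ∈ Gᶜ => h2 h), if_pos h, sub_self]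
  · rw [if_pos (show ω ∈ Gᶜ from h), if_neg h, sub_zero]

/-- Probability of a sum of events of coordinates. -/
theorem tup_pr_exists (hp : ∀ ω, 0 ≤ p ω) (L : Ω → Λ) (N : ℕ) (B : Set Ω) :
    Pr (tup p L N) {v | ∃ j, v j ∈ B} ≤ (N + 1) * Pr p B := by
  classical
  have h1 : ∀ j, Pr (tup p L N) {v | v j ∈ B} = Pr p B := by
    intro j
    have h2 := (tup_marg hp L N j).ex (fun ω => if ω ∈ B then 1 else 0)
    unfold Ex at h2
    rw [Pr_eq, Pr_eq]
    simp only [Set.mem_ofPred_eq]
    simpa using h2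
  have h3 : Pr (tup p L N) {v | ∃ j, v j ∈ B} ≤ ∑ j : Fin (N + 1), Pr (tup p L N) {v | v j ∈ B} := by
    simp only [Pr_eq]
    rw [Finset.sum_comm]
    refine Finset.sum_le_sum fun v _ => ?_
    have h0 := tup_nonneg hp L N v
    by_cases h : ∃ j, v j ∈ B
    · rw [if_pos (show v ∈ {v : Fin (N + 1) → Ω | ∃ j, v j ∈ B} from h)]
      obtain ⟨j, hj⟩ := h
      refine le_trans (le_of_eq ?_) (Finset.single_le_sum (f := fun j =>
        if v ∈ {v : Fin (N + 1) → Ω | v j ∈ B} then tup p L N v else 0) ?_ (Finset.mem_univ j))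
      · exact (if_pos (show v ∈ {v : Fin (N + 1) → Ω | v j ∈ B} from hj)).symm
      · intro i _
        show (0 : ℝ) ≤ if _ then _ else _
        split_ifs
        · exact h0
        · exact le_rfl
    · rw [if_neg (show v ∉ {v : Fin (N + 1) → Ω | ∃ j, v j ∈ B} from h)]
      refine Finset.sum_nonneg fun i _ => ?_
      split_ifs
      · exact h0
      · exact le_rfl
  refine h3.trans (le_of_eq ?_)
  rw [Finset.sum_congr rfl fun j _ => h1 j, Finset.sum_const, Finset.card_univ, Fintype.card_fin,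
    nsmul_eq_mul]
  push_cast
  ring

/-- The mass of `G` on a line. -/
theorem lineG_pos (hp : ∀ ω, 0 ≤ p ω) (L : Ω → Λ) {G : Set Ω} {ω : Ω} (h : 0 < p ω)
    (hG : ω ∈ G) : 0 < Pr (cond p L (L ω)) G := by
  classical
  rw [Pr_eq]
  refine Finset.sum_pos' (fun v _ => ?_) ⟨ω, Finset.mem_univ _, ?_⟩
  · split_ifs
    · exact cond_nonneg hp L _ _
    · exact le_rfl
  · rw [if_pos hG]
    exact (cond_pos_iff hp L _ _).2 ⟨h, rfl⟩

/-- The mass of a line after conditioning, in terms of the mass of the event on the line. -/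
theorem law_condG' (hp : ∀ ω, 0 ≤ p ω) (L : Ω → Λ) (G : Set Ω) (z : Λ) :
    law (cond p (fun w => w ∈ G) True) L z = law p L z * Pr (cond p L z) G / Pr p G := by
  classical
  rw [law_condG]
  congr 1
  rw [Pr_eq, Finset.mul_sum]
  refine Finset.sum_congr rfl fun ω _ => ?_
  by_cases h2 : ω ∈ G
  · rw [if_pos h2]
    unfold Pool.Agent.H49.Ent.cond
    by_cases h1 : L ω = z
    · rw [if_pos ⟨h1, h2⟩, if_pos h1]
      rcases (hp ω).eq_or_lt with h0 | h0
      · rw [← h0]
        simp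
      · have h3 := law_pos hp L h0
        rw [h1] at h3
        field_simp
    · rw [if_neg fun h => h1 h.1, if_neg h1, mul_zero]
  · rw [if_neg fun h => h2 h.2, if_neg h2, mul_zero]

open Classical in
/-- Tuples of the conditioned law. -/
theorem tup_condG (hp : ∀ ω, 0 ≤ p ω) (L : Ω → Λ) {G : Set Ω} (hG : 0 < Pr p G) (N : ℕ)
    (v : Fin (N + 1) → Ω) :
    tup (cond p (fun w => w ∈ G) True) L N v =
      if ∀ j, v j ∈ G then tup p L N v / (Pr p G * Pr (cond p L (L (v 0))) G ^ N) else 0 := by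
  rw [tup_eq, tup_eq]
  by_cases h1 : ∀ j, v j ∈ G
  · rw [if_pos h1]
    by_cases h2 : ∀ j, L (v j) = L (v 0)
    · rw [if_pos h2, if_pos h2, law_condG' hp]
      have h3 : ∏ j, cond p (fun w => w ∈ G) True (v j) = (∏ j, p (v j)) / Pr p G ^ (N + 1) := by
        rw [Finset.prod_congr rfl fun j _ => by rw [condG_eq, if_pos (h1 j)],
          Finset.prod_div_distrib, Finset.prod_const, Finset.card_univ, Fintype.card_fin]
      rw [h3]
      rcases (hp (v 0)).eq_or_lt with h0 | h0
      · rw [Finset.prod_eq_zero (Finset.mem_univ 0) h0.symm]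
        simp
      · have h4 := law_pos hp L h0
        have h5 := lineG_pos hp L h0 (h1 0)
        rw [div_pow, mul_pow, pow_succ]
        field_simp
    · rw [if_neg h2, if_neg h2, zero_div]
  · rw [if_neg h1]
    push Not at h1
    obtain ⟨j, hj⟩ := h1
    split_ifs with h2
    · rw [Finset.prod_eq_zero (Finset.mem_univ j) (by rw [condG_eq, if_neg hj]), zero_div]
    · rfl

theorem prG_le_one (hp : ∀ ω, 0 ≤ p ω) (L : Ω → Λ) (G : Set Ω) {ω : Ω} (h : 0 < p ω) :
    Pr (cond p L (L ω)) G ≤ 1 :=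
  pr_le_one ⟨fun v => cond_nonneg hp L _ v, sum_cond p L (law_pos hp L h).ne'⟩ G

/-- **Tuples and conditioning, first direction.** -/
theorem tup_cond (hp : IsLaw p) (L : Ω → Λ) {G : Set Ω} (hG : 0 < Pr p G) (N : ℕ)
    (E : Set (Fin (N + 1) → Ω)) :
    Pr (tup p L N) E ≤ (N + 1) * (1 - Pr p G) +
      Pr (tup (cond p (fun w => w ∈ G) True) L N) E := by
  classical
  have h0 := tup_nonneg hp.nonneg L N
  have h1 : Pr (tup p L N) E ≤ Pr (tup p L N) {v | ∃ j, v j ∈ Gᶜ} +
      Pr (tup p L N) {v | v ∈ E ∧ ∀ j, v j ∈ G} := by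
    refine pr_le_add h0 fun v _ hv => ?_
    by_cases h : ∀ j, v j ∈ G
    · exact Or.inr ⟨hv, h⟩
    · push Not at h
      exact Or.inl h
  have h2 := tup_pr_exists hp.nonneg L N Gᶜ
  rw [pr_compl_law hp] at h2
  have h3 : Pr (tup p L N) {v | v ∈ E ∧ ∀ j, v j ∈ G} ≤
      Pr (tup (cond p (fun w => w ∈ G) True) L N) E := by
    rw [Pr_eq, Pr_eq]
    refine Finset.sum_le_sum fun v _ => ?_
    have h4 : 0 ≤ tup (cond p (fun w => w ∈ G) True) L N v :=
      tup_nonneg (fun ω => cond_nonneg hp.nonneg _ _ ω) L N v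
    by_cases h : v ∈ {v | v ∈ E ∧ ∀ j, v j ∈ G}
    · rw [if_pos h, if_pos h.1, tup_condG hp.nonneg L hG, if_pos h.2]
      rcases (h0 v).eq_or_lt with h5 | h5
      · rw [← h5, zero_div]
      · have h6 := ((tup_pos_iff hp.nonneg L N v).1 h5).1 0
        have h7 := lineG_pos hp.nonneg L h6 (h.2 0)
        have h8 := prG_le_one hp.nonneg L G h6
        have h9 := pr_le_one hp G
        rw [le_div_iff₀ (mul_pos hG (pow_pos h7 _))]
        have h10 : Pr p G * Pr (cond p L (L (v 0))) G ^ N ≤ 1 :=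
          mul_le_one₀ h9 (pow_nonneg h7.le _) (pow_le_one₀ h7.le h8)
        nlinarith
    · rw [if_neg h]
      split_ifs
      · exact h4
      · exact le_rfl
  linarith

/-- **Tuples and conditioning, second direction.** -/
theorem tup_cond_ge (hp : IsLaw p) (L : Ω → Λ) {G : Set Ω} (hG : 0 < Pr p G) {δ : ℝ}
    (hδ : 0 < δ) (N : ℕ) (E : Set (Fin (N + 1) → Ω)) :
    Pr (tup (cond p (fun w => w ∈ G) True) L N) E ≤ δ / Pr p G +
      Pr (tup p L N) E / (δ ^ N * Pr p G) := by
  classical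
  set q := cond p (fun w => w ∈ G) True with hq
  have hq0 : ∀ ω, 0 ≤ q ω := fun ω => cond_nonneg hp.nonneg _ _ ω
  have h0 := tup_nonneg hq0 L N
  have h1 : Pr (tup q L N) E ≤ Pr (tup q L N) {v | Pr (cond p L (L (v 0))) G < δ} +
      Pr (tup q L N) {v | v ∈ E ∧ δ ≤ Pr (cond p L (L (v 0))) G} := by
    refine pr_le_add h0 fun v _ hv => ?_
    by_cases h : Pr (cond p L (L (v 0))) G < δ
    · exact Or.inl h
    · exact Or.inr ⟨hv, not_lt.1 h⟩
  have h2 : Pr (tup q L N) {v | Pr (cond p L (L (v 0))) G < δ} ≤ δ / Pr p G := by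
    have h3 := (tup_marg hq0 L N 0).ex
      (fun ω => if Pr (cond p L (L ω)) G < δ then 1 else 0)
    have h4 : Pr (tup q L N) {v | Pr (cond p L (L (v 0))) G < δ} =
        Pr q {ω | Pr (cond p L (L ω)) G < δ} := by
      unfold Ex at h3
      rw [Pr_eq, Pr_eq]
      simp only [Set.mem_ofPred_eq]
      simpa using h3
    rw [h4]
    have h5 : Pr q {ω | Pr (cond p L (L ω)) G < δ} =
        ∑ z ∈ Finset.univ.image L, (if Pr (cond p L z) G < δ then law q L z else 0) := by
      have h6 := sum_mul_eq_sum_image q L (fun z => if Pr (cond p L z) G < δ then 1 else 0)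
      rw [Pr_eq]
      simp only [Set.mem_ofPred_eq]
      simpa using h6
    rw [h5]
    have h7 : ∀ z ∈ Finset.univ.image L, (if Pr (cond p L z) G < δ then law q L z else 0) ≤
        law p L z * δ / Pr p G := by
      intro z _
      have h8 := law_nonneg hp.nonneg L z
      split_ifs with h9
      · rw [hq, law_condG' hp.nonneg]
        refine div_le_div_of_nonneg_right ?_ hG.le
        exact mul_le_mul_of_nonneg_left h9.le h8
      · positivity
    refine (Finset.sum_le_sum h7).trans (le_of_eq ?_)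
    rw [← Finset.sum_div, ← Finset.sum_mul]
    have h10 := sum_law p L
    rw [h10, hp.sum_one, one_mul]
  have h3 : Pr (tup q L N) {v | v ∈ E ∧ δ ≤ Pr (cond p L (L (v 0))) G} ≤
      Pr (tup p L N) E / (δ ^ N * Pr p G) := by
    rw [Pr_eq, Pr_eq, Finset.sum_div]
    refine Finset.sum_le_sum fun v _ => ?_
    have h4 : 0 ≤ tup p L N v := tup_nonneg hp.nonneg L N v
    have h4' : 0 < δ ^ N * Pr p G := by positivity
    by_cases h : v ∈ {v | v ∈ E ∧ δ ≤ Pr (cond p L (L (v 0))) G}
    · rw [if_pos h, if_pos h.1, hq, tup_condG hp.nonneg L hG]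
      split_ifs with h5
      · refine div_le_div_of_nonneg_left h4 h4' ?_
        rw [mul_comm]
        refine mul_le_mul_of_nonneg_left ?_ hG.le
        exact pow_le_pow_left₀ hδ.le h.2 N
      · positivity
    · rw [if_neg h]
      refine div_nonneg ?_ h4'.le
      split_ifs
      · exact h4
      · exact le_rfl
  linarith

theorem pr_dbl_tup (hp : ∀ ω, 0 ≤ p ω) (L : Ω → Λ) (E : Set (Ω × Ω)) :
    Pr (dbl p L) E = Pr (tup p L 1) {v | (v 0, v 1) ∈ E} := by
  classical
  have h := (tup_two hp L (N := 1) 0 1 (by decide)).ex (fun w => if w ∈ E then 1 else 0)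
  unfold Ex at h
  rw [Pr_eq, Pr_eq]
  simp only [Set.mem_ofPred_eq]
  simpa using h.symm

/-- **Pairs and conditioning.** -/
theorem dbl_cond (hp : IsLaw p) (L : Ω → Λ) {G : Set Ω} (hG : 0 < Pr p G) {δ : ℝ}
    (hδ : 0 < δ) (E : Set (Ω × Ω)) :
    Pr (dbl (cond p (fun w => w ∈ G) True) L) E ≤ δ / Pr p G +
      Pr (dbl p L) E / (δ * Pr p G) := by
  rw [pr_dbl_tup (fun ω => cond_nonneg hp.nonneg _ _ ω), pr_dbl_tup hp.nonneg]
  have h := tup_cond_ge hp L hG hδ 1 {v | (v 0, v 1) ∈ E}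
  rwa [pow_one] at h

/-- **Pairs and conditioning, first direction.** -/
theorem dbl_cond_le (hp : IsLaw p) (L : Ω → Λ) {G : Set Ω} (hG : 0 < Pr p G)
    (E : Set (Ω × Ω)) :
    Pr (dbl p L) E ≤ 2 * (1 - Pr p G) + Pr (dbl (cond p (fun w => w ∈ G) True) L) E := by
  rw [pr_dbl_tup (fun ω => cond_nonneg hp.nonneg _ _ ω), pr_dbl_tup hp.nonneg]
  have h := tup_cond hp L hG 1 {v | (v 0, v 1) ∈ E}
  push_cast at h
  linarith

/-! ### Images -/

/-- The mixture over the samples. -/
theorem tup_mix' (hp : ∀ ω, 0 ≤ p ω) (L : Ω → Λ) (N : ℕ) (v : Fin (N + 1) → Ω) :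
    tup p L N v = ∑ ω, p ω * ∏ j, cond p L (L ω) (v j) := by
  classical
  rw [tup_mix hp L N v]
  exact (sum_mul_eq_sum_image p L fun z => ∏ j, cond p L z (v j)).symm

/-- A second projection through a common space. -/
theorem marg_desc {A B C : Type} [Fintype A] [Fintype B] [Fintype C] {q : A → ℝ} {r : B → ℝ}
    {s : C → ℝ} {a : A → B} {b : B → C} (h1 : Marg q r a) (h2 : Marg q s (fun w => b (a w))) :
    Marg r s b := by
  classical
  intro ω
  have h3 := h1.ex (fun w => if b w = ω then 1 else 0)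
  have h4 := h2 ω
  unfold Ex at h3
  rw [← h4]
  simpa using h3.symm

variable {L : Ω → Λ} {L' : Ω' → Λ'} {f : Ω' → Ω} {g : Λ' → Λ}

open Classical in
/-- **Images of tuples.** -/
theorem tup_map (hp : ∀ ω, 0 ≤ p ω) (hp' : ∀ ω, 0 ≤ p' ω) (hm : Marg p' p f)
    (hL : ∀ w, 0 < p' w → L (f w) = g (L' w))
    (hc : ∀ z', 0 < law p' L' z' → ∀ ω, ∑ w, (if f w = ω then cond p' L' z' w else 0) =
      cond p L (g z') ω) (N : ℕ) :
    Marg (tup p' L' N) (tup p L N) (fun v => fun j => f (v j)) := by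
  intro v
  rw [tup_mix' hp L N v]
  refine (Finset.sum_congr rfl fun v' _ => (?_ : _ =
    ∑ w, p' w * ∏ j, (if f (v' j) = v j then cond p' L' (L' w) (v' j) else 0))).trans ?_
  · by_cases h : (fun j => f (v' j)) = v
    · refine (if_pos h).trans ?_
      rw [tup_mix' hp' L' N v']
      refine Finset.sum_congr rfl fun w _ => ?_
      congr 1
      exact Finset.prod_congr rfl fun j _ => (if_pos (congrFun h j)).symm
    · refine (if_neg h).trans ?_
      symm
      refine Finset.sum_eq_zero fun w _ => ?_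
      obtain ⟨j, hj⟩ := Function.ne_iff.1 h
      rw [Finset.prod_eq_zero (Finset.mem_univ j) (if_neg hj), mul_zero]
  rw [Finset.sum_comm]
  have h2 : ∀ w, ∑ v' : Fin (N + 1) → Ω',
      p' w * ∏ j, (if f (v' j) = v j then cond p' L' (L' w) (v' j) else 0) =
      p' w * ∏ j, cond p L (L (f w)) (v j) := by
    intro w
    rw [← Finset.mul_sum, sum_pi_prod fun j x => if f x = v j then cond p' L' (L' w) x else 0]
    rcases (hp' w).eq_or_lt with h0 | h0
    · rw [← h0, zero_mul, zero_mul]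
    · congr 1
      refine Finset.prod_congr rfl fun j _ => ?_
      rw [hc _ (law_pos hp' L' h0), hL w h0]
  rw [Finset.sum_congr rfl fun w _ => h2 w]
  exact hm.ex (fun ω => ∏ j, cond p L (L ω) (v j))

open Classical in
/-- **Images of pairs.** -/
theorem dbl_map (hp : ∀ ω, 0 ≤ p ω) (hp' : ∀ ω, 0 ≤ p' ω) (hm : Marg p' p f)
    (hL : ∀ w, 0 < p' w → L (f w) = g (L' w))
    (hc : ∀ z', 0 < law p' L' z' → ∀ ω, ∑ w, (if f w = ω then cond p' L' z' w else 0) =
      cond p L (g z') ω) :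
    Marg (dbl p' L') (dbl p L) (fun w => (f w.1, f w.2)) := by
  refine marg_desc (tup_two hp' L' (N := 1) 0 1 (by decide)) ?_
  exact (tup_map hp hp' hm hL hc 1).comp (tup_two hp L (N := 1) 0 1 (by decide))

end Pool.SLO
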