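import Pool.Agent.H87.SLO.Gen

/-!
# Weighted laws

A bound on the conditional entropy on all events which are not too small gives a bound for all
densities which are not too small (`wt_thm`): layer cake, with a bounded number of layers.
-/

set_option autoImplicit false

namespace Pool.SLO

open Finset Real
open Pool.Agent.H49.Ent Pool.Agent.H32.Dense Pool.STK Pool.KAF Pool.KVA

variable {Ω ι S T : Type} [Fintype Ω] [Fintype ι]

/-! ### Sums of measures -/

/-- The law of a value is homogeneous. -/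
theorem law_smul (a : ℝ) (q : Ω → ℝ) (A : Ω → S) (s : S) :
    law (fun ω => a * q ω) A s = a * law q A s := by
  unfold law
  rw [Finset.mul_sum]
  refine Finset.sum_congr rfl fun ω _ => ?_
  split_ifs <;> simp

/-- The entropy of a multiple of a measure. -/
theorem H_smul {a : ℝ} (ha : 0 < a) {q : Ω → ℝ} (hq : ∀ ω, 0 ≤ q ω) (A : Ω → S) :
    H (fun ω => a * q ω) A = a * H q A - a * Real.log a * ∑ ω, q ω := by
  unfold H
  have h1 : ∀ ω, a * q ω * Real.log (law (fun ω => a * q ω) A (A ω)) =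
      a * (q ω * Real.log (law q A (A ω))) + a * Real.log a * q ω := by
    intro ω
    rcases (hq ω).eq_or_lt with h0 | h0
    · rw [← h0]
      ring
    · rw [law_smul, Real.log_mul ha.ne' (law_pos hq A h0).ne']
      ring
  rw [Finset.sum_congr rfl fun ω _ => h1 ω, Finset.sum_add_distrib, ← Finset.mul_sum,
    ← Finset.mul_sum]
  ring

/-- The conditional entropy is homogeneous. -/
theorem CH_smul {a : ℝ} (ha : 0 ≤ a) {q : Ω → ℝ} (hq : ∀ ω, 0 ≤ q ω) (A : Ω → S) (B : Ω → T) :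
    CH (fun ω => a * q ω) A B = a * CH q A B := by
  rcases ha.eq_or_lt with h0 | h0
  · rw [← h0]
    unfold CH H
    simp
  · unfold CH
    rw [H_smul h0 hq, H_smul h0 hq]
    ring

/-- The space of all the parts. -/
def parts (q : ι → Ω → ℝ) (w : Ω × ι) : ℝ := q w.2 w.1

theorem parts_marg (q : ι → Ω → ℝ) :
    Marg (parts q) (fun ω => ∑ i, q i ω) (fun w => w.1) := by
  classical
  intro ω
  rw [Fintype.sum_prod_type, Finset.sum_eq_single ω]
  · exact Finset.sum_congr rfl fun i _ => if_pos rfl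
  · intro v _ hv
    exact Finset.sum_eq_zero fun i _ => if_neg hv
  · intro h
    exact absurd (Finset.mem_univ _) h

theorem parts_law (q : ι → Ω → ℝ) (A : Ω → S) (s : S) (i : ι) :
    law (parts q) (fun w => (A w.1, w.2)) (s, i) = law (q i) A s := by
  classical
  unfold law
  rw [Fintype.sum_prod_type]
  refine Finset.sum_congr rfl fun ω _ => ?_
  rw [Finset.sum_eq_single i]
  · by_cases h : A ω = s
    · exact (if_pos (show (A ω, i) = (s, i) by rw [h])).trans (if_pos h).symm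
    · exact (if_neg fun h2 => h (Prod.ext_iff.1 h2).1).trans (if_neg h).symm
  · intro j _ hj
    exact if_neg fun h2 => hj (Prod.ext_iff.1 h2).2
  · intro h
    exact absurd (Finset.mem_univ _) h

theorem parts_H (q : ι → Ω → ℝ) (A : Ω → S) :
    H (parts q) (fun w => (A w.1, w.2)) = ∑ i, H (q i) A := by
  unfold H
  rw [Fintype.sum_prod_type, Finset.sum_comm, Finset.sum_neg_distrib]
  congr 1
  refine Finset.sum_congr rfl fun i _ => Finset.sum_congr rfl fun ω _ => ?_
  rw [parts_law]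
  rfl

theorem parts_CH {q : ι → Ω → ℝ} (hq : ∀ i ω, 0 ≤ q i ω) (A : Ω → S) (B : Ω → T) :
    CH (parts q) (fun w => A w.1) (fun w => (B w.1, w.2)) = ∑ i, CH (q i) A B := by
  have h0 : ∀ w, 0 ≤ parts q w := fun w => hq _ _
  have h1 : H (parts q) (fun w => (A w.1, (B w.1, w.2))) =
      H (parts q) (fun w => ((A w.1, B w.1), w.2)) := by
    refine H_congr h0 ?_ ?_
    · intro w w' _ _ h
      have a1 := Prod.ext_iff.1 h
      have a2 := Prod.ext_iff.1 a1.1
      exact Prod.ext a2.1 (Prod.ext a2.2 a1.2)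
    · intro w w' _ _ h
      have a1 := Prod.ext_iff.1 h
      have a2 := Prod.ext_iff.1 a1.2
      exact Prod.ext (Prod.ext a1.1 a2.1) a2.2
  unfold CH
  rw [h1, parts_H q B, parts_H q (fun ω => (A ω, B ω)), Finset.sum_sub_distrib]

/-- **Superadditivity.** -/
theorem CH_sum_le {q : ι → Ω → ℝ} (hq : ∀ i ω, 0 ≤ q i ω) (A : Ω → S) (B : Ω → T) :
    ∑ i, CH (q i) A B ≤ CH (fun ω => ∑ i, q i ω) A B := by
  have h0 : ∀ w, 0 ≤ parts q w := fun w => hq _ _
  rw [← parts_CH hq, ← (parts_marg q).CH A B]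
  exact CH_mono_cond h0 fun _ _ _ _ h => (Prod.ext_iff.1 h).1

/-- **Mixtures.** -/
theorem CH_mix_le [Nonempty ι] {q : ι → Ω → ℝ} (hq : ∀ i ω, 0 ≤ q i ω)
    (h1 : ∑ i, ∑ ω, q i ω = 1) (A : Ω → S) (B : Ω → T) :
    CH (fun ω => ∑ i, q i ω) A B ≤ ∑ i, CH (q i) A B + Real.log (Fintype.card ι) := by
  classical
  have h0 : ∀ w, 0 ≤ parts q w := fun w => hq _ _
  have hs : ∑ w, parts q w = 1 := by
    rw [Fintype.sum_prod_type, Finset.sum_comm]
    exact h1
  rw [← parts_CH hq, ← (parts_marg q).CH A B]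
  have h2 := CH_le_add h0 (fun w => A w.1) (fun w => w.2) (fun w => B w.1)
  have h3 : CH (parts q) (fun w => A w.1) (fun w => (w.2, B w.1)) =
      CH (parts q) (fun w => A w.1) (fun w => (B w.1, w.2)) :=
    CH_congr h0 (fun _ _ _ _ h => (Prod.ext_iff.1 h).1) (fun _ _ _ _ h => (Prod.ext_iff.1 h).1)
      (fun _ _ _ _ h => Prod.ext (Prod.ext_iff.1 h).2 (Prod.ext_iff.1 h).1)
      (fun _ _ _ _ h => Prod.ext (Prod.ext_iff.1 h).2 (Prod.ext_iff.1 h).1)
  have h4 := CH_le_card h0 hs (fun w => w.2) (fun w => B w.1) (fun _ => (Finset.univ : Finset ι))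
    (fun w _ => Finset.mem_univ _)
  rw [Ex_const hs, Finset.card_univ] at h4
  linarith

/-! ### Layer cake -/

/-- The number of layers below a value. -/
theorem layers (m : ℕ) {x : ℝ} (hx : x ≤ m) :
    (x : ℝ) ≤ ∑ i : Fin m, (if ((i.val : ℕ) : ℝ) < x then (1 : ℝ) else 0) ∧
    (0 ≤ x → ∑ i : Fin m, (if ((i.val : ℕ) : ℝ) < x then (1 : ℝ) else 0) ≤ x + 1) := by
  have h1 : ∑ i : Fin m, (if ((i.val : ℕ) : ℝ) < x then (1 : ℝ) else 0) = (⌈x⌉₊ : ℝ) := by
    rw [Fin.sum_univ_eq_sum_range (fun i => if (i : ℝ) < x then (1 : ℝ) else 0) m,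
      Finset.sum_boole]
    congr 1
    have h2 : (range m).filter (fun i : ℕ => (i : ℝ) < x) = range ⌈x⌉₊ := by
      ext i
      rw [Finset.mem_filter, Finset.mem_range, Finset.mem_range, Nat.lt_ceil]
      constructor
      · exact fun h => h.2
      · intro h
        refine ⟨?_, h⟩
        have h3 : (i : ℝ) < m := h.trans_le hx
        exact_mod_cast h3
    rw [h2, Finset.card_range]
  rw [h1]
  exact ⟨Nat.le_ceil x, fun h => (Nat.ceil_lt_add_one h).le⟩

open Classical in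
/-- A part of a law as a multiple of the conditioned law. -/
theorem part_eq {p : Ω → ℝ} (hp : ∀ ω, 0 ≤ p ω) (E : Set Ω) (ω : Ω) :
    (if ω ∈ E then p ω else 0) = Pr p E * Pool.Agent.H49.Ent.cond p (fun w => w ∈ E) True ω := by
  have h1 : law p (fun w => w ∈ E) True = Pr p E := by
    rw [Pr_eq]
    unfold law
    refine Finset.sum_congr rfl fun w _ => ?_
    by_cases h : w ∈ E
    · rw [if_pos h, if_pos (eq_true h)]
    · rw [if_neg h, if_neg fun h2 => h (of_eq_true h2)]
  unfold Pool.Agent.H49.Ent.cond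
  by_cases h : ω ∈ E
  · rw [if_pos h, if_pos (eq_true h), h1]
    rcases (hp ω).eq_or_lt with h0 | h0
    · rw [← h0, zero_div, mul_zero]
    · have h2 : 0 < Pr p E := by
        rw [Pr_eq]
        refine lt_of_lt_of_le h0 (le_trans (le_of_eq (if_pos h).symm)
          (Finset.single_le_sum (f := fun w => if w ∈ E then p w else 0) (fun w _ => ?_)
            (Finset.mem_univ ω)))
        show (0 : ℝ) ≤ if _ then _ else _
        split_ifs
        · exact hp w
        · exact le_rfl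
      field_simp
  · rw [if_neg h, if_neg fun h2 => h (of_eq_true h2), mul_zero]

theorem pr_nonneg' {p : Ω → ℝ} (hp : ∀ ω, 0 ≤ p ω) (E : Set Ω) : 0 ≤ Pr p E := by
  classical
  rw [Pr_eq]
  refine Finset.sum_nonneg fun w _ => ?_
  split_ifs
  · exact hp w
  · exact le_rfl

theorem condE_law {p : Ω → ℝ} (hp : ∀ ω, 0 ≤ p ω) {E : Set Ω} (hE : 0 < Pr p E) :
    IsLaw (Pool.Agent.H49.Ent.cond p (fun w => w ∈ E) True) := by
  classical
  refine ⟨fun ω => cond_nonneg hp _ _ ω, ?_⟩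
  have h1 : ∑ ω, (if ω ∈ E then p ω else 0) =
      Pr p E * ∑ ω, Pool.Agent.H49.Ent.cond p (fun w => w ∈ E) True ω := by
    rw [Finset.mul_sum]
    exact Finset.sum_congr rfl fun ω _ => part_eq hp E ω
  rw [← Pr_eq] at h1
  have h2 : Pr p E * (∑ ω, Pool.Agent.H49.Ent.cond p (fun w => w ∈ E) True ω) = Pr p E * 1 := by
    rw [← h1, mul_one]
  exact mul_left_cancel₀ hE.ne' h2

/-- **Weighted laws.** A bound on all events of probability at least `π₀` gives a bound for all
densities of mean at least `π₁`. -/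
theorem wt_thm (c π₁ : ℝ) (hc : 0 < c) (hπ : 0 < π₁) : ∃ (π₀ : ℝ) (M₀ : ℝ), 0 < π₀ ∧ π₀ ≤ 1 ∧
    0 < M₀ ∧
    ∀ (Ω S T : Type) [Fintype Ω] (p : Ω → ℝ) (A : Ω → S) (B : Ω → T) (M : ℝ), IsLaw p → M₀ ≤ M →
      (∀ q : Ω → ℝ, IsLaw q → (∀ ω, 0 < q ω → 0 < p ω) → CH q A B ≤ M) →
      (∀ E : Set Ω, π₀ ≤ Pr p E →
        CH (Pool.Agent.H49.Ent.cond p (fun w => w ∈ E) True) A B ≤ (1 - c) * M) →
      ∀ W : Ω → ℝ, (∀ ω, 0 ≤ W ω) → (∀ ω, W ω ≤ 1) → π₁ ≤ ∑ ω, p ω * W ω →
        CH (fun ω => p ω * W ω / ∑ v, p v * W v) A B ≤ (1 - c / 2) * M := by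
  classical
  obtain ⟨m, hm⟩ := exists_nat_gt (8 / (c * π₁))
  have hm0 : (0 : ℝ) < m := lt_trans (by positivity) hm
  have hmN : 0 < m := by exact_mod_cast hm0
  have hm1 : 8 ≤ c * π₁ * m := by
    rw [div_lt_iff₀ (by positivity)] at hm
    linarith
  have hlog : 0 ≤ Real.log m := Real.log_nonneg (by exact_mod_cast hmN)
  refine ⟨min (c * π₁ / 8) 1, 16 * Real.log m / c + 1, by positivity, min_le_right _ _,
    by positivity, ?_⟩
  intro Ω S T _ p A B M hp hM hMq hE W hW0 hW1 hW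
  set π₀ := min (c * π₁ / 8) 1 with hπ₀
  have hπ₀0 : 0 < π₀ := by positivity
  have hM0 : 0 < M := lt_of_lt_of_le (by positivity) hM
  have hMl : Real.log m ≤ c / 16 * M := by
    have h1 : 16 * Real.log m / c ≤ M := by linarith
    rw [div_le_iff₀ hc] at h1
    linarith
  -- `c ≤ 1`
  have hc1 : c ≤ 1 := by
    have h1 : Pr p Set.univ = 1 := by
      rw [Pr_eq, ← hp.sum_one]
      exact Finset.sum_congr rfl fun ω _ => if_pos (Set.mem_univ ω)
    have h2 := hE Set.univ (by rw [h1]; exact min_le_right _ _)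
    have h3 := CH_nonneg (fun ω => cond_nonneg hp.nonneg
      (fun w => w ∈ (Set.univ : Set Ω)) True ω) A B
    by_contra h4
    push Not at h4
    nlinarith
  set Z : ℝ := ∑ ω, p ω * W ω with hZ
  have hZ0 : 0 < Z := lt_of_lt_of_le hπ hW
  set E : Fin m → Set Ω := fun i => {ω | ((i.val : ℕ) : ℝ) < m * W ω} with hEd
  set n : Ω → ℝ := fun ω => ∑ i : Fin m, (if ((i.val : ℕ) : ℝ) < m * W ω then (1 : ℝ) else 0)
    with hn
  have hn1 : ∀ ω, m * W ω ≤ n ω := fun ω => (layers m (by nlinarith [hW1 ω])).1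
  have hn2 : ∀ ω, n ω ≤ m * W ω + 1 := fun ω =>
    (layers m (by nlinarith [hW1 ω])).2 (mul_nonneg hm0.le (hW0 ω))
  set Sg : ℝ := ∑ i, Pr p (E i) with hS
  have hSn : Sg = ∑ ω, p ω * n ω := by
    rw [hS]
    simp only [Pr_eq]
    rw [Finset.sum_comm]
    refine Finset.sum_congr rfl fun ω _ => ?_
    rw [hn, Finset.mul_sum]
    refine Finset.sum_congr rfl fun i _ => ?_
    by_cases h : ((i.val : ℕ) : ℝ) < m * W ω
    · rw [if_pos (show ω ∈ E i from h), if_pos h, mul_one]
    · rw [if_neg (show ω ∉ E i from h), if_neg h, mul_zero]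
  have hS1 : m * Z ≤ Sg := by
    rw [hSn, hZ, Finset.mul_sum]
    refine Finset.sum_le_sum fun ω _ => ?_
    have := mul_le_mul_of_nonneg_left (hn1 ω) (hp.nonneg ω)
    linarith
  have hS2 : Sg ≤ m * Z + 1 := by
    rw [hSn, hZ, Finset.mul_sum, ← hp.sum_one, ← Finset.sum_add_distrib]
    refine Finset.sum_le_sum fun ω _ => ?_
    have := mul_le_mul_of_nonneg_left (hn2 ω) (hp.nonneg ω)
    linarith
  have hS0 : 0 < Sg := lt_of_lt_of_le (by positivity) hS1
  -- the parts
  set q : Fin m → Ω → ℝ := fun i ω =>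
    Pr p (E i) / Sg * Pool.Agent.H49.Ent.cond p (fun w => w ∈ E i) True ω with hq
  have hq0 : ∀ i ω, 0 ≤ q i ω := fun i ω =>
    mul_nonneg (div_nonneg (pr_nonneg' hp.nonneg _) hS0.le) (cond_nonneg hp.nonneg _ _ ω)
  have hqs : ∀ ω, ∑ i, q i ω = p ω * n ω / Sg := by
    intro ω
    rw [hn, Finset.mul_sum, Finset.sum_div]
    refine Finset.sum_congr rfl fun i _ => ?_
    show Pr p (E i) / Sg * Pool.Agent.H49.Ent.cond p (fun w => w ∈ E i) True ω = _
    rw [div_mul_eq_mul_div, ← part_eq hp.nonneg]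
    by_cases h : ((i.val : ℕ) : ℝ) < m * W ω
    · rw [if_pos (show ω ∈ E i from h), if_pos h, mul_one]
    · rw [if_neg (show ω ∉ E i from h), if_neg h, mul_zero]
  have hqt : ∑ i, ∑ ω, q i ω = 1 := by
    rw [Finset.sum_comm, Finset.sum_congr rfl fun ω _ => hqs ω, ← Finset.sum_div, ← hSn,
      div_self hS0.ne']
  have : Nonempty (Fin m) := ⟨⟨0, hmN⟩⟩
  -- upper bound
  have hup := CH_mix_le hq0 hqt A B
  rw [Fintype.card_fin] at hup
  have hpart : ∀ i, CH (q i) A B ≤ Pr p (E i) / Sg * ((1 - c) * M) + π₀ / Sg * M := by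
    intro i
    have h1 : CH (q i) A B = Pr p (E i) / Sg *
        CH (Pool.Agent.H49.Ent.cond p (fun w => w ∈ E i) True) A B :=
      CH_smul (div_nonneg (pr_nonneg' hp.nonneg _) hS0.le)
        (fun ω => cond_nonneg hp.nonneg _ _ ω) A B
    rw [h1]
    have h2 : 0 ≤ Pr p (E i) := pr_nonneg' hp.nonneg _
    have h3 : 0 ≤ (1 - c) * M := mul_nonneg (by linarith) hM0.le
    have h4 : 0 ≤ π₀ / Sg * M := by positivity
    rcases le_or_gt π₀ (Pr p (E i)) with h5 | h5
    · have h6 := mul_le_mul_of_nonneg_left (hE (E i) h5) (div_nonneg h2 hS0.le)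
      linarith
    · have h7 : Pr p (E i) / Sg *
          CH (Pool.Agent.H49.Ent.cond p (fun w => w ∈ E i) True) A B ≤ π₀ / Sg * M := by
        rcases h2.eq_or_lt with h8 | h8
        · rw [← h8]
          simpa using h4
        · have h9 := hMq _ (condE_law hp.nonneg h8) fun ω hω =>
            ((cond_pos_iff hp.nonneg _ _ ω).1 hω).1
          refine mul_le_mul (div_le_div_of_nonneg_right h5.le hS0.le) h9
            (CH_nonneg (fun ω => cond_nonneg hp.nonneg _ _ ω) A B) (by positivity)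
      have h10 : 0 ≤ Pr p (E i) / Sg * ((1 - c) * M) := by positivity
      linarith
  have hsum : ∑ i, CH (q i) A B ≤ (1 - c) * M + m * (π₀ / Sg * M) := by
    refine (Finset.sum_le_sum fun i _ => hpart i).trans (le_of_eq ?_)
    rw [Finset.sum_add_distrib, ← Finset.sum_mul, ← Finset.sum_div, ← hS, div_self hS0.ne',
      Finset.sum_const, Finset.card_univ, Fintype.card_fin, nsmul_eq_mul, one_mul]
  have hsmall : m * (π₀ / Sg * M) ≤ c / 8 * M := by
    have h1 : m * (π₀ / Sg) ≤ c / 8 := by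
      rw [← mul_div_assoc, div_le_iff₀ hS0]
      have h2 : π₀ ≤ c * π₁ / 8 := min_le_left _ _
      have h3 : m * π₁ ≤ Sg := le_trans (mul_le_mul_of_nonneg_left hW hm0.le) hS1
      calc m * π₀ ≤ m * (c * π₁ / 8) := mul_le_mul_of_nonneg_left h2 hm0.le
        _ = c / 8 * (m * π₁) := by ring
        _ ≤ c / 8 * Sg := mul_le_mul_of_nonneg_left h3 (by positivity)
    calc m * (π₀ / Sg * M) = m * (π₀ / Sg) * M := by ring
      _ ≤ c / 8 * M := mul_le_mul_of_nonneg_right h1 hM0.le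
  -- lower bound
  set r : Ω → ℝ := fun ω => p ω * W ω / Z with hr
  have hr0 : ∀ ω, 0 ≤ r ω := fun ω => div_nonneg (mul_nonneg (hp.nonneg ω) (hW0 ω)) hZ0.le
  set a : ℝ := m * Z / Sg with ha
  have ha0 : 0 < a := by positivity
  set s : Bool → Ω → ℝ := fun b ω => if b then a * r ω else (∑ i, q i ω) - a * r ω with hs
  have har : ∀ ω, a * r ω = p ω * (m * W ω) / Sg := by
    intro ω
    show m * Z / Sg * (p ω * W ω / Z) = _
    field_simp
  have hs0 : ∀ b ω, 0 ≤ s b ω := by
    intro b ω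
    cases b
    · show 0 ≤ (∑ i, q i ω) - a * r ω
      rw [hqs, har, ← sub_div, ← mul_sub]
      exact div_nonneg (mul_nonneg (hp.nonneg ω) (by linarith [hn1 ω])) hS0.le
    · exact mul_nonneg ha0.le (hr0 ω)
  have hss : (fun ω => ∑ b, s b ω) = fun ω => ∑ i, q i ω := by
    funext ω
    rw [Fintype.sum_bool]
    show a * r ω + ((∑ i, q i ω) - a * r ω) = _
    ring
  have hlow := CH_sum_le hs0 A B
  rw [hss, Fintype.sum_bool] at hlow
  have h1 : CH (s true) A B = a * CH r A B := CH_smul ha0.le hr0 A B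
  have h2 := CH_nonneg (hs0 false) A B
  have h3 : a * CH r A B ≤ (1 - c) * M + c / 8 * M + c / 16 * M := by linarith
  have h4 : CH r A B ≤ (1 + c / 8) * ((1 - c) * M + c / 8 * M + c / 16 * M) := by
    have h5 : 1 ≤ (1 + c / 8) * a := by
      rw [ha, ← mul_div_assoc, le_div_iff₀ hS0, one_mul]
      have h6 : 8 ≤ c * (m * Z) := by
        calc (8 : ℝ) ≤ c * π₁ * m := hm1
          _ = c * (m * π₁) := by ring
          _ ≤ c * (m * Z) :=
            mul_le_mul_of_nonneg_left (mul_le_mul_of_nonneg_left hW hm0.le) hc.le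
      nlinarith
    have h7 := CH_nonneg hr0 A B
    calc CH r A B = 1 * CH r A B := (one_mul _).symm
      _ ≤ (1 + c / 8) * a * CH r A B := mul_le_mul_of_nonneg_right h5 h7
      _ = (1 + c / 8) * (a * CH r A B) := by ring
      _ ≤ _ := mul_le_mul_of_nonneg_left h3 (by positivity)
  refine h4.trans ?_
  have h8 : (1 + c / 8) * ((1 - c) * M + c / 8 * M + c / 16 * M) =
      ((1 + c / 8) * (1 - 13 * c / 16)) * M := by ring
  rw [h8]
  refine mul_le_mul_of_nonneg_right ?_ hM0.le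
  nlinarith

end Pool.SLO
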