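import Pool.Agent.H46.MicA.Defs
import Pool.Agent.H65.OVN.MV

/-!
# The rounded own leaf and the own leaf

`kpR_eq`: the digits `ss` of the own leaf are the digits of the coefficients of `kp0`.
`grad_kpA`: the gradients of `kpA` and of `kp0` agree up to `2 ^ (c z - X)`.
-/

set_option autoImplicit false

namespace Pool.STAT.GluK

open Finset MvPolynomial
open Pool.Agent.H49.Ent Pool.Agent.H32.Dense Pool.STK Pool.STAT Pool.MIC Pool.MIC.Frm
open Pool.BFL (Pl Pb)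

/-- Evaluation depends only on the variables. -/
theorem eval_cg {F : PN} {m : ℕ} (hF : F.vars ⊆ range m) {x y : ℕ → ℝ}
    (h : ∀ k < m, x k = y k) : eval x F = eval y F := Pool.SYS35.eval_congr hF h

section kp

variable {D : NDat2} {n i j i' j' : ℕ}

theorem mx_tri (hP : ∀ i j x, TriN (D.P i j x)) (hG : ∀ i j x, TriN (D.G i j x)) (ω : D.Ω) :
    TriN (D.mx n i j i' j' ω) := by
  classical
  intro k
  unfold NDat2.mx
  split_ifs
  · exact hG _ _ _ k
  · exact hP _ _ _ k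

/-- The natural charts coincide. -/
theorem pt_mx (hP : ∀ i j x, TriN (D.P i j x)) (hG : ∀ i j x, TriN (D.G i j x))
    (hf : Pool.MicA.Fat D n i j i' j') (ω : D.Ω) (y : ℕ → ℝ) (k : ℕ) (hk : k < n) :
    pt (D.g i j) (D.mx n i j i' j' ω)
      (fun k => if k = 0 then (2 : ℝ) ^ D.g i j 0 * D.rh i j ω 0 else
        if 1 ≤ k ∧ k < n then y k else 0) k =
    pt (D.g i j) (atT (D.X ω 0) (D.Φ i j ω)) (fun k => if 1 ≤ k ∧ k < n then y k else 0) k := by
  classical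
  have hΦ : TriN (D.Φ i j ω) := hP _ _ _
  induction k using Nat.strong_induction_on with
  | _ k ih =>
    rw [pt_eq (mx_tri hP hG ω), pt_eq (Pool.MicA.tri_atT hΦ _)]
    by_cases h0 : k = 0
    · subst h0
      have e1 : D.mx n i j i' j' ω 0 = D.Φ i j ω 0 := by
        unfold NDat2.mx
        rw [if_neg]
        intro h
        exact absurd h.1 (by omega)
      have e2 : atT (D.X ω 0) (D.Φ i j ω) 0 = C (D.X ω 0) := by
        unfold atT
        rw [Function.update_self]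
      rw [e1, e2, eval_C, if_pos rfl, if_neg (by omega)]
      have e3 : ∀ u v : ℕ → ℝ, eval u (D.Φ i j ω 0) = eval v (D.Φ i j ω 0) := fun u v =>
        eval_cg (hP _ _ _ 0) fun k hk => absurd hk (Nat.not_lt_zero _)
      rw [e3 _ (D.X ω)]
      unfold NDat2.rh
      field_simp
      ring
    · have e1 : D.mx n i j i' j' ω k = D.Φ i j ω k := by
        unfold NDat2.mx
        rw [if_neg]
        intro h
        have h1 := hf k (by omega) hk
        have h2 := h.2.2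
        omega
      have e2 : atT (D.X ω 0) (D.Φ i j ω) k = D.Φ i j ω k := by
        unfold atT
        rw [Function.update_of_ne h0]
      rw [e1, e2, if_neg h0]
      have e4 := eval_cg (hP i j (D.c i j ω) k) fun k' hk' => ih k' hk' (by omega)
      exact congrArg (· + _) e4

/-- The own sheet in the chart at the exact time. -/
noncomputable def sk (D : NDat2) (n i j i' j' : ℕ) (ω : D.Ω) : Pl (n - 1) :=
  sl (n - 1) (bind₁ (nuc (D.g i j) (atT (D.X ω 0) (D.Φ i j ω)))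
      (D.Ψ i' j' ω n - D.Φ i j ω n))

/-- The embedding of the indices. -/
def eb (m : ℕ) : Fin m ↪ ℕ := ⟨fun l : Fin m => (l : ℕ) + 1, fun _ _ h => Fin.ext (Nat.succ.inj h)⟩

theorem kp_rename (hP : ∀ i j x, TriN (D.P i j x)) (hG : ∀ i j x, TriN (D.G i j x))
    (hf : Pool.MicA.Fat D n i j i' j') (ω : D.Ω) :
    D.kp n i j i' j' ω n = rename (eb (n - 1)) (sk D n i j i' j' ω) := by
  classical
  refine MvPolynomial.funext fun y => ?_
  have hv : (D.Ψ i' j' ω n - D.Φ i j ω n).vars ⊆ range n :=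
    (vars_sub_subset _).trans (Finset.union_subset (hG _ _ _ n) (hP _ _ _ n))
  rw [eval_rename]
  unfold sk NDat2.kp
  rw [eval_sl, eval_fr', AdxRow.evl_bnd, eval_fr']
  refine eval_cg hv fun k hk => ?_
  have h1 := pt_mx hP hG hf ω y k hk
  have e1 : (fun k => eval y (if k = 0 then (C ((2 : ℝ) ^ D.g i j 0 * D.rh i j ω 0) : PN) else
      if D.fat n i j i' j' k then MvPolynomial.X k else 0)) = fun k => if k = 0 then
        (2 : ℝ) ^ D.g i j 0 * D.rh i j ω 0 else if 1 ≤ k ∧ k < n then y k else 0 := by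
    funext k
    by_cases h0 : k = 0
    · rw [if_pos h0, if_pos h0, eval_C]
    · rw [if_neg h0, if_neg h0]
      by_cases h2 : 1 ≤ k ∧ k < n
      · rw [if_pos h2, if_pos ⟨h2.1, h2.2, hf k h2.1 h2.2⟩, eval_X]
      · rw [if_neg h2, if_neg (fun h => h2 ⟨h.1, h.2.1⟩), map_zero]
  have e2 : ex1 (y ∘ (eb (n - 1))) = fun k => if 1 ≤ k ∧ k < n then y k else 0 := by
    funext k
    unfold ex1
    by_cases h2 : 1 ≤ k ∧ k < n
    · rw [dif_pos ⟨h2.1, by omega⟩, if_pos h2]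
      show y (k - 1 + 1) = y k
      congr 1
      omega
    · rw [dif_neg (fun h => h2 ⟨h.1, by omega⟩), if_neg h2]
  rw [e1, e2]
  exact h1

theorem coeff_kp (hP : ∀ i j x, TriN (D.P i j x)) (hG : ∀ i j x, TriN (D.G i j x))
    (hf : Pool.MicA.Fat D n i j i' j') (ω : D.Ω) (α : Fin (n - 1) →₀ ℕ) :
    coeff (Pool.MicA.em (n - 1) α) (D.kp n i j i' j' ω n) = coeff α (sk D n i j i' j' ω) := by
  rw [kp_rename hP hG hf]
  exact coeff_rename_embDomain (eb (n - 1)) _ α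

/-- The own leaf before the scaling. -/
noncomputable def sk' (D : NDat2) (n i j i' j' : ℕ) (ω : D.Ω) : Pl (n - 1) :=
  C ((2 : ℝ) ^ D.g i j n) * sk D n i j i' j' ω

theorem kp0_eq (z : ℕ) (ω : D.Ω) :
    Pool.MicA.kp0 D n z i j i' j' ω = Pool.MicA.scl (n - 1) z (sk' D n i j i' j' ω) := rfl

theorem ss_eq (hP : ∀ i j x, TriN (D.P i j x)) (hG : ∀ i j x, TriN (D.G i j x)) (hn : 1 ≤ n)
    (hf : Pool.MicA.Fat D n i j i' j') {X : ℕ} (h1 : D.g i j n < D.g i' j' n)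
    (h2 : D.g i j n + X ≤ D.g i' j' n) (ω : D.Ω) :
    (fun α => D.ss n i j i' j' X ω n (Pool.MicA.em (n - 1) α)) =
      rk X (sk' D n i j i' j' ω) := by
  classical
  funext α
  unfold NDat2.ss rk sk'
  have hem : Pool.MicA.em (n - 1) α = 0 ↔ α = 0 := by
    unfold Pool.MicA.em
    exact Finsupp.embDomain_eq_zero
  by_cases hα : α = 0
  · rw [if_pos hα, if_neg]
    rintro ⟨_, h⟩
    exact h (hem.2 hα)
  · rw [if_neg hα, if_pos ⟨⟨hn, le_rfl, h1⟩, fun h => hα (hem.1 h)⟩, coeff_kp hP hG hf,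
      min_eq_left h2, coeff_C_mul, ← mul_assoc, pow_add, mul_comm ((2 : ℝ) ^ X)]

theorem kpR_eq (hP : ∀ i j x, TriN (D.P i j x)) (hG : ∀ i j x, TriN (D.G i j x)) (hn : 1 ≤ n)
    (hf : Pool.MicA.Fat D n i j i' j') {X : ℕ} (h1 : D.g i j n < D.g i' j' n)
    (h2 : D.g i j n + X ≤ D.g i' j' n) (K₀ z : ℕ) (ω : D.Ω) :
    Pool.MicA.kpR D n K₀ z i j i' j' X ω =
      Pool.MicA.scl (n - 1) z (Sp K₀ X (rk X (sk' D n i j i' j' ω))) := by
  unfold Pool.MicA.kpR
  rw [ss_eq hP hG hn hf h1 h2]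

theorem sk'_deg {K : ℕ} (hP : ∀ i j x, TriN (D.P i j x)) (hG : ∀ i j x, TriN (D.G i j x))
    (dP : ∀ i j x l, (D.P i j x l).totalDegree ≤ K)
    (dG : ∀ i j x l, (D.G i j x l).totalDegree ≤ K) (ω : D.Ω) :
    (sk' D n i j i' j' ω).totalDegree ≤ K * (K + 1) ^ n := by
  have ht := Pool.MicA.tri_atT (hP i j (D.c i j ω)) (D.X ω 0)
  have hd : ∀ l, (atT (D.X ω 0) (D.Φ i j ω) l).totalDegree ≤ K := by
    intro l
    unfold atT
    by_cases hi : l = 0
    · rw [hi, Function.update_self, totalDegree_C]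
      exact Nat.zero_le _
    · rw [Function.update_of_ne hi]
      exact dP _ _ _ l
  have hv : (D.Ψ i' j' ω n - D.Φ i j ω n).vars ⊆ range n :=
    (vars_sub_subset _).trans (Finset.union_subset (hG _ _ _ n) (hP _ _ _ n))
  have hdd : (D.Ψ i' j' ω n - D.Φ i j ω n).totalDegree ≤ K :=
    (totalDegree_sub _ _).trans (max_le (dG _ _ _ n) (dP _ _ _ n))
  unfold sk' sk
  refine (totalDegree_mul _ _).trans ?_
  rw [totalDegree_C, zero_add]
  refine (deg_sl _ _).trans ?_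
  refine (Dgb.deg_bind (B := (K + 1) ^ n) fun k hk => ?_).trans (Nat.mul_le_mul_right _ hdd)
  have hk' := mem_range.1 (hv hk)
  refine (Dgb.deg_nuc (n := n) ht (fun l _ => hd l) _ k (by omega)).trans ?_
  exact Nat.pow_le_pow_right (Nat.succ_pos _) (by omega)

end kp

/-! ### Gradients -/

theorem pderiv_aff {m : ℕ} (a b : ℝ) (F : Pl m) (l : Fin m) :
    pderiv l (bind₁ (fun l => C a * X l - C b : Fin m → Pl m) F) =
      C a * bind₁ (fun l => C a * X l - C b : Fin m → Pl m) (pderiv l F) := by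
  induction F using MvPolynomial.induction_on with
  | C c => simp only [bind₁_C_right, pderiv_C, map_zero, mul_zero]
  | add p q hp hq =>
    rw [map_add, map_add, hp, hq, map_add, map_add, mul_add]
  | mul_X p i hp =>
    have e1 : pderiv l (C a * X i - C b : Pl m) = C a * pderiv l (X i) := by
      rw [map_sub, pderiv_C, sub_zero, Derivation.leibniz, pderiv_C, smul_zero, add_zero,
        smul_eq_mul]
    have e2 : bind₁ (fun l => C a * X l - C b : Fin m → Pl m) (pderiv l (X i)) =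
        pderiv l (X i) := by
      by_cases h : i = l
      · subst h
        rw [pderiv_X_self, map_one]
      · rw [pderiv_X_of_ne h, map_zero]
    rw [map_mul, Derivation.leibniz, hp, bind₁_X_right, e1, Derivation.leibniz, map_add,
      smul_eq_mul, smul_eq_mul, smul_eq_mul, smul_eq_mul, map_mul, map_mul, bind₁_X_right, e2]
    ring

theorem eval_pderiv_scl (m z : ℕ) (F : Pl m) (l : Fin m) (y : Fin m → ℝ) :
    eval y (pderiv l (Pool.MicA.scl m z F)) =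
      4 * 2 ^ z * eval (fun l => 4 * 2 ^ z * y l - 2 * 2 ^ z) (pderiv l F) := by
  have e : pderiv l (Pool.MicA.scl m z F) =
      C (4 * 2 ^ z) * Pool.MicA.scl m z (pderiv l F) := by
    unfold Pool.MicA.scl
    exact pderiv_aff _ _ F l
  rw [e, eval_mul, eval_C, Pool.MicA.eval_scl]

/-- **The gradients of the own leaf and of the rounded own leaf.** -/
theorem grad_kpR (n K K₀ : ℕ) (C₀ : ℝ) (hn : 1 ≤ n) (hC₀ : 1 ≤ C₀) (hK : K * (K + 1) ^ n ≤ K₀) :
    ∃ c z₀ : ℕ, ∀ (z X i j i' j' : ℕ) (D : NDat2), z₀ ≤ z → (∀ i j x, TriN (D.P i j x)) →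
      (∀ i j x, TriN (D.G i j x)) → (∀ i j x l, (D.P i j x l).totalDegree ≤ K) →
      (∀ i j x l, (D.G i j x l).totalDegree ≤ K) → Pool.MicA.Fat D n i j i' j' →
      D.g i j n < D.g i' j' n → D.g i j n + X ≤ D.g i' j' n → ∀ (ω : D.Ω) (y : Fin (n - 1) → ℝ),
      (∀ l, |y l| ≤ C₀) → ∀ l,
      |eval y (pderiv l (Pool.MicA.kpR D n K₀ z i j i' j' X ω)) -
        eval y (pderiv l (Pool.MicA.kp0 D n z i j i' j' ω))| ≤ 2 ^ (c * z) / 2 ^ X := by
  classical
  obtain ⟨W, hW⟩ : ∃ W : ℝ, W = 4 * ((Pool.Agent.H36.KBX.bx (n - 1) K₀).card *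
    ((K₀ + 1) * (6 * C₀) ^ ((n - 1) * K₀))) := ⟨_, rfl⟩
  obtain ⟨z₀, hz₀⟩ := exists_nat_ge W
  refine ⟨(n - 1) * K₀ + 2, z₀, ?_⟩
  intro z X i j i' j' D hz hP hG dP dG hf h1 h2 ω y hy l
  have hzW : W ≤ 2 ^ z := by
    have e1 : (z₀ : ℝ) ≤ z := by exact_mod_cast hz
    have e2 : (z : ℝ) ≤ 2 ^ z := by exact_mod_cast Nat.lt_two_pow_self.le
    linarith
  obtain ⟨P, hPP⟩ : ∃ P, P = sk' D n i j i' j' ω := ⟨_, rfl⟩
  have hPd : P.totalDegree ≤ K₀ := by
    rw [hPP]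
    exact (sk'_deg hP hG dP dG ω).trans hK
  rw [kpR_eq hP hG hn hf h1 h2, kp0_eq, ← hPP, eval_pderiv_scl, eval_pderiv_scl, ← mul_sub,
    abs_mul, abs_sub_comm]
  obtain ⟨Q, hQ⟩ : ∃ Q : Pl (n - 1), Q = P - Sp K₀ X (rk X P) -
    C (coeff 0 (P - Sp K₀ X (rk X P))) := ⟨_, rfl⟩
  have hQd : Q.totalDegree ≤ K₀ := by
    rw [hQ]
    refine (totalDegree_sub _ _).trans ?_
    rw [totalDegree_C]
    refine max_le ?_ (Nat.zero_le _)
    exact (totalDegree_sub _ _).trans (max_le hPd (Sp_deg K₀ X _))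
  have hQc : ∀ α, |coeff α Q| ≤ 1 / 2 ^ X := by
    intro α
    rw [hQ, coeff_sub, coeff_C]
    by_cases hα : α = 0
    · subst hα
      simp only [if_true, sub_self, abs_zero]
      positivity
    · rw [if_neg (Ne.symm hα), sub_zero, coeff_sub]
      exact coeff_sub_Sp hPd α hα
  obtain ⟨w, hw⟩ : ∃ w : Fin (n - 1) → ℝ, w = fun l => 4 * 2 ^ z * y l - 2 * 2 ^ z := ⟨_, rfl⟩
  have h2z : (1 : ℝ) ≤ 2 ^ z := one_le_pow₀ (by norm_num)
  have hwl : ∀ l, |w l| ≤ 6 * C₀ * 2 ^ z := by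
    intro l
    rw [hw]
    have h3 := hy l
    refine (abs_sub _ _).trans ?_
    rw [abs_mul, abs_of_pos (by positivity : (0 : ℝ) < 4 * 2 ^ z),
      abs_of_pos (by positivity : (0 : ℝ) < 2 * 2 ^ z)]
    have t1 : 4 * (2 : ℝ) ^ z * |y l| ≤ 4 * 2 ^ z * C₀ :=
      mul_le_mul_of_nonneg_left h3 (by positivity)
    have t2 : 2 * (2 : ℝ) ^ z * 1 ≤ 2 * 2 ^ z * C₀ :=
      mul_le_mul_of_nonneg_left hC₀ (by positivity)
    linarith
  rw [← hw]
  have h3 : eval w (pderiv l P) - eval w (pderiv l (Sp K₀ X (rk X P))) =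
      eval w (pderiv l Q) := by
    rw [hQ]
    simp only [map_sub, pderiv_C, sub_zero]
  rw [h3]
  have h4 := Pool.Agent.H36.KBX.eval_bound (pderiv l Q)
    ((Pool.Agent.H50.PW.totalDegree_pderiv_le Q l).trans hQd) (1 / 2 ^ X * (K₀ + 1))
    (6 * C₀ * 2 ^ z) (by
      have t1 : (1 : ℝ) * 1 ≤ 6 * C₀ * 2 ^ z :=
        mul_le_mul (by linarith) h2z zero_le_one (by linarith)
      linarith)
    (fun α => Pool.Agent.H36.KBX.coeff_pderiv_bound Q hQd _ hQc l α) w hwl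
  rw [abs_of_pos (by positivity : (0 : ℝ) < 4 * 2 ^ z)]
  refine (mul_le_mul_of_nonneg_left h4 (by positivity)).trans ?_
  have e1 : 4 * (2 : ℝ) ^ z * ((Pool.Agent.H36.KBX.bx (n - 1) K₀).card *
      (1 / 2 ^ X * (K₀ + 1) * (6 * C₀ * 2 ^ z) ^ ((n - 1) * K₀))) =
      W * (2 ^ z * (2 ^ z) ^ ((n - 1) * K₀)) / 2 ^ X := by
    rw [hW, mul_pow (6 * C₀) ((2 : ℝ) ^ z)]
    ring
  rw [e1]
  refine div_le_div_of_nonneg_right ?_ (by positivity)
  have e2 : (2 : ℝ) ^ (((n - 1) * K₀ + 2) * z) = 2 ^ z * (2 ^ z * (2 ^ z) ^ ((n - 1) * K₀)) := by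
    rw [← pow_mul, ← pow_add, ← pow_add]
    congr 1
    ring
  rw [e2]
  exact mul_le_mul_of_nonneg_right hzW (by positivity)

/-- **The gradients of the own leaf and of the truncated own shape.** -/
theorem grad_kpA (n K K₀ : ℕ) (C₀ : ℝ) (hn : 1 ≤ n) (hC₀ : 1 ≤ C₀) (hK : K * (K + 1) ^ n ≤ K₀) :
    ∃ c z₀ : ℕ, ∀ (z X bb i j i' j' : ℕ) (D : NDat2), z₀ ≤ z → (∀ i j x, TriN (D.P i j x)) →
      (∀ i j x, TriN (D.G i j x)) → (∀ i j x l, (D.P i j x l).totalDegree ≤ K) →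
      (∀ i j x l, (D.G i j x l).totalDegree ≤ K) → Pool.MicA.Fat D n i j i' j' →
      D.g i j n < D.g i' j' n → D.g i j n + X ≤ D.g i' j' n → ∀ (ω : D.Ω),
      Pool.MicA.Gdk D n K₀ z i j i' j' X bb ω → ∀ y : Fin (n - 1) → ℝ,
      (∀ l, |y l| ≤ C₀) → ∀ l,
      |eval y (pderiv l (Pool.MicA.kpA D n K₀ z i j i' j' X bb ω)) -
        eval y (pderiv l (Pool.MicA.kp0 D n z i j i' j' ω))| ≤ 2 ^ (c * z) / 2 ^ X := by
  classical
  obtain ⟨c, z₀, h⟩ := grad_kpR n K K₀ C₀ hn hC₀ hK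
  refine ⟨c, z₀, ?_⟩
  intro z X bb i j i' j' D hz hP hG dP dG hf h1 h2 ω hd y hy l
  have e : Pool.MicA.kpA D n K₀ z i j i' j' X bb ω = Pool.MicA.kpR D n K₀ z i j i' j' X ω -
      C (coeff 0 (Pool.MicA.kpR D n K₀ z i j i' j' X ω)) := by
    unfold Pool.MicA.kpA
    rw [if_pos hd]
  rw [e, map_sub, pderiv_C, sub_zero]
  exact h z X i j i' j' D hz hP hG dP dG hf h1 h2 ω y hy l

end Pool.STAT.GluK
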