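import Pool.Agent.H55.GEN.Glu
import Pool.Agent.H55.GEN.GluK
import Pool.Agent.H20.MIC.UniD

/-!
# Gluing of germs: the conclusion of the local theorem

`glu_thm`: if the gradient of the own shape `kpA` at the base pair `(i, j)` agrees at the relative
time, up to `2 ^ (-R)`, with the gradient of a polynomial which is a function of the line and of a
cell of the relative time of length `2 ^ (-k z)`, on an event of probability at least `c₁`, then
there is a new label of the target at `(i + k, j + k)`.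
-/

set_option autoImplicit false

namespace Pool.STAT.Glu

open Finset MvPolynomial
open Pool.Agent.H49.Ent Pool.Agent.H32.Dense Pool.STK Pool.KA Pool.K2S
open Pool.BFL (Pl Pb)
open Pool.STAT.CLO

/-! ### Probability -/

theorem Pb_and_ge {Ω : Type} [Fintype Ω] {q : Ω → ℝ} (hq : ∀ ω, 0 ≤ q ω) (E A : Ω → Prop) :
    Pb q E - Pb q (fun ω => ¬ A ω) ≤ Pb q (fun ω => E ω ∧ A ω) := by
  classical
  unfold Pool.BFL.Pb
  rw [sub_le_iff_le_add, ← Finset.sum_add_distrib]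
  refine Finset.sum_le_sum fun ω _ => ?_
  have := hq ω
  by_cases h1 : E ω <;> by_cases h2 : A ω <;> simp [h1, h2, this]

theorem Pb_all_ge {Ω : Type} [Fintype Ω] {q : Ω → ℝ} (hq : ∀ ω, 0 ≤ q ω) (E : Ω → Prop)
    (A : ℕ → Ω → Prop) (η : ℝ) (m : ℕ) (h : ∀ l < m, Pb q (fun ω => ¬ A l ω) ≤ η) :
    Pb q E - m * η ≤ Pb q (fun ω => E ω ∧ ∀ l < m, A l ω) := by
  induction m with
  | zero =>
    rw [Nat.cast_zero, zero_mul, sub_zero]
    exact le_of_eq (congrArg (Pb q) (funext fun ω => propext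
      ⟨fun h => ⟨h, fun l hl => absurd hl (Nat.not_lt_zero _)⟩, fun h => h.1⟩))
  | succ m ih =>
    have h1 := ih fun l hl => h l (by omega)
    have h2 := Pb_and_ge hq (fun ω => E ω ∧ ∀ l < m, A l ω) (A m)
    have h3 := h m (Nat.lt_succ_self m)
    have e : (fun ω => (E ω ∧ ∀ l < m, A l ω) ∧ A m ω) = fun ω => E ω ∧ ∀ l < m + 1, A l ω := by
      funext ω
      refine propext ⟨fun h => ⟨h.1.1, fun l hl => ?_⟩, fun h => ⟨⟨h.1, fun l hl =>
        h.2 l (by omega)⟩, h.2 m (Nat.lt_succ_self m)⟩⟩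
      rcases Nat.lt_succ_iff_lt_or_eq.1 hl with h4 | rfl
      · exact h.1.2 l h4
      · exact h.2
    rw [e] at h2
    push_cast
    linarith

/-! ### Mean value -/

/-- Mean value inequality for the difference of a polynomial and of a polynomial with one more
variable at a fixed value of this variable. -/
theorem mv2 {m : ℕ} (F : Pl m) (H : Pl (m + 1)) (θ ε : ℝ) (y y' : Fin m → ℝ)
    (hD : ∀ w : Fin m → ℝ, (∀ i, |w i| ≤ 1) → ∀ l, |eval w (pderiv l F) -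
      eval (Fin.cons θ w : Fin (m + 1) → ℝ) (pderiv l.succ H)| ≤ ε)
    (hy : ∀ i, |y i| ≤ 1) (hy' : ∀ i, |y' i| ≤ 1) :
    |(eval y' F - eval (Fin.cons θ y' : Fin (m + 1) → ℝ) H) -
      (eval y F - eval (Fin.cons θ y : Fin (m + 1) → ℝ) H)| ≤ ε * (2 * m) := by
  obtain ⟨c, hc⟩ : ∃ c : Fin (m + 1) → ℝ, c = Fin.cons θ y := ⟨_, rfl⟩
  obtain ⟨d, hd⟩ : ∃ d : Fin (m + 1) → ℝ, d = Fin.cons 0 (fun j => y' j - y j) := ⟨_, rfl⟩
  have hcd : ∀ t : ℝ, (fun j => c j + t * d j) =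
      (Fin.cons θ (fun j => y j + t * (y' j - y j)) : Fin (m + 1) → ℝ) := by
    intro t
    funext j
    rw [hc, hd]
    refine Fin.cases ?_ (fun j => ?_) j
    · simp
    · simp
  have hw : ∀ t : ℝ, 0 ≤ t → t ≤ 1 → ∀ i, |y i + t * (y' i - y i)| ≤ 1 := by
    intro t h0 h1 i
    have e : y i + t * (y' i - y i) = (1 - t) * y i + t * y' i := by ring
    rw [e]
    refine (abs_add_le _ _).trans ?_
    rw [abs_mul, abs_mul, abs_of_nonneg h0, abs_of_nonneg (by linarith : (0 : ℝ) ≤ 1 - t)]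
    have h2 := mul_le_mul_of_nonneg_left (hy i) (by linarith : (0 : ℝ) ≤ 1 - t)
    have h3 := mul_le_mul_of_nonneg_left (hy' i) h0
    linarith
  have h1 : ∀ t ∈ Set.Icc (0 : ℝ) 1, HasDerivWithinAt
      (fun t : ℝ => eval (fun j => y j + t * (y' j - y j)) F - eval (fun j => c j + t * d j) H)
      ((∑ j, (y' j - y j) * eval (fun j => y j + t * (y' j - y j)) (pderiv j F)) -
        ∑ j, d j * eval (fun j => c j + t * d j) (pderiv j H))
      (Set.Icc (0 : ℝ) 1) t := fun t _ =>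
    ((Pool.OVN.hasDerivAt_line F y (fun j => y' j - y j) t).sub
      (Pool.OVN.hasDerivAt_line H c d t)).hasDerivWithinAt
  have hε : m = 0 ∨ 0 ≤ ε := by
    rcases Nat.eq_zero_or_pos m with h | h
    · exact Or.inl h
    · exact Or.inr ((abs_nonneg _).trans (hD y hy ⟨0, h⟩))
  have h2 : ∀ t ∈ Set.Ico (0 : ℝ) 1,
      ‖(∑ j, (y' j - y j) * eval (fun j => y j + t * (y' j - y j)) (pderiv j F)) -
        ∑ j, d j * eval (fun j => c j + t * d j) (pderiv j H)‖ ≤ ε * (2 * m) := by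
    intro t ht
    rw [Real.norm_eq_abs, hcd, Fin.sum_univ_succ]
    have e0 : d 0 = 0 := by rw [hd]; simp
    have e1 : ∀ j : Fin m, d j.succ = y' j - y j := by
      intro j
      rw [hd]
      simp
    rw [e0, zero_mul, zero_add]
    simp only [e1]
    rw [← Finset.sum_sub_distrib]
    refine (Finset.abs_sum_le_sum_abs _ _).trans ?_
    have e2 : ε * (2 * (m : ℝ)) = ∑ _j : Fin m, 2 * ε := by
      rw [Finset.sum_const, Finset.card_univ, Fintype.card_fin, nsmul_eq_mul]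
      ring
    rw [e2]
    refine Finset.sum_le_sum fun j _ => ?_
    rw [← mul_sub, abs_mul]
    have e3 := hD _ (hw t ht.1 ht.2.le) j
    have e4 : |y' j - y j| ≤ 2 := by
      refine (abs_sub _ _).trans ?_
      linarith [hy j, hy' j]
    exact mul_le_mul e4 e3 (abs_nonneg _) (by norm_num)
  have h3 := norm_image_sub_le_of_norm_deriv_le_segment_01' h1 h2
  rw [Real.norm_eq_abs] at h3
  have e5 : (fun j => c j + (1 : ℝ) * d j) = (Fin.cons θ y' : Fin (m + 1) → ℝ) := by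
    rw [hcd]
    congr 1
    funext j
    ring
  have e6 : (fun j => c j + (0 : ℝ) * d j) = (Fin.cons θ y : Fin (m + 1) → ℝ) := by
    rw [hcd]
    congr 1
    funext j
    ring
  have e7 : (fun j => y j + (1 : ℝ) * (y' j - y j)) = y' := by
    funext j
    ring
  have e8 : (fun j => y j + (0 : ℝ) * (y' j - y j)) = y := by
    funext j
    ring
  simp only [e5, e6, e7, e8] at h3
  exact h3

/-! ### The polynomial in natural coordinates -/

/-- The change of the coordinates. -/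
noncomputable def chg (z m : ℕ) (s : ℝ) (i : Fin (m + 1)) : PN :=
  if (i : ℕ) = 0 then X 0 + C s else C (1 / (4 * 2 ^ z)) * (X (i : ℕ) + C (2 * 2 ^ z))

/-- A polynomial in the relative time and the scaled coordinates, in natural coordinates. -/
noncomputable def hnat (z m : ℕ) (s : ℝ) (H : Pl (m + 1)) : PN := aeval (chg z m s) H

theorem eval_hnat (z m : ℕ) (s : ℝ) (H : Pl (m + 1)) (u : ℕ → ℝ) :
    eval u (hnat z m s H) = eval (Fin.cons (u 0 + s)
      (fun l : Fin m => Pool.MicA.up z (u (l + 1))) : Fin (m + 1) → ℝ) H := by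
  unfold hnat
  have e1 : eval u (aeval (chg z m s) H) = eval (fun i => eval u (chg z m s i)) H := by
    have h := eval₂Hom_bind₁ (RingHom.id ℝ) u (chg z m s) H
    exact h
  rw [e1]
  congr 2
  funext i
  refine Fin.cases ?_ (fun l => ?_) i
  · rw [Fin.cons_zero]
    unfold chg
    rw [if_pos (by simp), map_add, eval_X, eval_C]
  · rw [Fin.cons_succ]
    unfold chg Pool.MicA.up
    rw [if_neg (by simp), eval_mul, eval_C, map_add, eval_X, eval_C, Fin.val_succ]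
    rw [one_div, inv_mul_eq_div]

theorem chg_deg (z m : ℕ) (s : ℝ) (i : Fin (m + 1)) : (chg z m s i).totalDegree ≤ 1 := by
  unfold chg
  split_ifs
  · refine (totalDegree_add _ _).trans (max_le ?_ ?_)
    · rw [totalDegree_X]
    · rw [totalDegree_C]
      exact zero_le_one
  · refine (totalDegree_mul _ _).trans ?_
    rw [totalDegree_C, zero_add]
    refine (totalDegree_add _ _).trans (max_le ?_ ?_)
    · rw [totalDegree_X]
    · rw [totalDegree_C]
      exact zero_le_one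

theorem hnat_deg (z m : ℕ) (s : ℝ) {H : Pl (m + 1)} {K₂ : ℕ} (h : H.totalDegree ≤ K₂) :
    (hnat z m s H).totalDegree ≤ K₂ := by
  unfold hnat
  rw [aeval_def, eval₂_eq]
  refine totalDegree_finsetSum_le fun d hd => ?_
  refine (totalDegree_mul _ _).trans ?_
  have h0 : (algebraMap ℝ PN (coeff d H)).totalDegree = 0 := by
    rw [algebraMap_eq, totalDegree_C]
  rw [h0, zero_add]
  refine (totalDegree_finsetProd _ _).trans ?_
  refine (Finset.sum_le_sum (g := fun j => d j) fun j _ => ?_).trans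
    ((le_totalDegree hd).trans h)
  refine (totalDegree_pow _ _).trans ?_
  calc d j * _ ≤ d j * 1 := Nat.mul_le_mul_left _ (chg_deg z m s j)
    _ = d j := Nat.mul_one _

theorem hnat_vars (z m : ℕ) (s : ℝ) (H : Pl (m + 1)) :
    (hnat z m s H).vars ⊆ range (m + 1) := by
  intro k hk
  obtain ⟨i, _, hki⟩ := mem_vars_bind₁ (chg z m s) H hk
  have h : (chg z m s i).vars ⊆ range (m + 1) := by
    unfold chg
    split_ifs
    · exact AdxRow.vars_add_le (AdxRow.vars_X_le (Nat.succ_pos _)) (AdxRow.vars_C_le _)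
    · exact AdxRow.vars_mul_le (AdxRow.vars_C_le _)
        (AdxRow.vars_add_le (AdxRow.vars_X_le i.2) (AdxRow.vars_C_le _))
  exact h hki

/-! ### The hypothesis -/

/-- The hypothesis at one sample: the gradient of the own shape. -/
def EvK (D : NDat2) (n K₀ J w₀ z i j i' j' X bb e R : ℕ)
    (H : D.Λ × ℕ → ℤ → Pl (n - 1 + 1)) (ω : D.Ω) : Prop :=
  Pool.MicA.Gdk D n K₀ z i j i' j' X bb ω ∧ ∀ y : Fin (n - 1) → ℝ, (∀ l, |y l| ≤ 1) → ∀ l,
    |eval y (pderiv l (Pool.MicA.kpA D n K₀ z i j i' j' X bb ω)) -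
      eval (Fin.cons ((Pool.MicA.thr D J (w₀ + j * z) ω : ℝ) / 2 ^ (J - (w₀ + j * z))) y :
        Fin (n - 1 + 1) → ℝ) (pderiv l.succ (H (D.wn J (w₀ + j * z) ω)
          ⌊(Pool.MicA.thr D J (w₀ + j * z) ω : ℝ) / 2 ^ (J - (w₀ + j * z)) * 2 ^ e⌋))| *
      2 ^ R ≤ 2

/-- The polynomial of the line in natural coordinates, at one sample. -/
noncomputable def hnω (D : NDat2) (n J w₀ z i j e : ℕ) (H : D.Λ × ℕ → ℤ → Pl (n - 1 + 1))
    (ω : D.Ω) : PN :=
  hnat z (n - 1) ((2 : ℝ) ^ (w₀ + j * z) * eval (fun _ => 0) (D.Φ i j ω 0) -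
      ((D.T ω / 2 ^ (J - (w₀ + j * z)) : ℕ) : ℝ))
    (H (D.wn J (w₀ + j * z) ω)
      ⌊(Pool.MicA.thr D J (w₀ + j * z) ω : ℝ) / 2 ^ (J - (w₀ + j * z)) * 2 ^ e⌋)

/-- The relative time. -/
theorem rel_time {D : NDat2} {J w : ℕ} (hw : w ≤ J) (ω : D.Ω)
    (hX : D.X ω 0 = (D.T ω : ℝ) / 2 ^ J) : (Pool.MicA.thr D J w ω : ℝ) / 2 ^ (J - w) =
      2 ^ w * D.X ω 0 - ((D.T ω / 2 ^ (J - w) : ℕ) : ℝ) := by
  have h1 : ((D.T ω : ℕ) : ℝ) = 2 ^ (J - w) * ((D.T ω / 2 ^ (J - w) : ℕ) : ℝ) +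
      (Pool.MicA.thr D J w ω : ℝ) := by
    have := Nat.div_add_mod (D.T ω) (2 ^ (J - w))
    unfold Pool.MicA.thr
    exact_mod_cast this.symm
  have h2 : (2 : ℝ) ^ J = 2 ^ (J - w) * 2 ^ w := by rw [← pow_add, Nat.sub_add_cancel hw]
  rw [hX, h2, h1]
  field_simp
  ring

/-- The point of the box is the point of the chart at the exact time. -/
theorem pt_box {g : ℕ → ℕ} {Φ : ℕ → PN} (hΦ : TriN Φ) {n : ℕ} {b : ℕ → ℝ} (k : ℕ) (hk : k < n) :
    Pool.MIC.Frm.pt g (atT (b 0) Φ) (Pool.MIC.Frm.ex1 fun l : Fin (n - 1) =>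
      nc g Φ b ((l : ℕ) + 1)) k = b k := by
  induction k using Nat.strong_induction_on with
  | _ k ih =>
    rw [Pool.MIC.Frm.pt_eq (Pool.MicA.tri_atT hΦ _)]
    by_cases h0 : k = 0
    · subst h0
      have e2 : atT (b 0) Φ 0 = C (b 0) := by
        unfold atT
        rw [Function.update_self]
      rw [e2, eval_C, Pool.MIC.Frm.ex1_zero, zero_div, add_zero]
    · have e2 : atT (b 0) Φ k = Φ k := by
        unfold atT
        rw [Function.update_of_ne h0]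
      have e3 : Pool.MIC.Frm.ex1 (fun l : Fin (n - 1) => nc g Φ b ((l : ℕ) + 1)) k =
          nc g Φ b k := by
        unfold Pool.MIC.Frm.ex1
        rw [dif_pos ⟨by omega, by omega⟩]
        show nc g Φ b (k - 1 + 1) = nc g Φ b k
        congr 1
        omega
      have e4 : eval (Pool.MIC.Frm.pt g (atT (b 0) Φ) (Pool.MIC.Frm.ex1 fun l : Fin (n - 1) =>
          nc g Φ b ((l : ℕ) + 1))) (Φ k) = eval b (Φ k) :=
        Pool.SYS35.eval_congr (hΦ k) fun k' hk' => ih k' hk' (by omega)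
      rw [e2, e3, e4]
      unfold nc
      field_simp
      ring

/-- `kk` in the scaled coordinates. -/
theorem kk_scaled {D : NDat2} {n J w₀ z i j i' j' e : ℕ} {H : D.Λ × ℕ → ℤ → Pl (n - 1 + 1)}
    (hP : ∀ i j x, TriN (D.P i j x)) (hG : ∀ i j x, TriN (D.G i j x))
    (hg0 : D.g i j 0 = w₀ + j * z) (hw : w₀ + j * z ≤ J) {ω : D.Ω}
    (hX : D.X ω 0 = (D.T ω : ℝ) / 2 ^ J) {b : ℕ → ℝ} (hb : b 0 = D.X ω 0) :
    kk (D.g i j) (D.Φ i j ω) n (D.Ψ i' j' ω n) (hnω D n J w₀ z i j e H ω) b =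
      eval (fun l : Fin (n - 1) => Pool.MicA.up z (nc (D.g i j) (D.Φ i j ω) b ((l : ℕ) + 1)))
        (Pool.MicA.kp0 D n z i j i' j' ω) -
      eval (Fin.cons ((Pool.MicA.thr D J (w₀ + j * z) ω : ℝ) / 2 ^ (J - (w₀ + j * z)))
        (fun l : Fin (n - 1) => Pool.MicA.up z (nc (D.g i j) (D.Φ i j ω) b ((l : ℕ) + 1))) :
          Fin (n - 1 + 1) → ℝ) (H (D.wn J (w₀ + j * z) ω)
          ⌊(Pool.MicA.thr D J (w₀ + j * z) ω : ℝ) / 2 ^ (J - (w₀ + j * z)) * 2 ^ e⌋) := by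
  have hΦ : TriN (D.Φ i j ω) := hP _ _ _
  have h2z : (4 * (2 : ℝ) ^ z) ≠ 0 := by positivity
  unfold kk hnω
  rw [eval_hnat, Pool.MicA.eval_kp0]
  have e1 : (fun l : Fin (n - 1) => 4 * 2 ^ z * (Pool.MicA.up z
      (nc (D.g i j) (D.Φ i j ω) b ((l : ℕ) + 1))) - 2 * 2 ^ z) =
      fun l : Fin (n - 1) => nc (D.g i j) (D.Φ i j ω) b ((l : ℕ) + 1) := by
    funext l
    unfold Pool.MicA.up
    rw [mul_div_cancel₀ _ h2z]
    ring
  have e2 : ∀ F : PN, F.vars ⊆ range n → eval (Pool.MicA.spt (n - 1) z (D.g i j) (D.Φ i j ω)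
      (D.X ω 0) fun l : Fin (n - 1) => Pool.MicA.up z
        (nc (D.g i j) (D.Φ i j ω) b ((l : ℕ) + 1))) F = eval b F := by
    intro F hF
    unfold Pool.MicA.spt
    rw [e1, ← hb]
    exact Pool.SYS35.eval_congr hF fun k hk => pt_box hΦ k hk
  rw [e2 (D.Ψ i' j' ω n) (hG _ _ _ n), e2 (D.Φ i j ω n) (hP _ _ _ n)]
  have e3 : nc (D.g i j) (D.Φ i j ω) b 0 + ((2 : ℝ) ^ (w₀ + j * z) *
      eval (fun _ => 0) (D.Φ i j ω 0) - ((D.T ω / 2 ^ (J - (w₀ + j * z)) : ℕ) : ℝ)) =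
      (Pool.MicA.thr D J (w₀ + j * z) ω : ℝ) / 2 ^ (J - (w₀ + j * z)) := by
    rw [rel_time hw ω hX]
    unfold nc
    have e4 : eval b (D.Φ i j ω 0) = eval (fun _ => (0 : ℝ)) (D.Φ i j ω 0) :=
      Pool.SYS35.eval_congr (hΦ 0) fun i hi => absurd hi (Nat.not_lt_zero _)
    rw [e4, hg0, hb]
    ring
  rw [e3]

theorem up_le {z : ℕ} {x : ℝ} (hx : |x| ≤ 1) : |Pool.MicA.up z x| ≤ 1 := by
  have h1 : (1 : ℝ) ≤ 2 ^ z := one_le_pow₀ (by norm_num)
  rw [abs_le] at hx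
  unfold Pool.MicA.up
  rw [abs_le]
  constructor
  · rw [le_div_iff₀ (by positivity)]
    linarith [hx.1]
  · rw [div_le_one (by positivity)]
    linarith [hx.2]

/-- **The own condition** from the gradients. -/
theorem own_of_grad (n K K₀ : ℕ) (hn : 1 ≤ n) (hK : K * (K + 1) ^ n ≤ K₀) :
    ∃ c z₀ : ℕ, ∀ (J w₀ z i j i' j' X bb e R : ℕ) (D : NDat2)
      (H : D.Λ × ℕ → ℤ → Pl (n - 1 + 1)), z₀ ≤ z → (∀ i j x, TriN (D.P i j x)) →
      (∀ i j x, TriN (D.G i j x)) → (∀ i j x l, (D.P i j x l).totalDegree ≤ K) →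
      (∀ i j x l, (D.G i j x l).totalDegree ≤ K) → Pool.MicA.Fat D n i j i' j' →
      D.g i j n < D.g i' j' n → D.g i j n + X ≤ D.g i' j' n → R ≤ X →
      D.g i j 0 = w₀ + j * z → w₀ + j * z ≤ J → ∀ ω : D.Ω,
      D.X ω 0 = (D.T ω : ℝ) / 2 ^ J → EvK D n K₀ J w₀ z i j i' j' X bb e R H ω →
      ∀ b b' : ℕ → ℝ, Bt 1 (Et (D.X ω 0)) (D.g i j) (D.Φ i j ω) n b →
        Bt 1 (Et (D.X ω 0)) (D.g i j) (D.Φ i j ω) n b' →
        |kk (D.g i j) (D.Φ i j ω) n (D.Ψ i' j' ω n) (hnω D n J w₀ z i j e H ω) b -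
          kk (D.g i j) (D.Φ i j ω) n (D.Ψ i' j' ω n) (hnω D n J w₀ z i j e H ω) b'| ≤
            2 ^ (c * z) / 2 ^ R := by
  obtain ⟨c, z₀, hgr⟩ := GluK.grad_kpA n K K₀ 1 hn le_rfl hK
  refine ⟨c + 1, max z₀ (6 * n), ?_⟩
  intro J w₀ z i j i' j' X bb e R D H hz hP hG dP dG hf h1 h2 hRX hg0 hw ω hX hE b b' hb hb'
  have hzn : 6 * (n : ℝ) ≤ 2 ^ z := by
    have e1 : ((6 * n : ℕ) : ℝ) ≤ z := by exact_mod_cast (le_max_right _ _).trans hz
    have e2 : (z : ℝ) ≤ 2 ^ z := by exact_mod_cast Nat.lt_two_pow_self.le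
    push_cast at e1
    linarith
  have hmv := mv2 (Pool.MicA.kp0 D n z i j i' j' ω) (H (D.wn J (w₀ + j * z) ω)
    ⌊(Pool.MicA.thr D J (w₀ + j * z) ω : ℝ) / 2 ^ (J - (w₀ + j * z)) * 2 ^ e⌋)
    ((Pool.MicA.thr D J (w₀ + j * z) ω : ℝ) / 2 ^ (J - (w₀ + j * z)))
    ((2 ^ (c * z) + 2) / 2 ^ R)
    (fun l : Fin (n - 1) => Pool.MicA.up z (nc (D.g i j) (D.Φ i j ω) b' ((l : ℕ) + 1)))
    (fun l : Fin (n - 1) => Pool.MicA.up z (nc (D.g i j) (D.Φ i j ω) b ((l : ℕ) + 1)))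
    (by
      intro w hw' l
      have k1 := hgr z X bb i j i' j' D ((le_max_left _ _).trans hz) hP hG dP dG hf h1 h2 ω hE.1
        w hw' l
      have k2 := hE.2 w hw' l
      have h2R : (0 : ℝ) < 2 ^ R := by positivity
      rw [← le_div_iff₀ h2R] at k2
      have k3 : (2 : ℝ) ^ (c * z) / 2 ^ X ≤ 2 ^ (c * z) / 2 ^ R :=
        div_le_div_of_nonneg_left (by positivity) (by positivity)
          (pow_le_pow_right₀ (by norm_num) hRX)
      rw [add_div]
      rw [abs_le] at k1 k2 ⊢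
      constructor <;> linarith [k1.1, k1.2, k2.1, k2.2])
    (fun l => up_le (nc_le.2 (hb'.2 _ (by omega) (by have := l.2; omega))))
    (fun l => up_le (nc_le.2 (hb.2 _ (by omega) (by have := l.2; omega))))
  rw [kk_scaled hP hG hg0 hw hX hb.1, kk_scaled hP hG hg0 hw hX hb'.1]
  refine hmv.trans ?_
  have o1 : (1 : ℝ) ≤ 2 ^ (c * z) := one_le_pow₀ (by norm_num)
  have e1 : ((n - 1 : ℕ) : ℝ) ≤ n := by exact_mod_cast Nat.sub_le n 1
  have e2 : ((2 : ℝ) ^ (c * z) + 2) / 2 ^ R * (2 * ((n - 1 : ℕ) : ℝ)) =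
      (2 ^ (c * z) + 2) * (2 * ((n - 1 : ℕ) : ℝ)) / 2 ^ R := by ring
  rw [e2]
  refine div_le_div_of_nonneg_right ?_ (by positivity)
  have e3 : (2 : ℝ) ^ ((c + 1) * z) = 2 ^ (c * z) * 2 ^ z := by
    rw [← pow_add]
    congr 1
    ring
  rw [e3]
  calc ((2 : ℝ) ^ (c * z) + 2) * (2 * ((n - 1 : ℕ) : ℝ)) ≤ (3 * 2 ^ (c * z)) * (2 * n) := by
        refine mul_le_mul (by linarith) (by linarith) (by positivity) (by positivity)
    _ = 2 ^ (c * z) * (6 * n) := by ring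
    _ ≤ 2 ^ (c * z) * 2 ^ z := mul_le_mul_of_nonneg_left hzn (by positivity)

/-! ### The theorem -/

theorem c_diag {D : NDat2} {n K J a₀ w₀ z M : ℕ} {lam gam : ℕ → ℝ} {κ C₁ : ℝ} {q : D.Ω → ℝ}
    (h : D.Ok2 n K J a₀ w₀ z M lam gam κ C₁ q) {i j : ℕ} (k : ℕ) (hi : i + k ≤ M)
    (hj : j + k ≤ M) : Det q (D.c (i + k) (j + k)) (D.c i j) := by
  induction k with
  | zero => exact fun _ _ _ _ e => e
  | succ k ih =>
    intro ω ω' h1 h2 e
    exact ih (by omega) (by omega) ω ω' h1 h2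
      (h.c_ij (i + k) (by omega) (j + k) (by omega) ω ω' h1 h2 e)

/-- The cell of the relative time is a function of the longer window. -/
theorem cell_det {D : NDat2} {J w e : ℕ} (hw : w + e ≤ J) (ω ω' : D.Ω)
    (h : D.T ω / 2 ^ (J - (w + e)) = D.T ω' / 2 ^ (J - (w + e))) :
    ⌊(Pool.MicA.thr D J w ω : ℝ) / 2 ^ (J - w) * 2 ^ e⌋ =
      ⌊(Pool.MicA.thr D J w ω' : ℝ) / 2 ^ (J - w) * 2 ^ e⌋ := by
  have key : ∀ ω : D.Ω, ⌊(Pool.MicA.thr D J w ω : ℝ) / 2 ^ (J - w) * 2 ^ e⌋ =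
      ((D.T ω / 2 ^ (J - (w + e)) % 2 ^ e : ℕ) : ℤ) := by
    intro ω
    have e1 : J - w = (J - (w + e)) + e := by omega
    have e2 : (Pool.MicA.thr D J w ω : ℝ) / 2 ^ (J - w) * 2 ^ e =
        (Pool.MicA.thr D J w ω : ℝ) / ((2 ^ (J - (w + e)) : ℕ) : ℝ) := by
      rw [e1, pow_add, Nat.cast_pow, Nat.cast_ofNat]
      field_simp
    rw [e2]
    have e3 : ⌊(Pool.MicA.thr D J w ω : ℝ) / ((2 ^ (J - (w + e)) : ℕ) : ℝ)⌋ =
        ((Pool.MicA.thr D J w ω / 2 ^ (J - (w + e)) : ℕ) : ℤ) := by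
      rw [← Int.natCast_floor_eq_floor (by positivity), Nat.floor_div_eq_div]
    rw [e3]
    congr 1
    unfold Pool.MicA.thr
    rw [e1, pow_add, Nat.mod_mul_right_div_self]
  rw [key, key, h]

/-- **The conclusion of the local theorem.** -/
theorem glu_thm (n K K₀ K₂ : ℕ) (C₁ c₁ : ℝ) (hn : 1 ≤ n) (hc₁ : 0 < c₁)
    (hK : K * (K + 1) ^ n ≤ K₀) :
    ∃ (CG : ℕ) (κ₀ : ℝ) (z₀ : ℕ), 0 < κ₀ ∧
    ∀ (A k J a₀ w₀ z M i j i' j' X bb R : ℕ) (lam gam : ℕ → ℝ) (D : NDat2) (q : D.Ω → ℝ)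
      (H : D.Λ × ℕ → ℤ → Pl (n - 1 + 1)), z₀ ≤ z → i + k < M → j + k ≤ M → i' ≤ i + k →
      j' ≤ M → Pool.MicA.Fat D n i j i' j' → D.Ok2 n K J a₀ w₀ z M lam gam κ₀ C₁ q →
      D.TmU J w₀ z κ₀ q →
      Pool.MIC.UniD.Ful D n i j z (κ₀ * z) q (fun ω => (D.s i' j' ω, (D.c i j ω, D.T ω))) →
      (∀ x c, (H x c).totalDegree ≤ K₂) → D.g i j n + X ≤ D.g i' j' n → R ≤ X →
      D.g (i + k) (j + k) n + (A + CG) * z ≤ D.g i' j' n →
      D.g (i + k) (j + k) n + (A + CG) * z ≤ D.g i j n + R →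
      c₁ ≤ Pb q (EvK D n K₀ J w₀ z i j i' j' X bb (k * z) R H) →
      D.NewLab2 J a₀ w₀ z (i + k) (j + k) n A (kN K K₂) (c₁ / 4) q := by
  classical
  obtain ⟨B₁, hB₁⟩ := exists_nat_ge (2 * C₁)
  obtain ⟨c, z₁, hown⟩ := own_of_grad n K K₀ hn hK
  obtain ⟨CG₀, κc, zc, hκc, hcore⟩ := glu_core n K K₂ (B₁ + 1) (c₁ / 2) hn (by positivity)
  obtain ⟨η, hη⟩ : ∃ η : ℝ, η = min 1 (c₁ / (4 * n)) := ⟨_, rfl⟩
  have hn0 : (0 : ℝ) < n := by exact_mod_cast hn
  have hη0 : 0 < η := by rw [hη]; positivity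
  obtain ⟨κu, zu, hκu, huni⟩ := Pool.MIC.UniD.uni2 n K 1 (1 / 2) η zero_le_one (by norm_num)
    (by norm_num) hη0 (by rw [hη]; exact min_le_left _ _)
  refine ⟨CG₀ + c + B₁ + 1, min κc κu, max (max z₁ zc) (max zu 1), lt_min hκc hκu, ?_⟩
  intro A k J a₀ w₀ z M i j i' j' X bb R lam gam D q H hz hi hj hi' hj' hf hO hT hful hH hX hRX
    hg1 hg2 hE
  have hz1 : z₁ ≤ z := ((le_max_left _ _).trans (le_max_left _ _)).trans hz
  have hzc : zc ≤ z := ((le_max_right _ _).trans (le_max_left _ _)).trans hz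
  have hzu : zu ≤ z := ((le_max_left _ _).trans (le_max_right _ _)).trans hz
  have hz1' : 1 ≤ z := ((le_max_right _ _).trans (le_max_right _ _)).trans hz
  have hz0 : (0 : ℝ) ≤ z := Nat.cast_nonneg z
  have hzR : (1 : ℝ) ≤ z := by exact_mod_cast hz1'
  have hq := hO.isLaw
  have hC₁0 : 0 ≤ C₁ ∨ n = 1 ∧ True := by
    left
    have := hO.hom i (by omega) j (by omega) n hn le_rfl
    have h1 := (abs_nonneg _).trans this
    nlinarith
  -- the levels
  have hlev : ∀ l, 1 ≤ l → l ≤ n → D.g i j l ≤ D.g (i + k) (j + k) l + B₁ * z := by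
    intro l l1 l2
    have h1 := hO.hom i (by omega) j (by omega) l l1 l2
    have h2 := hO.hom (i + k) (by omega) (j + k) hj l l1 l2
    rw [abs_le] at h1 h2
    have h3 := hO.lam_ge l
    have h4 := hO.gam_ge l
    have h5 : 0 ≤ (lam l * k + gam l * k) * z := by
      have : (0 : ℝ) ≤ k := Nat.cast_nonneg k
      have h6 : 0 ≤ lam l * k := mul_nonneg (by linarith) this
      have h7 : 0 ≤ gam l * k := mul_nonneg h4 this
      positivity
    have h6 : (lam l * ((i + k : ℕ) : ℝ) + gam l * ((j + k : ℕ) : ℝ)) * z =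
        (lam l * i + gam l * j) * z + (lam l * k + gam l * k) * z := by
      push_cast
      ring
    rw [h6] at h2
    have h7 : 2 * C₁ * z ≤ B₁ * z := mul_le_mul_of_nonneg_right hB₁ hz0
    have h8 : (D.g i j l : ℝ) ≤ D.g (i + k) (j + k) l + B₁ * z := by
      linarith [h1.1, h1.2, h2.1, h2.2]
    exact_mod_cast h8
  have hexp : Real.exp (1 / 2 * z) ≤ 2 ^ z := by
    have h1 : (1 : ℝ) / 2 * z ≤ z * Real.log 2 := by
      have := Real.log_two_gt_d9
      nlinarith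
    calc Real.exp (1 / 2 * z) ≤ Real.exp (z * Real.log 2) := Real.exp_le_exp.2 h1
      _ = 2 ^ z := by rw [mul_comm, Real.exp_mul, Real.exp_log (by norm_num), Real.rpow_natCast]
  -- the base is full
  have hful1 : Pool.MIC.UniD.Ful D n (i + k) (j + k) z (κu * z) q
      (fun ω => (D.s i j ω, (D.c (i + k) (j + k) ω, D.T ω))) := by
    have h1 := hO.full (i + k) (by omega) (j + k) hj 1 (by omega)
    rw [Nat.one_mul] at h1
    have h2 : CH q (D.vd n (i + k) (j + k) z)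
        (fun ω => (D.s i j ω, (D.c (i + k) (j + k) ω, D.T ω))) =
        CH q (D.vd n (i + k) (j + k) z) (fun ω => (D.c (i + k) (j + k) ω, D.T ω)) := by
      refine CH_congr hq.nonneg (fun _ _ _ _ h => (Prod.ext_iff.1 h).1)
        (fun _ _ _ _ h => (Prod.ext_iff.1 h).1) (fun _ _ _ _ h => (Prod.ext_iff.1 h).2) ?_
      intro ω ω' p1 p2 h
      have h3 := c_diag hO k (by omega) hj ω ω' p1 p2 (Prod.ext_iff.1 h).1
      have h4 : D.T ω = D.T ω' := (Prod.ext_iff.1 h).2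
      have h5 := hO.s_c i (by omega) j (by omega) ω ω' p1 p2
        (show (D.c i j ω, D.T ω) = (D.c i j ω', D.T ω') from Prod.ext h3 h4)
      exact Prod.ext h5 h
    unfold Pool.MIC.UniD.Ful
    rw [h2]
    have h6 : min κc κu * (z : ℝ) ≤ κu * z := mul_le_mul_of_nonneg_right (min_le_right _ _) hz0
    push_cast at h1
    linarith
  have hful2 : Pool.MIC.UniD.Ful D n i j z (κu * z) q
      (fun ω => (D.s i' j' ω, (D.c i j ω, D.T ω))) := by
    unfold Pool.MIC.UniD.Ful at hful ⊢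
    have h6 : min κc κu * (z : ℝ) ≤ κu * z := mul_le_mul_of_nonneg_right (min_le_right _ _) hz0
    linarith
  -- the two families of events
  obtain ⟨E1, hE1⟩ : ∃ E1 : ℕ → D.Ω → Prop, E1 = fun l ω => 1 ≤ l → ∀ b : ℕ → ℝ,
      b 0 = D.X ω 0 → (∀ m, 1 ≤ m → m < l → |b m - eval b (D.Ψ (i + k) (j + k) ω m)| ≤
        1 / 2 ^ D.g (i + k) (j + k) m) →
      |eval b (D.Ψ i j ω l) - eval b (D.Ψ (i + k) (j + k) ω l)| ≤
        Real.exp (1 / 2 * z) / 2 ^ (min (D.g i j l) (D.g (i + k) (j + k) l)) := ⟨_, rfl⟩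
  obtain ⟨E2, hE2⟩ : ∃ E2 : ℕ → D.Ω → Prop, E2 = fun l ω => 1 ≤ l → ∀ b : ℕ → ℝ,
      b 0 = D.X ω 0 → (∀ m, 1 ≤ m → m < l → |b m - eval b (D.Ψ i j ω m)| ≤
        1 / 2 ^ D.g i j m) →
      |eval b (D.Ψ i' j' ω l) - eval b (D.Ψ i j ω l)| ≤
        Real.exp (1 / 2 * z) / 2 ^ (min (D.g i' j' l) (D.g i j l)) := ⟨_, rfl⟩
  have hfalse : Pb q (fun _ => ¬ True) ≤ η := by
    unfold Pool.BFL.Pb
    simp only [not_true_eq_false, if_false, Finset.sum_const_zero]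
    exact hη0.le
  have P1 : ∀ l < n, Pb q (fun ω => ¬ E1 l ω) ≤ η := by
    intro l hl
    by_cases h0 : l = 0
    · refine le_trans (Pool.MIC.Frm.Pb_supp hq.nonneg fun ω _ hb => ?_) hfalse
      rw [hE1] at hb
      exact fun _ => hb fun h => absurd h (by omega)
    · refine le_trans (Pool.MIC.Frm.Pb_supp hq.nonneg fun ω _ hb => ?_)
        (huni J a₀ w₀ z M lam gam (min κc κu) C₁ D q hzu hO i j (i + k) (j + k) z (by omega)
          (by omega) (by omega) hj le_rfl hful1 l (by omega) hl.le)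
      intro hc
      rw [hE1] at hb
      exact hb fun _ => hc
  have P2 : ∀ l < n, Pb q (fun ω => ¬ E2 l ω) ≤ η := by
    intro l hl
    by_cases h0 : l = 0
    · refine le_trans (Pool.MIC.Frm.Pb_supp hq.nonneg fun ω _ hb => ?_) hfalse
      rw [hE2] at hb
      exact fun _ => hb fun h => absurd h (by omega)
    · refine le_trans (Pool.MIC.Frm.Pb_supp hq.nonneg fun ω _ hb => ?_)
        (huni J a₀ w₀ z M lam gam (min κc κu) C₁ D q hzu hO i' j' i j z (by omega)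
          hj' (by omega) (by omega) le_rfl hful2 l (by omega) hl.le)
      intro hc
      rw [hE2] at hb
      exact hb fun _ => hc
  have hη' : (n : ℝ) * η ≤ c₁ / 4 := by
    have h1 : η ≤ c₁ / (4 * n) := by rw [hη]; exact min_le_right _ _
    calc (n : ℝ) * η ≤ n * (c₁ / (4 * n)) := mul_le_mul_of_nonneg_left h1 hn0.le
      _ = c₁ / 4 := by field_simp
  have Q1 := Pb_all_ge hq.nonneg (EvK D n K₀ J w₀ z i j i' j' X bb (k * z) R H) E1 η n P1
  have Q2 := Pb_all_ge hq.nonneg (fun ω => EvK D n K₀ J w₀ z i j i' j' X bb (k * z) R H ω ∧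
    ∀ l < n, E1 l ω) E2 η n P2
  -- the polynomial of the line
  have hkz : w₀ + (j + k) * z = w₀ + j * z + k * z := by ring
  have hthin := hO.thin
  have htop := hO.top
  have hjM : (j + k) * z ≤ (M + 1) * z := Nat.mul_le_mul_right _ (by omega)
  have hwJ : w₀ + j * z + k * z ≤ J := by rw [← hkz]; omega
  obtain ⟨H', hH1, hH2⟩ := detF (q := q) (X := D.wn J (w₀ + (j + k) * z))
    (Y := hnω D n J w₀ z i j (k * z) H) (0 : PN) (by
    intro ω ω' p1 p2 h
    have h1 : D.wn J (w₀ + j * z) ω = D.wn J (w₀ + j * z) ω' :=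
      wn_det (by rw [hkz]; omega) (by rw [hkz]; exact hwJ) ω ω' p1 p2 h
    have h2 : D.T ω / 2 ^ (J - (w₀ + j * z + k * z)) = D.T ω' / 2 ^ (J - (w₀ + j * z + k * z)) := by
      have := (Prod.ext_iff.1 h).2
      rw [← hkz]
      exact this
    have h3 := cell_det hwJ ω ω' h2
    have h4 : D.Φ i j ω = D.Φ i j ω' := by
      unfold NDat2.Φ
      rw [hO.c_wn i (by omega) j (by omega) ω ω' p1 p2 h1]
    have h5 : D.T ω / 2 ^ (J - (w₀ + j * z)) = D.T ω' / 2 ^ (J - (w₀ + j * z)) :=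
      (Prod.ext_iff.1 h1).2
    unfold hnω
    rw [h1, h3, h4, h5])
  have hXg : D.g i j n < D.g i' j' n := by
    have h1 := hlev n hn le_rfl
    have h2 : (A + (CG₀ + c + B₁ + 1)) * z = (A + CG₀ + c) * z + B₁ * z + z := by ring
    omega
  -- the margin
  obtain ⟨R', hR'⟩ : ∃ R', R = R' + c * z := by
    refine ⟨R - c * z, ?_⟩
    have h1 := hlev n hn le_rfl
    have h2 : (A + (CG₀ + c + B₁ + 1)) * z = (A + CG₀) * z + c * z + B₁ * z + z := by ring
    omega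
  have hm : (A + (CG₀ + c + B₁ + 1)) * z = (A + CG₀) * z + c * z + (B₁ + 1) * z := by ring
  have e4 : c₁ / 4 = c₁ / 2 / 2 := by ring
  rw [e4]
  refine hcore A J a₀ w₀ z M i j i' j' (i + k) (j + k) R' lam gam (min κc κu) (min κc κu) C₁ D q
    H' hzc (min_le_left _ _) (by omega) hi' (by omega) (by omega) hj hj' hO hT
    (fun x => ?_) (fun x => ?_) (fun l l1 l2 => ?_) (fun l l1 l2 => ?_) (by omega) (by omega) ?_
  · rcases hH2 x with ⟨ω, _, h2⟩ | h2
    · rw [h2]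
      exact hnat_deg _ _ _ (hH _ _)
    · rw [h2, totalDegree_zero]
      exact Nat.zero_le _
  · rcases hH2 x with ⟨ω, _, h2⟩ | h2
    · rw [h2]
      have := hnat_vars z (n - 1) ((2 : ℝ) ^ (w₀ + j * z) * eval (fun _ => 0) (D.Φ i j ω 0) -
        ((D.T ω / 2 ^ (J - (w₀ + j * z)) : ℕ) : ℝ)) (H (D.wn J (w₀ + j * z) ω)
        ⌊(Pool.MicA.thr D J (w₀ + j * z) ω : ℝ) / 2 ^ (J - (w₀ + j * z)) * 2 ^ (k * z)⌋)
      rw [Nat.sub_add_cancel hn] at this
      exact this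
    · rw [h2, vars_0]
      exact Finset.empty_subset _
  · have h1 := hlev l l1 l2.le
    have h2 : (B₁ + 1) * z = B₁ * z + z := by ring
    omega
  · exact (hf l l1 l2).trans (Nat.le_add_right _ _)
  · have hle : c₁ / 2 ≤ Pb q (fun ω => (EvK D n K₀ J w₀ z i j i' j' X bb (k * z) R H ω ∧
        ∀ l < n, E1 l ω) ∧ ∀ l < n, E2 l ω) := by linarith
    refine hle.trans (Pool.MIC.Frm.Pb_supp hq.nonneg fun ω hω hev => ?_)
    obtain ⟨⟨v1, v2⟩, v3⟩ := hev
    have hee : (2 : ℝ) ^ ((B₁ + 1) * z) = 2 ^ (B₁ * z) * 2 ^ z := by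
      rw [← pow_add]
      congr 1
      ring
    refine ⟨?_, ?_, ?_⟩
    · intro l l1 l2 b hb
      have h1 := v2 l l2
      rw [hE1] at h1
      refine (h1 l1 b hb.1 fun m m1 m2 => hb.2 m m1 m2).trans ?_
      have h2 := hlev l l1 l2.le
      rw [hee, div_le_div_iff₀ (by positivity) (by positivity)]
      have h3 : (2 : ℝ) ^ D.g i j l ≤ 2 ^ (B₁ * z) * 2 ^ min (D.g i j l)
          (D.g (i + k) (j + k) l) := by
        rw [← pow_add]
        refine pow_le_pow_right₀ (by norm_num) ?_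
        rcases le_total (D.g i j l) (D.g (i + k) (j + k) l) with h5 | h5
        · rw [min_eq_left h5]
          omega
        · rw [min_eq_right h5]
          omega
      calc Real.exp (1 / 2 * z) * 2 ^ D.g i j l ≤ 2 ^ z * (2 ^ (B₁ * z) *
            2 ^ min (D.g i j l) (D.g (i + k) (j + k) l)) :=
            mul_le_mul hexp h3 (by positivity) (by positivity)
        _ = 2 ^ (B₁ * z) * 2 ^ z * 2 ^ min (D.g i j l) (D.g (i + k) (j + k) l) := by ring
    · intro l l1 l2 b hb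
      have h1 := v3 l l2
      rw [hE2] at h1
      refine (h1 l1 b hb.1 fun m m1 m2 => hb.2 m m1 m2).trans ?_
      rw [min_eq_left (hf l l1 l2)]
      refine div_le_div_of_nonneg_right ?_ (by positivity)
      rw [hee]
      calc Real.exp (1 / 2 * z) = 1 * Real.exp (1 / 2 * z) := (one_mul _).symm
        _ ≤ 2 ^ (B₁ * z) * 2 ^ z := mul_le_mul (one_le_pow₀ (by norm_num)) hexp
            (Real.exp_pos _).le (by positivity)
    · intro b b' hb hb'
      rw [hH1 ω hω]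
      have h1 := hown J w₀ z i j i' j' X bb (k * z) R D H hz1 hO.P_tri hO.G_tri hO.P_deg hO.G_deg
        hf hXg hX hRX (hO.g_zero i j) (by omega) ω (hO.X_zero ω) v1 b b' hb hb'
      refine h1.trans (le_of_eq ?_)
      rw [hR', pow_add]
      field_simp

end Pool.STAT.Glu
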