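import Pool.Agent.H55.GEN.TupC

/-!
# Extension by the nodes

The law `tup p L (m + 1)` of the tuples of `m + 2` samples of one line is considered as a law of
samples: the last one is the sample (`sm`), the times `Wn` of the others (the nodes) are a part of
the line `(L, Wn)`. `ext_CH`, `tup_CH`, `tup_CH_le`, `ext_mi`, `ext_ch`, `ext_time`: entropies.
`ext_ker`, `ext_tup`, `ext_dbl`: the conditional laws on the lines are the old ones.
-/

set_option autoImplicit false

namespace Pool.SLO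

open Finset Real
open Pool.Agent.H49.Ent Pool.Agent.H32.Dense Pool.STK Pool.KAF Pool.KVA

variable {Ω Λ τ β S U V W : Type} [Fintype Ω] {p : Ω → ℝ}

/-- The sample. -/
def sm {m : ℕ} (v : Fin (m + 2) → Ω) : Ω := v (Fin.last (m + 1))

/-- The times of the nodes. -/
def Wn {m : ℕ} (T : Ω → τ) (v : Fin (m + 2) → Ω) (i : Fin (m + 1)) : τ := T (v i.castSucc)

/-- The line with the nodes. -/
def Lx {m : ℕ} (L : Ω → Λ) (T : Ω → τ) (v : Fin (m + 2) → Ω) : Λ × (Fin (m + 1) → τ) :=
  (L (v 0), Wn T v)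

/-- The glued law. -/
noncomputable def gl (p : Ω → ℝ) (L : Ω → Λ) (m : ℕ) : (Fin (m + 1) → Ω) × Ω → ℝ :=
  glue (tup p L m) p (fun v => L (v 0)) L

theorem gl_marg (hp : ∀ ω, 0 ≤ p ω) (L : Ω → Λ) (m : ℕ) :
    Marg (tup p L (m + 1)) (gl p L m) (fun v => (Fin.init v, v (Fin.last (m + 1)))) :=
  tup_snoc hp L m

theorem gl_nonneg (hp : ∀ ω, 0 ≤ p ω) (L : Ω → Λ) (m : ℕ) (w : (Fin (m + 1) → Ω) × Ω) :
    0 ≤ gl p L m w :=
  glue_nonneg (tup_nonneg hp L m) hp w

theorem gl_pos (hp : ∀ ω, 0 ≤ p ω) (L : Ω → Λ) (m : ℕ) {w : (Fin (m + 1) → Ω) × Ω}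
    (h : 0 < gl p L m w) : 0 < tup p L m w.1 ∧ 0 < p w.2 ∧ L (w.1 0) = L w.2 :=
  (glue_pos_iff (tup_nonneg hp L m) hp w).1 h

theorem tup_pos' (hp : ∀ ω, 0 ≤ p ω) (L : Ω → Λ) {N : ℕ} {v : Fin (N + 1) → Ω}
    (h : 0 < tup p L N v) (j : Fin (N + 1)) : 0 < p (v j) ∧ L (v j) = L (v 0) :=
  ⟨((tup_pos_iff hp L N v).1 h).1 j, ((tup_pos_iff hp L N v).1 h).2 j⟩

/-! ### Entropies -/

/-- A function of the sample, given the line. -/
theorem ext_CH0 (hp : ∀ ω, 0 ≤ p ω) (L : Ω → Λ) (T : Ω → τ) (m : ℕ) (Y : Ω → S) :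
    CH (gl p L m) (fun w => Y w.2) (fun w => (L (w.1 0), fun j => T (w.1 j))) = CH p Y L := by
  have h1 := CH_glue_snd (tup_nonneg hp L m) hp (tup_law hp L m) Y (Y := L)
    (fun v : Fin (m + 1) → Ω => fun j => T (v j)) (fun _ _ _ _ h => h)
  rw [← h1]
  refine CH_congr (gl_nonneg hp L m) (fun _ _ _ _ h => (Prod.ext_iff.1 h).1)
    (fun _ _ _ _ h => (Prod.ext_iff.1 h).1) ?_ ?_
  · intro w w' hw hw' h
    have h2 := (gl_pos hp L m hw).2.2
    have h3 := (gl_pos hp L m hw').2.2
    have h4 := Prod.ext_iff.1 h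
    exact Prod.ext (h2.symm.trans (h4.1.trans h3)) h4.2
  · intro w w' hw hw' h
    have h2 := (gl_pos hp L m hw).2.2
    have h3 := (gl_pos hp L m hw').2.2
    have h4 := Prod.ext_iff.1 h
    exact Prod.ext (h2.trans (h4.1.trans h3.symm)) h4.2

/-- **(x1)** A function of the sample, given the line with the nodes. -/
theorem ext_CH (hp : ∀ ω, 0 ≤ p ω) (L : Ω → Λ) (T : Ω → τ) (m : ℕ) (Y : Ω → S) :
    CH (tup p L (m + 1)) (fun v => Y (sm v)) (Lx L T) = CH p Y L := by
  rw [← ext_CH0 hp L T m Y]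
  exact (gl_marg hp L m).CH (fun w => Y w.2) (fun w => (L (w.1 0), fun j => T (w.1 j)))

/-- The entropy of a function of the nodes given the sample. -/
theorem nodes_given (hp : ∀ ω, 0 ≤ p ω) (L : Ω → Λ) (m : ℕ) (F : (Fin (m + 1) → Ω) → S) :
    CH (gl p L m) (fun w => F w.1) (fun w => w.2) = CH (tup p L m) F (fun v => L (v 0)) := by
  have h1 := CH_glue_fst (tup_nonneg hp L m) hp (tup_law hp L m) F
    (Y := fun v : Fin (m + 1) → Ω => L (v 0)) (fun ω : Ω => ω) (fun _ _ _ _ h => h)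
  rw [← h1]
  refine CH_congr (gl_nonneg hp L m) (fun _ _ _ _ h => (Prod.ext_iff.1 h).1)
    (fun _ _ _ _ h => (Prod.ext_iff.1 h).1) ?_ ?_
  · intro w w' hw hw' h
    have h2 := (gl_pos hp L m hw).2.2
    have h3 := (gl_pos hp L m hw').2.2
    exact Prod.ext (h2.trans ((congrArg L h).trans h3.symm)) h
  · intro w w' hw hw' h
    exact (Prod.ext_iff.1 h).2

/-- Transport of all the times. -/
theorem tup_times_split (hp : ∀ ω, 0 ≤ p ω) (L : Ω → Λ) (T : Ω → τ) (m : ℕ) {Z : Type}
    (Y : Λ → Z) :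
    CH (tup p L (m + 1)) (fun v j => T (v j)) (fun v => Y (L (v 0))) =
      CH (gl p L m) (fun w => (T w.2, fun j => T (w.1 j))) (fun w => Y (L (w.1 0))) := by
  rw [← (gl_marg hp L m).CH]
  refine CH_congr (tup_nonneg hp L (m + 1)) ?_ ?_ (fun _ _ _ _ h => h) (fun _ _ _ _ h => h)
  · intro v v' _ _ h
    have h1 : (fun j => T (v j)) = fun j => T (v' j) := (Prod.ext_iff.1 h).1
    exact Prod.ext (congrFun h1 (Fin.last (m + 1)))
      (funext fun j => congrFun h1 j.castSucc)
  · intro v v' _ _ h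
    have h1 := (Prod.ext_iff.1 h).1
    have h2 : T (v (Fin.last (m + 1))) = T (v' (Fin.last (m + 1))) := (Prod.ext_iff.1 h1).1
    have h3 : (fun j => T (Fin.init v j)) = fun j => T (Fin.init v' j) := (Prod.ext_iff.1 h1).2
    funext j
    show T (v j) = T (v' j)
    refine Fin.lastCases h2 (fun i => ?_) j
    exact congrFun h3 i

theorem tup_zero_CH (hp : ∀ ω, 0 ≤ p ω) (L : Ω → Λ) (T : Ω → τ) {Z : Type} (Y : Λ → Z) :
    CH (tup p L 0) (fun v j => T (v j)) (fun v => Y (L (v 0))) = CH p T (fun ω => Y (L ω)) := by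
  have h1 := (tup_marg hp L 0 0).CH T (fun ω => Y (L ω))
  rw [← h1]
  refine CH_congr (tup_nonneg hp L 0) ?_ ?_ (fun _ _ _ _ h => h) (fun _ _ _ _ h => h)
  · intro v v' _ _ h
    exact congrFun (Prod.ext_iff.1 h).1 0
  · intro v v' _ _ h
    have h2 : T (v 0) = T (v' 0) := (Prod.ext_iff.1 h).1
    funext j
    show T (v j) = T (v' j)
    rw [show j = 0 from Fin.ext (by omega), h2]

/-- **(x2)** The times of a tuple, given the line. -/
theorem tup_CH (hp : ∀ ω, 0 ≤ p ω) (L : Ω → Λ) (T : Ω → τ) (N : ℕ) :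
    CH (tup p L N) (fun v j => T (v j)) (fun v => L (v 0)) = (N + 1) * CH p T L := by
  induction N with
  | zero =>
    rw [tup_zero_CH hp L T (fun z => z)]
    push_cast
    ring
  | succ m ih =>
    rw [tup_times_split hp L T m (fun z => z), CH_chain (gl_nonneg hp L m)]
    have h1 : CH (gl p L m) (fun w => fun j => T (w.1 j)) (fun w => L (w.1 0)) =
        CH (tup p L m) (fun v j => T (v j)) (fun v => L (v 0)) :=
      (marg_fst (tup_nonneg hp L m) (tup_law hp L m)).CH (fun v j => T (v j)) (fun v => L (v 0))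
    have h2 : CH (gl p L m) (fun w => T w.2) (fun w => ((fun j => T (w.1 j)), L (w.1 0))) =
        CH p T L := by
      rw [← ext_CH0 hp L T m T]
      exact CH_congr (gl_nonneg hp L m) (fun _ _ _ _ h => (Prod.ext_iff.1 h).1)
        (fun _ _ _ _ h => (Prod.ext_iff.1 h).1)
        (fun _ _ _ _ h => Prod.ext (Prod.ext_iff.1 h).2 (Prod.ext_iff.1 h).1)
        (fun _ _ _ _ h => Prod.ext (Prod.ext_iff.1 h).2 (Prod.ext_iff.1 h).1)
    rw [h1, h2, ih]
    push_cast
    ring

/-- **(x2)** The times of a tuple, given a function of the line. -/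
theorem tup_CH_le (hp : ∀ ω, 0 ≤ p ω) (L : Ω → Λ) (T : Ω → τ) (B : Λ → β) (N : ℕ) :
    CH (tup p L N) (fun v j => T (v j)) (fun v => B (L (v 0))) ≤
      (N + 1) * CH p T (fun ω => B (L ω)) := by
  induction N with
  | zero =>
    rw [tup_zero_CH hp L T B]
    push_cast
    linarith
  | succ m ih =>
    rw [tup_times_split hp L T m B]
    refine (CH_subadd (gl_nonneg hp L m) _ _ _).trans ?_
    have h1 : CH (gl p L m) (fun w => fun j => T (w.1 j)) (fun w => B (L (w.1 0))) =
        CH (tup p L m) (fun v j => T (v j)) (fun v => B (L (v 0))) :=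
      (marg_fst (tup_nonneg hp L m) (tup_law hp L m)).CH (fun v j => T (v j))
        (fun v => B (L (v 0)))
    have h2 : CH (gl p L m) (fun w => T w.2) (fun w => B (L (w.1 0))) =
        CH p T (fun ω => B (L ω)) := by
      rw [← (marg_snd hp (tup_law hp L m)).CH T (fun ω => B (L ω))]
      refine CH_congr (gl_nonneg hp L m) (fun _ _ _ _ h => (Prod.ext_iff.1 h).1)
        (fun _ _ _ _ h => (Prod.ext_iff.1 h).1) ?_ ?_
      · intro w w' hw hw' h
        have h3 := (gl_pos hp L m hw).2.2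
        have h4 := (gl_pos hp L m hw').2.2
        show B (L w.2) = B (L w'.2)
        rw [← h3, ← h4]
        exact h
      · intro w w' hw hw' h
        have h3 := (gl_pos hp L m hw).2.2
        have h4 := (gl_pos hp L m hw').2.2
        show B (L (w.1 0)) = B (L (w'.1 0))
        rw [h3, h4]
        exact h
    rw [h1, h2]
    push_cast
    linarith

/-- The mutual information of the time and the line, given a function of the line. -/
theorem mi_lineB (hp : ∀ ω, 0 ≤ p ω) (L : Ω → Λ) (T : Ω → τ) (B : Λ → β) :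
    MI p T L (fun ω => B (L ω)) = CH p T (fun ω => B (L ω)) - CH p T L := by
  rw [CLU.MI_eq hp]
  congr 1
  exact CH_congr hp (fun _ _ _ _ h => (Prod.ext_iff.1 h).1)
    (fun _ _ _ _ h => (Prod.ext_iff.1 h).1) (fun _ _ _ _ h => (Prod.ext_iff.1 h).1)
    (fun _ _ _ _ h => Prod.ext h (congrArg B h))

/-- The information of the nodes, given the context. -/
theorem nodes_le (hp : ∀ ω, 0 ≤ p ω) (L : Ω → Λ) (T : Ω → τ) (B : Λ → β) (m : ℕ) :
    CH (gl p L m) (fun w => fun j => T (w.1 j)) (fun w => B (L (w.1 0))) -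
      CH (gl p L m) (fun w => fun j => T (w.1 j)) (fun w => w.2) ≤
        (m + 1) * MI p T L (fun ω => B (L ω)) := by
  have h1 : CH (gl p L m) (fun w => fun j => T (w.1 j)) (fun w => B (L (w.1 0))) =
      CH (tup p L m) (fun v j => T (v j)) (fun v => B (L (v 0))) :=
    (marg_fst (tup_nonneg hp L m) (tup_law hp L m)).CH (fun v j => T (v j))
      (fun v => B (L (v 0)))
  have h2 := nodes_given hp L m (fun v j => T (v j))
  rw [h1, h2, tup_CH hp, mi_lineB hp]
  have h3 := tup_CH_le hp L T B m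
  linarith

/-- The information of the nodes on functions of the sample: `b` contains the context, `b` and `X`
are functions of the sample. -/
theorem nodes_mi (hp : ∀ ω, 0 ≤ p ω) (L : Ω → Λ) (T : Ω → τ) (B : Λ → β) (m : ℕ)
    (X : Ω → S) (b : Ω → U) (hb : Det p b (fun ω => B (L ω))) :
    MI (gl p L m) (fun w => X w.2) (fun w => fun j => T (w.1 j)) (fun w => b w.2) ≤
      (m + 1) * MI p T L (fun ω => B (L ω)) := by
  have h0 := gl_nonneg hp L m
  rw [Pool.OC.mi_comm _ _ _ h0, CLU.MI_eq h0]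
  refine le_trans ?_ (nodes_le hp L T B m)
  have h1 : CH (gl p L m) (fun w => fun j => T (w.1 j)) (fun w => b w.2) ≤
      CH (gl p L m) (fun w => fun j => T (w.1 j)) (fun w => B (L (w.1 0))) := by
    refine CH_mono_cond h0 ?_
    intro w w' hw hw' h
    have h3 := gl_pos hp L m hw
    have h4 := gl_pos hp L m hw'
    show B (L (w.1 0)) = B (L (w'.1 0))
    rw [h3.2.2, h4.2.2]
    exact hb w.2 w'.2 h3.2.1 h4.2.1 h
  have h2 : CH (gl p L m) (fun w => fun j => T (w.1 j)) (fun w => w.2) ≤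
      CH (gl p L m) (fun w => fun j => T (w.1 j)) (fun w => (X w.2, b w.2)) := by
    refine CH_mono_cond h0 ?_
    intro w w' _ _ h
    have h5 : w.2 = w'.2 := h
    show (X w.2, b w.2) = (X w'.2, b w'.2)
    rw [h5]
  linarith

/-- **(x3a)** The height against the line with the nodes. -/
theorem ext_mi (hp : IsLaw p) (L : Ω → Λ) (T : Ω → τ) (B : Λ → β) (m : ℕ) (N : Ω → S)
    (V : Λ → U) (hT : Det p T (fun ω => B (L ω))) :
    MI (tup p L (m + 1)) (fun v => N (sm v)) (fun v => (V (L (v 0)), Wn T v))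
      (fun v => T (sm v)) ≤
      MI p N (fun ω => V (L ω)) T + (m + 1) * MI p T L (fun ω => B (L ω)) := by
  have hp0 := hp.nonneg
  have h0 := gl_nonneg hp0 L m
  have e1 : MI (tup p L (m + 1)) (fun v => N (sm v)) (fun v => (V (L (v 0)), Wn T v))
      (fun v => T (sm v)) =
      MI (gl p L m) (fun w => N w.2) (fun w => (V (L (w.1 0)), fun j => T (w.1 j)))
        (fun w => T w.2) :=
    Pool.OC.marg_mi (gl_marg hp0 L m) (fun w => N w.2)
      (fun w => (V (L (w.1 0)), fun j => T (w.1 j))) (fun w => T w.2)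
  rw [e1, Pool.OC.mi_chain h0]
  have h1 : MI (gl p L m) (fun w => N w.2) (fun w => V (L (w.1 0))) (fun w => T w.2) =
      MI p N (fun ω => V (L ω)) T := by
    rw [← Pool.OC.marg_mi (marg_snd hp0 (tup_law hp0 L m)) N (fun ω => V (L ω)) T]
    have k1 : ∀ w, 0 < gl p L m w → V (L (w.1 0)) = V (L w.2) := fun w hw => by
      rw [(gl_pos hp0 L m hw).2.2]
    refine le_antisymm ?_ ?_
    · refine Pool.OC.mi_shift h0 _ _ _ _ _ ?_ (fun _ _ _ _ h => h)
      intro w w' hw hw' h
      have h5 := Prod.ext_iff.1 h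
      exact Prod.ext ((k1 w hw).trans (h5.1.trans (k1 w' hw').symm)) h5.2
    · refine Pool.OC.mi_shift h0 _ _ _ _ _ ?_ (fun _ _ _ _ h => h)
      intro w w' hw hw' h
      have h5 := Prod.ext_iff.1 h
      exact Prod.ext ((k1 w hw).symm.trans (h5.1.trans (k1 w' hw'))) h5.2
  have h2 : MI (gl p L m) (fun w => N w.2) (fun w => fun j => T (w.1 j))
      (fun w => (V (L (w.1 0)), T w.2)) ≤ (m + 1) * MI p T L (fun ω => B (L ω)) := by
    refine le_trans ?_ (nodes_mi hp0 L T B m N (fun ω => (V (L ω), T ω)) ?_)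
    · refine Pool.OC.mi_shift h0 _ _ _ _ _ ?_ ?_
      · intro w w' hw hw' h
        have h5 := Prod.ext_iff.1 h
        have h6 := Prod.ext_iff.1 h5.2
        refine Prod.ext h5.1 (Prod.ext ?_ h6.2)
        show V (L (w.1 0)) = V (L (w'.1 0))
        rw [(gl_pos hp0 L m hw).2.2, (gl_pos hp0 L m hw').2.2]
        exact h6.1
      · intro w w' hw hw' h
        have h6 := Prod.ext_iff.1 h
        refine Prod.ext ?_ h6.2
        show V (L w.2) = V (L w'.2)
        rw [← (gl_pos hp0 L m hw).2.2, ← (gl_pos hp0 L m hw').2.2]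
        exact h6.1
    · intro ω ω' a b h
      exact hT ω ω' a b (Prod.ext_iff.1 h).2
  rw [h1]
  linarith

/-- **(x3b)** Functions of the line, given the data and the nodes. -/
theorem ext_ch (hp : IsLaw p) (L : Ω → Λ) (T : Ω → τ) (B : Λ → β) (m : ℕ) (y : Λ → S)
    (Z : Λ → U) (hZ : Det p (fun ω => Z (L ω)) (fun ω => B (L ω))) :
    CH p (fun ω => y (L ω)) (fun ω => Z (L ω)) - (m + 1) * MI p T L (fun ω => B (L ω)) ≤
      CH (tup p L (m + 1)) (fun v => y (L (v 0))) (fun v => (Z (L (v 0)), Wn T v)) := by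
  have hp0 := hp.nonneg
  have h0 := gl_nonneg hp0 L m
  have e1 : CH (tup p L (m + 1)) (fun v => y (L (v 0))) (fun v => (Z (L (v 0)), Wn T v)) =
      CH (gl p L m) (fun w => y (L (w.1 0))) (fun w => (Z (L (w.1 0)), fun j => T (w.1 j))) :=
    (gl_marg hp0 L m).CH (fun w => y (L (w.1 0)))
      (fun w => (Z (L (w.1 0)), fun j => T (w.1 j)))
  have e2 : CH (gl p L m) (fun w => y (L (w.1 0)))
      (fun w => (Z (L (w.1 0)), fun j => T (w.1 j))) =
      CH (gl p L m) (fun w => y (L w.2)) (fun w => ((fun j => T (w.1 j)), Z (L w.2))) := by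
    have k1 : ∀ w, 0 < gl p L m w → L (w.1 0) = L w.2 := fun w hw => (gl_pos hp0 L m hw).2.2
    refine CH_congr h0 ?_ ?_ ?_ ?_
    · intro w w' hw hw' h
      show y (L w.2) = y (L w'.2)
      rw [← k1 w hw, ← k1 w' hw']
      exact (Prod.ext_iff.1 h).1
    · intro w w' hw hw' h
      show y (L (w.1 0)) = y (L (w'.1 0))
      rw [k1 w hw, k1 w' hw']
      exact (Prod.ext_iff.1 h).1
    · intro w w' hw hw' h
      have h5 := Prod.ext_iff.1 h
      refine Prod.ext h5.2 ?_
      show Z (L w.2) = Z (L w'.2)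
      rw [← k1 w hw, ← k1 w' hw']
      exact h5.1
    · intro w w' hw hw' h
      have h5 := Prod.ext_iff.1 h
      refine Prod.ext ?_ h5.1
      show Z (L (w.1 0)) = Z (L (w'.1 0))
      rw [k1 w hw, k1 w' hw']
      exact h5.2
  have h1 := nodes_mi hp0 L T B m (fun ω => y (L ω)) (fun ω => Z (L ω)) hZ
  rw [CLU.MI_eq h0] at h1
  have h2 : CH (gl p L m) (fun w => y (L w.2)) (fun w => Z (L w.2)) =
      CH p (fun ω => y (L ω)) (fun ω => Z (L ω)) :=
    (marg_snd hp0 (tup_law hp0 L m)).CH (fun ω => y (L ω)) (fun ω => Z (L ω))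
  rw [h2] at h1
  rw [e1, e2]
  linarith

/-- **(x3c)** The time of the sample against the line with the nodes. -/
theorem ext_time (hp : IsLaw p) (L : Ω → Λ) (T : Ω → τ) (B : Λ → β) (m : ℕ) {S' : Type}
    (Y : Ω → S') :
    MI (tup p L (m + 1)) (fun v => Y (sm v)) (Lx L T) (fun v => B (L (v 0))) =
      MI p Y L (fun ω => B (L ω)) := by
  have hp0 := hp.nonneg
  have h0 := tup_nonneg hp0 L (m + 1)
  rw [CLU.MI_eq h0, mi_lineB hp0, ← ext_CH hp0 L T m Y]
  congr 1
  · rw [← (tup_marg hp0 L (m + 1) (Fin.last (m + 1))).CH Y (fun ω => B (L ω))]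
    refine CH_congr h0 (fun _ _ _ _ h => (Prod.ext_iff.1 h).1)
      (fun _ _ _ _ h => (Prod.ext_iff.1 h).1) ?_ ?_
    · intro v v' hv hv' h
      show B (L (v (Fin.last (m + 1)))) = B (L (v' (Fin.last (m + 1))))
      rw [(tup_pos' hp0 L hv _).2, (tup_pos' hp0 L hv' _).2]
      exact h
    · intro v v' hv hv' h
      show B (L (v 0)) = B (L (v' 0))
      rw [← (tup_pos' hp0 L hv (Fin.last (m + 1))).2,
        ← (tup_pos' hp0 L hv' (Fin.last (m + 1))).2]
      exact h
  · refine CH_congr h0 (fun _ _ _ _ h => (Prod.ext_iff.1 h).1)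
      (fun _ _ _ _ h => (Prod.ext_iff.1 h).1) (fun _ _ _ _ h => (Prod.ext_iff.1 h).1) ?_
    intro v v' _ _ h
    exact Prod.ext h (congrArg B (Prod.ext_iff.1 h).1)

/-! ### The conditional laws -/

open Classical in
/-- **(x4)** The sample on a line with nodes. -/
theorem ext_ker (hp : ∀ ω, 0 ≤ p ω) (L : Ω → Λ) (T : Ω → τ) (m : ℕ)
    (z' : Λ × (Fin (m + 1) → τ)) (hz : 0 < law (tup p L (m + 1)) (Lx L T) z') (ω : Ω) :
    ∑ v, (if sm v = ω then cond (tup p L (m + 1)) (Lx L T) z' v else 0) =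
      cond p L z'.1 ω := by
  have h1 : law (tup p L (m + 1)) (Lx L T) z' =
      law (tup p L m) (fun v => (L (v 0), fun j => T (v j))) z' := by
    rw [show law (tup p L (m + 1)) (Lx L T) z' =
      law (gl p L m) (fun w => (L (w.1 0), fun j => T (w.1 j))) z' from
        (gl_marg hp L m).law (fun w => (L (w.1 0), fun j => T (w.1 j))) z']
    exact (marg_fst (tup_nonneg hp L m) (tup_law hp L m)).law
      (fun v => (L (v 0), fun j => T (v j))) z'
  have h2 : ∑ v, (if sm v = ω then cond (tup p L (m + 1)) (Lx L T) z' v else 0) =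
      (∑ v, (if sm v = ω ∧ Lx L T v = z' then tup p L (m + 1) v else 0)) /
        law (tup p L (m + 1)) (Lx L T) z' := by
    rw [Finset.sum_div]
    refine Finset.sum_congr rfl fun v _ => ?_
    unfold Pool.Agent.H49.Ent.cond
    by_cases a : sm v = ω
    · by_cases b : Lx L T v = z'
      · rw [if_pos a, if_pos b, if_pos ⟨a, b⟩]
      · rw [if_pos a, if_neg b, if_neg fun h => b h.2, zero_div]
    · rw [if_neg a, if_neg fun h => a h.1, zero_div]
  have h3 : ∑ v, (if sm v = ω ∧ Lx L T v = z' then tup p L (m + 1) v else 0) =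
      ∑ w : (Fin (m + 1) → Ω) × Ω,
        (if w.2 = ω ∧ (L (w.1 0), fun j => T (w.1 j)) = z' then gl p L m w else 0) := by
    have h4 := (gl_marg hp L m).ex
      (fun w => if w.2 = ω ∧ (L (w.1 0), fun j => T (w.1 j)) = z' then (1 : ℝ) else 0)
    unfold Ex at h4
    have e1 : ∀ v : Fin (m + 2) → Ω, tup p L (m + 1) v *
        (if (Fin.init v, v (Fin.last (m + 1))).2 = ω ∧
          (L ((Fin.init v, v (Fin.last (m + 1))).1 0),
            fun j => T ((Fin.init v, v (Fin.last (m + 1))).1 j)) = z' then (1 : ℝ) else 0) =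
        if sm v = ω ∧ Lx L T v = z' then tup p L (m + 1) v else 0 := by
      intro v
      by_cases a : sm v = ω ∧ Lx L T v = z'
      · rw [if_pos a]
        refine (congrArg _ (if_pos a)).trans (mul_one _)
      · rw [if_neg a]
        refine (congrArg _ (if_neg a)).trans (mul_zero _)
    have e2 : ∀ w : (Fin (m + 1) → Ω) × Ω, gl p L m w *
        (if w.2 = ω ∧ (L (w.1 0), fun j => T (w.1 j)) = z' then (1 : ℝ) else 0) =
        if w.2 = ω ∧ (L (w.1 0), fun j => T (w.1 j)) = z' then gl p L m w else 0 := by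
      intro w
      by_cases a : w.2 = ω ∧ (L (w.1 0), fun j => T (w.1 j)) = z'
      · rw [if_pos a, if_pos a, mul_one]
      · rw [if_neg a, if_neg a, mul_zero]
    rw [Finset.sum_congr rfl fun v _ => e1 v, Finset.sum_congr rfl fun w _ => e2 w] at h4
    exact h4
  have h5 : ∑ w : (Fin (m + 1) → Ω) × Ω,
        (if w.2 = ω ∧ (L (w.1 0), fun j => T (w.1 j)) = z' then gl p L m w else 0) =
      law (tup p L m) (fun v => (L (v 0), fun j => T (v j))) z' * cond p L z'.1 ω := by
    rw [Fintype.sum_prod_type]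
    unfold law
    rw [Finset.sum_mul]
    refine Finset.sum_congr rfl fun u _ => ?_
    rw [Finset.sum_eq_single ω]
    · by_cases a : (L (u 0), fun j => T (u j)) = z'
      · rw [if_pos ⟨rfl, a⟩, if_pos a]
        have e3 : L (u 0) = z'.1 := (Prod.ext_iff.1 a).1
        show (if L (u 0) = L ω then tup p L m u * p ω /
          law (tup p L m) (fun v => L (v 0)) (L (u 0)) else 0) = _
        rw [tup_law hp]
        unfold Pool.Agent.H49.Ent.cond
        by_cases b : L (u 0) = L ω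
        · rw [if_pos b, if_pos (b.symm.trans e3), e3]
          ring
        · rw [if_neg b, if_neg fun h => b (e3.trans h.symm), mul_zero]
      · rw [if_neg fun h => a h.2, if_neg a, zero_mul]
    · intro ω' _ h
      exact if_neg fun h' => h h'.1
    · intro h
      exact absurd (Finset.mem_univ _) h
  rw [h2, h3, h5, ← h1, mul_comm, mul_div_assoc, div_self hz.ne', mul_one]

/-- **(x4)** Tuples of samples with nodes. -/
theorem ext_tup (hp : IsLaw p) (L : Ω → Λ) (T : Ω → τ) (m N : ℕ) :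
    Marg (tup (tup p L (m + 1)) (Lx L T) N) (tup p L N) (fun u => fun j => sm (u j)) := by
  refine tup_map (g := Prod.fst) hp.nonneg (tup_nonneg hp.nonneg L (m + 1))
    (tup_marg hp.nonneg L (m + 1) (Fin.last (m + 1))) ?_ ?_ N
  · intro v hv
    exact (tup_pos' hp.nonneg L hv _).2
  · intro z' hz ω
    exact ext_ker hp.nonneg L T m z' hz ω

/-- **(x4)** Pairs of samples with nodes. -/
theorem ext_dbl (hp : IsLaw p) (L : Ω → Λ) (T : Ω → τ) (m : ℕ) :
    Marg (dbl (tup p L (m + 1)) (Lx L T)) (dbl p L) (fun u => (sm u.1, sm u.2)) := by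
  refine dbl_map (g := Prod.fst) hp.nonneg (tup_nonneg hp.nonneg L (m + 1))
    (tup_marg hp.nonneg L (m + 1) (Fin.last (m + 1))) ?_ ?_
  · intro v hv
    exact (tup_pos' hp.nonneg L hv _).2
  · intro z' hz ω
    exact ext_ker hp.nonneg L T m z' hz ω

end Pool.SLO
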