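import Pool.Agent.H36.KBX.Coef
import Pool.Agent.H89.GEN.Poly
import Pool.Agent.H4.KJ.J1A
import Pool.Agent.H56.KAF.Defs

/-!
# One step: a row which is not full does not see a polynomial of a full position

`one_step`: two heights `n`, `n'` with `n' = n + 2 ^ X Q (y / 2 ^ X)`, the position `y` full given
the first height and the polynomial `Q`, the second height not full on all events of probability at
least `π₀`. Then all non-constant coefficients of `Q` are at most `2 ^ (- h X)` off an event of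
probability less than `π₀`.
-/

set_option autoImplicit false

namespace Pool.DY1

open Finset Real MvPolynomial
open Pool.Agent.H49.Ent Pool.Agent.H32.Dense Pool.STK Pool.KAF Pool.POLY

variable {Ω S T : Type} [Fintype Ω]

/-- The entropy given an event. -/
theorem ev_ge {p : Ω → ℝ} (hp : IsLaw p) (E : Set Ω) (X : Ω → S) (Y : Ω → T) (M : ℝ)
    (hE : 0 < Pr p E) (hM : ∀ q : Ω → ℝ, IsLaw q → (∀ ω, 0 < q ω → 0 < p ω) → CH q X Y ≤ M) :
    M - (M - CH p X Y + Real.log 2) / Pr p E ≤ CH (cond p (fun ω => ω ∈ E) True) X Y := by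
  classical
  have hp0 := hp.nonneg
  have h1 := Pool.KJ.CH_two hp0 X Y (fun ω => ω ∈ E)
  have h2 : CH p X Y ≤ CH p (fun ω => decide (ω ∈ E)) Y +
      CH p X (fun ω => (decide (ω ∈ E), Y ω)) := CH_le_add hp0 X _ Y
  have h3 : CH p (fun ω => decide (ω ∈ E)) Y ≤ Real.log 2 := by
    have h3 := CH_le_card hp0 hp.sum_one (fun ω => decide (ω ∈ E)) Y (fun _ => Finset.univ)
      (fun ω _ => Finset.mem_univ _)
    refine h3.trans ?_
    rw [Ex_const hp.sum_one]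
    simp
  have h4 : CH p X (fun ω => (decide (ω ∈ E), Y ω)) = CH p X (fun ω => (Y ω, decide (ω ∈ E))) := by
    refine CH_congr hp0 (fun _ _ _ _ h => (Prod.ext_iff.1 h).1)
      (fun _ _ _ _ h => (Prod.ext_iff.1 h).1) ?_ ?_
    · intro ω ω' _ _ h
      exact Prod.ext (Prod.ext_iff.1 h).2 (Prod.ext_iff.1 h).1
    · intro ω ω' _ _ h
      exact Prod.ext (Prod.ext_iff.1 h).2 (Prod.ext_iff.1 h).1
  have h5 : law p (fun ω => ω ∈ E) False * CH (cond p (fun ω => ω ∈ E) False) X Y ≤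
      law p (fun ω => ω ∈ E) False * M := by
    rcases (law_nonneg hp0 (fun ω => ω ∈ E) False).eq_or_lt with h0 | h0
    · rw [← h0, zero_mul, zero_mul]
    · refine mul_le_mul_of_nonneg_left (hM _ ⟨fun ω => cond_nonneg hp0 _ _ ω,
        sum_cond p _ h0.ne'⟩ fun ω hω => ((cond_pos_iff hp0 _ _ ω).1 hω).1) h0.le
  have h6 : law p (fun ω => ω ∈ E) True + law p (fun ω => ω ∈ E) False = 1 := by
    rw [← hp.sum_one]
    unfold law
    rw [← Finset.sum_add_distrib]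
    refine Finset.sum_congr rfl fun ω _ => ?_
    by_cases h : ω ∈ E <;> simp [h]
  have h7 : Pr p E = law p (fun ω => ω ∈ E) True := rfl
  rw [h7] at hE ⊢
  rw [sub_le_iff_le_add, ← sub_le_iff_le_add', le_div_iff₀ hE]
  have h8 : (M - CH (cond p (fun ω => ω ∈ E) True) X Y) * law p (fun ω => ω ∈ E) True =
      M * law p (fun ω => ω ∈ E) True -
        law p (fun ω => ω ∈ E) True * CH (cond p (fun ω => ω ∈ E) True) X Y := by ring
  have h9 : M = M * law p (fun ω => ω ∈ E) True + law p (fun ω => ω ∈ E) False * M := by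
    have : M * law p (fun ω => ω ∈ E) True + law p (fun ω => ω ∈ E) False * M =
      M * (law p (fun ω => ω ∈ E) True + law p (fun ω => ω ∈ E) False) := by ring
    rw [this, h6, mul_one]
  rw [h8]
  linarith

/-- A non-constant coefficient gives a point of the cube with a derivative. -/
theorem grad_of_coeff (d K : ℕ) : ∃ C : ℝ, 1 ≤ C ∧ ∀ (Q : MvPolynomial (Fin d) ℝ) (ρ : ℝ)
    (m : Fin d →₀ ℕ), Q.totalDegree ≤ K → m ≠ 0 → 0 < ρ → ρ ≤ |coeff m Q| →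
    ∃ (i : Fin d) (z : Fin d → ℝ), (∀ i, |z i| ≤ 1) ∧ ρ / C ≤ |eval z (pderiv i Q)| := by
  classical
  obtain ⟨C₀, hC₀, hC⟩ := Pool.Agent.H36.KBX.coef_bound d K
  refine ⟨C₀ + 1, by linarith, fun Q ρ m hQ hm hρ hmρ => ?_⟩
  obtain ⟨i, hi⟩ : ∃ i, m i ≠ 0 := by
    by_contra h
    push Not at h
    exact hm (Finsupp.ext h)
  refine ⟨i, ?_⟩
  by_contra hcon
  push Not at hcon
  have h1 := hC (pderiv i Q) (ρ / (C₀ + 1)) (totalDegree_pderiv Q i hQ)
    (fun y hy => (hcon y hy).le) (m - Finsupp.single i 1)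
  rw [coeff_pderiv] at h1
  have h2 : m - Finsupp.single i 1 + Finsupp.single i 1 = m := by
    refine tsub_add_cancel_of_le ?_
    rw [Finsupp.single_le_iff]
    omega
  rw [h2, abs_mul] at h1
  have h3 : (1 : ℝ) ≤ |(((m - Finsupp.single i 1 : Fin d →₀ ℕ) i : ℕ) : ℝ) + 1| := by
    rw [abs_of_nonneg (by positivity)]
    have : (0 : ℝ) ≤ (((m - Finsupp.single i 1 : Fin d →₀ ℕ) i : ℕ) : ℝ) := Nat.cast_nonneg _
    linarith
  have h4 : ρ ≤ C₀ * (ρ / (C₀ + 1)) := by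
    calc ρ ≤ |coeff m Q| * 1 := by rw [mul_one]; exact hmρ
      _ ≤ |coeff m Q| * |(((m - Finsupp.single i 1 : Fin d →₀ ℕ) i : ℕ) : ℝ) + 1| :=
          mul_le_mul_of_nonneg_left h3 (abs_nonneg _)
      _ ≤ _ := h1
  have h5 : C₀ * (ρ / (C₀ + 1)) < ρ := by
    rw [mul_div_assoc', div_lt_iff₀ (by linarith)]
    nlinarith
  linarith

/-- **One step**, the core, bounded constant coefficients. -/
theorem one_core0 (d K : ℕ) (c π₀ : ℝ) (hc : 0 < c) (hc1 : c ≤ 1) (hπ : 0 < π₀) :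
    ∃ (h ε : ℝ) (X₀ : ℕ), 0 < h ∧ h ≤ 1 ∧ 0 < ε ∧ ∀ (Ω κ β : Type) [Fintype Ω] (p : Ω → ℝ)
      (X A b s : ℕ) (n n' : Ω → ℤ) (k : Ω → κ) (w : Ω → β) (Q : κ → MvPolynomial (Fin d) ℝ)
      (y : Ω → Fin d → ℤ), X₀ ≤ X → (A : ℝ) ≤ ε * X → (b : ℝ) ≤ ε * X → (s : ℝ) ≤ ε * X →
      IsLaw p → (∀ ω, 0 < p ω → ∀ i, |((y ω i : ℤ) : ℝ)| ≤ 2 ^ A * 2 ^ X) →
      (∀ v, (Q v).totalDegree ≤ K) → (∀ v m, |coeff m (Q v)| ≤ 2 ^ b) →
      (∀ ω, 0 < p ω → |((n' ω : ℤ) : ℝ) - n ω -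
        2 ^ X * eval (fun i => ((y ω i : ℤ) : ℝ) / 2 ^ X) (Q (k ω))| ≤ 2 ^ s) →
      (d : ℝ) * (X * Real.log 2) - ε * X ≤ CH p y (fun ω => (k ω, (n ω, w ω))) →
      ∀ E : Set Ω, π₀ ≤ Pr p E → (∀ ω ∈ E, 0 < p ω →
        ∃ m ≠ 0, (2 : ℝ) ^ (-(h * X)) < |coeff m (Q (k ω))|) →
      (1 - c) * (X * Real.log 2) <
        CH (cond p (fun ω => ω ∈ E) True) n' (fun ω => (k ω, (n ω, w ω))) := by
  classical
  obtain ⟨C, hC1, hpoly⟩ := poly_ent d 1 K
  obtain ⟨C₀, hC₀1, hgrad⟩ := grad_of_coeff d K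
  obtain ⟨a₀, ha₀⟩ : ∃ a₀ : ℕ, C₀ ≤ 2 ^ a₀ := by
    obtain ⟨m, hm⟩ := pow_unbounded_of_one_lt C₀ (by norm_num : (1 : ℝ) < 2)
    exact ⟨m, hm.le⟩
  have hl2 : 0 < Real.log 2 := Real.log_pos (by norm_num)
  have hl2a : 0.69 ≤ Real.log 2 := by linarith [Real.log_two_gt_d9]
  have hl2b : Real.log 2 ≤ 0.7 := by linarith [Real.log_two_lt_d9]
  have hC0 : 0 < C := by linarith
  obtain ⟨h, hh⟩ : ∃ h : ℝ, h = c / (8 * C) := ⟨_, rfl⟩
  have hh0 : 0 < h := by rw [hh]; positivity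
  have hh1 : h ≤ 1 := by
    rw [hh, div_le_one (by positivity)]
    linarith
  have hhC : C * h = c / 8 := by rw [hh]; field_simp
  obtain ⟨B₁, hB₁⟩ : ∃ B₁ : ℝ, B₁ = 2 * C + (C / h) * ((d + 1) / π₀ + 1) + 1 := ⟨_, rfl⟩
  obtain ⟨B₂, hB₂⟩ : ∃ B₂ : ℝ, B₂ = C * (a₀ + 4) + (C / h) * ((2 * d + 1) / π₀ + 1) + 3 :=
    ⟨_, rfl⟩
  have hB₁0 : 0 < B₁ := by rw [hB₁]; positivity
  have hB₂0 : 0 < B₂ := by rw [hB₂]; positivity
  obtain ⟨ε, hε⟩ : ∃ ε : ℝ, ε = c / (8 * B₁) := ⟨_, rfl⟩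
  have hε0 : 0 < ε := by rw [hε]; positivity
  have hεB : ε * B₁ = c / 8 := by rw [hε]; field_simp
  obtain ⟨X₀, hX₀⟩ := exists_nat_ge (8 * B₂ / c + 1)
  refine ⟨h, ε, X₀, hh0, hh1, hε0, ?_⟩
  intro Ω κ β _ p X A b s n n' k w Q y hX hA hb hs hp hy hQ hQb hnn hfull E hcon hE
  by_contra hNF
  push Not at hNF
  have hP0 : 0 < Pr p E := hπ.trans_le hcon
  have hX1 : (8 * B₂ / c + 1 : ℝ) ≤ X := hX₀.trans (by exact_mod_cast hX)
  have hX0 : (0 : ℝ) < X := by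
    have : 0 < 8 * B₂ / c := by positivity
    linarith
  have hXB : B₂ ≤ c / 8 * X := by
    have h1 : 8 * B₂ / c ≤ X := by linarith
    rw [div_le_iff₀ hc] at h1
    linarith
  set q : Ω → ℝ := cond p (fun ω => ω ∈ E) True with hq
  have hqlaw : IsLaw q := ⟨fun ω => cond_nonneg hp.nonneg _ _ ω, sum_cond p _ hP0.ne'⟩
  have hqp : ∀ ω, 0 < q ω → 0 < p ω ∧ ω ∈ E := by
    intro ω hω
    have h1 := (cond_pos_iff hp.nonneg _ _ ω).1 hω
    refine ⟨h1.1, ?_⟩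
    have h2 := h1.2
    simpa using h2
  -- the position is full on the event
  have hbox : ∀ q' : Ω → ℝ, IsLaw q' → (∀ ω, 0 < q' ω → 0 < p ω) →
      CH q' y (fun ω => (k ω, (n ω, w ω))) ≤ d * ((A + X + 2) * Real.log 2) := by
    intro q' hq' hqq
    have h1 := CH_le_card hq'.nonneg hq'.sum_one y (fun ω => (k ω, (n ω, w ω)))
      (fun _ => box d A X) (fun ω hω => mem_box.2 (hy ω (hqq ω hω)))
    refine h1.trans ?_
    rw [Ex_const hq'.sum_one]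
    have h2 : (0 : ℝ) < (box d A X).card := by
      have h3 : ∃ ω, 0 < q' ω := by
        by_contra h4
        push Not at h4
        have h5 : ∑ ω, q' ω ≤ 0 := Finset.sum_nonpos fun ω _ => h4 ω
        rw [hq'.sum_one] at h5
        linarith
      obtain ⟨ω, hω⟩ := h3
      exact_mod_cast Finset.card_pos.mpr ⟨y ω, mem_box.2 (hy ω (hqq ω hω))⟩
    have h3 := Real.log_le_log h2 (box_card d A X)
    rw [Real.log_pow, Real.log_pow] at h3
    push_cast at h3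
    exact h3
  have hfullE := ev_ge hp E y (fun ω => (k ω, (n ω, w ω))) _ hP0 hbox
  rw [← hq] at hfullE
  obtain ⟨e, he⟩ : ∃ e : ℝ, e = (d * ((A + 2) * Real.log 2) + ε * X + Real.log 2) / π₀ :=
    ⟨_, rfl⟩
  have he0 : 0 ≤ e := by rw [he]; positivity
  have hfull2 : (d : ℝ) * (X * Real.log 2) - e ≤ CH q y (fun ω => (k ω, (n ω, w ω))) := by
    refine le_trans ?_ hfullE
    have h1 : (d * ((A + X + 2) * Real.log 2) - CH p y (fun ω => (k ω, (n ω, w ω))) +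
        Real.log 2) / Pr p E ≤ e := by
      rw [he]
      refine div_le_div₀ (by positivity) ?_ hπ hcon
      have : d * ((A + X + 2) * Real.log 2) = d * ((A + 2) * Real.log 2) +
        d * (X * Real.log 2) := by ring
      linarith
    have h2 : (0 : ℝ) ≤ d * ((A + 2) * Real.log 2) := by positivity
    have h3 : d * ((A + X + 2) * Real.log 2) = d * ((A + 2) * Real.log 2) +
        d * (X * Real.log 2) := by ring
    linarith
  -- the direction of the derivative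
  obtain ⟨ω₀, hω₀⟩ : ∃ ω, 0 < q ω := by
    by_contra h4
    push Not at h4
    have h5 : ∑ ω, q ω ≤ 0 := Finset.sum_nonpos fun ω _ => h4 ω
    rw [hqlaw.sum_one] at h5
    linarith
  have hpos2 : (0 : ℝ) < (2 : ℝ) ^ (-(h * X)) := Real.rpow_pos_of_pos (by norm_num) _
  have hdir : ∀ ω, 0 < q ω → ∃ (i : Fin d) (z : Fin d → ℝ), (∀ i, |z i| ≤ 1) ∧
      (2 : ℝ) ^ (-(h * X)) / C₀ ≤ |eval z (pderiv i (Q (k ω)))| := by
    intro ω hω
    obtain ⟨m, hm0, hm⟩ := hE ω (hqp ω hω).2 (hqp ω hω).1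
    exact hgrad (Q (k ω)) _ m (hQ _) hm0 hpos2 hm.le
  obtain ⟨i₀, -⟩ := hdir ω₀ hω₀
  set a : ℕ := ⌈h * X⌉₊ + a₀ with ha
  have hceil1 : h * X ≤ ⌈h * X⌉₊ := Nat.le_ceil _
  have hceil2 : (⌈h * X⌉₊ : ℝ) < h * X + 1 := Nat.ceil_lt_add_one (by positivity)
  have hceil3 : 1 ≤ ⌈h * X⌉₊ := Nat.one_le_ceil_iff.2 (by positivity)
  have haC : ((1 : ℝ) / 2) ^ a ≤ (2 : ℝ) ^ (-(h * X)) / C₀ := by
    have h1 : ((1 : ℝ) / 2) ^ ⌈h * X⌉₊ ≤ (2 : ℝ) ^ (-(h * X)) := by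
      have h2 : ((1 : ℝ) / 2) ^ ⌈h * X⌉₊ = (2 : ℝ) ^ (-(⌈h * X⌉₊ : ℝ)) := by
        rw [Real.rpow_neg (by norm_num), Real.rpow_natCast, one_div, inv_pow]
      rw [h2]
      exact Real.rpow_le_rpow_of_exponent_le (by norm_num) (by linarith)
    rw [ha, pow_add, le_div_iff₀ (by linarith)]
    have h3 : ((1 : ℝ) / 2) ^ a₀ * C₀ ≤ 1 := by
      rw [one_div, inv_pow, inv_mul_le_iff₀ (by positivity), mul_one]
      exact ha₀
    calc ((1 : ℝ) / 2) ^ ⌈h * X⌉₊ * (1 / 2) ^ a₀ * C₀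
        = (1 / 2) ^ ⌈h * X⌉₊ * ((1 / 2) ^ a₀ * C₀) := by ring
      _ ≤ (1 / 2) ^ ⌈h * X⌉₊ * 1 := mul_le_mul_of_nonneg_left h3 (by positivity)
      _ ≤ _ := by rw [mul_one]; exact h1
  set I : (κ × (ℤ × β)) → Fin 1 → Fin d := fun v _ =>
    if hv : ∃ (i : Fin d) (z : Fin d → ℝ), (∀ i, |z i| ≤ 1) ∧
      (2 : ℝ) ^ (-(h * X)) / C₀ ≤ |eval z (pderiv i (Q v.1))| then hv.choose else i₀ with hI
  have h1 := hpoly Ω (κ × (ℤ × β)) q X A a b ⌈h * X⌉₊ y (fun ω => (k ω, (n ω, w ω)))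
    (fun v _ => Q v.1) I e hqlaw hceil3 he0 (fun ω hω i => hy ω (hqp ω hω).1 i)
    (fun v _ => hQ v.1) (fun v _ m => hQb v.1 m) (by
      intro ω hω
      have hv := hdir ω hω
      obtain ⟨z, hz1, hz2⟩ := hv.choose_spec
      refine ⟨z, fun i => (hz1 i).trans (one_le_pow₀ (by norm_num)), haC.trans ?_⟩
      rw [eval_jac, Matrix.det_unique]
      simp only [Matrix.of_apply, hI]
      rw [dif_pos hv]
      exact hz2) hfull2
  -- the second height is not full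
  have h2 : CH q (fun ω (j : Fin 1) => ⌊2 ^ X * eval (fun i => ((y ω i : ℤ) : ℝ) / 2 ^ X)
      (Q (k ω))⌋) (fun ω => (k ω, (n ω, w ω))) ≤
      (1 - c) * (X * Real.log 2) + (ε * X + 3) * Real.log 2 := by
    have k1 := CH_le_add hqlaw.nonneg (fun ω (j : Fin 1) => ⌊2 ^ X *
      eval (fun i => ((y ω i : ℤ) : ℝ) / 2 ^ X) (Q (k ω))⌋) n' (fun ω => (k ω, (n ω, w ω)))
    have k4 : CH q (fun ω (j : Fin 1) => ⌊2 ^ X * eval (fun i => ((y ω i : ℤ) : ℝ) / 2 ^ X)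
        (Q (k ω))⌋) (fun ω => (n' ω, (k ω, (n ω, w ω)))) ≤ (s + 3) * Real.log 2 := by
      have h3 := CH_le_card hqlaw.nonneg hqlaw.sum_one (fun ω (j : Fin 1) => ⌊2 ^ X *
        eval (fun i => ((y ω i : ℤ) : ℝ) / 2 ^ X) (Q (k ω))⌋)
        (fun ω => (n' ω, (k ω, (n ω, w ω))))
        (fun v => (Finset.Icc (v.1 - v.2.2.1 - 2 ^ s - 1) (v.1 - v.2.2.1 + 2 ^ s)).image
          (fun (z : ℤ) (_ : Fin 1) => z)) (by
        intro ω hω
        rw [Finset.mem_image]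
        refine ⟨_, ?_, rfl⟩
        rw [Finset.mem_Icc]
        have h4 := abs_le.1 (hnn ω (hqp ω hω).1)
        have h5 := Int.floor_le (2 ^ X * eval (fun i => ((y ω i : ℤ) : ℝ) / 2 ^ X) (Q (k ω)))
        have h6 := Int.lt_floor_add_one (2 ^ X *
          eval (fun i => ((y ω i : ℤ) : ℝ) / 2 ^ X) (Q (k ω)))
        dsimp only
        constructor
        · rw [← sub_nonneg]
          have h7 : (-1 : ℝ) < ((⌊2 ^ X * eval (fun i => ((y ω i : ℤ) : ℝ) / 2 ^ X)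
              (Q (k ω))⌋ - (n' ω - n ω - 2 ^ s - 1) : ℤ) : ℝ) := by
            push_cast
            linarith [h4.2]
          have h8 : (-1 : ℤ) < ⌊2 ^ X * eval (fun i => ((y ω i : ℤ) : ℝ) / 2 ^ X)
              (Q (k ω))⌋ - (n' ω - n ω - 2 ^ s - 1) := by exact_mod_cast h7
          omega
        · rw [← sub_nonneg]
          have h7 : (-1 : ℝ) < ((n' ω - n ω + 2 ^ s - ⌊2 ^ X *
              eval (fun i => ((y ω i : ℤ) : ℝ) / 2 ^ X) (Q (k ω))⌋ : ℤ) : ℝ) := by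
            push_cast
            linarith [h4.1]
          have h8 : (-1 : ℤ) < n' ω - n ω + 2 ^ s - ⌊2 ^ X *
              eval (fun i => ((y ω i : ℤ) : ℝ) / 2 ^ X) (Q (k ω))⌋ := by exact_mod_cast h7
          omega)
      refine h3.trans ?_
      refine (Ex_mono hqlaw.nonneg (g := fun _ => (s + 3) * Real.log 2) fun ω _ => ?_).trans
        (le_of_eq (Ex_const hqlaw.sum_one _))
      dsimp only
      have h4 : (((Finset.Icc (n' ω - n ω - 2 ^ s - 1) (n' ω - n ω + 2 ^ s)).image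
          (fun (z : ℤ) (_ : Fin 1) => z)).card : ℝ) ≤ 2 ^ (s + 3) := by
        have h5 : ((Finset.Icc (n' ω - n ω - 2 ^ s - 1) (n' ω - n ω + 2 ^ s)).image
          (fun (z : ℤ) (_ : Fin 1) => z)).card ≤ 2 ^ (s + 3) := by
          refine Finset.card_image_le.trans ?_
          rw [Int.card_Icc]
          have h6 : (1 : ℤ) ≤ 2 ^ s := one_le_pow₀ (by norm_num)
          have h7 : n' ω - n ω + 2 ^ s + 1 - (n' ω - n ω - 2 ^ s - 1) = 2 * 2 ^ s + 2 := by ring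
          rw [h7]
          have h8 : (2 * 2 ^ s + 2 : ℤ) ≤ ((2 ^ (s + 3) : ℕ) : ℤ) := by
            push_cast
            rw [pow_add]
            linarith
          omega
        exact_mod_cast h5
      rcases (Nat.cast_nonneg (α := ℝ) ((Finset.Icc (n' ω - n ω - 2 ^ s - 1)
        (n' ω - n ω + 2 ^ s)).image (fun (z : ℤ) (_ : Fin 1) => z)).card).eq_or_lt with h5 | h5
      · rw [← h5, Real.log_zero]
        positivity
      · refine (Real.log_le_log h5 h4).trans (le_of_eq ?_)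
        rw [Real.log_pow]
        push_cast
        ring
    have k5 : (s + 3) * Real.log 2 ≤ (ε * X + 3) * Real.log 2 :=
      mul_le_mul_of_nonneg_right (by linarith) hl2.le
    linarith
  -- the numbers
  have h3 := h1.trans h2
  have haX : (a : ℝ) + b + ⌈h * X⌉₊ + A + 1 ≤ 2 * h * X + 2 * ε * X + (a₀ + 3) := by
    rw [ha]
    push_cast
    linarith
  have g1 : C * ((a : ℝ) + b + ⌈h * X⌉₊ + A + 1) * Real.log 2 ≤
      C * (2 * h * X + 2 * ε * X + (a₀ + 3)) * 1 := by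
    refine mul_le_mul (mul_le_mul_of_nonneg_left haX hC0.le) (by linarith) hl2.le (by positivity)
  have g2 : C * (X * (e + A + 1) / ⌈h * X⌉₊) ≤ (C / h) * (e + A + 1) := by
    have hcp : (0 : ℝ) < (⌈h * X⌉₊ : ℝ) := by
      have : (1 : ℝ) ≤ (⌈h * X⌉₊ : ℝ) := by exact_mod_cast hceil3
      linarith
    have h4 : X * (e + A + 1) / ⌈h * X⌉₊ ≤ (e + A + 1) / h := by
      rw [div_le_div_iff₀ hcp hh0]
      have h5 : 0 ≤ e + A + 1 := by positivity
      calc X * (e + A + 1) * h = (e + A + 1) * (h * X) := by ring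
        _ ≤ (e + A + 1) * ⌈h * X⌉₊ := mul_le_mul_of_nonneg_left hceil1 h5
    calc C * (X * (e + A + 1) / ⌈h * X⌉₊) ≤ C * ((e + A + 1) / h) :=
          mul_le_mul_of_nonneg_left h4 hC0.le
      _ = _ := by ring
  have g3 : e ≤ ((d + 1) / π₀) * (ε * X) + (2 * d + 1) / π₀ := by
    rw [he]
    have h4 : (d * ((A + 2) * Real.log 2) + ε * X + Real.log 2) ≤
        (d + 1) * (ε * X) + (2 * d + 1) := by
      have h5 : (d : ℝ) * ((A + 2) * Real.log 2) ≤ d * ((ε * X + 2) * 1) := by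
        refine mul_le_mul_of_nonneg_left ?_ (Nat.cast_nonneg _)
        exact mul_le_mul (by linarith) (by linarith) hl2.le (by positivity)
      linarith
    calc (d * ((A + 2) * Real.log 2) + ε * X + Real.log 2) / π₀
        ≤ ((d + 1) * (ε * X) + (2 * d + 1)) / π₀ := div_le_div_of_nonneg_right h4 hπ.le
      _ = _ := by ring
  have hCh : 0 < C / h := by positivity
  have g4 : (C / h) * (e + A + 1) ≤ (C / h) * (((d + 1) / π₀ + 1) * (ε * X) +
      ((2 * d + 1) / π₀ + 1)) := by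
    refine mul_le_mul_of_nonneg_left ?_ hCh.le
    linarith
  have g5 : (ε * X + 3) * Real.log 2 ≤ ε * X + 3 := by
    have : 0 ≤ ε * X + 3 := by positivity
    calc (ε * X + 3) * Real.log 2 ≤ (ε * X + 3) * 1 :=
          mul_le_mul_of_nonneg_left (by linarith) this
      _ = _ := mul_one _
  have g6 : C * (2 * h * X + 2 * ε * X + (a₀ + 3)) * 1 + (C / h) * (((d + 1) / π₀ + 1) *
      (ε * X) + ((2 * d + 1) / π₀ + 1)) + (ε * X + 3) =
      2 * (C * h) * X + (ε * B₁) * X + (B₂ - C) := by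
    rw [hB₁, hB₂]
    ring
  rw [hhC, hεB] at g6
  have g7 : ((1 : ℕ) : ℝ) * (X * Real.log 2) = X * Real.log 2 := by
    push_cast
    ring
  rw [g7] at h3
  have g8 : c * X * 0.69 ≤ c * X * Real.log 2 :=
    mul_le_mul_of_nonneg_left hl2a (by positivity)
  have g9 : 0 < c * X := by positivity
  have g10 : (1 - c) * (X * Real.log 2) = X * Real.log 2 - c * X * Real.log 2 := by ring
  have g11 : 2 * (c / 8) * X + c / 8 * X = 3 / 8 * (c * X) := by ring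
  have g12 : c / 8 * X = 1 / 8 * (c * X) := by ring
  linarith

/-- **One step**, the core: on the event that `Q` has a large non-constant coefficient the second
height is full. -/
theorem one_core (d K : ℕ) (c π₀ : ℝ) (hc : 0 < c) (hc1 : c ≤ 1) (hπ : 0 < π₀) :
    ∃ (h ε : ℝ) (X₀ : ℕ), 0 < h ∧ h ≤ 1 ∧ 0 < ε ∧ ∀ (Ω κ β : Type) [Fintype Ω] (p : Ω → ℝ)
      (X A b s : ℕ) (n n' : Ω → ℤ) (k : Ω → κ) (w : Ω → β) (Q : κ → MvPolynomial (Fin d) ℝ)
      (y : Ω → Fin d → ℤ), X₀ ≤ X → (A : ℝ) ≤ ε * X → (b : ℝ) ≤ ε * X → (s : ℝ) ≤ ε * X →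
      IsLaw p → (∀ ω, 0 < p ω → ∀ i, |((y ω i : ℤ) : ℝ)| ≤ 2 ^ A * 2 ^ X) →
      (∀ v, (Q v).totalDegree ≤ K) → (∀ v, ∀ m ≠ 0, |coeff m (Q v)| ≤ 2 ^ b) →
      (∀ ω, 0 < p ω → |((n' ω : ℤ) : ℝ) - n ω -
        2 ^ X * eval (fun i => ((y ω i : ℤ) : ℝ) / 2 ^ X) (Q (k ω))| ≤ 2 ^ s) →
      (d : ℝ) * (X * Real.log 2) - ε * X ≤ CH p y (fun ω => (k ω, (n ω, w ω))) →
      ∀ E : Set Ω, π₀ ≤ Pr p E → (∀ ω ∈ E, 0 < p ω →
        ∃ m ≠ 0, (2 : ℝ) ^ (-(h * X)) < |coeff m (Q (k ω))|) →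
      (1 - c) * (X * Real.log 2) <
        CH (cond p (fun ω => ω ∈ E) True) n' (fun ω => (k ω, (n ω, w ω))) := by
  classical
  obtain ⟨h, ε, X₀, hh0, hh1, hε, hcore⟩ := one_core0 d K c π₀ hc hc1 hπ
  obtain ⟨X₁, hX₁⟩ := exists_nat_ge (2 / ε)
  refine ⟨h, ε / 2, max X₀ X₁, hh0, hh1, by positivity, ?_⟩
  intro Ω κ β _ p X A b s n n' k w Q y hX hA hb hs hp hy hQ hQb hnn hfull E hE hbad
  have hX1 : (2 / ε : ℝ) ≤ X := hX₁.trans (by exact_mod_cast (le_max_right _ _).trans hX)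
  have hX2 : 1 ≤ ε / 2 * X := by
    rw [div_le_iff₀ hε] at hX1
    linarith
  have hX3 : (0 : ℝ) ≤ ε / 2 * X := by linarith
  obtain ⟨Q', hQ'⟩ : ∃ Q' : κ → MvPolynomial (Fin d) ℝ,
    Q' = fun v => Q v - MvPolynomial.C (coeff 0 (Q v)) := ⟨_, rfl⟩
  obtain ⟨g, hg⟩ : ∃ g : κ → ℤ, g = fun v => ⌊2 ^ X * coeff 0 (Q v)⌋ := ⟨_, rfl⟩
  have hco : ∀ v m, m ≠ 0 → coeff m (Q' v) = coeff m (Q v) := by
    intro v m hm
    rw [hQ']
    simp only [coeff_sub, coeff_C]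
    rw [if_neg (Ne.symm hm), sub_zero]
  have h1 := hcore Ω κ β p X A b (s + 1) (fun ω => n ω + g (k ω)) n' k w Q' y
    ((le_max_left _ _).trans hX) (by linarith) (by linarith) (by push_cast; linarith) hp hy
    (by
      intro v
      rw [hQ']
      dsimp only
      rw [sub_eq_add_neg, ← map_neg]
      refine (totalDegree_add _ _).trans (max_le (hQ v) ?_)
      rw [totalDegree_C]
      exact Nat.zero_le _) (by
      intro v m
      by_cases hm : m = 0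
      · subst hm
        rw [hQ']
        simp
      · rw [hco v m hm]
        exact hQb v m hm) (by
      intro ω hω
      have h2 := abs_le.1 (hnn ω hω)
      have h3 := Int.floor_le (2 ^ X * coeff 0 (Q (k ω)))
      have h4 := Int.lt_floor_add_one (2 ^ X * coeff 0 (Q (k ω)))
      have h5 : eval (fun i => ((y ω i : ℤ) : ℝ) / 2 ^ X) (Q' (k ω)) =
          eval (fun i => ((y ω i : ℤ) : ℝ) / 2 ^ X) (Q (k ω)) - coeff 0 (Q (k ω)) := by
        rw [hQ']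
        simp
      have h6 : (1 : ℝ) ≤ 2 ^ s := one_le_pow₀ (by norm_num)
      rw [h5, hg, abs_le, pow_succ]
      push_cast
      constructor <;> linarith [h2.1, h2.2]) (by
      have e1 : CH p y (fun ω => (k ω, (n ω + g (k ω), w ω))) =
          CH p y (fun ω => (k ω, (n ω, w ω))) := by
        refine CH_congr hp.nonneg (fun _ _ _ _ h => (Prod.ext_iff.1 h).1)
          (fun _ _ _ _ h => (Prod.ext_iff.1 h).1) ?_ ?_
        · intro ω ω' _ _ h
          have h2 := (Prod.ext_iff.1 h).1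
          have h3 := (Prod.ext_iff.1 h).2
          have h4 := (Prod.ext_iff.1 h3).1
          have h5 := (Prod.ext_iff.1 h3).2
          dsimp only at h2 h4 h5
          rw [h2] at h4
          exact Prod.ext h2 (Prod.ext (by linarith) h5)
        · intro ω ω' _ _ h
          have h2 := (Prod.ext_iff.1 h).1
          have h3 := (Prod.ext_iff.1 h).2
          have h4 := (Prod.ext_iff.1 h3).1
          have h5 := (Prod.ext_iff.1 h3).2
          dsimp only at h2 h4 h5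
          exact Prod.ext h2 (Prod.ext (by
            dsimp only
            rw [h2, h4]) h5)
      rw [e1]
      linarith) E hE (by
      intro ω hω hpω
      obtain ⟨m, hm0, hm⟩ := hbad ω hω hpω
      refine ⟨m, hm0, ?_⟩
      rw [hco _ m hm0]
      exact hm)
  refine h1.trans_le (le_of_eq ?_)
  have hq0 : ∀ ω, 0 ≤ cond p (fun ω => ω ∈ E) True ω := fun ω => cond_nonneg hp.nonneg _ _ ω
  refine CH_congr hq0 (fun _ _ _ _ h => (Prod.ext_iff.1 h).1)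
    (fun _ _ _ _ h => (Prod.ext_iff.1 h).1) ?_ ?_
  · intro ω ω' _ _ h
    have h2 := (Prod.ext_iff.1 h).1
    have h3 := (Prod.ext_iff.1 h).2
    have h4 := (Prod.ext_iff.1 h3).1
    have h5 := (Prod.ext_iff.1 h3).2
    dsimp only at h2 h4 h5
    rw [h2] at h4
    exact Prod.ext h2 (Prod.ext (by linarith) h5)
  · intro ω ω' _ _ h
    have h2 := (Prod.ext_iff.1 h).1
    have h3 := (Prod.ext_iff.1 h).2
    have h4 := (Prod.ext_iff.1 h3).1
    have h5 := (Prod.ext_iff.1 h3).2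
    dsimp only at h2 h4 h5
    exact Prod.ext h2 (Prod.ext (by
      dsimp only
      rw [h2, h4]) h5)

/-- **One step**, events: the coefficients are small off an event of small probability. -/
theorem one_step (d K : ℕ) (c π₀ : ℝ) (hc : 0 < c) (hc1 : c ≤ 1) (hπ : 0 < π₀) :
    ∃ (h ε : ℝ) (X₀ : ℕ), 0 < h ∧ h ≤ 1 ∧ 0 < ε ∧ ∀ (Ω κ β : Type) [Fintype Ω] (p : Ω → ℝ)
      (X A b s : ℕ) (n n' : Ω → ℤ) (k : Ω → κ) (w : Ω → β) (Q : κ → MvPolynomial (Fin d) ℝ)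
      (y : Ω → Fin d → ℤ), X₀ ≤ X → (A : ℝ) ≤ ε * X → (b : ℝ) ≤ ε * X → (s : ℝ) ≤ ε * X →
      IsLaw p → (∀ ω, 0 < p ω → ∀ i, |((y ω i : ℤ) : ℝ)| ≤ 2 ^ A * 2 ^ X) →
      (∀ v, (Q v).totalDegree ≤ K) → (∀ v, ∀ m ≠ 0, |coeff m (Q v)| ≤ 2 ^ b) →
      (∀ ω, 0 < p ω → |((n' ω : ℤ) : ℝ) - n ω -
        2 ^ X * eval (fun i => ((y ω i : ℤ) : ℝ) / 2 ^ X) (Q (k ω))| ≤ 2 ^ s) →
      (d : ℝ) * (X * Real.log 2) - ε * X ≤ CH p y (fun ω => (k ω, (n ω, w ω))) →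
      (∀ E : Set Ω, π₀ ≤ Pr p E →
        CH (cond p (fun ω => ω ∈ E) True) n' w ≤ (1 - c) * (X * Real.log 2)) →
      Pr p {ω | ∃ m ≠ 0, (2 : ℝ) ^ (-(h * X)) < |coeff m (Q (k ω))|} < π₀ := by
  obtain ⟨h, ε, X₀, hh0, hh1, hε, hcore⟩ := one_core d K c π₀ hc hc1 hπ
  refine ⟨h, ε, X₀, hh0, hh1, hε, ?_⟩
  intro Ω κ β _ p X A b s n n' k w Q y hX hA hb hs hp hy hQ hQb hnn hfull hNF
  by_contra hcon
  push Not at hcon
  have h1 := hcore Ω κ β p X A b s n n' k w Q y hX hA hb hs hp hy hQ hQb hnn hfull _ hcon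
    (fun ω hω _ => hω)
  have h2 := hNF _ hcon
  have hP0 : 0 < Pr p {ω | ∃ m ≠ 0, (2 : ℝ) ^ (-(h * X)) < |coeff m (Q (k ω))|} :=
    hπ.trans_le hcon
  have h3 : CH (cond p (fun ω => ω ∈ {ω | ∃ m ≠ 0, (2 : ℝ) ^ (-(h * X)) <
      |coeff m (Q (k ω))|}) True) n' (fun ω => (k ω, (n ω, w ω))) ≤
      CH (cond p (fun ω => ω ∈ {ω | ∃ m ≠ 0, (2 : ℝ) ^ (-(h * X)) <
      |coeff m (Q (k ω))|}) True) n' w :=
    CH_mono_cond (fun ω => cond_nonneg hp.nonneg _ _ ω)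
      (fun ω ω' _ _ h => (Prod.ext_iff.1 (Prod.ext_iff.1 h).2).2)
  linarith

/-- **One step**, one law: if the second height is not full given one side variable, then the
coefficients are small on an event of probability at least `c / 2`. -/
theorem one_half (d K : ℕ) (c : ℝ) (hc : 0 < c) (hc1 : c ≤ 1) :
    ∃ (h ε : ℝ) (X₀ : ℕ), 0 < h ∧ h ≤ 1 ∧ 0 < ε ∧ ∀ (Ω κ β : Type) [Fintype Ω] (p : Ω → ℝ)
      (X A b s : ℕ) (n n' : Ω → ℤ) (k : Ω → κ) (w : Ω → β) (Q : κ → MvPolynomial (Fin d) ℝ)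
      (y : Ω → Fin d → ℤ), X₀ ≤ X → (A : ℝ) ≤ ε * X → (b : ℝ) ≤ ε * X → (s : ℝ) ≤ ε * X →
      IsLaw p → (∀ ω, 0 < p ω → ∀ i, |((y ω i : ℤ) : ℝ)| ≤ 2 ^ A * 2 ^ X) →
      (∀ v, (Q v).totalDegree ≤ K) → (∀ v, ∀ m ≠ 0, |coeff m (Q v)| ≤ 2 ^ b) →
      (∀ ω, 0 < p ω → |((n' ω : ℤ) : ℝ) - n ω -
        2 ^ X * eval (fun i => ((y ω i : ℤ) : ℝ) / 2 ^ X) (Q (k ω))| ≤ 2 ^ s) →
      (d : ℝ) * (X * Real.log 2) - ε * X ≤ CH p y (fun ω => (k ω, (n ω, w ω))) →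
      CH p n' w ≤ (1 - c) * (X * Real.log 2) →
      c / 2 ≤ Pr p {ω | ∀ m ≠ 0, |coeff m (Q (k ω))| ≤ (2 : ℝ) ^ (-(h * X))} := by
  classical
  obtain ⟨h, ε, X₀, hh0, hh1, hε, hcore⟩ := one_core d K (c / 4) (1 / 2) (by linarith)
    (by linarith) (by norm_num)
  refine ⟨h, ε, X₀ + 1, hh0, hh1, hε, ?_⟩
  intro Ω κ β _ p X A b s n n' k w Q y hX hA hb hs hp hy hQ hQb hnn hfull hNF
  by_contra hcon
  push Not at hcon
  have hl2 : 0 < Real.log 2 := Real.log_pos (by norm_num)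
  have hX0 : (0 : ℝ) < X := by
    have : 0 < X := by omega
    exact_mod_cast this
  obtain ⟨G, hG⟩ : ∃ G : Set Ω, G = {ω | ∀ m ≠ 0, |coeff m (Q (k ω))| ≤
    (2 : ℝ) ^ (-(h * X))} := ⟨_, rfl⟩
  rw [← hG] at hcon
  obtain ⟨E, hE⟩ : ∃ E : Set Ω, E = Gᶜ := ⟨_, rfl⟩
  have h6 : Pr p E = 1 - Pr p G := by
    unfold Pr law
    rw [← hp.sum_one, eq_sub_iff_add_eq, ← Finset.sum_add_distrib]
    refine Finset.sum_congr rfl fun ω _ => ?_
    rw [hE]
    by_cases h : ω ∈ G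
    · simp [h]
    · simp [h]
  have hPE : 1 - c / 2 < Pr p E := by rw [h6]; linarith
  have h1 := hcore Ω κ β p X A b s n n' k w Q y (by omega) hA hb hs hp hy hQ hQb hnn hfull E
    (by linarith) (fun ω hω _ => by
      rw [hE, hG] at hω
      have h2 : ¬ ∀ m ≠ 0, |coeff m (Q (k ω))| ≤ (2 : ℝ) ^ (-(h * X)) := hω
      push Not at h2
      exact h2)
  have h2 := Pool.KJ.CH_two hp.nonneg n' (fun ω => (k ω, (n ω, w ω))) (fun ω => ω ∈ E)
  have h3 : CH p n' (fun ω => ((k ω, (n ω, w ω)), decide (ω ∈ E))) ≤ CH p n' w :=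
    CH_mono_cond hp.nonneg fun ω ω' _ _ h => (Prod.ext_iff.1 (Prod.ext_iff.1
      (Prod.ext_iff.1 h).1).2).2
  have h4 : 0 ≤ law p (fun ω => ω ∈ E) False * CH (cond p (fun ω => ω ∈ E) False) n'
      (fun ω => (k ω, (n ω, w ω))) :=
    mul_nonneg (law_nonneg hp.nonneg _ _) (CH_nonneg (fun ω => cond_nonneg hp.nonneg _ _ ω) _ _)
  have h5 : Pr p E = law p (fun ω => ω ∈ E) True := rfl
  rw [← h5] at h2
  have hL : 0 < X * Real.log 2 := by positivity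
  have h7 : (1 - c / 2) * ((1 - c / 4) * (X * Real.log 2)) ≤
      Pr p E * CH (cond p (fun ω => ω ∈ E) True) n' (fun ω => (k ω, (n ω, w ω))) :=
    mul_le_mul hPE.le h1.le (mul_nonneg (by linarith) hL.le) (by linarith)
  have h8 : (1 - c) * (X * Real.log 2) < (1 - c / 2) * ((1 - c / 4) * (X * Real.log 2)) := by
    have : (1 - c / 2) * ((1 - c / 4) * (X * Real.log 2)) =
      (1 - c) * (X * Real.log 2) + (c / 4 + c ^ 2 / 8) * (X * Real.log 2) := by ring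
    rw [this]
    have : 0 < (c / 4 + c ^ 2 / 8) * (X * Real.log 2) := by positivity
    linarith
  linarith

end Pool.DY1
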