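import Pool.Agent.H55.GEN.GluT
import Pool.Agent.H87.OC.Cost

/-!
# Gluing of germs: Remez in the time for finitely many polynomials
-/

set_option autoImplicit false

namespace Pool.STAT.Glu

open Finset MvPolynomial
open Pool.Agent.H49.Ent Pool.Agent.H32.Dense Pool.STK Pool.KA Pool.K2S
open Pool.BFL (Pb)

theorem Pb_eq_Pe {Ω : Type} [Fintype Ω] (p : Ω → ℝ) (A : Ω → Prop) : Pb p A = Pe p A := by
  rw [Pe_eq]
  rfl

/-- **Remez in the time for finitely many polynomials**: they are small on the event `A`; then they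
are small on the intervals of radius `2 ^ (-w)` around the times of the samples of `B`. -/
theorem rmz_multi (D : ℕ) (ι : Type) [Fintype ι] (η : ℝ) (hη : 0 < η) : ∃ C : ℝ, 1 ≤ C ∧
    ∀ (J w z : ℕ) (Ω L : Type) [Fintype Ω] (q : Ω → ℝ) (T : Ω → ℕ) (lam : Ω → L)
    (A : Ω → Prop) (E : ℝ) (f : ι → L → Polynomial ℝ), IsLaw q → (∀ ω, T ω < 2 ^ J) →
    w + z ≤ J → Det q lam (fun ω => T ω / 2 ^ (J - w)) → η ≤ Pe q A → 1 ≤ E →
    ((J : ℝ) - w) * Real.log 2 - E ≤ CH q T lam → C * E ≤ z →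
    (∀ a l, (f a l).natDegree ≤ D) →
    (∀ a ω, A ω → |(f a (lam ω)).eval ((T ω : ℝ) / 2 ^ J)| ≤ 1) →
    ∃ B : Ω → Prop, (∀ ω, B ω → A ω) ∧ Pe q A - η / 2 ≤ Pe q B ∧ ∀ ω, B ω →
      ∀ t : ℝ, |t - (T ω : ℝ) / 2 ^ J| ≤ 1 / 2 ^ w → ∀ a,
        |(f a (lam ω)).eval t| ≤ 2 ^ (2 * z) := by
  classical
  obtain ⟨C₁, hC₁, hr⟩ := Pool.STAT.Rmz.rmz_pure (2 * D) η hη
  obtain ⟨C₃, hC₃, h3⟩ := ext3 D
  obtain ⟨W, hW⟩ : ∃ W : ℝ, W = Fintype.card ι + 1 := ⟨_, rfl⟩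
  have hc0 : (0 : ℝ) ≤ Fintype.card ι := Nat.cast_nonneg _
  have hW1 : 1 ≤ W := by rw [hW]; linarith
  have hW0 : 0 < W := by linarith
  refine ⟨2 * C₁ + W + C₃, by linarith, ?_⟩
  intro J w z Ω L _ q T lam A E f hq hT hwz hdet hA hE hCH hz hf hpos
  have hCz : C₁ * E + C₁ * E ≤ z ∧ W ≤ z ∧ C₃ ≤ z := by
    have e1 : (2 * C₁ + W + C₃) * E = C₁ * E + C₁ * E + W * E + C₃ * E := by ring
    have e2 : W ≤ W * E := by nlinarith
    have e3 : C₃ ≤ C₃ * E := by nlinarith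
    have e4 : 0 ≤ C₁ * E := by nlinarith
    rw [e1] at hz
    refine ⟨?_, ?_, ?_⟩ <;> linarith
  obtain ⟨hz1, hz2, hz3⟩ := hCz
  have hz2' : (z : ℝ) ≤ 2 ^ z := by exact_mod_cast Nat.lt_two_pow_self.le
  have hCE0 : 0 ≤ C₁ * E := by nlinarith
  obtain ⟨F, hF⟩ : ∃ F : L → Polynomial ℝ,
    F = fun l => Polynomial.C (1 / W) * ∑ a, (f a l) ^ 2 := ⟨_, rfl⟩
  have hFe : ∀ l t, (F l).eval t = 1 / W * ∑ a, ((f a l).eval t) ^ 2 := by
    intro l t
    rw [hF]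
    simp only [Polynomial.eval_mul, Polynomial.eval_C]
    rw [Polynomial.eval_finsetSum]
    simp only [Polynomial.eval_pow]
  have hFd : ∀ l, (F l).natDegree ≤ 2 * D := by
    intro l
    rw [hF]
    refine (Polynomial.natDegree_C_mul_le _ _).trans ?_
    refine Polynomial.natDegree_sum_le_of_forall_le _ _ fun a _ => ?_
    exact Polynomial.natDegree_pow_le.trans (Nat.mul_le_mul_left _ (hf a l))
  have hl : (1 : ℝ) / 2 ≤ Real.log 2 := by
    have := Real.log_two_gt_d9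
    linarith
  obtain ⟨B, hB1, hB2, hB3⟩ := hr J w 0 Ω L q T lam A E F hq hT (by omega) hdet hA hE hCH (by
      have h1 : (z : ℝ) ≤ (J : ℝ) - w := by
        have : ((w + z : ℕ) : ℝ) ≤ J := by exact_mod_cast hwz
        push_cast at this
        linarith
      nlinarith) hFd (by
      intro ω hω
      rw [hFe, pow_zero, div_one, abs_of_nonneg (by positivity)]
      have h1 : ∑ a, ((f a (lam ω)).eval ((T ω : ℝ) / 2 ^ J)) ^ 2 ≤ W := by
        calc ∑ a, ((f a (lam ω)).eval ((T ω : ℝ) / 2 ^ J)) ^ 2 ≤ ∑ _a : ι, (1 : ℝ) := by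
              refine Finset.sum_le_sum fun a _ => ?_
              have := hpos a ω hω
              rw [← sq_abs]
              exact pow_le_one₀ (abs_nonneg _) this
          _ ≤ W := by
              rw [Finset.sum_const, card_univ, nsmul_eq_mul, mul_one, hW]
              linarith
      rw [one_div, inv_mul_le_iff₀ hW0, mul_one]
      exact h1)
  refine ⟨B, hB1, hB2, fun ω hω t ht a => ?_⟩
  obtain ⟨k, hk⟩ : ∃ k : ℕ, k = T ω / 2 ^ (J - w) := ⟨_, rfl⟩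
  have hs : ∀ x ∈ Set.Icc ((k : ℝ) / 2 ^ w) ((k : ℝ) / 2 ^ w + 1 / 2 ^ w),
      |(f a (lam ω)).eval x| ≤ 2 ^ z := by
    intro x hx
    have h1 := (hB3 z (by linarith) ω hω x ⟨by
      rw [← hk]
      exact hx.1, by
      rw [← hk, add_div]
      exact hx.2⟩).1
    rw [hFe, pow_zero, div_one, abs_of_nonneg (by positivity), one_div,
      inv_mul_le_iff₀ hW0] at h1
    have h2 : ((f a (lam ω)).eval x) ^ 2 ≤ ∑ a, ((f a (lam ω)).eval x) ^ 2 :=
      Finset.single_le_sum (f := fun a => ((f a (lam ω)).eval x) ^ 2)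
        (fun _ _ => sq_nonneg _) (mem_univ a)
    have h4 : ((f a (lam ω)).eval x) ^ 2 ≤ ((2 : ℝ) ^ z) ^ 2 := by
      refine h2.trans (h1.trans ?_)
      rw [sq ((2 : ℝ) ^ z)]
      exact mul_le_mul_of_nonneg_right (hz2.trans hz2') (by positivity)
    exact abs_le_of_sq_le_sq h4 (by positivity)
  have hT' : (k : ℝ) / 2 ^ w ≤ (T ω : ℝ) / 2 ^ J ∧
      (T ω : ℝ) / 2 ^ J ≤ (k : ℝ) / 2 ^ w + 1 / 2 ^ w := by
    have hw : w ≤ J := by omega
    have hJJ : (2 : ℝ) ^ J = 2 ^ (J - w) * 2 ^ w := by rw [← pow_add, Nat.sub_add_cancel hw]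
    have h5 := Nat.div_mul_le_self (T ω) (2 ^ (J - w))
    have h6 := Nat.lt_div_mul_add (a := T ω) (b := 2 ^ (J - w)) (by positivity)
    have h5' : (k : ℝ) * 2 ^ (J - w) ≤ T ω := by rw [hk]; exact_mod_cast h5
    have h6' : (T ω : ℝ) ≤ k * 2 ^ (J - w) + 2 ^ (J - w) := by rw [hk]; exact_mod_cast h6.le
    have h7 : (0 : ℝ) < 2 ^ (J - w) := by positivity
    have h8 : (0 : ℝ) < 2 ^ w := by positivity
    constructor
    · rw [div_le_div_iff₀ h8 (by positivity), hJJ]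
      nlinarith
    · rw [← add_div, div_le_div_iff₀ (by positivity) h8, hJJ]
      nlinarith
  have hℓ : (0 : ℝ) < 1 / 2 ^ w := by positivity
  rw [abs_le] at ht
  have h9 := h3 (f a (lam ω)) ((k : ℝ) / 2 ^ w) (1 / 2 ^ w) (2 ^ z) (hf a _) hℓ hs t
    (by linarith [ht.1]) (by linarith [ht.2])
  refine h9.trans ?_
  have e1 : (2 : ℝ) ^ (2 * z) = 2 ^ z * 2 ^ z := by
    rw [← pow_add]
    congr 1
    ring
  rw [e1]
  exact mul_le_mul_of_nonneg_right (hz3.trans hz2') (by positivity)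

/-- A function which is determined by `X` is a function of `X`. -/
theorem detF {Ω S T : Type} {q : Ω → ℝ} {X : Ω → S} {Y : Ω → T} (t₀ : T) (h : Det q X Y) :
    ∃ f : S → T, (∀ ω, 0 < q ω → f (X ω) = Y ω) ∧
      ∀ s, (∃ ω, 0 < q ω ∧ f s = Y ω) ∨ f s = t₀ := by
  classical
  refine ⟨fun s => if hs : ∃ ω, 0 < q ω ∧ X ω = s then Y hs.choose else t₀, ?_, ?_⟩
  · intro ω hω
    have hs : ∃ ω', 0 < q ω' ∧ X ω' = X ω := ⟨ω, hω, rfl⟩
    beta_reduce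
    rw [dif_pos hs]
    exact h _ _ hs.choose_spec.1 hω hs.choose_spec.2
  · intro s
    by_cases hs : ∃ ω, 0 < q ω ∧ X ω = s
    · left
      refine ⟨hs.choose, hs.choose_spec.1, ?_⟩
      beta_reduce
      rw [dif_pos hs]
    · right
      beta_reduce
      rw [dif_neg hs]

/-- **Remez in the time**, polynomials which are determined by the line and the cell. -/
theorem rmz_det (D : ℕ) (ι : Type) [Fintype ι] (η : ℝ) (hη : 0 < η) : ∃ C : ℝ, 1 ≤ C ∧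
    ∀ (J w z : ℕ) (Ω L : Type) [Fintype Ω] (q : Ω → ℝ) (T : Ω → ℕ) (lam : Ω → L)
    (A : Ω → Prop) (E : ℝ) (f : ι → Ω → Polynomial ℝ), IsLaw q → (∀ ω, T ω < 2 ^ J) →
    w + z ≤ J → Det q lam (fun ω => T ω / 2 ^ (J - w)) → η ≤ Pe q A → 1 ≤ E →
    ((J : ℝ) - w) * Real.log 2 - E ≤ CH q T lam → C * E ≤ z → (∀ a, Det q lam (f a)) →
    (∀ a ω, 0 < q ω → (f a ω).natDegree ≤ D) →
    (∀ a ω, 0 < q ω → A ω → |(f a ω).eval ((T ω : ℝ) / 2 ^ J)| ≤ 1) →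
    ∃ B : Ω → Prop, (∀ ω, B ω → 0 < q ω ∧ A ω) ∧ Pe q A - η / 2 ≤ Pe q B ∧ ∀ ω, B ω →
      ∀ t : ℝ, |t - (T ω : ℝ) / 2 ^ J| ≤ 1 / 2 ^ w → ∀ a,
        |(f a ω).eval t| ≤ 2 ^ (2 * z) := by
  classical
  obtain ⟨C, hC, h⟩ := rmz_multi D ι η hη
  refine ⟨C, hC, ?_⟩
  intro J w z Ω L _ q T lam A E f hq hT hwz hdet hA hE hCH hz hf hd hpos
  choose F hF hF' using fun a => detF (0 : Polynomial ℝ) (hf a)
  have hAA : Pe q (fun ω => 0 < q ω ∧ A ω) = Pe q A := by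
    rw [Pe_eq, Pe_eq]
    refine Finset.sum_congr rfl fun ω _ => ?_
    by_cases hω : 0 < q ω
    · simp [hω]
    · have h0 : q ω = 0 := le_antisymm (not_lt.1 hω) (hq.nonneg ω)
      simp [h0]
  obtain ⟨B, hB1, hB2, hB3⟩ := h J w z Ω L q T lam (fun ω => 0 < q ω ∧ A ω) E F hq hT hwz hdet
    (by rw [hAA]; exact hA) hE hCH hz (fun a l => by
      rcases hF' a l with ⟨ω, h1, h2⟩ | h1
      · rw [h2]
        exact hd a ω h1
      · rw [h1, Polynomial.natDegree_zero]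
        exact Nat.zero_le _) (fun a ω hω => by
      rw [hF a ω hω.1]
      exact hpos a ω hω.1 hω.2)
  rw [hAA] at hB2
  refine ⟨B, hB1, hB2, fun ω hω t ht a => ?_⟩
  have := hB3 ω hω t ht a
  rwa [hF a ω (hB1 ω hω).1] at this

/-- The time given the line and the cell. -/
theorem time_cell {Ω Λ : Type} [Fintype Ω] {q : Ω → ℝ} (hq : IsLaw q) {J w₀ r : ℕ}
    {T : Ω → ℕ} {ln : Ω → Λ} {S : ℝ} (h0 : w₀ ≤ r) (hr : r ≤ J)
    (hln : Det q ln (fun ω => T ω / 2 ^ (J - w₀)))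
    (ht : ((J - w₀ : ℕ) : ℝ) * Real.log 2 - S ≤ CH q T ln) :
    ((J : ℝ) - r) * Real.log 2 - S ≤ CH q T (fun ω => (ln ω, T ω / 2 ^ (J - r))) := by
  classical
  have h1 := CH_le_add hq.nonneg T (fun ω => T ω / 2 ^ (J - r)) ln
  have h2 : CH q (fun ω => T ω / 2 ^ (J - r)) ln ≤ Real.log ((2 ^ (r - w₀) : ℕ) : ℝ) := by
    refine Pool.OC.ch_le_log_card' hq _ _ _ fun s => ?_
    by_cases hs : ∃ ω, 0 < q ω ∧ ln ω = s
    · obtain ⟨ω₀, hω₀, hs⟩ := hs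
      refine ⟨(Finset.range (2 ^ (r - w₀))).image
        (fun u => (T ω₀ / 2 ^ (J - w₀)) * 2 ^ (r - w₀) + u), ?_, ?_⟩
      · exact Finset.card_image_le.trans (by rw [Finset.card_range])
      · intro ω hω h
        have h3 : T ω / 2 ^ (J - w₀) = T ω₀ / 2 ^ (J - w₀) := hln ω ω₀ hω hω₀ (h.trans hs.symm)
        have h4 : T ω / 2 ^ (J - r) / 2 ^ (r - w₀) = T ω / 2 ^ (J - w₀) := by
          rw [Nat.div_div_eq_div_mul, ← pow_add]
          congr 2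
          omega
        refine Finset.mem_image.2 ⟨T ω / 2 ^ (J - r) % 2 ^ (r - w₀), ?_, ?_⟩
        · exact Finset.mem_range.2 (Nat.mod_lt _ (by positivity))
        · rw [← h3, ← h4]
          exact Nat.div_add_mod' _ _
    · refine ⟨∅, by simp, fun ω hω h => ?_⟩
      exact absurd ⟨ω, hω, h⟩ hs
  have h3 : Real.log ((2 ^ (r - w₀) : ℕ) : ℝ) = ((r : ℝ) - w₀) * Real.log 2 := by
    rw [Nat.cast_pow, Real.log_pow, Nat.cast_ofNat, Nat.cast_sub h0]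
  have h4 : CH q T (fun ω => (T ω / 2 ^ (J - r), ln ω)) =
      CH q T (fun ω => (ln ω, T ω / 2 ^ (J - r))) :=
    CH_congr hq.nonneg (fun _ _ _ _ h => (Prod.ext_iff.1 h).1)
      (fun _ _ _ _ h => (Prod.ext_iff.1 h).1)
      (fun _ _ _ _ h => Prod.ext (Prod.ext_iff.1 h).2 (Prod.ext_iff.1 h).1)
      (fun _ _ _ _ h => Prod.ext (Prod.ext_iff.1 h).2 (Prod.ext_iff.1 h).1)
  rw [h4] at h1
  rw [h3] at h2
  rw [Nat.cast_sub (h0.trans hr)] at ht
  nlinarith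

end Pool.STAT.Glu
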