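import Pool.Agent.H55.GEN.GluB

/-!
# Gluing of germs: the polynomials

Bounds on the unit boxes at one time are bounds for finitely many polynomials in the time
(`LF_fam`); `point` is the estimate at one point of the box of the new label; `hN` is the line side
of the new label.
-/

set_option autoImplicit false

namespace Pool.STAT.Glu

open Finset MvPolynomial
open Pool.Agent.H49.Ent Pool.Agent.H32.Dense Pool.STK Pool.KA
open Pool.STAT.CLO

theorem natDegree_aeval {σ : Type} (Q : MvPolynomial σ ℝ) (g : σ → Polynomial ℝ) {d : ℕ}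
    (hg : ∀ i, (g i).natDegree ≤ d) {D : ℕ} (h : Q.totalDegree ≤ D) :
    (MvPolynomial.aeval g Q).natDegree ≤ D * d := by
  rw [MvPolynomial.aeval_def, MvPolynomial.eval₂_eq]
  refine Polynomial.natDegree_sum_le_of_forall_le _ _ fun α hα => ?_
  refine (Polynomial.natDegree_mul_le).trans ?_
  have h1 : (algebraMap ℝ (Polynomial ℝ) (MvPolynomial.coeff α Q)).natDegree = 0 :=
    Polynomial.natDegree_C _
  have h2 : (∏ i ∈ α.support, g i ^ α i).natDegree ≤ α.degree * d := by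
    refine (Polynomial.natDegree_prod_le _ _).trans ?_
    rw [Finsupp.degree_apply, Finset.sum_mul]
    refine Finset.sum_le_sum fun i _ => ?_
    exact Polynomial.natDegree_pow_le.trans (Nat.mul_le_mul_left (α i) (hg i))
  rw [h1, zero_add]
  exact h2.trans (Nat.mul_le_mul_right _ ((MvPolynomial.le_totalDegree hα).trans h))

/-! ### Line side of the new label -/

/-- The natural coordinates as polynomials. -/
noncomputable def ncN (g : ℕ → ℕ) (Φ : ℕ → PN) (l : ℕ) : PN := C ((2 : ℝ) ^ g l) * (X l - Φ l)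

theorem eval_ncN (g : ℕ → ℕ) (Φ : ℕ → PN) (b : ℕ → ℝ) (l : ℕ) :
    eval b (ncN g Φ l) = nc g Φ b l := by
  unfold ncN nc
  rw [map_mul, map_sub, eval_C, eval_X]

theorem ncN_deg {g : ℕ → ℕ} {Φ : ℕ → PN} {K : ℕ} (h : ∀ l, (Φ l).totalDegree ≤ K) (l : ℕ) :
    (ncN g Φ l).totalDegree ≤ K + 1 := by
  unfold ncN
  refine (totalDegree_mul _ _).trans ?_
  rw [totalDegree_C, zero_add]
  refine (totalDegree_sub _ _).trans (max_le ?_ ((h l).trans (Nat.le_succ _)))
  rw [totalDegree_X]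
  omega

theorem ncN_vars {g : ℕ → ℕ} {Φ : ℕ → PN} (h : TriN Φ) (l : ℕ) :
    (ncN g Φ l).vars ⊆ range (l + 1) := by
  unfold ncN
  refine AdxRow.vars_mul_le (AdxRow.vars_C_le _) ?_
  refine (vars_sub_subset _).trans (Finset.union_subset ?_ ?_)
  · exact AdxRow.vars_X_le (Nat.lt_succ_self _)
  · exact (h l).trans (Finset.range_mono (Nat.le_succ _))

/-- The path of a line, the coordinate `0` is the time. -/
noncomputable def pth (p : ℕ → Polynomial ℝ) (l : ℕ) : Polynomial ℝ :=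
  if l = 0 then Polynomial.X else p l

/-- The path of a line as polynomials in the time. -/
noncomputable def pthN (p : ℕ → Polynomial ℝ) (l : ℕ) : PN :=
  Polynomial.aeval (X 0 : PN) (pth p l)

/-- The position at the time `τ`. -/
noncomputable def pps (p : ℕ → Polynomial ℝ) (τ : ℝ) (l : ℕ) : ℝ := (pth p l).eval τ

theorem pps_zero (p : ℕ → Polynomial ℝ) (τ : ℝ) : pps p τ 0 = τ := by
  unfold pps pth
  rw [if_pos rfl, Polynomial.eval_X]

theorem eval_pthN (p : ℕ → Polynomial ℝ) (b : ℕ → ℝ) (l : ℕ) :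
    eval b (pthN p l) = pps p (b 0) l := by
  unfold pthN pps
  rw [Polynomial.aeval_eq_sum_range, Polynomial.eval_eq_sum_range, map_sum]
  refine Finset.sum_congr rfl fun i _ => ?_
  rw [smul_eval, map_pow, eval_X]

theorem pth_deg {p : ℕ → Polynomial ℝ} {K : ℕ} (h : ∀ l, (p l).natDegree ≤ K) (l : ℕ) :
    (pth p l).natDegree ≤ K + 1 := by
  unfold pth
  split_ifs
  · exact Polynomial.natDegree_X_le.trans (by omega)
  · exact (h l).trans (Nat.le_succ _)

theorem pthN_deg {p : ℕ → Polynomial ℝ} {K : ℕ} (h : ∀ l, (p l).natDegree ≤ K) (l : ℕ) :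
    (pthN p l).totalDegree ≤ K + 1 := by
  unfold pthN
  rw [Polynomial.aeval_eq_sum_range]
  refine totalDegree_finsetSum_le fun i hi => ?_
  refine (totalDegree_smul_le _ _).trans ((totalDegree_pow _ _).trans ?_)
  rw [totalDegree_X, mul_one]
  exact (Nat.lt_succ_iff.1 (mem_range.1 hi)).trans (pth_deg h l)

theorem pthN_vars (p : ℕ → Polynomial ℝ) (l : ℕ) {n : ℕ} (hn : 1 ≤ n) :
    (pthN p l).vars ⊆ range n := by
  unfold pthN
  rw [Polynomial.aeval_eq_sum_range]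
  refine (vars_sum_subset _ _).trans (Finset.biUnion_subset.2 fun i _ => ?_)
  rw [smul_eq_C_mul]
  refine AdxRow.vars_mul_le (AdxRow.vars_C_le _) ?_
  exact (vars_pow _ _).trans (AdxRow.vars_X_le hn)

/-- The line side of the new label, as a value. -/
noncomputable def hv (g : ℕ → ℕ) (Φ : ℕ → PN) (n : ℕ) (H : PN) (b β : ℕ → ℝ) : ℝ :=
  eval b (Φ n) + 1 / 2 ^ g n * (eval (nc g Φ b) H - eval (nc g Φ β) H) +
    (β n - eval β (Φ n))

/-- The function which is compared with `H`. -/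
noncomputable def kk (g : ℕ → ℕ) (Φ : ℕ → PN) (n : ℕ) (G H : PN) (b : ℕ → ℝ) : ℝ :=
  2 ^ g n * (eval b G - eval b (Φ n)) - eval (nc g Φ b) H

/-- The line side of the new label. -/
noncomputable def hN (g : ℕ → ℕ) (Φ : ℕ → PN) (n : ℕ) (H : PN) (p : ℕ → Polynomial ℝ) : PN :=
  Φ n + C (1 / (2 : ℝ) ^ g n) * (bind₁ (ncN g Φ) H -
    bind₁ (fun l => bind₁ (pthN p) (ncN g Φ l)) H) + (pthN p n - bind₁ (pthN p) (Φ n))

theorem eval_hN (g : ℕ → ℕ) (Φ : ℕ → PN) (n : ℕ) (H : PN) (p : ℕ → Polynomial ℝ) (b : ℕ → ℝ) :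
    eval b (hN g Φ n H p) = hv g Φ n H b (pps p (b 0)) := by
  unfold hN hv
  have e1 : (fun l => eval b (pthN p l)) = pps p (b 0) := funext fun l => eval_pthN p b l
  simp only [map_add, map_sub, map_mul, eval_C]
  rw [Pool.SYS35.eval_bind, Pool.SYS35.eval_bind, Pool.SYS35.eval_bind, e1, eval_pthN]
  have e2 : (fun j => eval b (ncN g Φ j)) = nc g Φ b := funext fun l => eval_ncN g Φ b l
  have e3 : (fun j => eval b (bind₁ (pthN p) (ncN g Φ j))) = nc g Φ (pps p (b 0)) := by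
    funext l
    rw [Pool.SYS35.eval_bind, e1, eval_ncN]
  rw [e2, e3]

/-- The degree of the line side of the new label. -/
def kN (K K₂ : ℕ) : ℕ := (K₂ + 1) * ((K + 1) * (K + 1))

theorem hN_deg {g : ℕ → ℕ} {Φ : ℕ → PN} {n K K₂ : ℕ} {H : PN} {p : ℕ → Polynomial ℝ}
    (h : ∀ l, (Φ l).totalDegree ≤ K) (hp : ∀ l, (p l).natDegree ≤ K)
    (hH : H.totalDegree ≤ K₂) : (hN g Φ n H p).totalDegree ≤ kN K K₂ := by
  have k1 : K₂ * ((K + 1) * (K + 1)) ≤ kN K K₂ := Nat.mul_le_mul_right _ (Nat.le_succ _)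
  have k2 : (K + 1) * (K + 1) ≤ kN K K₂ := Nat.le_mul_of_pos_left _ (Nat.succ_pos _)
  have k3 : K + 1 ≤ (K + 1) * (K + 1) := Nat.le_mul_of_pos_left _ (Nat.succ_pos _)
  have h1 : (bind₁ (ncN g Φ) H).totalDegree ≤ kN K K₂ := by
    refine (Dgb.deg_bind fun k _ => (ncN_deg h k).trans k3).trans ?_
    exact (Nat.mul_le_mul_right _ hH).trans k1
  have h2 : (bind₁ (fun l => bind₁ (pthN p) (ncN g Φ l)) H).totalDegree ≤ kN K K₂ := by
    refine (Dgb.deg_bind (B := (K + 1) * (K + 1)) fun k _ => ?_).trans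
      ((Nat.mul_le_mul_right _ hH).trans k1)
    refine (Dgb.deg_bind (B := K + 1) fun _ _ => pthN_deg hp _).trans ?_
    exact Nat.mul_le_mul_right _ (ncN_deg h k)
  have h3 : (bind₁ (pthN p) (Φ n)).totalDegree ≤ kN K K₂ := by
    refine (Dgb.deg_bind (B := K + 1) fun _ _ => pthN_deg hp _).trans ?_
    exact (Nat.mul_le_mul_right _ ((h n).trans (Nat.le_succ _))).trans k2
  unfold hN
  refine (totalDegree_add _ _).trans (max_le ((totalDegree_add _ _).trans (max_le ?_ ?_)) ?_)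
  · exact (h n).trans ((Nat.le_succ _).trans (k3.trans k2))
  · refine (totalDegree_mul _ _).trans ?_
    rw [totalDegree_C, zero_add]
    exact (totalDegree_sub _ _).trans (max_le h1 h2)
  · exact (totalDegree_sub _ _).trans (max_le ((pthN_deg hp n).trans (k3.trans k2)) h3)

theorem bnd_all {f : ℕ → PN} {F : PN} {n : ℕ} (hf : ∀ k, (f k).vars ⊆ range n) :
    (bind₁ f F).vars ⊆ range n := by
  obtain ⟨m, hm⟩ : ∃ m, F.vars ⊆ range m := by
    refine ⟨F.vars.sup id + 1, fun x hx => mem_range.2 ?_⟩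
    exact Nat.lt_succ_of_le (Finset.le_sup (f := id) hx)
  exact AdxRow.vars_bnd hm fun k _ => hf k

theorem hN_vars {g : ℕ → ℕ} {Φ : ℕ → PN} {n : ℕ} {H : PN} {p : ℕ → Polynomial ℝ} (hn : 1 ≤ n)
    (h : TriN Φ) (hH : H.vars ⊆ range n) : (hN g Φ n H p).vars ⊆ range n := by
  unfold hN
  refine AdxRow.vars_add_le (AdxRow.vars_add_le (h n) (AdxRow.vars_mul_le (AdxRow.vars_C_le _)
    ((vars_sub_subset _).trans (Finset.union_subset ?_ ?_))))
    ((vars_sub_subset _).trans (Finset.union_subset (pthN_vars p n hn) ?_))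
  · exact AdxRow.vars_bnd hH fun k hk => (ncN_vars h k).trans
      (Finset.range_mono (by omega))
  · exact bnd_all fun k => bnd_all fun l => pthN_vars p l hn
  · exact bnd_all fun l => pthN_vars p l hn

/-! ### The comparison polynomial -/

/-- `kk` in natural coordinates. -/
noncomputable def FF (g : ℕ → ℕ) (Φ : ℕ → PN) (n : ℕ) (G H : PN) : PN :=
  C ((2 : ℝ) ^ g n) * bind₁ (nuc g Φ) (G - Φ n) - H

theorem eval_FF {g : ℕ → ℕ} {Φ : ℕ → PN} (hΦ : TriN Φ) (n : ℕ) (G H : PN) (b : ℕ → ℝ) :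
    eval (nc g Φ b) (FF g Φ n G H) = kk g Φ n G H b := by
  unfold FF kk
  rw [map_sub, map_mul, eval_C, ← eval_nat hΦ g b, map_sub]

theorem FF_deg {g : ℕ → ℕ} {Φ : ℕ → PN} {n K K₂ : ℕ} {G H : PN} (hΦ : TriN Φ)
    (h : ∀ l, (Φ l).totalDegree ≤ K) (hG : G.totalDegree ≤ K) (hGv : G.vars ⊆ range n)
    (hH : H.totalDegree ≤ K₂) (hHv : H.vars ⊆ range n) :
    (FF g Φ n G H).totalDegree ≤ K * (K + 1) ^ (n + 1) + K₂ ∧
      (FF g Φ n G H).vars ⊆ range n := by
  have h1 : (G - Φ n).vars ⊆ range n :=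
    (vars_sub_subset _).trans (Finset.union_subset hGv (hΦ n))
  have h2 : (G - Φ n).totalDegree ≤ K := (totalDegree_sub _ _).trans (max_le hG (h n))
  obtain ⟨h3, h4⟩ := nat_deg hΦ h g (n := n) le_rfl h1 h2
  unfold FF
  constructor
  · refine (totalDegree_sub _ _).trans (max_le ?_ (hH.trans (Nat.le_add_left _ _)))
    refine (totalDegree_mul _ _).trans ?_
    rw [totalDegree_C, zero_add]
    exact h4.trans (Nat.le_add_right _ _)
  · exact (vars_sub_subset _).trans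
      (Finset.union_subset (AdxRow.vars_mul_le (AdxRow.vars_C_le _) h3) hHv)

/-- `kk` as a polynomial. -/
noncomputable def kN' (g : ℕ → ℕ) (Φ : ℕ → PN) (n : ℕ) (G H : PN) : PN :=
  C ((2 : ℝ) ^ g n) * (G - Φ n) - bind₁ (ncN g Φ) H

theorem eval_kN' (g : ℕ → ℕ) (Φ : ℕ → PN) (n : ℕ) (G H : PN) (b : ℕ → ℝ) :
    eval b (kN' g Φ n G H) = kk g Φ n G H b := by
  have e2 : (fun j => eval b (ncN g Φ j)) = nc g Φ b := funext fun l => eval_ncN g Φ b l
  unfold kN' kk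
  rw [map_sub, map_mul, eval_C, map_sub, Pool.SYS35.eval_bind, e2]

theorem kN'_deg {g : ℕ → ℕ} {Φ : ℕ → PN} {n K K₂ : ℕ} {G H : PN}
    (h : ∀ l, (Φ l).totalDegree ≤ K) (hG : G.totalDegree ≤ K)
    (hH : H.totalDegree ≤ K₂) : (kN' g Φ n G H).totalDegree ≤ kN K K₂ := by
  have k1 : K₂ * ((K + 1) * (K + 1)) ≤ kN K K₂ := Nat.mul_le_mul_right _ (Nat.le_succ _)
  have k2 : (K + 1) * (K + 1) ≤ kN K K₂ := Nat.le_mul_of_pos_left _ (Nat.succ_pos _)
  have k3 : K + 1 ≤ (K + 1) * (K + 1) := Nat.le_mul_of_pos_left _ (Nat.succ_pos _)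
  unfold kN'
  refine (totalDegree_sub _ _).trans (max_le ?_ ?_)
  · refine (totalDegree_mul _ _).trans ?_
    rw [totalDegree_C, zero_add]
    exact ((totalDegree_sub _ _).trans (max_le hG (h n))).trans
      ((Nat.le_succ _).trans (k3.trans k2))
  · refine (Dgb.deg_bind fun k _ => (ncN_deg h k).trans k3).trans ?_
    exact (Nat.mul_le_mul_right _ hH).trans k1

theorem kN'_vars {g : ℕ → ℕ} {Φ : ℕ → PN} {n : ℕ} {G H : PN} (h : TriN Φ)
    (hG : G.vars ⊆ range n) (hH : H.vars ⊆ range n) : (kN' g Φ n G H).vars ⊆ range n := by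
  unfold kN'
  refine (vars_sub_subset _).trans (Finset.union_subset (AdxRow.vars_mul_le (AdxRow.vars_C_le _)
    ((vars_sub_subset _).trans (Finset.union_subset hG (h n)))) ?_)
  exact AdxRow.vars_bnd hH fun k hk => (ncN_vars h k).trans (Finset.range_mono (by omega))

/-! ### The grid -/

/-- A point of the grid, as a curve in the absolute time. -/
noncomputable def gc {n D : ℕ} (g0 : ℕ) (φ : ℝ) (a : Fin n → Fin (D + 1)) (l : ℕ) :
    Polynomial ℝ :=
  if l = 0 then Polynomial.C ((2 : ℝ) ^ g0) * (Polynomial.X - Polynomial.C φ)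
  else Polynomial.C (gpt 0 a l)

theorem gc_deg {n D : ℕ} (g0 : ℕ) (φ : ℝ) (a : Fin n → Fin (D + 1)) (l : ℕ) :
    (gc g0 φ a l).natDegree ≤ 1 := by
  unfold gc
  split_ifs
  · refine (Polynomial.natDegree_C_mul_le _ _).trans ?_
    refine (Polynomial.natDegree_sub_le _ _).trans (max_le Polynomial.natDegree_X_le ?_)
    rw [Polynomial.natDegree_C]
    exact zero_le_one
  · rw [Polynomial.natDegree_C]
    exact zero_le_one

theorem gc_eval {n D : ℕ} (hn : 1 ≤ n) (g0 : ℕ) (φ : ℝ) (a : Fin n → Fin (D + 1)) (l : ℕ)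
    (t : ℝ) : (gc g0 φ a l).eval t = gpt ((2 : ℝ) ^ g0 * (t - φ)) a l := by
  unfold gc
  by_cases h : l = 0
  · rw [if_pos h, h]
    unfold gpt
    rw [dif_pos (by omega), if_pos rfl]
    simp
  · rw [if_neg h, Polynomial.eval_C]
    unfold gpt
    split_ifs <;> rfl

/-- The value at a point of the grid, as a polynomial in the time. -/
noncomputable def gq {n D : ℕ} (g : ℕ → ℕ) (Φ : ℕ → PN) (F : PN) (a : Fin n → Fin (D + 1)) :
    Polynomial ℝ :=
  MvPolynomial.aeval (gc (g 0) (eval (fun _ => 0) (Φ 0)) a) F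

theorem gq_deg {n D D' : ℕ} (g : ℕ → ℕ) (Φ : ℕ → PN) {F : PN} (a : Fin n → Fin (D + 1))
    (h : F.totalDegree ≤ D') : (gq g Φ F a).natDegree ≤ D' :=
  Pool.UNJ.natDegree_aeval_le F _ (gc_deg _ _ a) h

theorem gq_eval {n D : ℕ} (hn : 1 ≤ n) (g : ℕ → ℕ) (Φ : ℕ → PN) (F : PN)
    (a : Fin n → Fin (D + 1)) (τ : ℝ) : (gq g Φ F a).eval τ =
      eval (gpt ((2 : ℝ) ^ g 0 * (τ - eval (fun _ => 0) (Φ 0))) a) F := by
  unfold gq
  rw [Pool.UNJ.eval_aeval_poly]
  congr 2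
  exact funext fun l => gc_eval hn _ _ a l τ

/-- The time is `τ`. -/
def Et (τ : ℝ) : ℝ → Prop := fun s => s = τ

/-- The points of the grid are in the unit box. -/
theorem gq_pt {n D : ℕ} (hn : 1 ≤ n) {g : ℕ → ℕ} {Φ : ℕ → PN} (hΦ : TriN Φ) (τ : ℝ)
    (a : Fin n → Fin (D + 1)) : ∃ b, Bt 1 (Et τ) g Φ n b ∧
      nc g Φ b = gpt ((2 : ℝ) ^ g 0 * (τ - eval (fun _ => 0) (Φ 0))) a := by
  obtain ⟨y, hy⟩ : ∃ y : ℕ → ℝ, y = gpt ((2 : ℝ) ^ g 0 * (τ - eval (fun _ => 0) (Φ 0))) a :=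
    ⟨_, rfl⟩
  rw [← hy]
  have h1 := nc_nuc hΦ g y
  refine ⟨fun j => eval y (nuc g Φ j), ⟨?_, fun l l1 l2 => ?_⟩, h1⟩
  · have h2 := congrFun h1 0
    have h3 : y 0 = (2 : ℝ) ^ g 0 * (τ - eval (fun _ => 0) (Φ 0)) := by
      rw [hy]
      unfold gpt
      rw [dif_pos (by omega), if_pos rfl]
    unfold nc at h2
    rw [h3] at h2
    have h4 : eval (fun j => eval y (nuc g Φ j)) (Φ 0) = eval (fun _ => (0 : ℝ)) (Φ 0) :=
      Pool.SYS35.eval_congr (hΦ 0) fun i hi => absurd hi (Nat.not_lt_zero _)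
    rw [h4] at h2
    have h5 : (0 : ℝ) < 2 ^ g 0 := by positivity
    have h6 := mul_left_cancel₀ h5.ne' h2
    show eval y (nuc g Φ 0) = τ
    linarith
  · have h2 := (nc_le (ρ := 1) (g := g) (Φ := Φ) (b := fun j => eval y (nuc g Φ j)) (j := l)).1
    rw [h1, hy] at h2
    rw [hy]
    exact h2 (gpt_le _ a l1)

/-- The constant of the grid. -/
def GrdP (n D : ℕ) (C : ℝ) : Prop := ∀ (F : PN) (t S : ℝ), F.vars ⊆ range n →
    F.totalDegree ≤ D → (∀ a : Fin n → Fin (D + 1), |eval (gpt t a) F| ≤ S) →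
    ∀ ρ : ℝ, 1 ≤ ρ → ∀ y : ℕ → ℝ, y 0 = t → (∀ l, 1 ≤ l → l < n → |y l| ≤ ρ) →
      |eval y F| ≤ C * S * ρ ^ (n * D)

/-- A polynomial of the natural coordinates which is small at the grid is small on the box. -/
theorem gq_box {n D m : ℕ} {C S τ : ℝ} (hG : GrdP n D C) (hn : 1 ≤ n) {g : ℕ → ℕ} {Φ : ℕ → PN}
    (hΦ : TriN Φ) {F : PN} (hm : m ≤ n) (hv : F.vars ⊆ range m) (hF : F.totalDegree ≤ D)
    (h : ∀ a : Fin n → Fin (D + 1), |(gq g Φ F a).eval τ| ≤ S) {b : ℕ → ℝ}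
    (hb : Bt 1 (Et τ) g Φ m b) : |eval (nc g Φ b) F| ≤ C * S := by
  obtain ⟨t, ht⟩ : ∃ t, t = (2 : ℝ) ^ g 0 * (τ - eval (fun _ => 0) (Φ 0)) := ⟨_, rfl⟩
  have h1 := hG F t S (hv.trans (Finset.range_mono hm)) hF (fun a => by
    have := h a
    rwa [gq_eval hn, ← ht] at this) 1 le_rfl
    (fun l => if l = 0 then t else if l < m then nc g Φ b l else 0) (by
      rw [if_pos rfl]) (fun l l1 l2 => by
      rw [if_neg (by omega)]
      split_ifs with h3
      · exact nc_le.2 (hb.2 l l1 h3)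
      · rw [abs_zero]
        exact zero_le_one)
  rw [one_pow, mul_one] at h1
  refine le_trans (le_of_eq ?_) h1
  congr 1
  refine Pool.SYS35.eval_congr hv fun l hl => ?_
  by_cases h0 : l = 0
  · rw [if_pos h0, h0, ht]
    unfold nc
    have h4 : eval b (Φ 0) = eval (fun _ => (0 : ℝ)) (Φ 0) :=
      Pool.SYS35.eval_congr (hΦ 0) fun i hi => absurd hi (Nat.not_lt_zero _)
    have h5 : b 0 = τ := hb.1
    rw [h4, h5]
  · rw [if_neg h0, if_pos hl]

/-! ### The facts at one time -/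

/-- The facts on the line sides at the time `τ`, up to the factor `S`. -/
structure LF (n B z : ℕ) (τ : ℝ) (gk gj gm : ℕ → ℕ) (Φk Φj Φm : ℕ → PN) (H : PN)
    (p : ℕ → Polynomial ℝ) (δ S : ℝ) : Prop where
  kj : ∀ l, 1 ≤ l → l < n → ∀ b, Bt 1 (Et τ) gk Φk l b →
    |eval b (Φj l) - eval b (Φk l)| ≤ S * (2 ^ (B * z) / 2 ^ gj l)
  jm : ∀ l, 1 ≤ l → l < n → ∀ b, Bt 1 (Et τ) gj Φj l b →
    |eval b (Φm l) - eval b (Φj l)| ≤ S * (2 ^ (B * z) / 2 ^ gm l)
  pa : ∀ l, 1 ≤ l → l < n → |pps p τ l - eval (pps p τ) (Φj l)| ≤ S * (1 / 2 ^ gj l)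
  own : |pps p τ n - eval (pps p τ) (Φm n)| ≤ S * (1 / 2 ^ gm n)
  kk : ∀ b b', Bt 1 (Et τ) gj Φj n b → Bt 1 (Et τ) gj Φj n b' →
    |kk gj Φj n (Φm n) H b - kk gj Φj n (Φm n) H b'| ≤ S * δ

/-- The index set of the family. -/
abbrev Ix (n D D₂ : ℕ) : Type := (Fin n × (Fin n → Fin (D + 1))) ⊕
  ((Fin n × (Fin n → Fin (D + 1))) ⊕ (Fin n ⊕ (Unit ⊕ (Fin n → Fin (D₂ + 1)))))

/-- The family. -/
noncomputable def fam (n D D₂ B z : ℕ) (gk gj gm : ℕ → ℕ) (Φk Φj Φm : ℕ → PN) (H : PN)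
    (p : ℕ → Polynomial ℝ) (δ : ℝ) : Ix n D D₂ → Polynomial ℝ :=
  Sum.elim (fun x => if (x.1 : ℕ) = 0 then 0 else
      Polynomial.C ((2 : ℝ) ^ gj x.1 / 2 ^ (B * z)) *
        gq gk Φk (bind₁ (nuc gk Φk) (Φj x.1 - Φk x.1)) x.2)
    (Sum.elim (fun x => if (x.1 : ℕ) = 0 then 0 else
      Polynomial.C ((2 : ℝ) ^ gm x.1 / 2 ^ (B * z)) *
        gq gj Φj (bind₁ (nuc gj Φj) (Φm x.1 - Φj x.1)) x.2)
    (Sum.elim (fun l => if (l : ℕ) = 0 then 0 else
      Polynomial.C ((2 : ℝ) ^ gj l) * MvPolynomial.aeval (pth p) (X (l : ℕ) - Φj l))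
    (Sum.elim (fun _ => Polynomial.C ((2 : ℝ) ^ gm n) *
      MvPolynomial.aeval (pth p) (X n - Φm n))
    (fun a => Polynomial.C (1 / δ) * (gq gj Φj (FF gj Φj n (Φm n) H) a -
      gq gj Φj (FF gj Φj n (Φm n) H) (0 : Fin n → Fin (D₂ + 1)))))))

theorem C_mul_le {c S : ℝ} (hc : 0 < c) {Q : Polynomial ℝ} {τ : ℝ} :
    |(Polynomial.C c * Q).eval τ| ≤ S ↔ |Q.eval τ| ≤ S * (1 / c) := by
  rw [Polynomial.eval_mul, Polynomial.eval_C, abs_mul, abs_of_pos hc, mul_one_div,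
    le_div_iff₀ hc, mul_comm]

theorem LF_fam (n K K₂ : ℕ) (hn : 1 ≤ n) : ∃ (C : ℝ) (D D₂ Dg : ℕ), 1 ≤ C ∧
    ∀ (B z : ℕ) (gk gj gm : ℕ → ℕ) (Φk Φj Φm : ℕ → PN) (H : PN) (p : ℕ → Polynomial ℝ) (δ : ℝ),
      0 < δ → Tr K Φk → Tr K Φj → Tr K Φm → H.totalDegree ≤ K₂ → H.vars ⊆ range n →
      (∀ l, (p l).natDegree ≤ K) →
      (∀ a, (fam n D D₂ B z gk gj gm Φk Φj Φm H p δ a).natDegree ≤ Dg) ∧
      (∀ τ, LF n B z τ gk gj gm Φk Φj Φm H p δ 1 →
        ∀ a, |(fam n D D₂ B z gk gj gm Φk Φj Φm H p δ a).eval τ| ≤ 1) ∧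
      (∀ τ S, (∀ a, |(fam n D D₂ B z gk gj gm Φk Φj Φm H p δ a).eval τ| ≤ S) →
        LF n B z τ gk gj gm Φk Φj Φm H p δ (C * S)) := by
  obtain ⟨D, hD⟩ : ∃ D, D = K * (K + 1) ^ (n + 1) := ⟨_, rfl⟩
  obtain ⟨D₂, hD₂⟩ : ∃ D₂, D₂ = K * (K + 1) ^ (n + 1) + K₂ := ⟨_, rfl⟩
  obtain ⟨C₁, hC₁, hg₁⟩ := grid_bound n D
  obtain ⟨C₂, hC₂, hg₂⟩ := grid_bound n D₂
  refine ⟨C₁ + 2 * C₂, D, D₂, D + D₂ + (K + 1) * (K + 1), by linarith, ?_⟩
  intro B z gk gj gm Φk Φj Φm H p δ hδ hk hj hm hH hHv hp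
  have q1 : ∀ l, (Φj l - Φk l).vars ⊆ range l := fun l =>
    (vars_sub_subset _).trans (Finset.union_subset (hj.tri l) (hk.tri l))
  have q2 : ∀ l, (Φj l - Φk l).totalDegree ≤ K := fun l =>
    (totalDegree_sub _ _).trans (max_le (hj.deg l) (hk.deg l))
  have q3 : ∀ l, (Φm l - Φj l).vars ⊆ range l := fun l =>
    (vars_sub_subset _).trans (Finset.union_subset (hm.tri l) (hj.tri l))
  have q4 : ∀ l, (Φm l - Φj l).totalDegree ≤ K := fun l =>
    (totalDegree_sub _ _).trans (max_le (hm.deg l) (hj.deg l))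
  have r1 : ∀ l, l ≤ n → (bind₁ (nuc gk Φk) (Φj l - Φk l)).vars ⊆ range l ∧
      (bind₁ (nuc gk Φk) (Φj l - Φk l)).totalDegree ≤ D := fun l hl => by
    rw [hD]
    exact nat_deg hk.tri hk.deg gk hl (q1 l) (q2 l)
  have r2 : ∀ l, l ≤ n → (bind₁ (nuc gj Φj) (Φm l - Φj l)).vars ⊆ range l ∧
      (bind₁ (nuc gj Φj) (Φm l - Φj l)).totalDegree ≤ D := fun l hl => by
    rw [hD]
    exact nat_deg hj.tri hj.deg gj hl (q3 l) (q4 l)
  have r3 : (FF gj Φj n (Φm n) H).totalDegree ≤ D₂ ∧ (FF gj Φj n (Φm n) H).vars ⊆ range n := by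
    rw [hD₂]
    exact FF_deg hj.tri hj.deg (hm.deg n) (hm.tri n) hH hHv
  have r4 : ∀ (l : ℕ) (F : PN), F.totalDegree ≤ K →
      (MvPolynomial.aeval (pth p) (X l - F) : Polynomial ℝ).natDegree ≤ (K + 1) * (K + 1) := by
    intro l F hF
    refine natDegree_aeval _ _ (pth_deg hp) ((totalDegree_sub _ _).trans (max_le ?_ ?_))
    · rw [totalDegree_X]
      omega
    · exact hF.trans (Nat.le_succ _)
  have r5 : ∀ (l : ℕ) (F : PN) (τ : ℝ), (MvPolynomial.aeval (pth p) (X l - F) : Polynomial ℝ).eval τ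
      = pps p τ l - eval (pps p τ) F := by
    intro l F τ
    rw [Pool.UNJ.eval_aeval_poly, map_sub, eval_X]
    rfl
  refine ⟨?_, ?_, ?_⟩
  · intro a
    rcases a with x | x | l | u | a
    · show (if (x.1 : ℕ) = 0 then 0 else
        Polynomial.C ((2 : ℝ) ^ gj x.1 / 2 ^ (B * z)) *
        gq gk Φk (bind₁ (nuc gk Φk) (Φj x.1 - Φk x.1)) x.2).natDegree ≤ _
      split_ifs
      · rw [Polynomial.natDegree_zero]
        exact Nat.zero_le _
      · refine (Polynomial.natDegree_C_mul_le _ _).trans ?_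
        have := gq_deg gk Φk x.2 (r1 x.1 x.1.2.le).2
        omega
    · show (if (x.1 : ℕ) = 0 then 0 else
        Polynomial.C ((2 : ℝ) ^ gm x.1 / 2 ^ (B * z)) *
        gq gj Φj (bind₁ (nuc gj Φj) (Φm x.1 - Φj x.1)) x.2).natDegree ≤ _
      split_ifs
      · rw [Polynomial.natDegree_zero]
        exact Nat.zero_le _
      · refine (Polynomial.natDegree_C_mul_le _ _).trans ?_
        have := gq_deg gj Φj x.2 (r2 x.1 x.1.2.le).2
        omega
    · show (if (l : ℕ) = 0 then 0 else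
        Polynomial.C ((2 : ℝ) ^ gj l) * MvPolynomial.aeval (pth p) (X (l : ℕ) - Φj l)).natDegree
          ≤ _
      split_ifs
      · rw [Polynomial.natDegree_zero]
        exact Nat.zero_le _
      · refine (Polynomial.natDegree_C_mul_le _ _).trans ?_
        have := r4 l (Φj l) (hj.deg l)
        omega
    · show (Polynomial.C ((2 : ℝ) ^ gm n) *
        MvPolynomial.aeval (pth p) (X n - Φm n)).natDegree ≤ _
      refine (Polynomial.natDegree_C_mul_le _ _).trans ?_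
      have := r4 n (Φm n) (hm.deg n)
      omega
    · show (Polynomial.C (1 / δ) * (gq gj Φj (FF gj Φj n (Φm n) H) a -
        gq gj Φj (FF gj Φj n (Φm n) H) (0 : Fin n → Fin (D₂ + 1)))).natDegree ≤ _
      refine (Polynomial.natDegree_C_mul_le _ _).trans ?_
      refine (Polynomial.natDegree_sub_le _ _).trans (max_le ?_ ?_)
      · have := gq_deg gj Φj a r3.1
        omega
      · have := gq_deg gj Φj (0 : Fin n → Fin (D₂ + 1)) r3.1
        omega
  · intro τ h a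
    rcases a with x | x | l | u | a
    · show |(if (x.1 : ℕ) = 0 then 0 else
        Polynomial.C ((2 : ℝ) ^ gj x.1 / 2 ^ (B * z)) *
        gq gk Φk (bind₁ (nuc gk Φk) (Φj x.1 - Φk x.1)) x.2).eval τ| ≤ 1
      split_ifs with h0
      · rw [Polynomial.eval_zero, abs_zero]
        exact zero_le_one
      · rw [C_mul_le (by positivity)]
        obtain ⟨b, hb1, hb2⟩ := gq_pt hn (g := gk) hk.tri τ x.2
        have h1 := h.kj x.1 (by omega) x.1.2 b (hb1.mono le_rfl (fun _ h => h) x.1.2.le)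
        rw [gq_eval hn, ← hb2, ← eval_nat hk.tri, map_sub]
        rwa [one_div_div]
    · show |(if (x.1 : ℕ) = 0 then 0 else
        Polynomial.C ((2 : ℝ) ^ gm x.1 / 2 ^ (B * z)) *
        gq gj Φj (bind₁ (nuc gj Φj) (Φm x.1 - Φj x.1)) x.2).eval τ| ≤ 1
      split_ifs with h0
      · rw [Polynomial.eval_zero, abs_zero]
        exact zero_le_one
      · rw [C_mul_le (by positivity)]
        obtain ⟨b, hb1, hb2⟩ := gq_pt hn (g := gj) hj.tri τ x.2
        have h1 := h.jm x.1 (by omega) x.1.2 b (hb1.mono le_rfl (fun _ h => h) x.1.2.le)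
        rw [gq_eval hn, ← hb2, ← eval_nat hj.tri, map_sub]
        rwa [one_div_div]
    · show |(if (l : ℕ) = 0 then 0 else
        Polynomial.C ((2 : ℝ) ^ gj l) * MvPolynomial.aeval (pth p) (X (l : ℕ) - Φj l)).eval τ| ≤ 1
      split_ifs with h0
      · rw [Polynomial.eval_zero, abs_zero]
        exact zero_le_one
      · rw [C_mul_le (by positivity), r5]
        exact h.pa l (by omega) l.2
    · show |(Polynomial.C ((2 : ℝ) ^ gm n) * MvPolynomial.aeval (pth p) (X n - Φm n)).eval τ| ≤ 1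
      rw [C_mul_le (by positivity), r5]
      exact h.own
    · show |(Polynomial.C (1 / δ) * (gq gj Φj (FF gj Φj n (Φm n) H) a -
        gq gj Φj (FF gj Φj n (Φm n) H) (0 : Fin n → Fin (D₂ + 1)))).eval τ| ≤ 1
      rw [C_mul_le (by positivity), Polynomial.eval_sub, one_div_one_div]
      obtain ⟨b, hb1, hb2⟩ := gq_pt hn (g := gj) hj.tri τ a
      obtain ⟨b', hb1', hb2'⟩ := gq_pt hn (g := gj) hj.tri τ (0 : Fin n → Fin (D₂ + 1))
      rw [gq_eval hn, gq_eval hn, ← hb2, ← hb2', eval_FF hj.tri, eval_FF hj.tri]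
      exact h.kk b b' hb1 hb1'
  · intro τ S h
    have hS : 0 ≤ S := (abs_nonneg _).trans (h (Sum.inr (Sum.inr (Sum.inr (Sum.inl ())))))
    have hCS : S ≤ (C₁ + 2 * C₂) * S := by nlinarith
    have hC1S : C₁ * S ≤ (C₁ + 2 * C₂) * S := by nlinarith
    refine ⟨?_, ?_, ?_, ?_, ?_⟩
    · intro l l1 l2 b hb
      have h1 : ∀ a : Fin n → Fin (D + 1), |(gq gk Φk (bind₁ (nuc gk Φk) (Φj l - Φk l)) a).eval τ| ≤
          S * (2 ^ (B * z) / 2 ^ gj l) := by
        intro a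
        have h2 : |(if ((⟨l, l2⟩ : Fin n) : ℕ) = 0 then 0 else
          Polynomial.C ((2 : ℝ) ^ gj l / 2 ^ (B * z)) *
          gq gk Φk (bind₁ (nuc gk Φk) (Φj l - Φk l)) a).eval τ| ≤ S :=
          h (Sum.inl (⟨l, l2⟩, a))
        rw [if_neg (by simp; omega), C_mul_le (by positivity), one_div_div] at h2
        exact h2
      have h3 := gq_box hg₁ hn hk.tri l2.le (r1 l l2.le).1 (r1 l l2.le).2 h1 hb
      rw [← eval_nat hk.tri, map_sub, ← mul_assoc] at h3
      exact h3.trans (mul_le_mul_of_nonneg_right hC1S (by positivity))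
    · intro l l1 l2 b hb
      have h1 : ∀ a : Fin n → Fin (D + 1), |(gq gj Φj (bind₁ (nuc gj Φj) (Φm l - Φj l)) a).eval τ| ≤
          S * (2 ^ (B * z) / 2 ^ gm l) := by
        intro a
        have h2 : |(if ((⟨l, l2⟩ : Fin n) : ℕ) = 0 then 0 else
          Polynomial.C ((2 : ℝ) ^ gm l / 2 ^ (B * z)) *
          gq gj Φj (bind₁ (nuc gj Φj) (Φm l - Φj l)) a).eval τ| ≤ S :=
          h (Sum.inr (Sum.inl (⟨l, l2⟩, a)))
        rw [if_neg (by simp; omega), C_mul_le (by positivity), one_div_div] at h2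
        exact h2
      have h3 := gq_box hg₁ hn hj.tri l2.le (r2 l l2.le).1 (r2 l l2.le).2 h1 hb
      rw [← eval_nat hj.tri, map_sub, ← mul_assoc] at h3
      exact h3.trans (mul_le_mul_of_nonneg_right hC1S (by positivity))
    · intro l l1 l2
      have h2 : |(if ((⟨l, l2⟩ : Fin n) : ℕ) = 0 then 0 else
        Polynomial.C ((2 : ℝ) ^ gj l) * MvPolynomial.aeval (pth p) (X l - Φj l)).eval τ| ≤ S :=
        h (Sum.inr (Sum.inr (Sum.inl ⟨l, l2⟩)))
      rw [if_neg (by simp; omega), C_mul_le (by positivity), r5] at h2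
      exact h2.trans (mul_le_mul_of_nonneg_right hCS (by positivity))
    · have h2 : |(Polynomial.C ((2 : ℝ) ^ gm n) *
        MvPolynomial.aeval (pth p) (X n - Φm n)).eval τ| ≤ S :=
        h (Sum.inr (Sum.inr (Sum.inr (Sum.inl ()))))
      rw [C_mul_le (by positivity), r5] at h2
      exact h2.trans (mul_le_mul_of_nonneg_right hCS (by positivity))
    · intro b b' hb hb'
      obtain ⟨c, hc⟩ : ∃ c, c = (gq gj Φj (FF gj Φj n (Φm n) H)
        (0 : Fin n → Fin (D₂ + 1))).eval τ := ⟨_, rfl⟩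
      have h1 : ∀ a : Fin n → Fin (D₂ + 1),
          |(gq gj Φj (FF gj Φj n (Φm n) H - C c) a).eval τ| ≤ S * δ := by
        intro a
        have h2 : |(Polynomial.C (1 / δ) * (gq gj Φj (FF gj Φj n (Φm n) H) a -
          gq gj Φj (FF gj Φj n (Φm n) H) (0 : Fin n → Fin (D₂ + 1)))).eval τ| ≤ S :=
          h (Sum.inr (Sum.inr (Sum.inr (Sum.inr a))))
        rw [C_mul_le (by positivity), one_div_one_div, Polynomial.eval_sub, ← hc] at h2
        rw [gq_eval hn] at h2 ⊢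
        rw [map_sub, eval_C]
        exact h2
      have hv : (FF gj Φj n (Φm n) H - C c).vars ⊆ range n :=
        (vars_sub_subset _).trans (Finset.union_subset r3.2 (AdxRow.vars_C_le _))
      have hd : (FF gj Φj n (Φm n) H - C c).totalDegree ≤ D₂ := by
        refine (totalDegree_sub _ _).trans (max_le r3.1 ?_)
        rw [totalDegree_C]
        exact Nat.zero_le _
      have k1 := gq_box hg₂ hn hj.tri le_rfl hv hd h1 hb
      have k2 := gq_box hg₂ hn hj.tri le_rfl hv hd h1 hb'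
      rw [map_sub, eval_C, eval_FF hj.tri] at k1 k2
      have e : (C₁ + 2 * C₂) * S * δ = C₁ * S * δ + 2 * (C₂ * (S * δ)) := by ring
      have e' : 0 ≤ C₁ * S * δ := by positivity
      rw [e]
      rw [abs_le] at k1 k2 ⊢
      constructor <;> linarith [k1.1, k1.2, k2.1, k2.2]

end Pool.STAT.Glu
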