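import Pool.Agent.H55.GEN.One
import Pool.Agent.H54.KVA.Defs2

/-!
# The height step in one variable

A family of lines with heights `n (l, t) = ∑ i, a i (l) t ^ i`, seen through a context `w`. If the
height at the time of the sample is nearly independent of the velocities given the context and the
time, the time is full given the line and nearly independent of it given the context, and the
height is not full, then the velocities are, to `h X` digits, a function of the context, the time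
and the height, on an event of probability at least `c / 2`.
-/

set_option autoImplicit false

namespace Pool.DY1

open Finset Real MvPolynomial
open Pool.Agent.H49.Ent Pool.Agent.H32.Dense Pool.STK Pool.KAF Pool.POLY
open Pool.KVA (MI)

section

variable {Ω₁ Ω₂ S T U : Type} [Fintype Ω₁] [Fintype Ω₂]

/-- A variable of the second factor given a variable of the first one which determines the common
value. -/
theorem CH_glue {p₁ : Ω₁ → ℝ} {p₂ : Ω₂ → ℝ} {Z₁ : Ω₁ → T} {Z₂ : Ω₂ → T} (h₁ : ∀ ω, 0 ≤ p₁ ω)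
    (h₂ : ∀ ω, 0 ≤ p₂ ω) (hZ : ∀ z, law p₁ Z₁ z = law p₂ Z₂ z) {A : Ω₁ → S} (hA : Det p₁ A Z₁)
    (Y : Ω₂ → U) :
    CH (glue p₁ p₂ Z₁ Z₂) (fun v => Y v.2) (fun v => A v.1) = CH p₂ Y Z₂ := by
  have hg := glue_nonneg (Z₁ := Z₁) (Z₂ := Z₂) h₁ h₂
  have e1 : CH (glue p₁ p₂ Z₁ Z₂) (fun v => Y v.2) (fun v => A v.1) =
      CH (glue p₁ p₂ Z₁ Z₂) (fun v => (Y v.2, Z₂ v.2)) (fun v => A v.1) := by
    refine CH_congr hg ?_ ?_ (fun _ _ _ _ h => h) (fun _ _ _ _ h => h)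
    · intro v v' a b h
      have k1 := (Prod.ext_iff.1 h).1
      have k2 := (Prod.ext_iff.1 h).2
      obtain ⟨a1, -, a3⟩ := (glue_pos_iff h₁ h₂ v).1 a
      obtain ⟨b1, -, b3⟩ := (glue_pos_iff h₁ h₂ v').1 b
      refine Prod.ext k1 ?_
      have := hA _ _ a1 b1 k2
      simp only
      rw [← a3, ← b3, this]
    · intro v v' a b h
      exact (Prod.ext_iff.1 (Prod.ext_iff.1 h).1).1
  have e2 : CH (glue p₁ p₂ Z₁ Z₂) (fun v => (Y v.2, Z₂ v.2)) (fun v => A v.1) =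
      H (glue p₁ p₂ Z₁ Z₂) (fun v => (A v.1, (Y v.2, Z₂ v.2))) -
        H (glue p₁ p₂ Z₁ Z₂) (fun v => A v.1) := by
    unfold CH
    congr 1
    refine H_congr hg ?_ ?_
    · intro v v' _ _ h
      exact Prod.ext (Prod.ext_iff.1 h).2 (Prod.ext_iff.1 h).1
    · intro v v' _ _ h
      exact Prod.ext (Prod.ext_iff.1 h).2 (Prod.ext_iff.1 h).1
  rw [e1, e2, H_glue_pair h₁ h₂ hZ (X := A) (Y := fun ω => (Y ω, Z₂ ω)) hA
    (fun ω ω' _ _ h => (Prod.ext_iff.1 h).2), H_glue_fst h₁ hZ A]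
  have e3 : H p₁ Z₁ = H p₂ Z₂ := by
    rw [← H_glue_fst h₁ hZ Z₁, ← H_glue_snd h₂ hZ Z₂]
    refine H_congr hg ?_ ?_
    · intro v v' a b h
      obtain ⟨-, -, a3⟩ := (glue_pos_iff h₁ h₂ v).1 a
      obtain ⟨-, -, b3⟩ := (glue_pos_iff h₁ h₂ v').1 b
      change Z₁ v.1 = Z₁ v'.1
      rw [a3, b3]
      exact h
    · intro v v' a b h
      obtain ⟨-, -, a3⟩ := (glue_pos_iff h₁ h₂ v).1 a
      obtain ⟨-, -, b3⟩ := (glue_pos_iff h₁ h₂ v').1 b
      change Z₂ v.2 = Z₂ v'.2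
      rw [← a3, ← b3]
      exact h
  rw [e3]
  unfold CH
  ring

theorem CH_glue_fst {p₁ : Ω₁ → ℝ} {p₂ : Ω₂ → ℝ} {Z₁ : Ω₁ → T} {Z₂ : Ω₂ → T}
    (h₁ : ∀ ω, 0 ≤ p₁ ω) (hZ : ∀ z, law p₁ Z₁ z = law p₂ Z₂ z) (A : Ω₁ → S) (Y : Ω₁ → U) :
    CH (glue p₁ p₂ Z₁ Z₂) (fun v => Y v.1) (fun v => A v.1) = CH p₁ Y A := by
  unfold CH
  rw [H_glue_fst h₁ hZ A, H_glue_fst h₁ hZ (fun ω => (Y ω, A ω))]

theorem CH_glue_snd {p₁ : Ω₁ → ℝ} {p₂ : Ω₂ → ℝ} {Z₁ : Ω₁ → T} {Z₂ : Ω₂ → T}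
    (h₂ : ∀ ω, 0 ≤ p₂ ω) (hZ : ∀ z, law p₁ Z₁ z = law p₂ Z₂ z) (A : Ω₂ → S) (Y : Ω₂ → U) :
    CH (glue p₁ p₂ Z₁ Z₂) (fun v => Y v.2) (fun v => A v.2) = CH p₂ Y A := by
  unfold CH
  rw [H_glue_snd h₂ hZ A, H_glue_snd h₂ hZ (fun ω => (Y ω, A ω))]

end

section

variable {Ω S : Type} [Fintype Ω]

/-- The popular value of a conditional copy. -/
theorem pop_copy {p : Ω → ℝ} (hp : IsLaw p) (Z : Ω → S) (R : Ω → Ω → Prop) {η : ℝ}
    (h : η ≤ Pr (glue p p Z Z) {v | R v.1 v.2}) :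
    ∃ g : S → Ω, η ≤ Pr p {ω | R ω (g (Z ω))} := by
  classical
  obtain ⟨ω₀⟩ : Nonempty Ω := by
    by_contra h0
    rw [not_nonempty_iff] at h0
    have := hp.sum_one
    simp at this
  -- the mass of the good points at the value `z`, for the choice `o`
  set m : S → Ω → ℝ := fun z o => ∑ ω, if Z ω = z ∧ R ω o then p ω else 0 with hm
  have hex : ∀ z : S, ∃ g : Ω, ∀ o, m z o ≤ m z g := by
    intro z
    obtain ⟨g, -, hg⟩ := Finset.exists_max_image (Finset.univ : Finset Ω) (m z) ⟨ω₀, Finset.mem_univ _⟩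
    exact ⟨g, fun o => hg o (Finset.mem_univ o)⟩
  choose g hg using hex
  refine ⟨g, h.trans ?_⟩
  have hp0 := hp.nonneg
  -- the glued probability
  have e1 : Pr (glue p p Z Z) {v | R v.1 v.2} =
      ∑ o, p o / law p Z (Z o) * m (Z o) o := by
    unfold Pr law
    rw [Fintype.sum_prod_type_right]
    refine Finset.sum_congr rfl fun o _ => ?_
    rw [hm, Finset.mul_sum]
    refine Finset.sum_congr rfl fun ω _ => ?_
    unfold glue law
    by_cases h1 : Z ω = Z o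
    · by_cases h2 : R ω o
      · simp only [Set.mem_ofPred_eq, h1, h2, and_self, if_true]
        ring
      · simp [h2]
    · simp [h1]
  have e2 : Pr p {ω | R ω (g (Z ω))} = ∑ z ∈ univ.image Z, m z (g z) := by
    unfold Pr law
    simp only [hm]
    rw [Finset.sum_comm]
    refine Finset.sum_congr rfl fun ω _ => ?_
    rw [Finset.sum_eq_single (Z ω)]
    · simp
    · intro z _ hz
      rw [if_neg]
      rintro ⟨h1, -⟩
      exact hz h1.symm
    · intro h1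
      exact absurd (Finset.mem_image_of_mem Z (Finset.mem_univ ω)) h1
  rw [e1, e2]
  calc ∑ o, p o / law p Z (Z o) * m (Z o) o
      ≤ ∑ o, p o / law p Z (Z o) * m (Z o) (g (Z o)) := by
        refine Finset.sum_le_sum fun o _ => ?_
        exact mul_le_mul_of_nonneg_left (hg _ _) (div_nonneg (hp0 o) (law_nonneg hp0 _ _))
    _ = ∑ z ∈ univ.image Z, ∑ o, if Z o = z then p o / law p Z (Z o) * m (Z o) (g (Z o))
          else 0 := by
        rw [Finset.sum_comm]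
        refine Finset.sum_congr rfl fun o _ => ?_
        rw [Finset.sum_ite_eq, if_pos (Finset.mem_image_of_mem Z (Finset.mem_univ o))]
    _ ≤ ∑ z ∈ univ.image Z, m z (g z) := by
        refine Finset.sum_le_sum fun z _ => ?_
        have h1 : ∑ o, (if Z o = z then p o / law p Z (Z o) * m (Z o) (g (Z o)) else 0) =
            (∑ o, if Z o = z then p o else 0) * (m z (g z) / law p Z z) := by
          rw [Finset.sum_mul]
          refine Finset.sum_congr rfl fun o _ => ?_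
          by_cases h2 : Z o = z
          · rw [if_pos h2, if_pos h2, h2]
            ring
          · rw [if_neg h2, if_neg h2, zero_mul]
        rw [h1]
        change law p Z z * (m z (g z) / law p Z z) ≤ m z (g z)
        have h3 : 0 ≤ m z (g z) := Finset.sum_nonneg fun ω _ => by
          split_ifs
          · exact hp0 ω
          · exact le_rfl
        rcases (law_nonneg hp0 Z z).eq_or_lt with h0 | h0
        · rw [← h0, zero_mul]
          exact h3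
        · rw [mul_div_cancel₀ _ h0.ne']

/-- The time of the sample is full given the line, the velocities of a second line with the same
height, and a second time of the second line. -/
theorem time_full {L β ν υ τ : Type} {p : Ω → ℝ} (hp : IsLaw p) (T : Ω → τ) (l : Ω → L)
    (w : Ω → β) (N : Ω → ν) (V : Ω → υ) (hlw : Det p l w) (hlV : Det p l V) :
    CH p T l - 2 * MI p T l w - MI p N V (fun ω => (T ω, w ω)) ≤
      CH (glue (glue p p (fun ω => (N ω, (T ω, w ω))) (fun ω => (N ω, (T ω, w ω)))) p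
        (fun v : Ω × Ω => l v.2) l) (fun v => T v.1.1)
        (fun v => (l v.1.1, (V v.1.2, T v.2))) := by
  have hp0 := hp.nonneg
  obtain ⟨Z, hZ⟩ : ∃ Z : Ω → ν × (τ × β), Z = fun ω => (N ω, (T ω, w ω)) := ⟨_, rfl⟩
  rw [← hZ]
  have hg1 := glue_nonneg (Z₁ := Z) (Z₂ := Z) hp0 hp0
  have hZZ : ∀ z, law p Z z = law p Z z := fun _ => rfl
  obtain ⟨q₁, hq₁⟩ : ∃ q₁ : Ω × Ω → ℝ, q₁ = glue p p Z Z := ⟨_, rfl⟩
  rw [← hq₁] at hg1 ⊢
  have hll : ∀ z, law q₁ (fun v : Ω × Ω => l v.2) z = law p l z := fun z => by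
    rw [hq₁]
    exact law_glue_snd hp0 hZZ l z
  obtain ⟨q₂, hq₂⟩ : ∃ q₂ : (Ω × Ω) × Ω → ℝ, q₂ = glue q₁ p (fun v : Ω × Ω => l v.2) l :=
    ⟨_, rfl⟩
  have hg2 := glue_nonneg (Z₁ := fun v : Ω × Ω => l v.2) (Z₂ := l) hg1 hp0
  rw [← hq₂] at hg2 ⊢
  -- the first and the second point
  have hpos1 : ∀ v, 0 < q₁ v → 0 < p v.1 ∧ 0 < p v.2 ∧ Z v.1 = Z v.2 := fun v hv => by
    rw [hq₁] at hv
    exact (glue_pos_iff hp0 hp0 v).1 hv
  have hpos2 : ∀ v, 0 < q₂ v → 0 < q₁ v.1 ∧ 0 < p v.2 ∧ l v.1.2 = l v.2 := fun v hv => by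
    rw [hq₂] at hv
    exact (glue_pos_iff hg1 hp0 v).1 hv
  -- step 1: `CH q₁ T₁ (l₁, V₂)`
  have a1 : CH q₁ (fun v => T v.1) (fun v => l v.1) = CH p T l := by
    rw [hq₁]
    exact CH_glue_fst hp0 hZZ l T
  have a2 : CH q₁ (fun v => V v.2) (fun v => v.1) = CH p V Z := by
    rw [hq₁]
    exact CH_glue hp0 hp0 hZZ (A := fun ω => ω) (fun ω ω' _ _ h => by
      have h' : ω = ω' := h
      rw [h']) V
  have a3 : CH q₁ (fun v => V v.2) (fun v => (T v.1, l v.1)) ≥ CH p V Z := by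
    rw [← a2]
    exact CH_mono_cond hg1 (fun v v' _ _ h => by
      have h' : v.1 = v'.1 := h
      simp only [h'])
  have a4 : CH q₁ (fun v => V v.2) (fun v => l v.1) ≤ CH p V w := by
    have k1 : CH q₁ (fun v => V v.2) (fun v => w v.2) = CH p V w := by
      rw [hq₁]
      exact CH_glue_snd hp0 hZZ w V
    rw [← k1]
    refine CH_mono_cond hg1 (fun v v' a b h => ?_)
    obtain ⟨a1, a2, a3⟩ := hpos1 v a
    obtain ⟨b1, b2, b3⟩ := hpos1 v' b
    have k2 := hlw _ _ a1 b1 h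
    rw [hZ] at a3 b3
    have k3 := (Prod.ext_iff.1 (Prod.ext_iff.1 a3).2).2
    have k4 := (Prod.ext_iff.1 (Prod.ext_iff.1 b3).2).2
    simp only at k3 k4 k2 ⊢
    rw [← k3, ← k4, k2]
  have a5 : CH q₁ (fun v => T v.1) (fun v => l v.1) + CH q₁ (fun v => V v.2)
      (fun v => (T v.1, l v.1)) = CH q₁ (fun v => V v.2) (fun v => l v.1) +
      CH q₁ (fun v => T v.1) (fun v => (V v.2, l v.1)) := by
    rw [← CH_chain hg1, ← CH_chain hg1]
    refine CH_congr hg1 ?_ ?_ (fun _ _ _ _ h => h) (fun _ _ _ _ h => h) <;>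
    · intro v v' _ _ h
      exact Prod.ext (Prod.ext_iff.1 (Prod.ext_iff.1 h).1).2
        (Prod.ext_iff.1 (Prod.ext_iff.1 h).1).1
  -- step 2: the third point
  have b1 : CH q₂ (fun v => T v.1.1) (fun v => (V v.1.2, l v.1.1)) =
      CH q₁ (fun v => T v.1) (fun v => (V v.2, l v.1)) := by
    rw [hq₂]
    exact CH_glue_fst hg1 hll (fun v => (V v.2, l v.1)) (fun v => T v.1)
  have b2 : CH q₂ (fun v => T v.2) (fun v => v.1) = CH p T l := by
    rw [hq₂]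
    exact CH_glue hg1 hp0 hll (A := fun v => v) (fun v v' _ _ h => by
      have h' : v = v' := h
      rw [h']) T
  have b3 : CH q₂ (fun v => T v.2) (fun v => (T v.1.1, (V v.1.2, l v.1.1))) ≥ CH p T l := by
    rw [← b2]
    exact CH_mono_cond hg2 (fun v v' _ _ h => by
      have h' : v.1 = v'.1 := h
      simp only [h'])
  have b4 : CH q₂ (fun v => T v.2) (fun v => (V v.1.2, l v.1.1)) ≤ CH p T w := by
    have k1 : CH q₂ (fun v => T v.2) (fun v => w v.2) = CH p T w := by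
      rw [hq₂]
      exact CH_glue_snd hp0 hll w T
    rw [← k1]
    refine CH_mono_cond hg2 (fun v v' a b h => ?_)
    obtain ⟨a1, a2, a3⟩ := hpos2 v a
    obtain ⟨b1, b2, b3⟩ := hpos2 v' b
    obtain ⟨c1, c2, c3⟩ := hpos1 _ a1
    obtain ⟨d1, d2, d3⟩ := hpos1 _ b1
    have k2 := hlw _ _ c1 d1 (Prod.ext_iff.1 h).2
    have k5 := hlw _ _ c2 a2 a3
    have k6 := hlw _ _ d2 b2 b3
    rw [hZ] at c3 d3
    have k3 := (Prod.ext_iff.1 (Prod.ext_iff.1 c3).2).2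
    have k4 := (Prod.ext_iff.1 (Prod.ext_iff.1 d3).2).2
    simp only at k2 k3 k4 k5 k6 ⊢
    rw [← k5, ← k6, ← k3, ← k4, k2]
  have b5 : CH q₂ (fun v => T v.1.1) (fun v => (V v.1.2, l v.1.1)) + CH q₂ (fun v => T v.2)
      (fun v => (T v.1.1, (V v.1.2, l v.1.1))) = CH q₂ (fun v => T v.2)
      (fun v => (V v.1.2, l v.1.1)) + CH q₂ (fun v => T v.1.1)
      (fun v => (T v.2, (V v.1.2, l v.1.1))) := by
    rw [← CH_chain hg2, ← CH_chain hg2]
    refine CH_congr hg2 ?_ ?_ (fun _ _ _ _ h => h) (fun _ _ _ _ h => h) <;>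
    · intro v v' _ _ h
      exact Prod.ext (Prod.ext_iff.1 (Prod.ext_iff.1 h).1).2
        (Prod.ext_iff.1 (Prod.ext_iff.1 h).1).1
  have b6 : CH q₂ (fun v => T v.1.1) (fun v => (T v.2, (V v.1.2, l v.1.1))) =
      CH q₂ (fun v => T v.1.1) (fun v => (l v.1.1, (V v.1.2, T v.2))) := by
    refine CH_congr hg2 (fun _ _ _ _ h => (Prod.ext_iff.1 h).1)
      (fun _ _ _ _ h => (Prod.ext_iff.1 h).1) ?_ ?_ <;>
    · intro v v' _ _ h
      have k1 := (Prod.ext_iff.1 h).1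
      have k2 := (Prod.ext_iff.1 (Prod.ext_iff.1 h).2).1
      have k3 := (Prod.ext_iff.1 (Prod.ext_iff.1 h).2).2
      exact Prod.ext k3 (Prod.ext k2 k1)
  -- the informations
  have m1 : CH p T w - CH p T l ≤ MI p T l w := by
    unfold Pool.KVA.MI
    have k1 := CH_chain hp0 T l w
    have k2 : CH p T (fun ω => (l ω, w ω)) = CH p T l := by
      refine CH_congr hp0 (fun _ _ _ _ h => (Prod.ext_iff.1 h).1)
        (fun _ _ _ _ h => (Prod.ext_iff.1 h).1) (fun _ _ _ _ h => (Prod.ext_iff.1 h).1) ?_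
      intro ω ω' a b h
      exact Prod.ext h (hlw _ _ a b h)
    linarith
  have m2 : CH p V w - CH p V (fun ω => (T ω, w ω)) ≤ MI p T l w := by
    -- `I(V; T | w) ≤ I(l; T | w)`
    have k1 := CH_chain hp0 V T w
    have k2 := CH_chain hp0 T V w
    have k3 : CH p (fun ω => (V ω, T ω)) w = CH p (fun ω => (T ω, V ω)) w := by
      refine CH_congr hp0 ?_ ?_ (fun _ _ _ _ h => h) (fun _ _ _ _ h => h) <;>
      · intro v v' _ _ h
        exact Prod.ext (Prod.ext_iff.1 (Prod.ext_iff.1 h).1).2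
          (Prod.ext_iff.1 (Prod.ext_iff.1 h).1).1
    have k4 : CH p T l ≤ CH p T (fun ω => (V ω, w ω)) :=
      CH_mono_cond hp0 fun ω ω' a b h => Prod.ext (hlV _ _ a b h) (hlw _ _ a b h)
    linarith [m1]
  have m3 : CH p V (fun ω => (T ω, w ω)) - CH p V Z ≤ MI p N V (fun ω => (T ω, w ω)) := by
    unfold Pool.KVA.MI
    have k1 := CH_chain hp0 V N (fun ω => (T ω, w ω))
    have k2 : CH p (fun ω => (V ω, N ω)) (fun ω => (T ω, w ω)) =
        CH p (fun ω => (N ω, V ω)) (fun ω => (T ω, w ω)) := by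
      refine CH_congr hp0 ?_ ?_ (fun _ _ _ _ h => h) (fun _ _ _ _ h => h) <;>
      · intro v v' _ _ h
        exact Prod.ext (Prod.ext_iff.1 (Prod.ext_iff.1 h).1).2
          (Prod.ext_iff.1 (Prod.ext_iff.1 h).1).1
    have k3 : CH p V (fun ω => (N ω, (T ω, w ω))) = CH p V Z := by rw [hZ]
    linarith
  linarith

end

/-! ### Polynomials in one variable without constant coefficient -/

/-- The polynomial with coefficients `r 0, .., r (K - 1)` at the powers `1, .., K`. -/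
noncomputable def hpl {K : ℕ} (r : Fin K → ℝ) : MvPolynomial (Fin 1) ℝ :=
  ∑ i : Fin K, monomial (Finsupp.single 0 (i.val + 1)) (r i)

theorem totalDegree_hpl {K : ℕ} (r : Fin K → ℝ) : (hpl r).totalDegree ≤ K := by
  unfold hpl
  refine (totalDegree_finsetSum _ _).trans (Finset.sup_le fun i _ => ?_)
  refine (totalDegree_monomial_le _ _).trans ?_
  rw [Finsupp.sum_single_index rfl]
  exact i.2

theorem eval_hpl {K : ℕ} (r : Fin K → ℝ) (z : Fin 1 → ℝ) :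
    eval z (hpl r) = ∑ i : Fin K, r i * z 0 ^ (i.val + 1) := by
  unfold hpl
  rw [map_sum]
  refine Finset.sum_congr rfl fun i _ => ?_
  rw [eval_monomial, Finsupp.prod_single_index (h := fun n e => z n ^ e) (pow_zero _)]

theorem coeff_hpl {K : ℕ} (r : Fin K → ℝ) (j : Fin K) :
    coeff (Finsupp.single 0 (j.val + 1)) (hpl r) = r j := by
  classical
  unfold hpl
  rw [coeff_sum, Finset.sum_eq_single j]
  · rw [coeff_monomial, if_pos rfl]
  · intro i _ hij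
    rw [coeff_monomial, if_neg]
    intro h
    have h1 := DFunLike.congr_fun h 0
    rw [Finsupp.single_eq_same, Finsupp.single_eq_same] at h1
    exact hij (Fin.ext (by omega))
  · intro h
    exact absurd (Finset.mem_univ _) h

theorem coeff_hpl_le {K : ℕ} (r : Fin K → ℝ) {B : ℝ} (hB : 0 ≤ B) (h : ∀ i, |r i| ≤ B)
    (m : Fin 1 →₀ ℕ) : |coeff m (hpl r)| ≤ K * B := by
  classical
  unfold hpl
  rw [coeff_sum]
  refine (Finset.abs_sum_le_sum_abs _ _).trans ?_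
  refine (Finset.sum_le_sum (g := fun _ => B) fun i _ => ?_).trans (le_of_eq ?_)
  · rw [coeff_monomial]
    split_ifs
    · exact h i
    · rw [abs_zero]
      exact hB
  · rw [Finset.sum_const, Finset.card_univ, Fintype.card_fin, nsmul_eq_mul]

/-- The height at a time. -/
noncomputable def hgt (K : ℕ) (a : ℕ → ℝ) (t : ℝ) : ℝ := ∑ i ∈ range (K + 1), a i * t ^ i

theorem hgt_eq (K : ℕ) (a : ℕ → ℝ) (t : ℝ) :
    hgt K a t = a 0 + ∑ i : Fin K, a (i.val + 1) * t ^ (i.val + 1) := by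
  unfold hgt
  rw [Finset.sum_range_succ', add_comm, pow_zero, mul_one, Finset.sum_range]

theorem Pr_le {Ω : Type} [Fintype Ω] {p : Ω → ℝ} (hp : ∀ ω, 0 ≤ p ω) {E E' : Set Ω}
    (h : ∀ ω, 0 < p ω → ω ∈ E → ω ∈ E') : Pr p E ≤ Pr p E' := by
  classical
  unfold Pr law
  refine Finset.sum_le_sum fun ω _ => ?_
  rcases (hp ω).eq_or_lt with h0 | h0
  · rw [← h0]
    simp
  · by_cases h1 : ω ∈ E
    · simp [h1, h ω h0 h1]
    · by_cases h2 : ω ∈ E'
      · simp [h1, h2, h0.le]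
      · simp [h1, h2]

/-- The bounded value. -/
noncomputable def clp (B x : ℝ) : ℝ := max (-B) (min B x)

theorem abs_clp {B : ℝ} (hB : 0 ≤ B) (x : ℝ) : |clp B x| ≤ B := by
  unfold clp
  rw [abs_le]
  exact ⟨le_max_left _ _, max_le (by linarith) (min_le_left _ _)⟩

theorem clp_eq {B x : ℝ} (h : |x| ≤ B) : clp B x = x := by
  unfold clp
  rw [abs_le] at h
  rw [min_eq_right h.2, max_eq_right h.1]

set_option maxHeartbeats 4000000 in
/-- **The height step.** -/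
theorem w2_half (K : ℕ) (c : ℝ) (hc : 0 < c) (hc1 : c ≤ 1) :
    ∃ (h ε : ℝ) (X₀ : ℕ), 0 < h ∧ h ≤ 1 ∧ 0 < ε ∧ ∀ (Ω L β : Type) [Fintype Ω] (p : Ω → ℝ)
      (X b : ℕ) (T : Ω → ℤ) (l : Ω → L) (w : Ω → β) (a : L → ℕ → ℝ), X₀ ≤ X →
      (b : ℝ) ≤ ε * X → IsLaw p → (∀ ω, 0 < p ω → |((T ω : ℤ) : ℝ)| ≤ 2 ^ X) → Det p l w →
      (∀ ω i, 0 < p ω → |a (l ω) i| ≤ 2 ^ b) →
      X * Real.log 2 - ε * X ≤ CH p T l → MI p T l w ≤ ε * X →
      MI p (fun ω => ⌊2 ^ X * hgt K (a (l ω)) (T ω / 2 ^ X)⌋)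
        (fun ω (i : Fin K) => ⌊2 ^ X * a (l ω) (i.val + 1)⌋) (fun ω => (T ω, w ω)) ≤ ε * X →
      CH p (fun ω => ⌊2 ^ X * hgt K (a (l ω)) (T ω / 2 ^ X)⌋) (fun ω => (T ω, w ω)) ≤
        (1 - c) * (X * Real.log 2) →
      ∃ φ : ℤ × (ℤ × β) → ℕ → ℝ, c / 2 ≤ Pr p {ω | ∀ i, 1 ≤ i → i ≤ K →
        |a (l ω) i - φ (⌊2 ^ X * hgt K (a (l ω)) (T ω / 2 ^ X)⌋, (T ω, w ω)) i| ≤
          (2 : ℝ) ^ (-(h * X))} := by
  classical
  obtain ⟨h, ε, X₀, hh0, hh1, hε, hone⟩ := one_half 1 K c hc hc1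
  obtain ⟨s, hs⟩ : ∃ s : ℕ, (4 * K + 4 : ℝ) ≤ 2 ^ s := by
    obtain ⟨m, hm⟩ := pow_unbounded_of_one_lt (4 * K + 4 : ℝ) (by norm_num : (1 : ℝ) < 2)
    exact ⟨m, hm.le⟩
  obtain ⟨X₁, hX₁⟩ := exists_nat_ge (2 * (s + K + 2) / ε + 4 / h)
  refine ⟨h / 2, ε / 4, max X₀ X₁, by positivity, by linarith, by positivity, ?_⟩
  intro Ω L β _ p X b T l w a hX hb hp hT hlw ha hfull hTI hL2 hNF
  have hp0 := hp.nonneg
  have hXr : (2 * (s + K + 2) / ε + 4 / h : ℝ) ≤ X :=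
    hX₁.trans (by exact_mod_cast (le_max_right _ _).trans hX)
  have hX1 : (s + K + 2 : ℝ) ≤ ε / 2 * X := by
    have h1 : 0 < 4 / h := by positivity
    have h2 : 2 * (s + K + 2) / ε ≤ X := by linarith
    rw [div_le_iff₀ hε] at h2
    linarith
  have hX2 : 4 ≤ h * X := by
    have h1 : 0 ≤ 2 * (s + K + 2) / ε := by positivity
    have h2 : 4 / h ≤ X := by linarith
    rw [div_le_iff₀ hh0] at h2
    linarith
  have hP : (0 : ℝ) < 2 ^ X := by positivity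
  obtain ⟨N, hN⟩ : ∃ N : Ω → ℤ, N = fun ω => ⌊2 ^ X * hgt K (a (l ω)) (T ω / 2 ^ X)⌋ :=
    ⟨_, rfl⟩
  obtain ⟨V, hV⟩ : ∃ V : Ω → Fin K → ℤ, V = fun ω (i : Fin K) => ⌊2 ^ X * a (l ω) (i.val + 1)⌋ :=
    ⟨_, rfl⟩
  rw [← hN] at hNF hL2
  rw [← hV] at hL2
  have hlV : Det p l V := by
    intro ω ω' _ _ h
    rw [hV]
    simp only [h]
  have htf := time_full hp T l w N V hlw hlV
  obtain ⟨Z, hZ⟩ : ∃ Z : Ω → ℤ × (ℤ × β), Z = fun ω => (N ω, (T ω, w ω)) := ⟨_, rfl⟩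
  rw [← hZ] at htf
  have hZZ : ∀ z, law p Z z = law p Z z := fun _ => rfl
  obtain ⟨q₁, hq₁⟩ : ∃ q₁ : Ω × Ω → ℝ, q₁ = glue p p Z Z := ⟨_, rfl⟩
  have hg1 : ∀ v, 0 ≤ q₁ v := by rw [hq₁]; exact glue_nonneg hp0 hp0
  rw [← hq₁] at htf
  have hll : ∀ z, law q₁ (fun v : Ω × Ω => l v.2) z = law p l z := fun z => by
    rw [hq₁]
    exact law_glue_snd hp0 hZZ l z
  obtain ⟨q₂, hq₂⟩ : ∃ q₂ : (Ω × Ω) × Ω → ℝ, q₂ = glue q₁ p (fun v : Ω × Ω => l v.2) l :=
    ⟨_, rfl⟩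
  have hg2 : ∀ v, 0 ≤ q₂ v := by rw [hq₂]; exact glue_nonneg hg1 hp0
  rw [← hq₂] at htf
  have hq1s : ∑ v, q₁ v = 1 := by rw [hq₁, sum_glue hp0 hZZ, hp.sum_one]
  have hq2s : ∑ v, q₂ v = 1 := by rw [hq₂, sum_glue hg1 hll, hq1s]
  have hq2 : IsLaw q₂ := ⟨hg2, hq2s⟩
  have hpos1 : ∀ v, 0 < q₁ v → 0 < p v.1 ∧ 0 < p v.2 ∧ Z v.1 = Z v.2 := fun v hv => by
    rw [hq₁] at hv
    exact (glue_pos_iff hp0 hp0 v).1 hv
  have hpos2 : ∀ v, 0 < q₂ v → 0 < q₁ v.1 ∧ 0 < p v.2 ∧ l v.1.2 = l v.2 := fun v hv => by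
    rw [hq₂] at hv
    exact (glue_pos_iff hg1 hp0 v).1 hv
  -- the polynomial
  obtain ⟨B, hB⟩ : ∃ B : ℝ, B = 2 ^ (b + 2) := ⟨_, rfl⟩
  have hB0 : 0 ≤ B := by rw [hB]; positivity
  obtain ⟨r, hr⟩ : ∃ r : (Fin K → ℤ) × ((Fin K → ℤ) × ℤ) → Fin K → ℝ,
    r = fun k i => clp B (((k.1 i : ℤ) - (k.2.1 i : ℤ) : ℝ) / 2 ^ X) := ⟨_, rfl⟩
  obtain ⟨Q, hQ⟩ : ∃ Q : (Fin K → ℤ) × ((Fin K → ℤ) × ℤ) → MvPolynomial (Fin 1) ℝ,
    Q = fun k => hpl (r k) - MvPolynomial.C (∑ i : Fin K, r k i * ((k.2.2 : ℤ) / 2 ^ X : ℝ) ^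
      (i.val + 1)) := ⟨_, rfl⟩
  have hQc : ∀ k m, m ≠ 0 → coeff m (Q k) = coeff m (hpl (r k)) := by
    intro k m hm
    rw [hQ]
    simp only [coeff_sub, coeff_C]
    rw [if_neg (Ne.symm hm), sub_zero]
  have hVa : ∀ ω i, |a (l ω) (i.val + 1) - (V ω i : ℝ) / 2 ^ X| ≤ 1 / 2 ^ X := by
    intro ω i
    rw [hV]
    dsimp only
    have h1 := Int.floor_le (2 ^ X * a (l ω) (i.val + 1))
    have h2 := Int.lt_floor_add_one (2 ^ X * a (l ω) (i.val + 1))
    have h3 : a (l ω) (i.val + 1) - (⌊2 ^ X * a (l ω) (i.val + 1)⌋ : ℝ) / 2 ^ X =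
        (2 ^ X * a (l ω) (i.val + 1) - ⌊2 ^ X * a (l ω) (i.val + 1)⌋) / 2 ^ X := by
      field_simp
    rw [h3, abs_div, abs_of_pos hP]
    refine div_le_div_of_nonneg_right ?_ hP.le
    rw [abs_le]
    constructor <;> linarith
  have h2X : (1 : ℝ) / 2 ^ X ≤ 1 := by
    rw [div_le_one hP]
    exact one_le_pow₀ (by norm_num)
  have hrv : ∀ v, 0 < q₂ v → ∀ i : Fin K,
      |r (V v.1.1, (V v.1.2, T v.2)) i - (a (l v.1.1) (i.val + 1) - a (l v.1.2) (i.val + 1))| ≤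
        2 / 2 ^ X := by
    intro v hv i
    obtain ⟨a1, a2, a3⟩ := hpos2 v hv
    obtain ⟨c1, c2, c3⟩ := hpos1 _ a1
    have k1 := hVa v.1.1 i
    have k2 := hVa v.1.2 i
    have k3 := ha v.1.1 (i.val + 1) c1
    have k4 := ha v.1.2 (i.val + 1) c2
    have k5 : |((V v.1.1 i : ℤ) - (V v.1.2 i : ℤ) : ℝ) / 2 ^ X| ≤ B := by
      rw [hB, sub_div]
      have k6 : (1 : ℝ) ≤ 2 ^ b := one_le_pow₀ (by norm_num)
      have k7 : (2 : ℝ) ^ (b + 2) = 4 * 2 ^ b := by rw [pow_add]; ring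
      rw [k7]
      rw [abs_le] at k1 k2 k3 k4 ⊢
      constructor <;> linarith
    rw [hr]
    dsimp only
    rw [clp_eq k5, sub_div]
    rw [abs_le] at k1 k2 ⊢
    have k8 : (2 : ℝ) / 2 ^ X = 1 / 2 ^ X + 1 / 2 ^ X := by ring
    rw [k8]
    constructor <;> linarith
  -- the application
  have hmain := hone ((Ω × Ω) × Ω) ((Fin K → ℤ) × ((Fin K → ℤ) × ℤ)) (ℤ × β) q₂ X 0 (b + 2 + K) s
    (fun v => ⌊2 ^ X * hgt K (a (l v.1.1)) (T v.2 / 2 ^ X)⌋) (fun v => N v.2)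
    (fun v => (V v.1.1, (V v.1.2, T v.2))) (fun v => (T v.2, w v.2)) Q
    (fun v _ => T v.1.1) ((le_max_left _ _).trans hX)
    (by push_cast; positivity) (by push_cast; linarith) (by
      have : (0 : ℝ) ≤ K := Nat.cast_nonneg _
      linarith) hq2
    (fun v hv i => by
      obtain ⟨a1, a2, a3⟩ := hpos2 v hv
      obtain ⟨c1, c2, c3⟩ := hpos1 _ a1
      rw [pow_zero, one_mul]
      exact hT _ c1)
    (fun k => by
      rw [hQ]
      dsimp only
      rw [sub_eq_add_neg, ← map_neg]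
      refine (totalDegree_add _ _).trans (max_le (totalDegree_hpl _) ?_)
      rw [totalDegree_C]
      exact Nat.zero_le _)
    (fun k m hm => by
      rw [hQc k m hm]
      refine (coeff_hpl_le _ hB0 (fun i => by
        rw [hr]
        exact abs_clp hB0 _) m).trans ?_
      rw [hB, pow_add 2 (b + 2) K, mul_comm]
      refine mul_le_mul_of_nonneg_left ?_ (by positivity)
      exact_mod_cast (Nat.lt_two_pow_self).le)
    (fun v hv => by
      obtain ⟨a1, a2, a3⟩ := hpos2 v hv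
      obtain ⟨c1, c2, c3⟩ := hpos1 _ a1
      rw [hZ] at c3
      have e1 : N v.1.1 = N v.1.2 := (Prod.ext_iff.1 c3).1
      have e2 : T v.1.1 = T v.1.2 := (Prod.ext_iff.1 (Prod.ext_iff.1 c3).2).1
      rw [hN] at e1
      dsimp only at e1
      rw [← e2] at e1
      have e3 : eval (fun i : Fin 1 => ((T v.1.1 : ℤ) : ℝ) / 2 ^ X)
          (Q (V v.1.1, (V v.1.2, T v.2))) =
          ∑ i : Fin K, r (V v.1.1, (V v.1.2, T v.2)) i *
            (((T v.1.1 : ℤ) / 2 ^ X : ℝ) ^ (i.val + 1) - ((T v.2 : ℤ) / 2 ^ X : ℝ) ^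
              (i.val + 1)) := by
        rw [hQ]
        dsimp only
        rw [map_sub, eval_hpl, eval_C, ← Finset.sum_sub_distrib]
        exact Finset.sum_congr rfl fun i _ => by ring
      have f1 := Int.floor_le (2 ^ X * hgt K (a (l v.1.1)) (T v.1.1 / 2 ^ X))
      have f2 := Int.lt_floor_add_one (2 ^ X * hgt K (a (l v.1.1)) (T v.1.1 / 2 ^ X))
      have f3 := Int.floor_le (2 ^ X * hgt K (a (l v.1.2)) (T v.1.1 / 2 ^ X))
      have f4 := Int.lt_floor_add_one (2 ^ X * hgt K (a (l v.1.2)) (T v.1.1 / 2 ^ X))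
      rw [e1] at f1 f2
      have f5 := Int.floor_le (2 ^ X * hgt K (a (l v.1.1)) (T v.2 / 2 ^ X))
      have f6 := Int.lt_floor_add_one (2 ^ X * hgt K (a (l v.1.1)) (T v.2 / 2 ^ X))
      have f7 := Int.floor_le (2 ^ X * hgt K (a (l v.1.2)) (T v.2 / 2 ^ X))
      have f8 := Int.lt_floor_add_one (2 ^ X * hgt K (a (l v.1.2)) (T v.2 / 2 ^ X))
      have e4 : N v.2 = ⌊2 ^ X * hgt K (a (l v.1.2)) (T v.2 / 2 ^ X)⌋ := by
        rw [hN]
        dsimp only
        rw [← a3]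
      rw [e4, e3]
      -- the sum with the exact velocities
      have e5 : 2 ^ X * (hgt K (a (l v.1.2)) (T v.2 / 2 ^ X) -
          hgt K (a (l v.1.1)) (T v.2 / 2 ^ X)) - 2 ^ X * (hgt K (a (l v.1.2)) (T v.1.1 / 2 ^ X) -
          hgt K (a (l v.1.1)) (T v.1.1 / 2 ^ X)) = 2 ^ X * ∑ i : Fin K,
            (a (l v.1.1) (i.val + 1) - a (l v.1.2) (i.val + 1)) *
            (((T v.1.1 : ℤ) / 2 ^ X : ℝ) ^ (i.val + 1) - ((T v.2 : ℤ) / 2 ^ X : ℝ) ^
              (i.val + 1)) := by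
        rw [hgt_eq, hgt_eq, hgt_eq, hgt_eq, ← mul_sub]
        congr 1
        have : ∀ x y z u A B : ℝ, A + x - (B + y) - (A + z - (B + u)) = (x - z) - (y - u) := by
          intros
          ring
        rw [this, ← Finset.sum_sub_distrib, ← Finset.sum_sub_distrib, ← Finset.sum_sub_distrib]
        exact Finset.sum_congr rfl fun i _ => by ring
      have e6 : |2 ^ X * ∑ i : Fin K, (a (l v.1.1) (i.val + 1) - a (l v.1.2) (i.val + 1)) *
            (((T v.1.1 : ℤ) / 2 ^ X : ℝ) ^ (i.val + 1) - ((T v.2 : ℤ) / 2 ^ X : ℝ) ^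
              (i.val + 1)) - 2 ^ X * ∑ i : Fin K, r (V v.1.1, (V v.1.2, T v.2)) i *
            (((T v.1.1 : ℤ) / 2 ^ X : ℝ) ^ (i.val + 1) - ((T v.2 : ℤ) / 2 ^ X : ℝ) ^
              (i.val + 1))| ≤ 4 * K := by
        rw [← mul_sub, ← Finset.sum_sub_distrib, abs_mul, abs_of_pos hP]
        have g1 : ∀ t : ℤ, |((t : ℤ) : ℝ)| ≤ 2 ^ X → ∀ j : ℕ, |((t : ℤ) / 2 ^ X : ℝ) ^ j| ≤ 1 := by
          intro t ht j
          rw [abs_pow]
          refine pow_le_one₀ (abs_nonneg _) ?_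
          rw [abs_div, abs_of_pos hP, div_le_one hP]
          exact ht
        have g2 : |∑ i : Fin K, ((a (l v.1.1) (i.val + 1) - a (l v.1.2) (i.val + 1)) *
            (((T v.1.1 : ℤ) / 2 ^ X : ℝ) ^ (i.val + 1) - ((T v.2 : ℤ) / 2 ^ X : ℝ) ^
              (i.val + 1)) - r (V v.1.1, (V v.1.2, T v.2)) i *
            (((T v.1.1 : ℤ) / 2 ^ X : ℝ) ^ (i.val + 1) - ((T v.2 : ℤ) / 2 ^ X : ℝ) ^
              (i.val + 1)))| ≤ K * (2 / 2 ^ X * 2) := by
          refine (Finset.abs_sum_le_sum_abs _ _).trans ?_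
          refine (Finset.sum_le_sum (g := fun _ => (2 / 2 ^ X * 2 : ℝ)) fun i _ => ?_).trans
            (le_of_eq ?_)
          · rw [← sub_mul, abs_mul]
            refine mul_le_mul ?_ ?_ (abs_nonneg _) (by positivity)
            · rw [abs_sub_comm]
              exact hrv v hv i
            · refine (abs_sub _ _).trans ?_
              have g3 := g1 _ (hT _ c1) (i.val + 1)
              have g4 := g1 _ (hT _ a2) (i.val + 1)
              linarith
          · rw [Finset.sum_const, Finset.card_univ, Fintype.card_fin, nsmul_eq_mul]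
        calc 2 ^ X * _ ≤ 2 ^ X * (K * (2 / 2 ^ X * 2) : ℝ) := mul_le_mul_of_nonneg_left g2 hP.le
          _ = 4 * K := by field_simp; ring
      refine le_trans ?_ hs
      rw [← e5] at e6
      rw [abs_le] at e6 ⊢
      constructor <;> linarith [e6.1, e6.2])
    (by
      have k1 : CH q₂ (fun v => T v.1.1) (fun v => (l v.1.1, (V v.1.2, T v.2))) ≤
          CH q₂ (fun v (_ : Fin 1) => T v.1.1) (fun v => ((V v.1.1, (V v.1.2, T v.2)),
            (⌊2 ^ X * hgt K (a (l v.1.1)) (T v.2 / 2 ^ X)⌋, (T v.2, w v.2)))) := by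
        have k2 : CH q₂ (fun v => T v.1.1) (fun v => (l v.1.1, (V v.1.2, T v.2))) =
            CH q₂ (fun v (_ : Fin 1) => T v.1.1) (fun v => (l v.1.1, (V v.1.2, T v.2))) := by
          refine CH_congr hg2 ?_ ?_ (fun _ _ _ _ h => h) (fun _ _ _ _ h => h)
          · intro v v' _ _ h
            funext _
            exact (Prod.ext_iff.1 h).1
          · intro v v' _ _ h
            exact congrFun (Prod.ext_iff.1 h).1 0
        rw [k2]
        refine CH_mono_cond hg2 fun v v' hv hv' h => ?_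
        obtain ⟨a1, a2, a3⟩ := hpos2 v hv
        obtain ⟨b1, b2, b3⟩ := hpos2 v' hv'
        obtain ⟨c1, c2, c3⟩ := hpos1 _ a1
        obtain ⟨d1, d2, d3⟩ := hpos1 _ b1
        have i1 := (Prod.ext_iff.1 h).1
        have i2 := (Prod.ext_iff.1 (Prod.ext_iff.1 h).2).1
        have i3 := (Prod.ext_iff.1 (Prod.ext_iff.1 h).2).2
        dsimp only at i1 i2 i3
        have i4 := hlV _ _ c1 d1 i1
        have i5 : w v.2 = w v'.2 := by
          have k2 := hlw _ _ c1 d1 i1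
          have k5 := hlw _ _ c2 a2 a3
          have k6 := hlw _ _ d2 b2 b3
          rw [hZ] at c3 d3
          have k3 := (Prod.ext_iff.1 (Prod.ext_iff.1 c3).2).2
          have k4 := (Prod.ext_iff.1 (Prod.ext_iff.1 d3).2).2
          simp only at k2 k3 k4 k5 k6 ⊢
          rw [← k5, ← k6, ← k3, ← k4, k2]
        refine Prod.ext (Prod.ext i4 (Prod.ext i2 i3)) (Prod.ext ?_ (Prod.ext i3 i5))
        dsimp only
        rw [i1, i3]
      refine le_trans ?_ k1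
      refine le_trans ?_ htf
      push_cast
      linarith)
    (by
      have k1 : CH q₂ (fun v => N v.2) (fun v => (T v.2, w v.2)) =
          CH p N (fun ω => (T ω, w ω)) := by
        rw [hq₂]
        exact CH_glue_snd hp0 hll (fun ω => (T ω, w ω)) N
      rw [k1]
      exact hNF)
  -- the popular value
  obtain ⟨R, hR⟩ : ∃ R : Ω → Ω → Prop, R = fun ω ω' => ∀ i, 1 ≤ i → i ≤ K →
    |a (l ω) i - a (l ω') i| ≤ (2 : ℝ) ^ (-(h / 2 * X)) := ⟨_, rfl⟩
  have hpr : c / 2 ≤ Pr (glue p p Z Z) {v | R v.1 v.2} := by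
    have k1 : Pr q₂ {v | R v.1.1 v.1.2} = Pr (glue p p Z Z) {v | R v.1 v.2} := by
      rw [hq₂, ← hq₁]
      exact law_glue_fst hg1 hll (fun v => v ∈ {v : Ω × Ω | R v.1 v.2}) True
    rw [← k1]
    refine hmain.trans (Pr_le hg2 fun v hv hmem => ?_)
    have hmem' : ∀ m ≠ 0, |coeff m (Q (V v.1.1, (V v.1.2, T v.2)))| ≤ (2 : ℝ) ^ (-(h * X)) := hmem
    change R v.1.1 v.1.2
    rw [hR]
    intro i hi1 hiK
    obtain ⟨j, hj⟩ : ∃ j : Fin K, j.val + 1 = i := ⟨⟨i - 1, by omega⟩, by simp; omega⟩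
    have k2 := hmem' (Finsupp.single 0 (j.val + 1)) (by
      intro h0
      have := DFunLike.congr_fun h0 0
      rw [Finsupp.single_eq_same] at this
      simp at this)
    rw [hQc _ _ (by
      intro h0
      have := DFunLike.congr_fun h0 0
      rw [Finsupp.single_eq_same] at this
      simp at this), coeff_hpl] at k2
    have k3 := hrv v hv j
    rw [hj] at k3
    have k4 : |a (l v.1.1) i - a (l v.1.2) i| ≤ (2 : ℝ) ^ (-(h * X)) + 2 / 2 ^ X := by
      rw [abs_le] at k2 k3 ⊢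
      constructor <;> linarith [k2.1, k2.2, k3.1, k3.2]
    refine k4.trans ?_
    have k5 : (1 : ℝ) / 2 ^ X ≤ (2 : ℝ) ^ (-(h * X)) := by
      rw [one_div, ← Real.rpow_natCast, ← Real.rpow_neg (by norm_num)]
      refine Real.rpow_le_rpow_of_exponent_le (by norm_num) ?_
      have : h * X ≤ 1 * X := mul_le_mul_of_nonneg_right hh1 (Nat.cast_nonneg _)
      linarith
    have k6 : (2 : ℝ) ^ (-(h / 2 * X)) = (2 : ℝ) ^ (-(h * X)) * (2 : ℝ) ^ (h / 2 * X) := by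
      rw [← Real.rpow_add (by norm_num)]
      congr 1
      ring
    have k7 : (4 : ℝ) ≤ (2 : ℝ) ^ (h / 2 * X) := by
      have : (4 : ℝ) = (2 : ℝ) ^ (2 : ℝ) := by norm_num
      rw [this]
      exact Real.rpow_le_rpow_of_exponent_le (by norm_num) (by linarith)
    have k8 : (0 : ℝ) < (2 : ℝ) ^ (-(h * X)) := Real.rpow_pos_of_pos (by norm_num) _
    rw [k6]
    have k9 : (2 : ℝ) / 2 ^ X = 2 * (1 / 2 ^ X) := by ring
    rw [k9]
    nlinarith
  obtain ⟨g, hg⟩ := pop_copy hp Z R hpr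
  refine ⟨fun z i => a (l (g z)) i, ?_⟩
  refine hg.trans (Pr_le hp0 fun ω _ hmem => ?_)
  have hmem' : R ω (g (Z ω)) := hmem
  rw [hR] at hmem'
  intro i hi1 hiK
  have := hmem' i hi1 hiK
  rw [hZ, hN] at this
  exact this

end Pool.DY1
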