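import Pool.Agent.H55.GEN.Rem

/-!
# Functions on `{0,…,M-1}` which are additive up to `η` for most pairs
-/

namespace Pool.GDYN

open Finset

/-- additivity up to `η` everywhere on `[0, D]` -/
lemma add100 (D : ℕ) (A : ℕ → ℝ) (η : ℝ) (hD : 0 < D)
    (h : ∀ d e, d + e ≤ D → |A (d + e) - A d - A e| ≤ η) :
    ∀ d ≤ D, |A d - (A D / D) * d| ≤ 3 * η := by
  have hDR : (D : ℝ) ≠ 0 := by exact_mod_cast hD.ne'
  set f : ℕ → ℝ := fun d => A d - (A D / D) * d with hf
  have hadd : ∀ d e, d + e ≤ D → |f (d + e) - f d - f e| ≤ η := by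
    intro d e hde
    have h1 := h d e hde
    have h2 : f (d + e) - f d - f e = A (d + e) - A d - A e := by
      simp only [hf]; push_cast; ring
    rw [h2]; exact h1
  have hfD : f D = 0 := by
    simp only [hf]; field_simp; ring
  obtain ⟨m, hm, hmax⟩ := exists_max_image (range (D + 1)) (fun d => |f d|)
    ⟨0, by simp⟩
  have hmD : m ≤ D := by rw [mem_range] at hm; omega
  have key : |f m| ≤ 3 * η := by
    have hη : 0 ≤ η := le_trans (abs_nonneg _) (hadd 0 0 (by omega))
    by_cases hc : 2 * m ≤ D
    · have h1 := hadd m m (by omega)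
      have h2 := hmax (m + m) (by rw [mem_range]; omega)
      have h3 : |2 * f m| ≤ |f (m + m)| + η := by
        have : 2 * f m = f (m + m) - (f (m + m) - f m - f m) := by ring
        rw [this]
        refine le_trans (abs_sub _ _) ?_
        linarith
      rw [abs_mul, abs_two] at h3
      linarith
    · have h1 := hadd m (D - m) (by omega)
      have h0 : m + (D - m) = D := by omega
      rw [h0, hfD] at h1
      have h2 := hadd (D - m) (D - m) (by omega)
      have h3 := hmax ((D - m) + (D - m)) (by rw [mem_range]; omega)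
      have h4 : |f m| ≤ |f (D - m)| + η := by
        have : f m = - (0 - f m - f (D - m)) - f (D - m) := by ring
        rw [this]
        refine le_trans (abs_sub _ _) ?_
        rw [abs_neg]
        linarith
      have h5 : |2 * f (D - m)| ≤ |f ((D - m) + (D - m))| + η := by
        have : 2 * f (D - m) = f ((D - m) + (D - m)) -
            (f ((D - m) + (D - m)) - f (D - m) - f (D - m)) := by ring
        rw [this]
        refine le_trans (abs_sub _ _) ?_
        linarith
      rw [abs_mul, abs_two] at h5
      linarith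
  intro d hd
  exact le_trans (hmax d (by rw [mem_range]; omega)) key

/-- the pairs at which `α` is not additive up to `η` -/
noncomputable def badPairs (M : ℕ) (α : ℕ → ℝ) (η : ℝ) : Finset (ℕ × ℕ) :=
  (range M ×ˢ range M).filter
    (fun x => x.1 + x.2 < M ∧ η < |α (x.1 + x.2) - α x.1 - α x.2|)

/-- additivity for most pairs gives a linear function at most points -/
lemma add99 (M D β : ℕ) (α : ℕ → ℝ) (η : ℝ) (hη : 0 ≤ η) (hD : 0 < D) (hDM : 8 * D ≤ M)
    (hβ : (badPairs M α η).card ≤ β) (hsm : 3 * (β / D) < D) :
    ∃ c : ℝ, cb D (fun d => α d - c * d) (21 * η) ≤ β / D := by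
  set B := badPairs M α η with hB
  set e := β / D with he
  set H := range (2 * D) with hH
  -- a pair which is not bad
  have hgood : ∀ h k, h + k < M → (h, k) ∉ B → |α (h + k) - α h - α k| ≤ η := by
    intro h k hhk hn
    by_contra hc
    push Not at hc
    apply hn
    rw [hB]
    unfold badPairs
    simp only [mem_filter, mem_product, mem_range]
    exact ⟨⟨by omega, by omega⟩, hhk, hc⟩
  -- step 1
  have hT : ∀ d ≤ 2 * D, ((H ×ˢ H).filter
      (fun x => (x.1 + d, x.2) ∈ B ∨ (x.1, x.2 + d) ∈ B)).card ≤ 2 * β := by
    intro d hd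
    have h1 : ((H ×ˢ H).filter (fun x => (x.1 + d, x.2) ∈ B)).card ≤ β := by
      refine le_trans ?_ hβ
      apply card_le_card_of_injOn (fun x => (x.1 + d, x.2))
      · intro x hx
        rw [mem_coe, mem_filter] at hx
        exact hx.2
      · intro x _ y _ hxy
        simp only [Prod.mk.injEq] at hxy
        exact Prod.ext (by omega) hxy.2
    have h2 : ((H ×ˢ H).filter (fun x => (x.1, x.2 + d) ∈ B)).card ≤ β := by
      refine le_trans ?_ hβ
      apply card_le_card_of_injOn (fun x => (x.1, x.2 + d))
      · intro x hx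
        rw [mem_coe, mem_filter] at hx
        exact hx.2
      · intro x _ y _ hxy
        simp only [Prod.mk.injEq] at hxy
        exact Prod.ext hxy.1 (by omega)
    rw [filter_or]
    refine le_trans (card_union_le _ _) ?_
    omega
  have hk : ∀ d, d ≤ 2 * D → ∃ k ∈ H,
      (H.filter (fun h => (h + d, k) ∈ B ∨ (h, k + d) ∈ B)).card ≤ e := by
    intro d hd
    by_contra hc
    push Not at hc
    have h1 := hT d hd
    have h2 : ((H ×ˢ H).filter
        (fun x => (x.1 + d, x.2) ∈ B ∨ (x.1, x.2 + d) ∈ B)).card =
        ∑ k ∈ H, (H.filter (fun h => (h + d, k) ∈ B ∨ (h, k + d) ∈ B)).card := by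
      rw [card_filter, sum_product_right]
      apply sum_congr rfl
      intro k _
      rw [card_filter]
    rw [h2] at h1
    have h3' : ∑ k ∈ H, (e + 1) ≤
        ∑ k ∈ H, (H.filter (fun h => (h + d, k) ∈ B ∨ (h, k + d) ∈ B)).card :=
      sum_le_sum (fun k hk => hc k hk)
    have h3 : 2 * D * (e + 1) ≤
        ∑ k ∈ H, (H.filter (fun h => (h + d, k) ∈ B ∨ (h, k + d) ∈ B)).card := by
      refine le_trans (le_of_eq ?_) h3'
      rw [sum_const, hH, card_range, smul_eq_mul]
    have h4 : β < D * (e + 1) := by
      rw [he]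
      exact Nat.lt_mul_div_succ β hD
    have h5 : 2 * D * (e + 1) = 2 * (D * (e + 1)) := by ring
    omega
  choose! kd hkd1 hkd2 using hk
  set A : ℕ → ℝ := fun d => α (kd d + d) - α (kd d) with hA
  let E : ℕ → Finset ℕ := fun d => H.filter (fun h => (h + d, kd d) ∈ B ∨ (h, kd d + d) ∈ B)
  have hE : ∀ d ≤ 2 * D, (E d).card ≤ e := fun d hd => hkd2 d hd
  have hEA : ∀ d ≤ 2 * D, ∀ h < 2 * D, h ∉ E d → |α (h + d) - α h - A d| ≤ 2 * η := by
    intro d hd h hh hn
    have hkk := hkd1 d hd
    rw [hH, mem_range] at hkk
    have hn' : ¬ ((h + d, kd d) ∈ B ∨ (h, kd d + d) ∈ B) := by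
      intro hc
      apply hn
      simp only [E, mem_filter, hH, mem_range]
      exact ⟨hh, hc⟩
    push Not at hn'
    have h1 := hgood (h + d) (kd d) (by omega) hn'.1
    have h2 := hgood h (kd d + d) (by omega) hn'.2
    have h3 : h + d + kd d = h + (kd d + d) := by ring
    rw [h3] at h1
    have h4 : α (h + d) - α h - A d =
        (α (h + (kd d + d)) - α h - α (kd d + d)) -
        (α (h + (kd d + d)) - α (h + d) - α (kd d)) := by
      simp only [hA]; ring
    rw [h4]
    refine le_trans (abs_sub _ _) ?_
    linarith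
  -- step 2
  have hAadd : ∀ d e', d + e' ≤ D → |A (d + e') - A d - A e'| ≤ 6 * η := by
    intro d d' hdd
    have hex : ∃ h ∈ range D, h ∉ E (d + d') ∧ h ∉ E d ∧ h + d ∉ E d' := by
      by_contra hc
      push Not at hc
      have h1 : range D ⊆ (E (d + d')) ∪ (E d) ∪
          ((range D).filter (fun h => h + d ∈ E d')) := by
        intro h hh
        simp only [mem_union, mem_filter]
        by_cases ha : h ∈ E (d + d')
        · exact Or.inl (Or.inl ha)
        · by_cases hb : h ∈ E d
          · exact Or.inl (Or.inr hb)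
          · exact Or.inr ⟨hh, hc h hh ha hb⟩
      have h2 := card_le_card h1
      have h3 : ((range D).filter (fun h => h + d ∈ E d')).card ≤ e := by
        refine le_trans ?_ (hE d' (by omega))
        apply card_le_card_of_injOn (fun h => h + d)
        · intro x hx
          rw [mem_coe, mem_filter] at hx
          exact hx.2
        · intro x _ y _ hxy
          simpa using hxy
      have h4 := card_union_le ((E (d + d')) ∪ (E d)) ((range D).filter (fun h => h + d ∈ E d'))
      have h5 := card_union_le (E (d + d')) (E d)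
      have h6 := hE (d + d') (by omega)
      have h7 := hE d (by omega)
      rw [card_range] at h2
      omega
    obtain ⟨h, hh, h1, h2, h3⟩ := hex
    rw [mem_range] at hh
    have g1 := hEA (d + d') (by omega) h (by omega) h1
    have g2 := hEA d (by omega) h (by omega) h2
    have g3 := hEA d' (by omega) (h + d) (by omega) h3
    have g4 : h + d + d' = h + (d + d') := by ring
    rw [g4] at g3
    have g5 : A (d + d') - A d - A d' =
        (α (h + d) - α h - A d) + (α (h + (d + d')) - α (h + d) - A d') -
        (α (h + (d + d')) - α h - A (d + d')) := by ring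
    rw [g5]
    refine le_trans (abs_sub _ _) ?_
    have g6 := abs_add_le (α (h + d) - α h - A d) (α (h + (d + d')) - α (h + d) - A d')
    linarith
  have hlin := add100 D A (6 * η) hD hAadd
  refine ⟨A D / D, ?_⟩
  -- step 4
  have hcount : ((range D).filter (fun d => D ≤ (H.filter (fun h => (h, d) ∈ B)).card)).card
      ≤ e := by
    set G := (range D).filter (fun d => D ≤ (H.filter (fun h => (h, d) ∈ B)).card) with hG
    have h1 : ∑ d ∈ G, D ≤ ∑ d ∈ G, (H.filter (fun h => (h, d) ∈ B)).card := by
      apply sum_le_sum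
      intro d hd
      rw [hG, mem_filter] at hd
      exact hd.2
    have h2 : ∑ d ∈ G, (H.filter (fun h => (h, d) ∈ B)).card ≤ β := by
      have h3 : ∑ d ∈ G, (H.filter (fun h => (h, d) ∈ B)).card =
          ((H ×ˢ G).filter (fun x => (x.1, x.2) ∈ B)).card := by
        rw [card_filter, sum_product_right]
        apply sum_congr rfl
        intro k _
        rw [card_filter]
      rw [h3]
      refine le_trans ?_ hβ
      apply card_le_card
      intro x hx
      rw [mem_filter] at hx
      exact hx.2
    rw [sum_const, smul_eq_mul] at h1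
    rw [he, Nat.le_div_iff_mul_le hD]
    omega
  refine le_trans ?_ hcount
  unfold cb
  apply card_le_card
  intro d hd
  rw [mem_filter, mem_range] at hd ⊢
  refine ⟨hd.1, ?_⟩
  by_contra hc
  push Not at hc
  -- a good h
  have hex : ∃ h ∈ H, (h, d) ∉ B ∧ h ∉ E d := by
    by_contra hc2
    push Not at hc2
    have h1 : H ⊆ (H.filter (fun h => (h, d) ∈ B)) ∪ E d := by
      intro h hh
      simp only [mem_union, mem_filter]
      by_cases ha : (h, d) ∈ B
      · exact Or.inl ⟨hh, ha⟩
      · exact Or.inr (hc2 h hh ha)
    have h2 := card_le_card h1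
    have h3 := card_union_le (H.filter (fun h => (h, d) ∈ B)) (E d)
    have h4 := hE d (by omega)
    rw [hH, card_range] at h2
    rw [hH] at h3 hc
    omega
  obtain ⟨h, hh, h1, h2⟩ := hex
  rw [hH, mem_range] at hh
  have g1 := hgood h d (by omega) h1
  have g2 := hEA d (by omega) h hh h2
  have g3 := hlin d (by omega)
  have g4 : α d - A D / D * d = (α (h + d) - α h - A d) - (α (h + d) - α h - α d) +
      (A d - A D / D * d) := by ring
  have g5 : |α d - A D / D * d| ≤ 21 * η := by
    rw [g4]
    refine le_trans (abs_add_le _ _) ?_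
    have := abs_sub (α (h + d) - α h - A d) (α (h + d) - α h - α d)
    linarith
  exact absurd hd.2 (not_lt.2 g5)

end Pool.GDYN
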