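import Pool.Agent.H55.GEN.GluQ
import Pool.Agent.H55.GEN.GluR

/-!
# Gluing of germs

`glu_core`: the own label of the target at `(i', j')`, in the chart of the line side at `(i, j)`,
agrees at the exact time, up to constants and up to `2 ^ (-R)` in natural units, with a polynomial
`H` which is a function of the line and of the window `j₂`, on an event of probability at least
`c₁`. Then the target has a label at `(i₂, j₂)` of the precision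
`min (g i' j' n) (g i j n + R)`, up to `C z` digits.
-/

set_option autoImplicit false

namespace Pool.STAT.Glu

open Finset MvPolynomial
open Pool.Agent.H49.Ent Pool.Agent.H32.Dense Pool.STK Pool.KA Pool.K2S
open Pool.BFL (Pb)
open Pool.STAT.CLO

/-- The hypothesis of `glu_core`, at one sample. -/
structure EvG (D : NDat2) (n J w₀ z i j i' j' i₂ j₂ B : ℕ) (H : D.Λ × ℕ → PN) (ε : ℝ)
    (ω : D.Ω) : Prop where
  kj : Nr B z (Et (D.X ω 0)) (D.g i₂ j₂) (D.g i j) (D.Ψ i₂ j₂ ω) (D.Ψ i j ω) n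
  jm : Nr B z (Et (D.X ω 0)) (D.g i j) (D.g i' j') (D.Ψ i j ω) (D.Ψ i' j' ω) n
  own : ∀ b b' : ℕ → ℝ, Bt 1 (Et (D.X ω 0)) (D.g i j) (D.Φ i j ω) n b →
    Bt 1 (Et (D.X ω 0)) (D.g i j) (D.Φ i j ω) n b' →
    |kk (D.g i j) (D.Φ i j ω) n (D.Ψ i' j' ω n) (H (D.wn J (w₀ + j₂ * z) ω)) b -
      kk (D.g i j) (D.Φ i j ω) n (D.Ψ i' j' ω n) (H (D.wn J (w₀ + j₂ * z) ω)) b'| ≤ ε

theorem LF.mono {n B z : ℕ} {τ : ℝ} {gk gj gm : ℕ → ℕ} {Φk Φj Φm : ℕ → PN} {H : PN}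
    {p : ℕ → Polynomial ℝ} {δ S S' : ℝ} (h : LF n B z τ gk gj gm Φk Φj Φm H p δ S) (hS : S ≤ S')
    (hδ : 0 ≤ δ) : LF n B z τ gk gj gm Φk Φj Φm H p δ S' :=
  ⟨fun l l1 l2 b hb => (h.kj l l1 l2 b hb).trans (mul_le_mul_of_nonneg_right hS (by positivity)),
    fun l l1 l2 b hb => (h.jm l l1 l2 b hb).trans (mul_le_mul_of_nonneg_right hS (by positivity)),
    fun l l1 l2 => (h.pa l l1 l2).trans (mul_le_mul_of_nonneg_right hS (by positivity)),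
    h.own.trans (mul_le_mul_of_nonneg_right hS (by positivity)),
    fun b b' hb hb' => (h.kk b b' hb hb').trans (mul_le_mul_of_nonneg_right hS hδ)⟩

theorem wn_det {D : NDat2} {q : D.Ω → ℝ} {J w w' : ℕ} (h : w ≤ w') (h' : w' ≤ J) :
    Det q (D.wn J w') (D.wn J w) := by
  intro ω ω' _ _ e
  have e1 : D.ln ω = D.ln ω' := (Prod.ext_iff.1 e).1
  have e2 : D.T ω / 2 ^ (J - w') = D.T ω' / 2 ^ (J - w') := (Prod.ext_iff.1 e).2
  have key : ∀ ω : D.Ω, D.T ω / 2 ^ (J - w') / 2 ^ (w' - w) = D.T ω / 2 ^ (J - w) := by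
    intro ω
    rw [Nat.div_div_eq_div_mul, ← pow_add]
    congr 2
    omega
  refine Prod.ext e1 ?_
  show D.T ω / 2 ^ (J - w) = D.T ω' / 2 ^ (J - w)
  rw [← key, ← key, e2]

theorem nr_agr {D : NDat2} {n K J a₀ w₀ z M : ℕ} {lam gam : ℕ → ℝ} {κ C₁ : ℝ} {q : D.Ω → ℝ}
    (h : D.Ok2 n K J a₀ w₀ z M lam gam κ C₁ q) {i j : ℕ} (hi : i ≤ M) (hj : j ≤ M) {ω : D.Ω}
    (hω : 0 < q ω) {τ : ℝ} (hτ : |τ - D.X ω 0| ≤ 1 / 2 ^ (a₀ + i * z)) :
    Nr 0 z (Et τ) (D.g i j) (D.g i j) (D.Ψ i j ω) (D.Φ i j ω) (n + 1) := by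
  intro l l1 l2 b hb
  have h1 := h.agr i hi j hj ω hω l l1 (by omega) b ⟨by
    have : b 0 = τ := hb.1
    rw [this]
    exact hτ, hb.2⟩
  rwa [abs_sub_comm, Nat.zero_mul, pow_zero]

theorem two_le_of {C : ℝ} {z₀ z : ℕ} (h : 2 * C ≤ z₀) (hz : z₀ ≤ z) : 2 * C ≤ 2 ^ z := by
  have h1 : (z : ℝ) ≤ 2 ^ z := by exact_mod_cast Nat.lt_two_pow_self.le
  have h2 : (z₀ : ℝ) ≤ z := by exact_mod_cast hz
  linarith

/-- **Gluing**: from an event at the exact time to a new label. -/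
theorem glu_core (n K K₂ B : ℕ) (c₁ : ℝ) (hn : 1 ≤ n) (hc₁ : 0 < c₁) :
    ∃ (CG : ℕ) (κ₀ : ℝ) (z₀ : ℕ), 0 < κ₀ ∧
    ∀ (A J a₀ w₀ z M i j i' j' i₂ j₂ R : ℕ) (lam gam : ℕ → ℝ) (κ κ' C₁ : ℝ) (D : NDat2)
      (q : D.Ω → ℝ) (H : D.Λ × ℕ → PN), z₀ ≤ z → κ' ≤ κ₀ → i ≤ i₂ → i' ≤ i₂ → i₂ ≤ M →
      j ≤ j₂ → j₂ ≤ M → j' ≤ M → D.Ok2 n K J a₀ w₀ z M lam gam κ C₁ q → D.TmU J w₀ z κ' q →
      (∀ x, (H x).totalDegree ≤ K₂) → (∀ x, (H x).vars ⊆ range n) →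
      (∀ l, 1 ≤ l → l < n → D.g i j l ≤ D.g i₂ j₂ l + B * z) →
      (∀ l, 1 ≤ l → l < n → D.g i' j' l ≤ D.g i j l + B * z) →
      D.g i₂ j₂ n + (A + CG) * z ≤ D.g i' j' n → D.g i₂ j₂ n + (A + CG) * z ≤ D.g i j n + R →
      c₁ ≤ Pb q (EvG D n J w₀ z i j i' j' i₂ j₂ B H (1 / 2 ^ R)) →
      D.NewLab2 J a₀ w₀ z i₂ j₂ n A (kN K K₂) (c₁ / 2) q := by
  classical
  obtain ⟨C, hC, hd⟩ := dilB n K
  obtain ⟨C', hC', hd'⟩ := dilB n (kN K K₂)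
  obtain ⟨B', y, hBB', hex⟩ := LF_exact n K B hn
  obtain ⟨Cf, Dd, D₂, Dg, hCf, hfam⟩ := LF_fam n K K₂ hn
  obtain ⟨CR, hCR, hrmz⟩ := rmz_det Dg (Ix n Dd D₂) c₁ hc₁
  obtain ⟨x, hpoint⟩ := point n K K₂ B' 3 hn
  obtain ⟨z₁, hz₁⟩ := exists_nat_ge (2 * C + 2 * C' + Cf + 2 * CR + 8)
  refine ⟨x + y + 3, 1 / (2 * CR), z₁, by positivity, ?_⟩
  intro A J a₀ w₀ z M i j i' j' i₂ j₂ R lam gam κ κ' C₁ D q H hz hκ hii₂ hi'i₂ hi₂ hjj₂ hj₂ hj'
    hO hT hH hHv s1 s2 g1 g2 hE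
  have hzz : (z₁ : ℝ) ≤ z := by exact_mod_cast hz
  have hzp : (z : ℝ) ≤ 2 ^ z := by exact_mod_cast Nat.lt_two_pow_self.le
  have hCz : 2 * C ≤ 2 ^ z := by linarith
  have hC'z : 2 * C' ≤ 2 ^ z := by linarith
  have hCfz : Cf ≤ 2 ^ z := by linarith
  have h8z : (8 : ℝ) ≤ 2 ^ z := by linarith
  have hz0 : (0 : ℝ) ≤ z := Nat.cast_nonneg z
  have hq := hO.isLaw
  have hM1 : i₂ * z + z ≤ (M + 1) * z := by
    have := Nat.mul_le_mul_right z hi₂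
    rw [Nat.add_mul, Nat.one_mul]
    omega
  have hM2 : j₂ * z ≤ M * z := Nat.mul_le_mul_right z hj₂
  have hM3 : j' * z ≤ M * z := Nat.mul_le_mul_right z hj'
  have hM4 : j * z ≤ j₂ * z := Nat.mul_le_mul_right z hjj₂
  have hM5 : i' * z ≤ i₂ * z := Nat.mul_le_mul_right z hi'i₂
  have hM6 : i * z ≤ i₂ * z := Nat.mul_le_mul_right z hii₂
  have hthin := hO.thin
  have htop := hO.top
  have hMM : (M + 1) * z = M * z + z := by ring
  obtain ⟨r, hr⟩ : ∃ r, r = a₀ + i₂ * z := ⟨_, rfl⟩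
  have hrJ : r + z ≤ J := by omega
  -- the polynomials are functions of the line and the cell
  obtain ⟨δ, hδ⟩ : ∃ δ : ℝ, δ = 1 / 2 ^ R +
    2 * (2 ^ D.g i j n * (2 ^ (y * z) / 2 ^ D.g i' j' n)) := ⟨_, rfl⟩
  have hδ0 : 0 < δ := by rw [hδ]; positivity
  have tr : ∀ i j ω, Tr K (D.Ψ i j ω) := fun i j ω => ⟨hO.G_tri _ _ _, hO.G_deg _ _ _⟩
  have tr' : ∀ i j ω, Tr K (D.Φ i j ω) := fun i j ω => ⟨hO.P_tri _ _ _, hO.P_deg _ _ _⟩
  have hX : ∀ ω, 0 < q ω → ∀ l ≤ n, pps (D.pa (D.ln ω)) (D.X ω 0) l = D.X ω l := by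
    intro ω hω l hl
    by_cases h0 : l = 0
    · rw [h0, pps_zero]
    · unfold pps pth
      rw [if_neg h0]
      exact (hO.str ω hω l hl).symm
  have hXe : ∀ ω, 0 < q ω → ∀ (F : PN) (m : ℕ), m ≤ n → F.vars ⊆ range m →
      eval (pps (D.pa (D.ln ω)) (D.X ω 0)) F = eval (D.X ω) F := fun ω hω F m hm hF =>
    Pool.SYS35.eval_congr hF fun l hl => hX ω hω l (by omega)
  have hcw : ∀ i ≤ M, ∀ j ≤ M, ∀ w, w₀ + j * z ≤ w → w ≤ J → Det q (D.wn J w) (D.Φ i j) := by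
    intro i hi j hj w hw hwJ ω ω' h1 h2 e
    have e1 := hO.c_wn i hi j hj ω ω' h1 h2 (wn_det hw hwJ ω ω' h1 h2 e)
    unfold NDat2.Φ
    rw [e1]
  have hlam : Det q (D.wn J r) (fun ω => D.T ω / 2 ^ (J - r)) := fun ω ω' _ _ e =>
    (Prod.ext_iff.1 e).2
  have hln : ∀ w, Det q (D.wn J w) D.ln := fun w ω ω' _ _ e => (Prod.ext_iff.1 e).1
  obtain ⟨f, hf⟩ : ∃ f : Ix n Dd D₂ → D.Ω → Polynomial ℝ, f = fun a ω =>
    fam n Dd D₂ B' z (D.g i₂ j₂) (D.g i j) (D.g i' j') (D.Φ i₂ j₂ ω) (D.Φ i j ω) (D.Φ i' j' ω)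
      (H (D.wn J (w₀ + j₂ * z) ω)) (D.pa (D.ln ω)) δ a := ⟨_, rfl⟩
  have hff : ∀ ω, _ := fun ω => hfam B' z (D.g i₂ j₂) (D.g i j) (D.g i' j') (D.Φ i₂ j₂ ω)
    (D.Φ i j ω) (D.Φ i' j' ω) (H (D.wn J (w₀ + j₂ * z) ω)) (D.pa (D.ln ω)) δ hδ0 (tr' _ _ ω)
    (tr' _ _ ω) (tr' _ _ ω) (hH _) (hHv _) (fun l => hO.pa_deg _ l)
  have hfdet : ∀ a, Det q (D.wn J r) (f a) := by
    intro a ω ω' h1 h2 e
    have e1 := hcw i₂ hi₂ j₂ hj₂ r (by omega) (by omega) ω ω' h1 h2 e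
    have e2 := hcw i (by omega) j (by omega) r (by omega) (by omega) ω ω' h1 h2 e
    have e3 := hcw i' (by omega) j' hj' r (by omega) (by omega) ω ω' h1 h2 e
    have e4 : D.wn J (w₀ + j₂ * z) ω = D.wn J (w₀ + j₂ * z) ω' :=
      wn_det (by omega) (by omega) ω ω' h1 h2 e
    have e5 : D.ln ω = D.ln ω' := hln r ω ω' h1 h2 e
    rw [hf]
    beta_reduce
    rw [e1, e2, e3, e4, e5]
  -- the event at the exact time
  have hA : ∀ a ω, 0 < q ω → EvG D n J w₀ z i j i' j' i₂ j₂ B H (1 / 2 ^ R) ω →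
      |(f a ω).eval ((D.T ω : ℝ) / 2 ^ J)| ≤ 1 := by
    intro a ω hω hev
    rw [← hO.X_zero, hf]
    refine (hff ω).2.1 _ ?_ a
    have z0 : |D.X ω 0 - D.X ω 0| = 0 := by rw [sub_self, abs_zero]
    refine hex C z (D.X ω 0) (D.g i₂ j₂) (D.g i j) (D.g i' j') (D.Ψ i₂ j₂ ω) (D.Φ i₂ j₂ ω)
      (D.Ψ i j ω) (D.Φ i j ω) (D.Ψ i' j' ω) (D.Φ i' j' ω) (H (D.wn J (w₀ + j₂ * z) ω))
      (D.pa (D.ln ω)) (1 / 2 ^ R) δ hC hd hCz (tr _ _ ω) (tr' _ _ ω) (tr _ _ ω) (tr' _ _ ω)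
      (tr _ _ ω) (tr' _ _ ω) s1 s2 ?_ ?_ ?_ hev.kj hev.jm ?_ ?_ hev.own (le_of_eq hδ.symm)
    · exact (nr_agr hO hi₂ hj₂ hω (by rw [z0]; positivity)).mono le_rfl (fun _ h => h)
        (Nat.le_succ n)
    · exact (nr_agr hO (by omega) (by omega) hω (by rw [z0]; positivity)).mono le_rfl
        (fun _ h => h) (Nat.le_succ n)
    · exact nr_agr hO (by omega) hj' hω (by rw [z0]; positivity)
    · intro l l1 l2
      rw [hX ω hω l l2.le, hXe ω hω _ l l2.le ((tr' i j ω).tri l)]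
      exact hO.hgt i (by omega) j (by omega) ω hω l l2.le
    · rw [hX ω hω n le_rfl, hXe ω hω _ n le_rfl ((tr' i' j' ω).tri n)]
      exact hO.hgt i' (by omega) j' hj' ω hω n le_rfl
  -- Remez
  have hκz : κ' * z ≤ 1 / (2 * CR) * z := mul_le_mul_of_nonneg_right hκ hz0
  have hCR0 : 0 < CR := by linarith
  have htc := time_cell (r := r) hq (by omega) (by omega) hO.ln_w (S := κ' * z) hT
  obtain ⟨Bv, hB1, hB2, hB3⟩ := hrmz J r z D.Ω (D.Λ × ℕ) q D.T (D.wn J r)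
    (EvG D n J w₀ z i j i' j' i₂ j₂ B H (1 / 2 ^ R)) (1 / (2 * CR) * z + 1) f hq hO.T_lt hrJ hlam
    (by rw [← Pb_eq_Pe]; exact hE) (by
      have : 0 ≤ 1 / (2 * CR) * (z : ℝ) := by positivity
      linarith) (by
      have e1 : D.wn J r = fun ω => (D.ln ω, D.T ω / 2 ^ (J - r)) := rfl
      rw [e1]
      linarith) (by
      have e1 : CR * (1 / (2 * CR) * z + 1) = z / 2 + CR := by
        field_simp
      rw [e1]
      linarith) hfdet (fun a ω _ => by rw [hf]; exact (hff ω).1 a) hA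
  -- the label
  obtain ⟨Gn, hG1, hG2⟩ := detF (q := q) (X := D.pt) (Y := fun ω => D.Ψ i' j' ω n) (0 : PN) (by
    intro ω ω' h1 h2 e
    have e1 := hO.s_pt i' (by omega) j' hj' ω ω' h1 h2 e
    show D.Ψ i' j' ω n = D.Ψ i' j' ω' n
    unfold NDat2.Ψ
    rw [e1])
  obtain ⟨Hn, hH1, hH2⟩ := detF (q := q) (X := D.wn J (w₀ + j₂ * z))
    (Y := fun ω => hN (D.g i j) (D.Φ i j ω) n (H (D.wn J (w₀ + j₂ * z) ω)) (D.pa (D.ln ω)))
    (0 : PN) (by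
    intro ω ω' h1 h2 e
    have e1 := hcw i (by omega) j (by omega) (w₀ + j₂ * z) (by omega) (by omega) ω ω' h1 h2 e
    have e2 : D.ln ω = D.ln ω' := hln _ ω ω' h1 h2 e
    show hN (D.g i j) (D.Φ i j ω) n (H (D.wn J (w₀ + j₂ * z) ω)) (D.pa (D.ln ω)) =
      hN (D.g i j) (D.Φ i j ω') n (H (D.wn J (w₀ + j₂ * z) ω')) (D.pa (D.ln ω'))
    rw [e1, e2, e])
  refine ⟨Gn, Hn, fun x => ?_, fun x => ?_, ?_⟩
  · rcases hG2 x with ⟨ω, _, h2⟩ | h2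
    · rw [h2]
      exact ⟨((tr i' j' ω).deg n).trans (K_le_kN K K₂), (tr i' j' ω).tri n⟩
    · rw [h2, totalDegree_zero, vars_0]
      exact ⟨Nat.zero_le _, Finset.empty_subset _⟩
  · rcases hH2 x with ⟨ω, _, h2⟩ | h2
    · rw [h2]
      exact ⟨hN_deg (tr' i j ω).deg (fun l => hO.pa_deg _ l) (hH _),
        hN_vars hn (tr' i j ω).tri (hHv _)⟩
    · rw [h2, totalDegree_zero, vars_0]
      exact ⟨Nat.zero_le _, Finset.empty_subset _⟩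
  · have hPB : c₁ / 2 ≤ Pb q Bv := by
      rw [Pb_eq_Pe]
      rw [Pb_eq_Pe] at hE
      linarith
    refine hPB.trans ?_
    have hmono : ∀ A' : D.Ω → Prop, (∀ ω, Bv ω → A' ω) → Pb q Bv ≤ Pb q A' := by
      intro A' hA'
      unfold Pool.BFL.Pb
      refine Finset.sum_le_sum fun ω _ => ?_
      by_cases h1 : Bv ω
      · rw [if_pos h1, if_pos (hA' ω h1)]
      · rw [if_neg h1]
        split_ifs
        · exact hq.nonneg ω
        · exact le_rfl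
    refine hmono _ fun ω hω => ?_
    obtain ⟨hω0, hev⟩ := hB1 ω hω
    have hAG : D.g i₂ j₂ n + A * z ≤ D.g i' j' n := by
      have : (A + (x + y + 3)) * z = A * z + (x + y + 3) * z := by ring
      omega
    constructor
    · have h1 := hO.pos i' (by omega) j' hj' ω hω0 n hn le_rfl
      rw [hG1 ω hω0]
      refine h1.trans (one_div_le_one_div_of_le (by positivity)
        (pow_le_pow_right₀ (by norm_num) hAG))
    · intro b hb
      have hτ : |b 0 - D.X ω 0| ≤ 1 / 2 ^ r := by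
        rw [hr]
        exact hb.1
      have hS := hB3 ω hω (b 0) (by rw [← hO.X_zero]; exact hτ)
      rw [hf] at hS
      have hLF := ((hff ω).2.2 (b 0) (2 ^ (2 * z)) hS).mono (S' := 2 ^ (3 * z)) (by
        have e : (2 : ℝ) ^ (3 * z) = 2 ^ z * 2 ^ (2 * z) := by
          rw [← pow_add]
          congr 1
          ring
        rw [e]
        exact mul_le_mul_of_nonneg_right hCfz (by positivity)) hδ0.le
      have hsub : ∀ {a a' : ℕ}, a ≤ a' → (1 : ℝ) / 2 ^ a' ≤ 1 / 2 ^ a := fun h =>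
        one_div_le_one_div_of_le (by positivity) (pow_le_pow_right₀ (by norm_num) h)
      have hfin := hpoint C C' z (b 0) (D.g i₂ j₂) (D.g i j) (D.g i' j') (D.Ψ i₂ j₂ ω)
        (D.Φ i₂ j₂ ω) (D.Φ i j ω) (D.Φ i' j' ω) (D.Ψ i' j' ω) (H (D.wn J (w₀ + j₂ * z) ω))
        (D.pa (D.ln ω)) δ hC hd hd' hCz hC'z (tr _ _ ω) (tr' _ _ ω) (tr' _ _ ω) (tr' _ _ ω)
        (tr _ _ ω) (hH _) (hHv _) hδ0.le
        (fun l l1 l2 => (s1 l l1 l2).trans (Nat.add_le_add_left (Nat.mul_le_mul_right _ hBB') _))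
        (fun l l1 l2 => (s2 l l1 l2).trans (Nat.add_le_add_left (Nat.mul_le_mul_right _ hBB') _))
        ((nr_agr hO hi₂ hj₂ hω0 (by rw [← hr]; exact hτ)).mono le_rfl (fun _ h => h)
          (Nat.le_succ n))
        (nr_agr hO (by omega) hj' hω0 (hτ.trans (hsub (by rw [hr]; omega)))) hLF b
        ⟨rfl, hb.2⟩
      rw [hG1 ω hω0, hH1 ω hω0, eval_hN]
      refine hfin.trans ?_
      -- the arithmetic
      obtain ⟨G, hG⟩ : ∃ G, G = D.g i₂ j₂ n + A * z := ⟨_, rfl⟩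
      have g1' : G + (x + y + 3) * z ≤ D.g i' j' n := by
        have : (A + (x + y + 3)) * z = A * z + (x + y + 3) * z := by ring
        omega
      have g2' : G + (x + y + 3) * z ≤ D.g i j n + R := by
        have : (A + (x + y + 3)) * z = A * z + (x + y + 3) * z := by ring
        omega
      rw [← hG]
      have e0 : δ / 2 ^ D.g i j n = 1 / 2 ^ (D.g i j n + R) +
          2 * (2 ^ (y * z) / 2 ^ D.g i' j' n) := by
        rw [hδ, pow_add]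
        field_simp
      rw [e0]
      have w1 : (1 : ℝ) / 2 ^ D.g i' j' n ≤ 1 / 2 ^ (G + (x + y + 3) * z) := hsub g1'
      have w2 : (1 : ℝ) / 2 ^ (D.g i j n + R) ≤ 1 / 2 ^ (G + (x + y + 3) * z) := hsub g2'
      have w3 : (2 : ℝ) ^ (y * z) / 2 ^ D.g i' j' n ≤
          2 ^ (y * z) * (1 / 2 ^ (G + (x + y + 3) * z)) := by
        rw [div_eq_mul_one_div]
        exact mul_le_mul_of_nonneg_left w1 (by positivity)
      have o1 : (1 : ℝ) ≤ 2 ^ (y * z) := one_le_pow₀ (by norm_num)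
      have w4 : (1 : ℝ) / 2 ^ D.g i' j' n + (1 / 2 ^ (D.g i j n + R) +
          2 * (2 ^ (y * z) / 2 ^ D.g i' j' n)) ≤
          4 * 2 ^ (y * z) * (1 / 2 ^ (G + (x + y + 3) * z)) := by
        have : (1 : ℝ) * (1 / 2 ^ (G + (x + y + 3) * z)) ≤
          2 ^ (y * z) * (1 / 2 ^ (G + (x + y + 3) * z)) :=
          mul_le_mul_of_nonneg_right o1 (by positivity)
        linarith
      refine (mul_le_mul_of_nonneg_left w4 (by positivity)).trans ?_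
      have e2 : (2 : ℝ) ^ (G + (x + y + 3) * z) = 2 ^ G * (2 ^ (x * z) * 2 ^ (y * z) *
          (2 ^ z * 2 ^ z * 2 ^ z)) := by
        rw [← pow_add, ← pow_add, ← pow_add, ← pow_add, ← pow_add]
        congr 1
        ring
      have e3 : (2 : ℝ) ^ (x * z) * (4 * 2 ^ (y * z) * (1 / 2 ^ (G + (x + y + 3) * z))) =
          4 / (2 ^ z * 2 ^ z * 2 ^ z) * (1 / 2 ^ G) := by
        rw [e2]
        field_simp
      rw [e3]
      have w5 : 4 / ((2 : ℝ) ^ z * 2 ^ z * 2 ^ z) ≤ 1 := by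
        rw [div_le_one (by positivity)]
        have t1 : (1 : ℝ) ≤ 2 ^ z := by linarith
        have t2 : (1 : ℝ) * 1 ≤ 2 ^ z * 2 ^ z := mul_le_mul t1 t1 zero_le_one (by positivity)
        have t3 : (1 : ℝ) * 1 * 4 ≤ 2 ^ z * 2 ^ z * 2 ^ z :=
          mul_le_mul t2 (by linarith) (by norm_num) (by positivity)
        linarith
      calc 4 / ((2 : ℝ) ^ z * 2 ^ z * 2 ^ z) * (1 / 2 ^ G) ≤ 1 * (1 / 2 ^ G) :=
            mul_le_mul_of_nonneg_right w5 (by positivity)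
        _ = 1 / 2 ^ G := one_mul _

end Pool.STAT.Glu
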