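import Pool.Agent.H55.GEN.GluT

/-!
# Gluing of germs: boxes

`incl`, `incl'`: from the boxes of one system to the boxes of another one. `conv`: from the visible
sides to the line sides. `far`: the two sides of the own label over the boxes of another system.
`point`: the estimate at one point of the box of the new label.
-/

set_option autoImplicit false

namespace Pool.STAT.Glu

open Finset MvPolynomial
open Pool.Agent.H49.Ent Pool.Agent.H32.Dense Pool.STK Pool.KA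
open Pool.STAT.CLO

/-- The exponents of the radii. -/
def upr (D : ℕ) : ℕ → ℕ → ℕ
  | 0, x => x
  | l + 1, x => (D + 1) * upr D l x + 1

theorem upr_mono {D : ℕ} {l l' x : ℕ} (h : l ≤ l') : upr D l x ≤ upr D l' x := by
  induction h with
  | refl => exact le_rfl
  | step _ ih =>
    refine ih.trans ?_
    show _ ≤ (D + 1) * upr D _ x + 1
    nlinarith

theorem le_upr {D : ℕ} (l x : ℕ) : x ≤ upr D l x := upr_mono (D := D) (l := 0) (Nat.zero_le l)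

theorem pow_step {C : ℝ} {z D x : ℕ} (hC : 2 * C ≤ 2 ^ z) :
    2 * C * ((2 : ℝ) ^ (x * z)) ^ (D + 1) ≤ 2 ^ (((D + 1) * x + 1) * z) := by
  have e : (2 : ℝ) ^ (((D + 1) * x + 1) * z) = 2 ^ z * (2 ^ (x * z)) ^ (D + 1) := by
    rw [← pow_mul, ← pow_add]
    congr 1
    ring
  rw [e]
  exact mul_le_mul_of_nonneg_right hC (by positivity)

/-- A dilated bound as a power of two. -/
theorem dil_pow {C : ℝ} {z D x y : ℕ} {S : ℝ} (hS : 0 ≤ S) (hC : 2 * C ≤ 2 ^ z)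
    (hy : D * x + 1 ≤ y) : C * S * ((2 : ℝ) ^ (x * z)) ^ D ≤ 2 ^ (y * z) * S := by
  have e : (2 : ℝ) ^ ((D * x + 1) * z) = 2 ^ z * (2 ^ (x * z)) ^ D := by
    rw [← pow_mul, ← pow_add]
    congr 1
    ring
  have h1 : (2 : ℝ) ^ ((D * x + 1) * z) ≤ 2 ^ (y * z) :=
    pow_le_pow_right₀ (by norm_num) (Nat.mul_le_mul_right _ hy)
  have h2 : (0 : ℝ) < 2 ^ z := by positivity
  have h3 : C ≤ 2 ^ z := by
    rcases le_total 0 C with h | h
    · linarith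
    · linarith
  calc C * S * ((2 : ℝ) ^ (x * z)) ^ D = C * (2 ^ (x * z)) ^ D * S := by ring
    _ ≤ 2 ^ z * (2 ^ (x * z)) ^ D * S := by
        refine mul_le_mul_of_nonneg_right (mul_le_mul_of_nonneg_right h3 (by positivity)) hS
    _ ≤ 2 ^ (y * z) * S := by
        rw [← e]
        exact mul_le_mul_of_nonneg_right h1 hS

section boxes

variable {n K : ℕ} {C : ℝ} {S₁ S₂ : ℕ → PN} {g₁ g₂ : ℕ → ℕ} {P : ℝ → Prop} {z B x : ℕ}

/-- Dilation for a difference. -/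
theorem dil_sub (hd : DilP n K C) (hz : 2 * C ≤ 2 ^ z) {S : ℕ → PN} {g : ℕ → ℕ} {F G : PN}
    {m : ℕ} (hS : TriN S) (hK : ∀ j, (S j).totalDegree ≤ K) (hm : m ≤ n) (hF : F.vars ⊆ range m)
    (hG : G.vars ⊆ range m) (kF : F.totalDegree ≤ K) (kG : G.totalDegree ≤ K) {y : ℕ} {τ : ℝ}
    (hτ : 0 ≤ τ) (hy : K * (K + 1) ^ (n + 1) * x + 1 ≤ y)
    (h : ∀ b : ℕ → ℝ, Bt 1 P g S m b → |eval b F - eval b G| ≤ τ) {b : ℕ → ℝ}
    (hb : Bt (2 ^ (x * z)) P g S m b) : |eval b F - eval b G| ≤ 2 ^ (y * z) * τ := by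
  have h1 := hd S g (F - G) m P τ (2 ^ (x * z)) hS hK hm
    ((vars_sub_subset _).trans (Finset.union_subset hF hG))
    ((totalDegree_sub _ _).trans (max_le kF kG)) (one_le_pow₀ (by norm_num)) (by
      intro b' hb'
      rw [map_sub]
      exact h b' hb') b hb
  rw [map_sub] at h1
  exact h1.trans (dil_pow hτ hz hy)

/-- **From the boxes of `S₁` to the boxes of `S₂`**, `S₁` and `S₂` are near on the unit boxes of
`S₁`. -/
theorem incl (hC : 1 ≤ C) (hd : DilP n K C) (hz : 2 * C ≤ 2 ^ z)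
    (h1 : TriN S₁) (h2 : TriN S₂) (k1 : ∀ j, (S₁ j).totalDegree ≤ K)
    (k2 : ∀ j, (S₂ j).totalDegree ≤ K) (hside : ∀ l, 1 ≤ l → l < n → g₂ l ≤ g₁ l + B * z)
    (hnear : ∀ l, 1 ≤ l → l < n → ∀ b, Bt 1 P g₁ S₁ l b →
      |eval b (S₂ l) - eval b (S₁ l)| ≤ 2 ^ (B * z) / 2 ^ g₂ l)
    {b : ℕ → ℝ} {m : ℕ} (hm : m ≤ n) (hb : Bt (2 ^ (x * z)) P g₁ S₁ m b) :
    Bt (2 ^ (((K * (K + 1) ^ (n + 1) + 1) * x + 1 + B + 1) * z)) P g₂ S₂ m b := by
  refine ⟨hb.1, fun l l1 l2 => ?_⟩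
  have a1 := hb.2 l l1 l2
  have a2 := dil_sub hd hz h1 k1 (by omega) (h2 l) (h1 l) (k2 l) (k1 l)
    (by positivity : (0 : ℝ) ≤ 2 ^ (B * z) / 2 ^ g₂ l) le_rfl (fun b' hb' =>
      hnear l l1 (by omega) b' hb') (hb.mono le_rfl (fun _ h => h) l2.le)
  have a3 : (2 : ℝ) ^ (x * z) / 2 ^ g₁ l ≤ 2 ^ (x * z) * 2 ^ (B * z) / 2 ^ g₂ l := by
    rw [div_le_div_iff₀ (by positivity) (by positivity), mul_assoc]
    refine mul_le_mul_of_nonneg_left ?_ (by positivity)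
    rw [← pow_add]
    exact pow_le_pow_right₀ (by norm_num) (by have := hside l l1 (by omega); omega)
  have a4 : |b l - eval b (S₂ l)| ≤
      |b l - eval b (S₁ l)| + |eval b (S₂ l) - eval b (S₁ l)| := by
    have := abs_sub (b l - eval b (S₁ l)) (eval b (S₂ l) - eval b (S₁ l))
    rwa [sub_sub_sub_cancel_right] at this
  refine a4.trans ((add_le_add (a1.trans a3) a2).trans ?_)
  have e1 : (2 : ℝ) ^ (x * z) * 2 ^ (B * z) / 2 ^ g₂ l +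
      2 ^ ((K * (K + 1) ^ (n + 1) * x + 1) * z) * (2 ^ (B * z) / 2 ^ g₂ l) =
      (2 ^ (x * z) + 2 ^ ((K * (K + 1) ^ (n + 1) * x + 1) * z)) * 2 ^ (B * z) / 2 ^ g₂ l := by
    ring
  rw [e1]
  refine div_le_div_of_nonneg_right ?_ (by positivity)
  have e2 : (2 : ℝ) ^ (((K * (K + 1) ^ (n + 1) + 1) * x + 1 + B + 1) * z) =
      2 ^ z * 2 ^ (((K * (K + 1) ^ (n + 1) + 1) * x + 1) * z) * 2 ^ (B * z) := by
    rw [← pow_add, ← pow_add]
    congr 1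
    ring
  rw [e2]
  refine mul_le_mul_of_nonneg_right ?_ (by positivity)
  have e3 : (2 : ℝ) ^ (x * z) ≤ 2 ^ (((K * (K + 1) ^ (n + 1) + 1) * x + 1) * z) :=
    pow_le_pow_right₀ (by norm_num) (Nat.mul_le_mul_right _
      (Nat.le_succ_of_le (Nat.le_mul_of_pos_left _ (Nat.succ_pos _))))
  have e4 : (2 : ℝ) ^ ((K * (K + 1) ^ (n + 1) * x + 1) * z) ≤
      2 ^ (((K * (K + 1) ^ (n + 1) + 1) * x + 1) * z) :=
    pow_le_pow_right₀ (by norm_num) (Nat.mul_le_mul_right _ (by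
      have : K * (K + 1) ^ (n + 1) * x ≤ (K * (K + 1) ^ (n + 1) + 1) * x :=
        Nat.mul_le_mul_right _ (Nat.le_succ _)
      omega))
  have e5 : (2 : ℝ) ≤ 2 ^ z := by linarith
  have e6 := mul_le_mul_of_nonneg_right e5
    (by positivity : (0 : ℝ) ≤ 2 ^ (((K * (K + 1) ^ (n + 1) + 1) * x + 1) * z))
  linarith

/-- **From the boxes of `S₂` to the boxes of `S₁`**, `S₁` and `S₂` are near on the unit boxes of
`S₁`, the same sides. -/
theorem incl' {g : ℕ → ℕ} (hC : 1 ≤ C) (hd : DilP n K C) (hz : 2 * C ≤ 2 ^ z)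
    (h1 : TriN S₁) (h2 : TriN S₂) (k1 : ∀ j, (S₁ j).totalDegree ≤ K)
    (k2 : ∀ j, (S₂ j).totalDegree ≤ K)
    (hnear : ∀ l, 1 ≤ l → l < n → ∀ b, Bt 1 P g S₁ l b →
      |eval b (S₁ l) - eval b (S₂ l)| ≤ 1 / 2 ^ g l)
    {b : ℕ → ℝ} {m : ℕ} (hm : m ≤ n) (hb : Bt (2 ^ (x * z)) P g S₂ m b) :
    ∀ m' ≤ m, Bt (2 ^ (upr (K * (K + 1) ^ (n + 1)) m' x * z)) P g S₁ m' b := by
  set D := K * (K + 1) ^ (n + 1) with hD
  intro m'
  induction m' with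
  | zero => exact fun _ => ⟨hb.1, fun l l1 l2 => absurd l2 (Nat.not_lt_zero _)⟩
  | succ m' ih =>
    intro hm'
    have ih := ih (by omega)
    refine ⟨hb.1, fun l l1 l2 => ?_⟩
    have hmono : ((2 : ℝ) ^ (upr D m' x * z)) ≤ 2 ^ (upr D (m' + 1) x * z) :=
      pow_le_pow_right₀ (by norm_num) (Nat.mul_le_mul_right _ (upr_mono (Nat.le_succ _)))
    rcases Nat.lt_succ_iff_lt_or_eq.1 l2 with h3 | rfl
    · exact (ih.2 l l1 h3).trans (div_le_div_of_nonneg_right hmono (by positivity))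
    · have hρ : (1 : ℝ) ≤ 2 ^ (upr D l x * z) := one_le_pow₀ (by norm_num)
      have a2 := hd S₁ g (S₁ l - S₂ l) l P (1 / 2 ^ g l) (2 ^ (upr D l x * z)) h1 k1
        (by omega) (by
          refine (vars_sub_subset _).trans (Finset.union_subset (h1 l) (h2 l)))
        ((totalDegree_sub _ _).trans (max_le (k1 l) (k2 l))) hρ (by
          intro b' hb'
          rw [map_sub]
          exact hnear l l1 (by omega) b' hb') b ih
      rw [map_sub] at a2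
      have a1 := hb.2 l l1 (by omega)
      have a4 : |b l - eval b (S₁ l)| ≤
          |b l - eval b (S₂ l)| + |eval b (S₁ l) - eval b (S₂ l)| := by
        have := abs_sub (b l - eval b (S₂ l)) (eval b (S₁ l) - eval b (S₂ l))
        rwa [sub_sub_sub_cancel_right] at this
      refine a4.trans ((add_le_add a1 a2).trans ?_)
      have e1 : (2 : ℝ) ^ (x * z) / 2 ^ g l + C * (1 / 2 ^ g l) * (2 ^ (upr D l x * z)) ^ D =
          (2 ^ (x * z) + C * (2 ^ (upr D l x * z)) ^ D) / 2 ^ g l := by ring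
      rw [e1]
      refine div_le_div_of_nonneg_right ?_ (by positivity)
      show _ ≤ (2 : ℝ) ^ (((D + 1) * upr D l x + 1) * z)
      refine le_trans ?_ (pow_step hz)
      have e0 : (2 : ℝ) ^ (x * z) ≤ 2 ^ (upr D l x * z) :=
        pow_le_pow_right₀ (by norm_num) (Nat.mul_le_mul_right _ (le_upr l x))
      have e3 : (2 : ℝ) ^ (upr D l x * z) ≤ (2 ^ (upr D l x * z)) ^ (D + 1) :=
        le_self_pow₀ hρ (by omega)
      have e4 : ((2 : ℝ) ^ (upr D l x * z)) ^ D ≤ (2 ^ (upr D l x * z)) ^ (D + 1) :=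
        pow_le_pow_right₀ hρ (by omega)
      have e5 : 0 ≤ ((2 : ℝ) ^ (upr D l x * z)) ^ (D + 1) := by positivity
      nlinarith

end boxes

/-- Systems. -/
structure Tr (K : ℕ) (S : ℕ → PN) : Prop where
  tri : TriN S
  deg : ∀ l, (S l).totalDegree ≤ K

/-- `S'` is near `S` on the unit boxes of `S`, up to `2 ^ (B z)` units of `g'`, for the coordinates
`1, …, m - 1`. -/
def Nr (B z : ℕ) (P : ℝ → Prop) (g g' : ℕ → ℕ) (S S' : ℕ → PN) (m : ℕ) : Prop :=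
  ∀ l, 1 ≤ l → l < m → ∀ b, Bt 1 P g S l b →
    |eval b (S' l) - eval b (S l)| ≤ 2 ^ (B * z) / 2 ^ g' l

theorem Nr.mono {B B' z : ℕ} {P P' : ℝ → Prop} {g g' : ℕ → ℕ} {S S' : ℕ → PN} {m m' : ℕ}
    (h : Nr B z P g g' S S' m) (hB : B ≤ B') (hP : ∀ t, P' t → P t) (hm : m' ≤ m) :
    Nr B' z P' g g' S S' m' := fun l l1 l2 b hb =>
  (h l l1 (l2.trans_le hm) b (hb.mono le_rfl hP le_rfl)).trans
    (div_le_div_of_nonneg_right (pow_le_pow_right₀ (by norm_num) (Nat.mul_le_mul_right _ hB))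
      (by positivity))

section point

variable {n K : ℕ} {C : ℝ}

/-- **From the visible sides to the line sides.** -/
theorem conv (n K B : ℕ) : ∃ B' : ℕ, ∀ (C : ℝ) (z : ℕ) (P : ℝ → Prop) (g g' : ℕ → ℕ)
    (Ψ Φ Ψ' Φ' : ℕ → PN), 1 ≤ C → DilP n K C → 2 * C ≤ 2 ^ z → Tr K Ψ → Tr K Φ → Tr K Ψ' →
    Tr K Φ' → (∀ l, 1 ≤ l → l < n → g' l ≤ g l + B * z) → Nr 0 z P g g Ψ Φ n →
    Nr 0 z P g' g' Ψ' Φ' n → Nr B z P g g' Ψ Ψ' n → Nr B' z P g g' Φ Φ' n := by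
  set D := K * (K + 1) ^ (n + 1) with hD
  obtain ⟨x₁, hx₁⟩ : ∃ x, x = upr D n 0 := ⟨_, rfl⟩
  obtain ⟨x₂, hx₂⟩ : ∃ x, x = (D + 1) * x₁ + 1 + B + 1 := ⟨_, rfl⟩
  obtain ⟨Y, hY⟩ : ∃ Y, Y = D * x₂ + 1 + B + 2 := ⟨_, rfl⟩
  refine ⟨Y, ?_⟩
  intro C z P g g' Ψ Φ Ψ' Φ' hC hd hz a1 a2 a3 a4 hs n1 n2 n3 l l1 l2 b hb
  have m1 : ∀ l', 1 ≤ l' → l' < n → ∀ b, Bt 1 P g Ψ l' b →
      |eval b (Ψ l') - eval b (Φ l')| ≤ 1 / 2 ^ g l' := by
    intro l' h1 h2 b hb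
    have := n1 l' h1 h2 b hb
    rwa [abs_sub_comm, Nat.zero_mul, pow_zero] at this
  have b1 := incl' (x := 0) hC hd hz a1.tri a2.tri a1.deg a2.deg m1 (m := l) l2.le
    (by rw [Nat.zero_mul, pow_zero]; exact hb) l le_rfl
  have b1' : Bt (2 ^ (x₁ * z)) P g Ψ l b := b1.mono
    (pow_le_pow_right₀ (by norm_num) (Nat.mul_le_mul_right _ (by
      rw [hx₁]
      exact upr_mono l2.le))) (fun _ h => h) le_rfl
  have b2 : Bt (2 ^ (x₂ * z)) P g' Ψ' l b := by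
    rw [hx₂]
    exact incl hC hd hz a1.tri a3.tri a1.deg a3.deg hs n3 l2.le b1'
  have hx12 : x₁ ≤ x₂ := by
    rw [hx₂]
    have : x₁ ≤ (D + 1) * x₁ := Nat.le_mul_of_pos_left _ (Nat.succ_pos _)
    omega
  have hx12' : K * (K + 1) ^ (n + 1) * x₁ + 1 ≤ D * x₂ + 1 :=
    Nat.succ_le_succ (Nat.mul_le_mul_left D hx12)
  have c1 := dil_sub (x := x₁) (y := D * x₂ + 1) hd hz a1.tri a1.deg l2.le (a2.tri l) (a1.tri l)
    (a2.deg l) (a1.deg l) (by positivity : (0 : ℝ) ≤ 2 ^ (0 * z) / 2 ^ g l) hx12'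
    (n1 l l1 l2) b1'
  have c2 := dil_sub (x := x₁) (y := D * x₂ + 1) hd hz a1.tri a1.deg l2.le (a3.tri l) (a1.tri l)
    (a3.deg l) (a1.deg l) (by positivity : (0 : ℝ) ≤ 2 ^ (B * z) / 2 ^ g' l) hx12'
    (n3 l l1 l2) b1'
  have c3 := dil_sub (x := x₂) (y := D * x₂ + 1) hd hz a3.tri a3.deg l2.le (a4.tri l) (a3.tri l)
    (a4.deg l) (a3.deg l) (by positivity : (0 : ℝ) ≤ 2 ^ (0 * z) / 2 ^ g' l) le_rfl
    (n2 l l1 l2) b2
  have hg : (1 : ℝ) / 2 ^ g l ≤ 2 ^ (B * z) / 2 ^ g' l := by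
    rw [div_le_div_iff₀ (by positivity) (by positivity), one_mul, ← pow_add]
    exact pow_le_pow_right₀ (by norm_num) (by have := hs l l1 l2; omega)
  rw [Nat.zero_mul, pow_zero] at c1 c3
  have hg' : (1 : ℝ) / 2 ^ g' l ≤ 2 ^ (B * z) / 2 ^ g' l :=
    div_le_div_of_nonneg_right (one_le_pow₀ (by norm_num)) (by positivity)
  have hp : (0 : ℝ) ≤ 2 ^ ((D * x₂ + 1) * z) := by positivity
  have d1 := c1.trans (mul_le_mul_of_nonneg_left hg hp)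
  have d3 := c3.trans (mul_le_mul_of_nonneg_left hg' hp)
  have e1 : eval b (Φ' l) - eval b (Φ l) = (eval b (Φ' l) - eval b (Ψ' l)) +
      (eval b (Ψ' l) - eval b (Ψ l)) - (eval b (Φ l) - eval b (Ψ l)) := by ring
  rw [e1]
  refine (abs_sub _ _).trans ((add_le_add ((abs_add_le _ _).trans (add_le_add d3 c2)) d1).trans ?_)
  have e2 : (2 : ℝ) ^ (Y * z) = 2 ^ z * 2 ^ z * (2 ^ ((D * x₂ + 1) * z) * 2 ^ (B * z)) := by
    rw [hY, ← pow_add, ← pow_add, ← pow_add]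
    congr 1
    ring
  rw [e2, ← mul_add, ← mul_add]
  have e3 : (2 : ℝ) ^ (B * z) / 2 ^ g' l + 2 ^ (B * z) / 2 ^ g' l + 2 ^ (B * z) / 2 ^ g' l =
      3 * 2 ^ (B * z) / 2 ^ g' l := by ring
  rw [e3, ← mul_div_assoc]
  refine div_le_div_of_nonneg_right ?_ (by positivity)
  have e4 : (2 : ℝ) ≤ 2 ^ z := by linarith
  have e5 : (3 : ℝ) ≤ 2 ^ z * 2 ^ z := by nlinarith
  calc (2 : ℝ) ^ ((D * x₂ + 1) * z) * (3 * 2 ^ (B * z)) =
        3 * (2 ^ ((D * x₂ + 1) * z) * 2 ^ (B * z)) := by ring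
    _ ≤ 2 ^ z * 2 ^ z * (2 ^ ((D * x₂ + 1) * z) * 2 ^ (B * z)) :=
        mul_le_mul_of_nonneg_right e5 (by positivity)

/-- **The two sides of the own label** over the dilated boxes of `Φ`. -/
theorem far (n K B x : ℕ) : ∃ y : ℕ, ∀ (C : ℝ) (z : ℕ) (P : ℝ → Prop) (g gm : ℕ → ℕ)
    (Φ Φm Ψm : ℕ → PN), 1 ≤ C → DilP n K C → 2 * C ≤ 2 ^ z → Tr K Φ → Tr K Φm → Tr K Ψm →
    (∀ l, 1 ≤ l → l < n → gm l ≤ g l + B * z) → Nr B z P g gm Φ Φm n →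
    Nr 0 z P gm gm Ψm Φm (n + 1) → 1 ≤ n → ∀ b, Bt (2 ^ (x * z)) P g Φ n b →
    |eval b (Ψm n) - eval b (Φm n)| ≤ 2 ^ (y * z) / 2 ^ gm n := by
  set D := K * (K + 1) ^ (n + 1) with hD
  obtain ⟨x₂, hx₂⟩ : ∃ x', x' = upr D n ((D + 1) * x + 1 + B + 1) := ⟨_, rfl⟩
  refine ⟨D * x₂ + 1, ?_⟩
  intro C z P g gm Φ Φm Ψm hC hd hz a1 a2 a3 hs n1 n2 hn b hb
  have b1 := incl hC hd hz a1.tri a2.tri a1.deg a2.deg hs n1 le_rfl hb
  have m1 : ∀ l', 1 ≤ l' → l' < n → ∀ b, Bt 1 P gm Ψm l' b →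
      |eval b (Ψm l') - eval b (Φm l')| ≤ 1 / 2 ^ gm l' := by
    intro l' h1 h2 b hb
    have := n2 l' h1 (by omega) b hb
    rwa [abs_sub_comm, Nat.zero_mul, pow_zero] at this
  have b2 := incl' hC hd hz a3.tri a2.tri a3.deg a2.deg m1 le_rfl b1 n le_rfl
  rw [← hD, ← hx₂] at b2
  have c1 := dil_sub (y := D * x₂ + 1) hd hz a3.tri a3.deg le_rfl (a3.tri n) (a2.tri n)
    (a3.deg n) (a2.deg n) (by positivity : (0 : ℝ) ≤ 1 / 2 ^ gm n) le_rfl (by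
      intro b' hb'
      have := n2 n hn (by omega) b' hb'
      rwa [abs_sub_comm, Nat.zero_mul, pow_zero] at this) b2
  rwa [mul_one_div] at c1

end point

end Pool.STAT.Glu
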