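import Pool.Agent.H55.GEN.GluP

/-!
# Gluing of germs: the estimates at one sample

`LF_exact`: the facts on the line sides at the exact time from the facts on the visible sides.
`point`: the estimate at one point of the box of the new label.
-/

set_option autoImplicit false

namespace Pool.STAT.Glu

open Finset MvPolynomial
open Pool.Agent.H49.Ent Pool.Agent.H32.Dense Pool.STK Pool.KA
open Pool.STAT.CLO

theorem K_le_kN (K K₂ : ℕ) : K ≤ kN K K₂ := by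
  have k2 : (K + 1) * (K + 1) ≤ kN K K₂ := Nat.le_mul_of_pos_left _ (Nat.succ_pos _)
  have k3 : K + 1 ≤ (K + 1) * (K + 1) := Nat.le_mul_of_pos_left _ (Nat.succ_pos _)
  omega

/-- **The estimate at one point** of the box of the new label. -/
theorem point (n K K₂ B Y : ℕ) (hn : 1 ≤ n) : ∃ x : ℕ, ∀ (C C' : ℝ) (z : ℕ) (τ : ℝ)
    (gk gj gm : ℕ → ℕ) (Ψk Φk Φj Φm Ψm : ℕ → PN) (H : PN) (p : ℕ → Polynomial ℝ) (δ : ℝ),
    1 ≤ C → DilP n K C → DilP n (kN K K₂) C' → 2 * C ≤ 2 ^ z → 2 * C' ≤ 2 ^ z →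
    Tr K Ψk → Tr K Φk → Tr K Φj → Tr K Φm → Tr K Ψm → H.totalDegree ≤ K₂ → H.vars ⊆ range n →
    0 ≤ δ → (∀ l, 1 ≤ l → l < n → gj l ≤ gk l + B * z) →
    (∀ l, 1 ≤ l → l < n → gm l ≤ gj l + B * z) → Nr 0 z (Et τ) gk gk Ψk Φk n →
    Nr 0 z (Et τ) gm gm Ψm Φm (n + 1) →
    LF n B z τ gk gj gm Φk Φj Φm H p δ (2 ^ (Y * z)) →
    ∀ b, Bt 1 (Et τ) gk Ψk n b → |eval b (Ψm n) - hv gj Φj n H b (pps p τ)| ≤
      2 ^ (x * z) * (1 / 2 ^ gm n + δ / 2 ^ gj n) := by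
  obtain ⟨D, hD⟩ : ∃ D, D = K * (K + 1) ^ (n + 1) := ⟨_, rfl⟩
  obtain ⟨D', hD'⟩ : ∃ D', D' = kN K K₂ * (kN K K₂ + 1) ^ (n + 1) := ⟨_, rfl⟩
  obtain ⟨x₂, hx₂⟩ : ∃ x₂, x₂ = (D + 1) * ((D + 1) * 0 + 1 + 0 + 1) + 1 + (B + Y) + 1 := ⟨_, rfl⟩
  obtain ⟨y, hfar⟩ := far n K (B + Y) x₂
  refine ⟨y + (D' * x₂ + 1) + Y + 1, ?_⟩
  intro C C' z τ gk gj gm Ψk Φk Φj Φm Ψm H p δ hC hd hd' hz hz' tk tk' tj tm tm' hH hHv hδ s1 s2
    n1 n2 h b hb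
  have m1 : Nr (B + Y) z (Et τ) gk gj Φk Φj n := by
    intro l l1 l2 b hb
    refine (h.kj l l1 l2 b hb).trans (le_of_eq ?_)
    rw [← mul_div_assoc, ← pow_add]
    congr 2
    ring
  have m2 : Nr (B + Y) z (Et τ) gj gm Φj Φm n := by
    intro l l1 l2 b hb
    refine (h.jm l l1 l2 b hb).trans (le_of_eq ?_)
    rw [← mul_div_assoc, ← pow_add]
    congr 2
    ring
  have hBY : B * z ≤ (B + Y) * z := Nat.mul_le_mul_right _ (Nat.le_add_right _ _)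
  have s1' : ∀ l, 1 ≤ l → l < n → gj l ≤ gk l + (B + Y) * z := fun l l1 l2 =>
    (s1 l l1 l2).trans (Nat.add_le_add_left hBY _)
  have s2' : ∀ l, 1 ≤ l → l < n → gm l ≤ gj l + (B + Y) * z := fun l l1 l2 =>
    (s2 l l1 l2).trans (Nat.add_le_add_left hBY _)
  have b1 := incl (x := 0) hC hd hz tk.tri tk'.tri tk.deg tk'.deg
    (fun l _ _ => Nat.le_add_right _ _) n1 le_rfl (by rw [Nat.zero_mul, pow_zero]; exact hb)
  have b2 : Bt (2 ^ (x₂ * z)) (Et τ) gj Φj n b := by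
    have := incl hC hd hz tk'.tri tj.tri tk'.deg tj.deg s1' m1 le_rfl b1
    rw [← hD, ← hx₂] at this
    exact this
  have f1 := hfar C z (Et τ) gj gm Φj Φm Ψm hC hd hz tj tm tm' s2' m2 n2 hn b b2
  have hYx : Y ≤ x₂ := by rw [hx₂]; omega
  have b3 : Bt (2 ^ (x₂ * z)) (Et τ) gj Φj n (pps p τ) := by
    refine ⟨pps_zero p τ, fun l l1 l2 => ?_⟩
    refine (h.pa l l1 l2).trans ?_
    rw [mul_one_div]
    exact div_le_div_of_nonneg_right (pow_le_pow_right₀ (by norm_num)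
      (Nat.mul_le_mul_right _ hYx)) (by positivity)
  obtain ⟨b₀, hb₀, _⟩ := gq_pt hn (g := gj) tj.tri τ (0 : Fin n → Fin (0 + 1))
  have hkd := kN'_deg (g := gj) (n := n) (H := H) tj.deg (tm.deg n) hH
  have hkv := kN'_vars (g := gj) (n := n) (H := H) tj.tri (tm.tri n) hHv
  have hkK := K_le_kN K K₂
  have key : ∀ b', Bt (2 ^ (x₂ * z)) (Et τ) gj Φj n b' →
      |kk gj Φj n (Φm n) H b' - kk gj Φj n (Φm n) H b₀| ≤
        2 ^ ((D' * x₂ + 1) * z) * (2 ^ (Y * z) * δ) := by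
    intro b' hb'
    have h1 := dil_sub (F := kN' gj Φj n (Φm n) H) (G := MvPolynomial.C (kk gj Φj n (Φm n) H b₀)) hd' hz'
      tj.tri (fun l => (tj.deg l).trans hkK) le_rfl hkv (AdxRow.vars_C_le _) hkd (by
        rw [totalDegree_C]
        exact Nat.zero_le _) (by positivity : (0 : ℝ) ≤ 2 ^ (Y * z) * δ) le_rfl (by
        intro b'' hb''
        rw [eval_kN', eval_C]
        exact h.kk b'' b₀ hb'' hb₀) hb'
    rw [eval_kN', eval_C, ← hD'] at h1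
    exact h1
  have k1 := key b b2
  have k2 := key _ b3
  have h5 : (0 : ℝ) < 2 ^ gj n := by positivity
  have h6 : (0 : ℝ) < 2 ^ gm n := by positivity
  have e1 : eval b (Ψm n) - hv gj Φj n H b (pps p τ) = (eval b (Ψm n) - eval b (Φm n)) +
      (kk gj Φj n (Φm n) H b - kk gj Φj n (Φm n) H (pps p τ)) / 2 ^ gj n +
        (eval (pps p τ) (Φm n) - pps p τ n) := by
    unfold hv kk
    field_simp
    ring
  have k3 : |kk gj Φj n (Φm n) H b - kk gj Φj n (Φm n) H (pps p τ)| ≤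
      2 * (2 ^ ((D' * x₂ + 1) * z) * (2 ^ (Y * z) * δ)) := by
    rw [abs_le] at k1 k2 ⊢
    constructor <;> linarith [k1.1, k1.2, k2.1, k2.2]
  have k4 : |eval (pps p τ) (Φm n) - pps p τ n| ≤ 2 ^ (Y * z) * (1 / 2 ^ gm n) := by
    rw [abs_sub_comm]
    exact h.own
  have k5 : |(kk gj Φj n (Φm n) H b - kk gj Φj n (Φm n) H (pps p τ)) / 2 ^ gj n| ≤
      2 * (2 ^ ((D' * x₂ + 1) * z) * (2 ^ (Y * z) * δ)) / 2 ^ gj n := by
    rw [abs_div, abs_of_pos h5]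
    exact div_le_div_of_nonneg_right k3 h5.le
  rw [e1]
  refine (abs_add_le _ _).trans ((add_le_add ((abs_add_le _ _).trans (add_le_add f1 k5)) k4).trans
    ?_)
  have hz1 : (2 : ℝ) ≤ 2 ^ z := by linarith
  have o1 : (1 : ℝ) ≤ 2 ^ (y * z) := one_le_pow₀ (by norm_num)
  have o2 : (1 : ℝ) ≤ 2 ^ ((D' * x₂ + 1) * z) := one_le_pow₀ (by norm_num)
  have o3 : (1 : ℝ) ≤ 2 ^ (Y * z) := one_le_pow₀ (by norm_num)
  have e2 : (2 : ℝ) ^ ((y + (D' * x₂ + 1) + Y + 1) * z) =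
      2 ^ (y * z) * 2 ^ ((D' * x₂ + 1) * z) * 2 ^ (Y * z) * 2 ^ z := by
    rw [← pow_add, ← pow_add, ← pow_add]
    congr 1
    ring
  rw [e2]
  obtain ⟨a1, ha1⟩ : ∃ a1 : ℝ, a1 = 2 ^ (y * z) := ⟨_, rfl⟩
  obtain ⟨a2, ha2⟩ : ∃ a2 : ℝ, a2 = 2 ^ ((D' * x₂ + 1) * z) := ⟨_, rfl⟩
  obtain ⟨a3, ha3⟩ : ∃ a3 : ℝ, a3 = 2 ^ (Y * z) := ⟨_, rfl⟩
  obtain ⟨a4, ha4⟩ : ∃ a4 : ℝ, a4 = 2 ^ z := ⟨_, rfl⟩
  rw [← ha1] at o1 ⊢
  rw [← ha2] at o2 ⊢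
  rw [← ha3] at o3 ⊢
  rw [← ha4] at hz1 ⊢
  have q1 : 0 ≤ a1 := by linarith
  have q2 : 0 ≤ a2 := by linarith
  have q3 : 0 ≤ a3 := by linarith
  have q4 : 0 ≤ a4 := by linarith
  have w1 : a1 + a3 ≤ a1 * a2 * a3 * a4 := by
    have t0 := mul_nonneg (sub_nonneg.2 o1) (sub_nonneg.2 o3)
    have t0' : 1 * 1 ≤ a1 * a3 := mul_le_mul o1 o3 zero_le_one q1
    have t1 : a1 + a3 ≤ 2 * (a1 * a3) := by linarith
    have t2 : 2 * (a1 * a3) ≤ a4 * (a1 * a3) :=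
      mul_le_mul_of_nonneg_right hz1 (mul_nonneg q1 q3)
    have t3 : a4 * (a1 * a3) * 1 ≤ a4 * (a1 * a3) * a2 :=
      mul_le_mul_of_nonneg_left o2 (mul_nonneg q4 (mul_nonneg q1 q3))
    have t4 : a4 * (a1 * a3) * a2 = a1 * a2 * a3 * a4 := by ring
    linarith
  have w2 : 2 * (a2 * a3) ≤ a1 * a2 * a3 * a4 := by
    have t2 : 2 * (a2 * a3) ≤ a4 * (a2 * a3) :=
      mul_le_mul_of_nonneg_right hz1 (mul_nonneg q2 q3)
    have t3 : a4 * (a2 * a3) * 1 ≤ a4 * (a2 * a3) * a1 :=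
      mul_le_mul_of_nonneg_left o1 (mul_nonneg q4 (mul_nonneg q2 q3))
    have t4 : a4 * (a2 * a3) * a1 = a1 * a2 * a3 * a4 := by ring
    linarith
  have e3 : a1 / 2 ^ gm n + 2 * (a2 * (a3 * δ)) / 2 ^ gj n + a3 * (1 / 2 ^ gm n) =
      (a1 + a3) * (1 / 2 ^ gm n) + 2 * (a2 * a3) * (δ / 2 ^ gj n) := by ring
  rw [e3, mul_add]
  exact add_le_add (mul_le_mul_of_nonneg_right w1 (by positivity))
    (mul_le_mul_of_nonneg_right w2 (by positivity))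

/-- **The facts at the exact time**, from the facts on the visible sides. -/
theorem LF_exact (n K B : ℕ) (hn : 1 ≤ n) : ∃ B' y : ℕ, B ≤ B' ∧ ∀ (C : ℝ) (z : ℕ) (t : ℝ)
    (gk gj gm : ℕ → ℕ) (Ψk Φk Ψj Φj Ψm Φm : ℕ → PN) (H : PN) (p : ℕ → Polynomial ℝ) (ε δ : ℝ),
    1 ≤ C → DilP n K C → 2 * C ≤ 2 ^ z → Tr K Ψk → Tr K Φk → Tr K Ψj → Tr K Φj → Tr K Ψm →
    Tr K Φm → (∀ l, 1 ≤ l → l < n → gj l ≤ gk l + B * z) →
    (∀ l, 1 ≤ l → l < n → gm l ≤ gj l + B * z) → Nr 0 z (Et t) gk gk Ψk Φk n →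
    Nr 0 z (Et t) gj gj Ψj Φj n → Nr 0 z (Et t) gm gm Ψm Φm (n + 1) →
    Nr B z (Et t) gk gj Ψk Ψj n → Nr B z (Et t) gj gm Ψj Ψm n →
    (∀ l, 1 ≤ l → l < n → |pps p t l - eval (pps p t) (Φj l)| ≤ 1 / 2 ^ gj l) →
    |pps p t n - eval (pps p t) (Φm n)| ≤ 1 / 2 ^ gm n →
    (∀ b b', Bt 1 (Et t) gj Φj n b → Bt 1 (Et t) gj Φj n b' →
      |kk gj Φj n (Ψm n) H b - kk gj Φj n (Ψm n) H b'| ≤ ε) →
    ε + 2 * (2 ^ gj n * (2 ^ (y * z) / 2 ^ gm n)) ≤ δ →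
    LF n B' z t gk gj gm Φk Φj Φm H p δ 1 := by
  obtain ⟨B₁, hB₁⟩ := conv n K B
  obtain ⟨y, hy⟩ := far n K (B + B₁) 0
  refine ⟨B + B₁, y, Nat.le_add_right _ _, ?_⟩
  intro C z t gk gj gm Ψk Φk Ψj Φj Ψm Φm H p ε δ hC hd hz tk tk' tj tj' tm tm' s1 s2 n1 n2 n3 m1 m2
    p1 p2 ho hδ
  have c1 := hB₁ C z (Et t) gk gj Ψk Φk Ψj Φj hC hd hz tk tk' tj tj' s1 n1 n2 m1
  have c2 := hB₁ C z (Et t) gj gm Ψj Φj Ψm Φm hC hd hz tj tj' tm tm' s2 n2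
    (n3.mono le_rfl (fun _ h => h) (Nat.le_succ n)) m2
  have c1' := c1.mono (B' := B + B₁) (Nat.le_add_left _ _) (fun _ h => h) (le_refl n)
  have c2' := c2.mono (B' := B + B₁) (Nat.le_add_left _ _) (fun _ h => h) (le_refl n)
  have hBY : B * z ≤ (B + B₁) * z := Nat.mul_le_mul_right _ (Nat.le_add_right _ _)
  refine ⟨?_, ?_, ?_, ?_, ?_⟩
  · intro l l1 l2 b hb
    rw [one_mul]
    exact c1' l l1 l2 b hb
  · intro l l1 l2 b hb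
    rw [one_mul]
    exact c2' l l1 l2 b hb
  · intro l l1 l2
    rw [one_mul]
    exact p1 l l1 l2
  · rw [one_mul]
    exact p2
  · intro b b' hb hb'
    rw [one_mul]
    have f : ∀ b, Bt 1 (Et t) gj Φj n b →
        |kk gj Φj n (Ψm n) H b - kk gj Φj n (Φm n) H b| ≤ 2 ^ gj n * (2 ^ (y * z) / 2 ^ gm n) := by
      intro b hb
      have h1 := hy C z (Et t) gj gm Φj Φm Ψm hC hd hz tj' tm' tm
        (fun l l1 l2 => (s2 l l1 l2).trans (Nat.add_le_add_left hBY _)) c2' n3 hn b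
        (by rw [Nat.zero_mul, pow_zero]; exact hb)
      have e : kk gj Φj n (Ψm n) H b - kk gj Φj n (Φm n) H b =
          2 ^ gj n * (eval b (Ψm n) - eval b (Φm n)) := by
        unfold kk
        ring
      rw [e, abs_mul, abs_of_pos (by positivity : (0 : ℝ) < 2 ^ gj n)]
      exact mul_le_mul_of_nonneg_left h1 (by positivity)
    have f1 := f b hb
    have f2 := f b' hb'
    have f3 := ho b b' hb hb'
    rw [abs_le] at f1 f2 f3 ⊢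
    constructor <;> linarith [f1.1, f1.2, f2.1, f2.2, f3.1, f3.2]

end Pool.STAT.Glu
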