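import Pool.Agent.H63.STAT.Clo
import Pool.Agent.H20.STAT.Rmz
import Pool.Agent.H19.STAT.Sys2
import Pool.Agent.H40.FR.Grid
import Pool.Agent.H95.GN.Lag

/-!
# Tools for the gluing of germs

`grid_bound`: a polynomial in `ζ 1, …, ζ (n - 1)` at a fixed time `ζ 0 = t` is bounded by its
values on a grid. `ext3`: from an interval to its threefold dilation. `dilB`: from a natural box to
its dilations, the time being in an interval.
-/

set_option autoImplicit false

namespace Pool.STAT.Glu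

open Finset MvPolynomial
open Pool.Agent.H49.Ent Pool.Agent.H32.Dense Pool.STK Pool.KA
open Pool.STAT.CLO

/-! ### Grids -/

/-- The coefficients from the values on the grid. -/
theorem coef_grid (n D : ℕ) : ∃ C : ℝ, 0 ≤ C ∧ ∀ (P : MvPolynomial (Fin n) ℝ) (M : ℝ),
    P.totalDegree ≤ D →
    (∀ a : Fin n → Fin (D + 1), |eval (fun i => ((a i : ℕ) : ℝ) / (D + 1)) P| ≤ M) →
    ∀ α, |coeff α P| ≤ C * M := by
  classical
  set g : (Fin n → Fin (D + 1)) → Fin n → ℝ := fun a i => ((a i : ℕ) : ℝ) / (D + 1) with hg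
  have hD : (0 : ℝ) < D + 1 := by positivity
  let V := restrictTotalDegree (Fin n) ℝ D
  let ev : V →ₗ[ℝ] ((Fin n → Fin (D + 1)) → ℝ) :=
    { toFun := fun P a => eval (g a) (P : MvPolynomial (Fin n) ℝ)
      map_add' := by intro P Q; funext a; simp
      map_smul' := by intro c P; funext a; simp [smul_eval] }
  have hinj : LinearMap.ker ev = ⊥ := by
    rw [LinearMap.ker_eq_bot']
    rintro ⟨P, hP⟩ h0
    rw [mem_restrictTotalDegree] at hP
    have hz : P = 0 := by
      refine eq_zero_of_eval_zero_at_prod_finset P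
        (fun _ => Finset.image (fun b : Fin (D + 1) => ((b : ℕ) : ℝ) / (D + 1)) Finset.univ) ?_ ?_
      · intro i
        rw [Finset.card_image_of_injective]
        · rw [Finset.card_univ, Fintype.card_fin]
          exact Nat.lt_succ_of_le ((degreeOf_le_totalDegree P i).trans hP)
        · intro b b' hb
          have h1 : ((b : ℕ) : ℝ) / (D + 1) = ((b' : ℕ) : ℝ) / (D + 1) := hb
          have h2 : ((b : ℕ) : ℝ) = ((b' : ℕ) : ℝ) := by
            field_simp at h1
            exact h1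
          exact Fin.ext (Nat.cast_injective h2)
      · intro x hx
        have hx' : ∀ i, ∃ b : Fin (D + 1), ((b : ℕ) : ℝ) / (D + 1) = x i := by
          intro i
          obtain ⟨b, _, hb⟩ := Finset.mem_image.1 (hx i)
          exact ⟨b, hb⟩
        choose b hb using hx'
        have h1 : g b = x := funext hb
        have h2 := congrFun h0 b
        rw [← h1]
        exact h2
    exact Subtype.ext hz
  obtain ⟨L, hL⟩ := ev.exists_leftInverse_of_injective hinj
  let Lg : (Fin n → Fin (D + 1)) → MvPolynomial (Fin n) ℝ := fun a => (L (Pi.single a 1) : V)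
  refine ⟨∑ a, ∑ β ∈ (Lg a).support, |coeff β (Lg a)|,
    Finset.sum_nonneg fun a _ => Finset.sum_nonneg fun β _ => abs_nonneg _, ?_⟩
  intro P M hP hM α
  have hM0 : 0 ≤ M := le_trans (abs_nonneg _) (hM 0)
  have hPV : P ∈ V := by
    show P ∈ restrictTotalDegree (Fin n) ℝ D
    rw [mem_restrictTotalDegree]; exact hP
  have h1 : P = ∑ a, eval (g a) P • Lg a := by
    have h2 : L (ev ⟨P, hPV⟩) = ⟨P, hPV⟩ := by
      have := LinearMap.congr_fun hL ⟨P, hPV⟩
      exact this
    have h3 : ev ⟨P, hPV⟩ = ∑ a, eval (g a) P • (Pi.single a (1 : ℝ) : (Fin n → Fin (D + 1)) → ℝ) := by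
      have h4 : ∀ v : (Fin n → Fin (D + 1)) → ℝ,
          v = ∑ a, v a • (Pi.single a (1 : ℝ) : (Fin n → Fin (D + 1)) → ℝ) := by
        intro v
        funext b
        rw [Finset.sum_apply]
        simp [Pi.single_apply]
      exact h4 _
    rw [h3, map_sum] at h2
    have h5 := congrArg (fun v : V => (v : MvPolynomial (Fin n) ℝ)) h2
    simp only [map_smul] at h5
    rw [Submodule.coe_sum] at h5
    exact h5.symm
  have h2 : coeff α P = ∑ a, eval (g a) P * coeff α (Lg a) := by
    conv_lhs => rw [h1]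
    rw [coeff_sum]
    refine Finset.sum_congr rfl fun a _ => ?_
    rw [coeff_smul, smul_eq_mul]
  rw [h2, Finset.sum_mul]
  refine le_trans (Finset.abs_sum_le_sum_abs _ _) (Finset.sum_le_sum fun a _ => ?_)
  rw [abs_mul, mul_comm]
  refine mul_le_mul ?_ ?_ (abs_nonneg _) (Finset.sum_nonneg fun β _ => abs_nonneg _)
  · by_cases hα : α ∈ (Lg a).support
    · exact Finset.single_le_sum (f := fun β => |coeff β (Lg a)|) (fun β _ => abs_nonneg _) hα
    · rw [notMem_support_iff.1 hα, abs_zero]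
      exact Finset.sum_nonneg fun β _ => abs_nonneg _
  · exact hM a

/-- The points of the grid. -/
noncomputable def gpt {n D : ℕ} (t : ℝ) (a : Fin n → Fin (D + 1)) (l : ℕ) : ℝ :=
  if h : l < n then (if l = 0 then t else ((a ⟨l, h⟩ : ℕ) : ℝ) / (D + 1)) else 0

theorem gpt_le {n D : ℕ} (t : ℝ) (a : Fin n → Fin (D + 1)) {l : ℕ} (hl : 1 ≤ l) :
    |gpt t a l| ≤ 1 := by
  unfold gpt
  have hD : (0 : ℝ) < D + 1 := by positivity
  split_ifs with h1 h2
  · omega
  · rw [abs_of_nonneg (by positivity), div_le_one hD]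
    have := (a ⟨l, h1⟩).2
    have h3 : ((a ⟨l, h1⟩ : ℕ) : ℝ) < D + 1 := by exact_mod_cast this
    exact h3.le
  · rw [abs_zero]
    exact zero_le_one

/-- **Bounds from the grid**, at the time `t`. -/
theorem grid_bound (n D : ℕ) : ∃ C : ℝ, 1 ≤ C ∧ ∀ (F : PN) (t S : ℝ), F.vars ⊆ range n →
    F.totalDegree ≤ D → (∀ a : Fin n → Fin (D + 1), |eval (gpt t a) F| ≤ S) →
    ∀ ρ : ℝ, 1 ≤ ρ → ∀ y : ℕ → ℝ, y 0 = t → (∀ l, 1 ≤ l → l < n → |y l| ≤ ρ) →
      |eval y F| ≤ C * S * ρ ^ (n * D) := by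
  classical
  obtain ⟨C, hC0, hC⟩ := coef_grid n D
  refine ⟨(Pool.Agent.H36.KBX.bx n D).card * C + 1, by
    have : (0 : ℝ) ≤ (Pool.Agent.H36.KBX.bx n D).card * C := by positivity
    linarith, ?_⟩
  intro F t S hv hD hS ρ hρ y hy0 hy
  have hS0 : 0 ≤ S := (abs_nonneg _).trans (hS fun _ => 0)
  obtain ⟨P, hP⟩ := exists_rename_eq_of_vars_subset_range F (fun i : Fin n => (i : ℕ))
    Fin.val_injective (by
      intro i hi
      have h1 := mem_range.1 (hv (Finset.mem_coe.1 hi))
      exact ⟨⟨i, h1⟩, rfl⟩)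
  have hPd : P.totalDegree ≤ D := by
    refine Finset.sup_le fun k hk => ?_
    have h1 := le_totalDegree (p := F) (s := Finsupp.mapDomain (fun i : Fin n => (i : ℕ)) k) (by
      rw [← hP, support_rename_of_injective Fin.val_injective]
      exact Finset.mem_image_of_mem _ hk)
    have h2 : (Finsupp.mapDomain (fun i : Fin n => (i : ℕ)) k).sum (fun _ e => e) =
        k.sum fun _ e => e :=
      Finsupp.sum_mapDomain_index (fun _ => rfl) (fun _ _ _ => rfl)
    rw [h2] at h1
    exact h1.trans hD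
  obtain ⟨f, hf⟩ : ∃ f : Fin n → MvPolynomial (Fin n) ℝ,
    f = fun i => if i.val = 0 then MvPolynomial.C t else X i := ⟨_, rfl⟩
  obtain ⟨Q, hQ⟩ : ∃ Q : MvPolynomial (Fin n) ℝ, Q = bind₁ f P := ⟨_, rfl⟩
  have hfd : ∀ i, (f i).totalDegree ≤ 1 := by
    intro i
    rw [hf]
    simp only
    split_ifs
    · rw [totalDegree_C]
      exact zero_le_one
    · rw [totalDegree_X]
  have hQd : Q.totalDegree ≤ D := by
    rw [hQ]
    have h1 : bind₁ f P = ∑ α ∈ P.support, bind₁ f (monomial α (coeff α P)) := by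
      conv_lhs => rw [P.as_sum]
      rw [map_sum]
    rw [h1]
    refine totalDegree_finsetSum_le fun α hα => ?_
    rw [bind₁_monomial]
    refine (totalDegree_mul _ _).trans ?_
    rw [totalDegree_C, zero_add]
    refine (totalDegree_finsetProd _ _).trans ?_
    have h2 : ∀ i ∈ α.support, (f i ^ α i).totalDegree ≤ α i := by
      intro i _
      refine (totalDegree_pow _ _).trans ?_
      calc α i * (f i).totalDegree ≤ α i * 1 := Nat.mul_le_mul_left _ (hfd i)
        _ = α i := mul_one _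
    refine (Finset.sum_le_sum h2).trans ?_
    exact (le_totalDegree hα).trans hPd
  have hev : ∀ y : Fin n → ℝ, eval y Q =
      eval (fun l : ℕ => if h : l < n then (if l = 0 then t else y ⟨l, h⟩) else 0) F := by
    intro y
    have h1 : eval y Q = eval (fun i => eval y (f i)) P := by
      rw [hQ]
      exact eval₂Hom_bind₁ (RingHom.id ℝ) y f P
    rw [h1, ← hP, eval_rename]
    congr 2
    funext i
    rw [hf]
    simp only [Function.comp_apply, i.2, dif_pos, Fin.eta]
    split_ifs with h0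
    · exact eval_C _
    · exact eval_X _
  have hb := hC Q S hQd fun a => by
    rw [hev]
    exact hS a
  have h2 : eval y F = eval (fun i : Fin n => if i.val = 0 then 0 else y i) Q := by
    rw [hev]
    refine Pool.SYS35.eval_congr hv fun l hl => ?_
    rw [dif_pos hl]
    split_ifs with h0
    · rw [h0, hy0]
    · rfl
  rw [h2]
  refine (Pool.Agent.H36.KBX.eval_bound Q hQd (C * S) ρ hρ hb _ fun i => ?_).trans ?_
  · split_ifs with h0
    · rw [abs_zero]
      linarith
    · exact hy i (by omega) i.2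
  · rw [← mul_assoc, ← mul_assoc]
    refine mul_le_mul_of_nonneg_right ?_ (by positivity)
    nlinarith

/-! ### Time -/

/-- From an interval to its threefold dilation. -/
theorem ext3 (D : ℕ) : ∃ C : ℝ, 1 ≤ C ∧ ∀ (p : Polynomial ℝ) (a ℓ S : ℝ), p.natDegree ≤ D →
    0 < ℓ → (∀ t ∈ Set.Icc a (a + ℓ), |p.eval t| ≤ S) →
    ∀ t, a - ℓ ≤ t → t ≤ a + 2 * ℓ → |p.eval t| ≤ C * S := by
  classical
  obtain ⟨C, hC, h⟩ := Pool.Agent.H40.FR.unit_coef D
  refine ⟨(D + 1) * (C * 2 ^ D), ?_, ?_⟩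
  · have h1 : (1 : ℝ) ≤ D + 1 := by
      have : (0 : ℝ) ≤ D := Nat.cast_nonneg D
      linarith
    have h2 : (1 : ℝ) ≤ 2 ^ D := one_le_pow₀ (by norm_num)
    have h3 : 1 ≤ C * 2 ^ D := by nlinarith
    nlinarith
  intro p a ℓ S hp hℓ hS t h1 h2
  have hS0 : 0 ≤ S := (abs_nonneg _).trans (hS a ⟨le_rfl, by linarith⟩)
  set q : Polynomial ℝ := p.comp (Polynomial.C a + Polynomial.C ℓ * Polynomial.X) with hq
  have hqe : ∀ x, q.eval x = p.eval (a + ℓ * x) := by
    intro x
    rw [hq, Polynomial.eval_comp]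
    simp
  have hqd : q.natDegree ≤ D := by
    rw [hq]
    refine Polynomial.natDegree_comp_le.trans ?_
    have h3 : (Polynomial.C a + Polynomial.C ℓ * Polynomial.X : Polynomial ℝ).natDegree ≤ 1 := by
      refine (Polynomial.natDegree_add_le _ _).trans (max_le ?_ ?_)
      · rw [Polynomial.natDegree_C]
        exact Nat.zero_le _
      · exact (Polynomial.natDegree_C_mul_le _ _).trans Polynomial.natDegree_X_le
    calc p.natDegree * _ ≤ p.natDegree * 1 := Nat.mul_le_mul_left _ h3
      _ ≤ D := by rw [mul_one]; exact hp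
  have hc := h q S hqd fun x hx => by
    rw [hqe]
    refine hS _ ⟨?_, ?_⟩
    · have := mul_nonneg hℓ.le hx.1
      linarith
    · have := mul_le_mul_of_nonneg_left hx.2 hℓ.le
      linarith
  set x := (t - a) / ℓ with hx
  have hxe : a + ℓ * x = t := by
    rw [hx]
    field_simp
    ring
  have hxa : |x| ≤ 2 := by
    rw [abs_le, hx]
    constructor
    · rw [le_div_iff₀ hℓ]
      linarith
    · rw [div_le_iff₀ hℓ]
      linarith
  rw [← hxe, ← hqe, Polynomial.eval_eq_sum_range' (Nat.lt_succ_of_le hqd)]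
  refine (Finset.abs_sum_le_sum_abs _ _).trans ?_
  have h4 : ∀ i ∈ range (D + 1), |q.coeff i * x ^ i| ≤ C * S * 2 ^ D := by
    intro i hi
    rw [abs_mul, abs_pow]
    refine mul_le_mul (hc i) ?_ (by positivity) (by positivity)
    calc |x| ^ i ≤ 2 ^ i := pow_le_pow_left₀ (abs_nonneg _) hxa _
      _ ≤ 2 ^ D := pow_le_pow_right₀ (by norm_num) (Nat.lt_succ_iff.1 (mem_range.1 hi))
  refine (Finset.sum_le_sum h4).trans (le_of_eq ?_)
  rw [Finset.sum_const, card_range, nsmul_eq_mul]
  push_cast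
  ring

/-! ### Natural boxes -/

/-- The dilated natural box of the system `S`; the time satisfies `P`; coordinates before `m`. -/
def Bt (ρ : ℝ) (P : ℝ → Prop) (g : ℕ → ℕ) (S : ℕ → PN) (m : ℕ) (b : ℕ → ℝ) : Prop :=
  P (b 0) ∧ ∀ l, 1 ≤ l → l < m → |b l - eval b (S l)| ≤ ρ / 2 ^ g l

theorem Bt.mono {ρ ρ' : ℝ} {P P' : ℝ → Prop} {g : ℕ → ℕ} {S : ℕ → PN} {m m' : ℕ} {b : ℕ → ℝ}
    (h : Bt ρ P g S m b) (hρ : ρ ≤ ρ') (hP : ∀ t, P t → P' t) (hm : m' ≤ m) :
    Bt ρ' P' g S m' b :=
  ⟨hP _ h.1, fun l h1 h2 => (h.2 l h1 (h2.trans_le hm)).trans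
      (div_le_div_of_nonneg_right hρ (by positivity))⟩

/-- A polynomial at the time `t`. -/
noncomputable def fz (t : ℝ) (F : PN) : PN :=
  bind₁ (fun l : ℕ => if l = 0 then (C t : PN) else X l) F

theorem eval_fz (t : ℝ) (F : PN) (b : ℕ → ℝ) :
    eval b (fz t F) = eval (fun l => if l = 0 then t else b l) F := by
  unfold fz
  rw [Pool.SYS35.eval_bind]
  congr 2
  funext l
  split_ifs
  · rw [eval_C]
  · rw [eval_X]

theorem fz_deg {t : ℝ} {F : PN} {K : ℕ} (h : F.totalDegree ≤ K) : (fz t F).totalDegree ≤ K := by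
  unfold fz
  refine (Dgb.deg_bind (B := 1) fun k _ => ?_).trans (by rw [mul_one]; exact h)
  split_ifs
  · rw [totalDegree_C]
    exact zero_le_one
  · rw [totalDegree_X]

theorem fz_vars {t : ℝ} {F : PN} {m : ℕ} (h : F.vars ⊆ range m) : (fz t F).vars ⊆ range m := by
  unfold fz
  refine AdxRow.vars_bnd h fun k hk => ?_
  split_ifs
  · exact AdxRow.vars_C_le _
  · exact AdxRow.vars_X_le hk

/-- The dilation property of natural boxes, with the constant `C`. -/
def DilP (n K : ℕ) (C : ℝ) : Prop :=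
  ∀ (S : ℕ → PN) (g : ℕ → ℕ) (F : PN) (m : ℕ) (P : ℝ → Prop) (S₀ ρ : ℝ), TriN S →
    (∀ j, (S j).totalDegree ≤ K) → m ≤ n → F.vars ⊆ range m → F.totalDegree ≤ K → 1 ≤ ρ →
    (∀ b : ℕ → ℝ, Bt 1 P g S m b → |eval b F| ≤ S₀) →
    ∀ b : ℕ → ℝ, Bt ρ P g S m b → |eval b F| ≤ C * S₀ * ρ ^ (K * (K + 1) ^ (n + 1))

/-- **Dilation of the natural box**, at each time. -/
theorem dilB (n K : ℕ) : ∃ C : ℝ, 1 ≤ C ∧ DilP n K C := by
  obtain ⟨C, hC, h⟩ := dil n K
  refine ⟨C, hC, ?_⟩
  intro S g F m P S₀ ρ hS hK hmn hv hF hρ hb b hb'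
  have hP := hb'.1
  have e0 : (fun l => if l = 0 then b 0 else b l) = b := by
    funext l
    split_ifs with h0
    · rw [h0]
    · rfl
  have h1 := h (fun l => if l = 0 then (MvPolynomial.C (b 0) : PN) else fz (b 0) (S l)) g
    (fz (b 0) F) m S₀ ρ
    (by
      intro l
      beta_reduce
      split_ifs
      · exact AdxRow.vars_C_le _
      · exact fz_vars (hS l)) (by
      intro l
      split_ifs
      · rw [totalDegree_C]
        exact Nat.zero_le _
      · exact fz_deg (hK l)) hmn (fz_vars hv) (fz_deg hF) hρ (by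
      intro y hy
      rw [eval_fz]
      refine hb _ ⟨?_, fun l h1 h2 => ?_⟩
      · beta_reduce
        rw [if_pos rfl]
        exact hP
      · have h3 := hy l h2
        beta_reduce at h3
        rw [if_neg (by omega), eval_fz] at h3
        beta_reduce
        rw [if_neg (by omega)]
        exact h3) b (by
      intro l hl
      beta_reduce
      by_cases h0 : l = 0
      · rw [if_pos h0, h0, eval_C, sub_self, abs_zero]
        positivity
      · rw [if_neg h0, eval_fz, e0]
        exact hb'.2 l (by omega) hl)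
  rwa [eval_fz, e0] at h1

end Pool.STAT.Glu
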