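import Mathlib

/-!
# Remez inequalities on an interval of integers

A real polynomial of degree at most `d` which is at most `η` at most points of `{0,…,M-1}` is
small everywhere, and so is its coefficient of degree `d` in the natural unit `M ^ (-d)`.
-/

namespace Pool.GDYN

open Finset Polynomial

/-- number of `t < N` with `η < |F t|` -/
noncomputable def cb (N : ℕ) (F : ℕ → ℝ) (η : ℝ) : ℕ :=
  ((range N).filter (fun t => η < |F t|)).card

lemma cb_le (N : ℕ) (F : ℕ → ℝ) (η : ℝ) : cb N F η ≤ N := by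
  unfold cb
  calc _ ≤ (range N).card := card_filter_le _ _
    _ = N := card_range N

lemma cb_mono {M N : ℕ} (h : M ≤ N) (F : ℕ → ℝ) (η : ℝ) : cb M F η ≤ cb N F η := by
  unfold cb
  apply card_le_card
  apply filter_subset_filter
  exact range_subset_range.2 h

lemma cb_anti {N : ℕ} (F : ℕ → ℝ) {η η' : ℝ} (h : η ≤ η') : cb N F η' ≤ cb N F η := by
  unfold cb
  apply card_le_card
  intro t ht
  simp only [mem_filter] at ht ⊢
  exact ⟨ht.1, lt_of_le_of_lt h ht.2⟩

lemma cb_imp {N : ℕ} (F G : ℕ → ℝ) {η η' : ℝ} (h : ∀ t < N, η' < |G t| → η < |F t|) :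
    cb N G η' ≤ cb N F η := by
  unfold cb
  apply card_le_card
  intro t ht
  simp only [mem_filter, mem_range] at ht ⊢
  exact ⟨ht.1, h t ht.1 ht.2⟩

lemma cb_add {N : ℕ} (F G : ℕ → ℝ) {η η' : ℝ} :
    cb N (fun t => F t + G t) (η + η') ≤ cb N F η + cb N G η' := by
  unfold cb
  refine le_trans (card_le_card ?_) (card_union_le _ _)
  intro t ht
  simp only [mem_filter, mem_union, mem_range] at ht ⊢
  by_contra hc
  push Not at hc
  have h1 := hc.1 ht.1
  have h2 := hc.2 ht.1
  have h3 := abs_add_le (F t) (G t)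
  linarith [ht.2]

lemma cb_neg {N : ℕ} (F : ℕ → ℝ) (η : ℝ) : cb N (fun t => - F t) η = cb N F η := by
  unfold cb
  simp only [abs_neg]

lemma cb_sub {N : ℕ} (F G : ℕ → ℝ) {η η' : ℝ} :
    cb N (fun t => F t - G t) (η + η') ≤ cb N F η + cb N G η' := by
  have h := cb_add (N := N) F (fun t => - G t) (η := η) (η' := η')
  rw [cb_neg] at h
  simpa [sub_eq_add_neg] using h

lemma cb_shift {a M N : ℕ} (h : a + M ≤ N) (F : ℕ → ℝ) (η : ℝ) :
    cb M (fun t => F (t + a)) η ≤ cb N F η := by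
  unfold cb
  rw [← card_map (addRightEmbedding a)]
  apply card_le_card
  intro t ht
  simp only [mem_map, mem_filter, mem_range, addRightEmbedding_apply] at ht ⊢
  obtain ⟨s, ⟨hs1, hs2⟩, rfl⟩ := ht
  exact ⟨by omega, hs2⟩

/-- well separated points outside a small set -/
lemma nodes (d M : ℕ) (B : Finset ℕ) (hB : B.card < M / (2 * (d + 1))) :
    ∃ v : ℕ → ℕ, (∀ i ≤ d, v i < M ∧ v i ∉ B) ∧
      ∀ i j, i < j → v i + M / (2 * (d + 1)) ≤ v j := by
  set L := M / (2 * (d + 1)) with hL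
  have hex : ∀ i : ℕ, ∃ t ∈ Ico (2 * i * L) ((2 * i + 1) * L), t ∉ B := by
    intro i
    by_contra hc
    push Not at hc
    have h1 : Ico (2 * i * L) ((2 * i + 1) * L) ⊆ B := fun t ht => hc t ht
    have h2 := card_le_card h1
    rw [Nat.card_Ico] at h2
    have h3 : (2 * i + 1) * L - 2 * i * L = L := by
      rw [add_mul, one_mul]; omega
    omega
  choose v hv1 hv2 using hex
  have hML : 2 * (d + 1) * L ≤ M := by
    rw [hL]; exact Nat.mul_div_le M (2 * (d + 1))
  refine ⟨v, ?_, ?_⟩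
  · intro i hi
    refine ⟨?_, hv2 i⟩
    have h1 := (mem_Ico.1 (hv1 i)).2
    have h2 : (2 * i + 1) * L ≤ 2 * (d + 1) * L := by
      apply Nat.mul_le_mul_right; omega
    omega
  · intro i j hij
    have h1 := (mem_Ico.1 (hv1 i)).2
    have h2 := (mem_Ico.1 (hv1 j)).1
    have h3 : (2 * i + 2) * L ≤ 2 * j * L := by
      apply Nat.mul_le_mul_right; omega
    have h4 : (2 * i + 2) * L = (2 * i + 1) * L + L := by ring
    omega

/-- Lagrange interpolation bounds from well separated nodes. -/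
lemma lag_bounds (d M : ℕ) (Q : ℝ[X]) (hQ : Q.natDegree ≤ d) (η : ℝ) (hη : 0 ≤ η)
    (hB : cb M (fun t => Q.eval (t : ℝ)) η < M / (2 * (d + 1))) :
    (∀ x : ℝ, |Q.eval x| ≤
      (d + 1) * ((|x| + M) / ((M / (2 * (d + 1)) : ℕ) : ℝ)) ^ d * η) ∧
    |Q.coeff d| ≤ (d + 1) * η / (((M / (2 * (d + 1)) : ℕ) : ℝ)) ^ d := by
  unfold cb at hB
  obtain ⟨v, hv1, hv2⟩ := nodes d M _ hB
  set L : ℕ := M / (2 * (d + 1)) with hL
  have hLpos : 0 < L := lt_of_le_of_lt (Nat.zero_le _) hB
  have hLR : (0 : ℝ) < (L : ℝ) := by exact_mod_cast hLpos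
  let w : ℕ → ℝ := fun i => (v i : ℝ)
  have hsep : ∀ i j, i ≠ j → (L : ℝ) ≤ |w i - w j| := by
    intro i j hij
    rcases lt_or_gt_of_ne hij with h | h
    · have := hv2 i j h
      have h2 : (v i : ℝ) + L ≤ v j := by exact_mod_cast this
      rw [abs_sub_comm]
      refine le_trans ?_ (le_abs_self _)
      show (L : ℝ) ≤ (v j : ℝ) - (v i : ℝ)
      linarith
    · have := hv2 j i h
      have h2 : (v j : ℝ) + L ≤ v i := by exact_mod_cast this
      refine le_trans ?_ (le_abs_self _)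
      show (L : ℝ) ≤ (v i : ℝ) - (v j : ℝ)
      linarith
  have hinj : Set.InjOn w (range (d + 1) : Finset ℕ) := by
    intro i _ j _ hij
    by_contra hne
    have := hsep i j hne
    rw [hij, sub_self, abs_zero] at this
    linarith
  have hdeg : Q.degree < ((range (d + 1)).card : WithBot ℕ) := by
    rw [card_range]
    calc Q.degree ≤ (Q.natDegree : WithBot ℕ) := degree_le_natDegree
      _ ≤ (d : WithBot ℕ) := by exact_mod_cast hQ
      _ < ((d + 1 : ℕ) : WithBot ℕ) := by exact_mod_cast Nat.lt_succ_self d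
  have hval : ∀ i ∈ range (d + 1), |Q.eval (w i)| ≤ η := by
    intro i hi
    have hi' : i ≤ d := by rw [mem_range] at hi; omega
    have := (hv1 i hi').2
    simp only [mem_filter, mem_range, not_and, not_lt] at this
    exact this (hv1 i hi').1
  have hwM : ∀ i ∈ range (d + 1), |w i| ≤ M := by
    intro i hi
    have hi' : i ≤ d := by rw [mem_range] at hi; omega
    have h1 := (hv1 i hi').1
    show |(v i : ℝ)| ≤ M
    rw [abs_of_nonneg (Nat.cast_nonneg _)]
    exact_mod_cast h1.le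
  constructor
  · intro x
    have hx : (0 : ℝ) ≤ |x| + M := by positivity
    conv_lhs => rw [Lagrange.eq_interpolate hinj hdeg]
    rw [Lagrange.interpolate_apply, eval_finsetSum]
    refine le_trans (abs_sum_le_sum_abs _ _) ?_
    have hterm : ∀ i ∈ range (d + 1),
        |(C (Q.eval (w i)) * Lagrange.basis (range (d + 1)) w i).eval x| ≤
          η * ((|x| + M) / (L : ℝ)) ^ d := by
      intro i hi
      rw [eval_mul, eval_C, abs_mul]
      apply mul_le_mul (hval i hi) _ (abs_nonneg _) hη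
      unfold Lagrange.basis
      rw [eval_prod, abs_prod]
      have hc : ((range (d + 1)).erase i).card = d := by
        rw [card_erase_of_mem hi, card_range]; omega
      calc ∏ j ∈ (range (d + 1)).erase i, |(Lagrange.basisDivisor (w i) (w j)).eval x|
          ≤ ∏ j ∈ (range (d + 1)).erase i, ((|x| + M) / (L : ℝ)) := by
            apply prod_le_prod
            · intro j _; exact abs_nonneg _
            · intro j hj
              rw [mem_erase] at hj
              unfold Lagrange.basisDivisor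
              rw [eval_mul, eval_C, eval_sub, eval_X, eval_C, abs_mul, abs_inv, mul_comm,
                ← div_eq_mul_inv]
              apply div_le_div₀ hx _ hLR (hsep i j (Ne.symm hj.1))
              calc |x - w j| ≤ |x| + |w j| := by
                    rw [sub_eq_add_neg]
                    refine le_trans (abs_add_le _ _) ?_
                    rw [abs_neg]
                _ ≤ |x| + M := by linarith [hwM j hj.2]
        _ = ((|x| + M) / (L : ℝ)) ^ d := by rw [prod_const, hc]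
    refine le_trans (sum_le_sum hterm) ?_
    rw [sum_const, card_range, nsmul_eq_mul]
    push_cast
    apply le_of_eq
    ring
  · have hcs := Lagrange.coeff_eq_sum hinj hdeg
    rw [card_range, Nat.add_sub_cancel] at hcs
    rw [hcs]
    refine le_trans (abs_sum_le_sum_abs _ _) ?_
    have hterm : ∀ i ∈ range (d + 1),
        |Q.eval (w i) / ∏ j ∈ (range (d + 1)).erase i, (w i - w j)| ≤ η / (L : ℝ) ^ d := by
      intro i hi
      rw [abs_div, abs_prod]
      have hc : ((range (d + 1)).erase i).card = d := by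
        rw [card_erase_of_mem hi, card_range]; omega
      apply div_le_div₀ hη (hval i hi) (pow_pos hLR d)
      calc (L : ℝ) ^ d = ∏ j ∈ (range (d + 1)).erase i, (L : ℝ) := by rw [prod_const, hc]
        _ ≤ _ := by
          apply prod_le_prod
          · intro j _; exact hLR.le
          · intro j hj
            rw [mem_erase] at hj
            exact hsep i j (Ne.symm hj.1)
    refine le_trans (sum_le_sum hterm) ?_
    rw [sum_const, card_range, nsmul_eq_mul]
    push_cast
    apply le_of_eq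
    ring

lemma div_lower (d M : ℕ) (hM : 2 * (d + 1) ≤ M) :
    (M : ℝ) ≤ 4 * (d + 1) * ((M / (2 * (d + 1)) : ℕ) : ℝ) := by
  have h1 : M < 2 * (d + 1) * (M / (2 * (d + 1))) + 2 * (d + 1) := by
    have := Nat.lt_mul_div_succ M (show 0 < 2 * (d + 1) by omega)
    rw [Nat.mul_add, mul_one] at this
    exact this
  have h2 : 1 ≤ M / (2 * (d + 1)) := by
    rw [Nat.one_le_div_iff (by omega)]; exact hM
  have h3 : (M : ℝ) ≤ 2 * (d + 1) * ((M / (2 * (d + 1)) : ℕ) : ℝ) + 2 * (d + 1) := by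
    exact_mod_cast h1.le
  have h4 : (1 : ℝ) ≤ ((M / (2 * (d + 1)) : ℕ) : ℝ) := by exact_mod_cast h2
  have h5 : (0 : ℝ) ≤ (d : ℝ) := Nat.cast_nonneg d
  nlinarith

/-- Remez: sup bound on `[-R M, R M]`. -/
lemma remez_sup (d M : ℕ) (hM : 2 * (d + 1) ≤ M) (Q : ℝ[X]) (hQ : Q.natDegree ≤ d) (η : ℝ)
    (hη : 0 ≤ η) (hB : cb M (fun t => Q.eval (t : ℝ)) η < M / (2 * (d + 1)))
    (R : ℝ) (hR : 0 ≤ R) (x : ℝ) (hx : |x| ≤ R * M) :
    |Q.eval x| ≤ (d + 1) * (4 * (d + 1) * (R + 1)) ^ d * η := by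
  refine le_trans ((lag_bounds d M Q hQ η hη hB).1 x) ?_
  have hL := div_lower d M hM
  have hLpos : (0 : ℝ) < ((M / (2 * (d + 1)) : ℕ) : ℝ) := by
    have : 0 < M / (2 * (d + 1)) := lt_of_le_of_lt (Nat.zero_le _) hB
    exact_mod_cast this
  have hMnn : (0 : ℝ) ≤ (M : ℝ) := Nat.cast_nonneg M
  have hd : (0 : ℝ) ≤ (d : ℝ) := Nat.cast_nonneg d
  apply mul_le_mul_of_nonneg_right _ hη
  apply mul_le_mul_of_nonneg_left _ (by positivity)
  apply pow_le_pow_left₀ (by positivity)
  rw [div_le_iff₀ hLpos]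
  calc |x| + M ≤ (R + 1) * M := by linarith
    _ ≤ (R + 1) * (4 * (d + 1) * ((M / (2 * (d + 1)) : ℕ) : ℝ)) :=
        mul_le_mul_of_nonneg_left hL (by linarith)
    _ = _ := by ring

/-- Remez for the coefficient of degree `d`. -/
lemma remez_coeff (d M : ℕ) (hM : 2 * (d + 1) ≤ M) (Q : ℝ[X]) (hQ : Q.natDegree ≤ d) (η : ℝ)
    (hη : 0 ≤ η) (hB : cb M (fun t => Q.eval (t : ℝ)) η < M / (2 * (d + 1))) :
    |Q.coeff d| * (M : ℝ) ^ d ≤ (d + 1) * (4 * (d + 1)) ^ d * η := by
  have h1 := (lag_bounds d M Q hQ η hη hB).2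
  have hL := div_lower d M hM
  have hLpos : (0 : ℝ) < ((M / (2 * (d + 1)) : ℕ) : ℝ) := by
    have : 0 < M / (2 * (d + 1)) := lt_of_le_of_lt (Nat.zero_le _) hB
    exact_mod_cast this
  have hMnn : (0 : ℝ) ≤ (M : ℝ) := Nat.cast_nonneg M
  have hd : (0 : ℝ) ≤ (d : ℝ) := Nat.cast_nonneg d
  have h2 : (M : ℝ) ^ d ≤ (4 * (d + 1)) ^ d * ((M / (2 * (d + 1)) : ℕ) : ℝ) ^ d := by
    rw [← mul_pow]
    exact pow_le_pow_left₀ hMnn hL d
  calc |Q.coeff d| * (M : ℝ) ^ d
      ≤ ((d + 1) * η / (((M / (2 * (d + 1)) : ℕ) : ℝ)) ^ d) *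
          ((4 * (d + 1)) ^ d * ((M / (2 * (d + 1)) : ℕ) : ℝ) ^ d) :=
        mul_le_mul h1 h2 (by positivity) (by positivity)
    _ = _ := by
      field_simp

end Pool.GDYN
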